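import Pool.Agent.Lib.MP_b5021c_nt.KO.H12.Kodn
import Pool.Agent.Lib.MP_b5021c_nt.KE.H96.Core

/-!
# MP_b5021c_nt, all `θ`, K odd: fully mutual rays, the row CLOS (finding 3613, (1) and (2))

`eta` is a load for every ray, and every ray has a drop at its load (`Abd`).  A ray `T` is fully
mutual if every ray outside `U_T` is mutual with `T`.  Then its whole component is a `Kc`.
-/

set_option linter.unusedSectionVars false

namespace Pool.Agent.B5.KO

open scoped LaurentPolynomial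
open Polynomial
open Pool.Agent.B5.H07 Pool.Agent.B5.H63
open Pool.Agent.B5.KE

section

variable {P L : Type} [Fintype P] [DecidableEq P] [AddCommGroup L] [Module.Free ℤ L]
  [Module.Finite ℤ L] {phi : L →+ (P → ℤ)} {D : AO ℤ L}

/-- Every ray has a ray outside its `U`. -/
def Abd (D : AO ℤ L) (eta : L → (RO ℤ)ˣ) : Prop :=
  ∀ T, Ray D T → ∃ T', Ray D T' ∧ T' ∉ US (eta T) T D

/-- A fully mutual ray. -/
def Fm (D : AO ℤ L) (eta : L → (RO ℤ)ˣ) (T : L) : Prop :=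
  Ray D T ∧ ∀ T', Ray D T' → T' ∉ US (eta T) T D → T ∉ US (eta T') T' D

theorem Fm.mut {eta : L → (RO ℤ)ˣ} {T T' : L} (h : Fm D eta T) (hT' : Ray D T')
    (hU : T' ∉ US (eta T) T D) : Mut D T T' (eta T) (eta T') := ⟨h.1, hT', hU, h.2 T' hT' hU⟩

/-- INCLUSION: `T' ∉ U_T`, `T ∈ U_T'`. -/
theorem incl_US (hF3 : F3S) (hD : DD phi D) {T T' : L} {e e' : (RO ℤ)ˣ} (hT : Ray D T)
    (hT' : Ray D T') (h1 : T' ∉ US e T D) (h2 : T ∈ US e' T' D) :
    US e T D ≤ US e' T' D ∧ Module.finrank ℤ (US e T D) < Module.finrank ℤ (US e' T' D) := by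
  have hA := hF3 ℤ P L phi D T T' e e' hD.inj hD.bin hT hT' h1
  have h6 : US e T D ≤ US e' T' D := by
    refine hA.trans (satur_le ?_)
    rw [sup_le_iff]
    refine ⟨le_rfl, ?_⟩
    rw [Submodule.span_singleton_le_iff_mem]
    exact h2
  exact ⟨h6, finrank_lt_of_sat h6 (US_sat _ _ _) (mem_US e' T' D) h1⟩

/-- MUTUAL RAYS: the same drop and the same `U + other ray`. -/
theorem mut_US (hF3 : F3S) (hD : DD phi D) {T T' : L} {e e' : (RO ℤ)ˣ} (m : Mut D T T' e e') :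
    Module.finrank ℤ (US e' T' D) = Module.finrank ℤ (US e T D) ∧
      satur (US e' T' D ⊔ Submodule.span ℤ {T}) = satur (US e T D ⊔ Submodule.span ℤ {T'}) := by
  have key : ∀ {S S' : L} {d d' : (RO ℤ)ˣ}, Mut D S S' d d' →
      satur (US d' S' D ⊔ Submodule.span ℤ {S}) ≤ satur (US d S D ⊔ Submodule.span ℤ {S'}) := by
    intro S S' d d' n
    have hA := hF3 ℤ P L phi D S' S d' d hD.inj hD.bin n.r1 n.r0 n.m1
    refine satur_le ?_
    rw [sup_le_iff]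
    refine ⟨hA, ?_⟩
    rw [Submodule.span_singleton_le_iff_mem]
    exact le_satur _ ((le_sup_left : US d S D ≤ _) (mem_US d S D))
  have h1 := le_antisymm (key m) (key ⟨m.r1, m.r0, m.m1, m.m0⟩)
  refine ⟨?_, h1⟩
  have h2 := congrArg (fun U : Submodule ℤ L => Module.finrank ℤ U) h1
  simp only [finrank_satur, finrank_sup_eq (US_sat _ _ _) m.m0,
    finrank_sup_eq (US_sat _ _ _) m.m1] at h2
  omega

/-- The step of CLOS. -/
theorem Fm.step (hF3 : F3S) (hD : DD phi D) {eta : L → (RO ℤ)ˣ} (hall : Abd D eta) {T T' : L}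
    (hT : Fm D eta T) (hT' : Ray D T') (hU : T' ∉ US (eta T) T D) : Fm D eta T' := by
  refine ⟨hT', fun T'' hT'' hU' hin => ?_⟩
  have m := hT.mut hT' hU
  have r1 := (mut_US hF3 hD m).1
  obtain ⟨i1, i2⟩ := incl_US hF3 hD hT' hT'' hU' hin
  -- `T ∈ U_T''`
  have hTin : T ∈ US (eta T'') T'' D := by
    by_contra hc
    by_cases h2 : T'' ∈ US (eta T) T D
    · have := (incl_US hF3 hD hT'' hT.1 hc h2).2
      omega
    · have := (mut_US hF3 hD (hT.mut hT'' h2)).1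
      omega
  have h3 : US (eta T) T D ≤ US (eta T'') T'' D := by
    have hA := hF3 ℤ P L phi D T T' (eta T) (eta T') hD.inj hD.bin hT.1 hT' hU
    refine hA.trans (satur_le ?_)
    rw [sup_le_iff]
    refine ⟨i1, ?_⟩
    rw [Submodule.span_singleton_le_iff_mem]
    exact hTin
  obtain ⟨R, hR, hRU⟩ := hall T'' hT''
  have h4 : R ∉ US (eta T) T D := fun h => hRU (h3 h)
  have r2 := (mut_US hF3 hD (hT.mut hR h4)).1
  by_cases h5 : T'' ∈ US (eta R) R D
  · have := (incl_US hF3 hD hT'' hR hRU h5).2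
    omega
  · have := (mut_US hF3 hD (⟨hT'', hR, hRU, h5⟩ : Mut D T'' R (eta T'') (eta R))).1
    omega

/-- The component of a fully mutual ray. -/
theorem Fm.comp (hF3 : F3S) (hD : DD phi D) {eta : L → (RO ℤ)ˣ} (hall : Abd D eta) {T0 T : L}
    (h0 : Fm D eta T0) (hT : T ∈ Comp D eta T0) : Fm D eta T ∧
      Module.finrank ℤ (US (eta T) T D) = Module.finrank ℤ (US (eta T0) T0 D) := by
  induction hT with
  | refl => exact ⟨h0, rfl⟩
  | tail _ h ih =>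
    exact ⟨ih.1.step hF3 hD hall h.r1 h.m0, by rw [(mut_US hF3 hD h).1, ih.2]⟩

/-- (CLOS) THE COMPONENT OF A FULLY MUTUAL RAY IS CLOSED. -/
theorem clos (hE2 : E2S) (hF3 : F3S) (hRk : RkUSS) (hL : LMNS) (hD : DD phi D)
    (h2 : 2 ≤ Module.finrank ℤ L) {eta : L → (RO ℤ)ˣ} (hall : Abd D eta) {T0 : L}
    (h0 : Fm D eta T0) : ∃ g, Kc phi D eta g (Comp D eta T0) := by
  obtain ⟨-, -, -, -, hrk, -⟩ := hE2 ℤ P L phi D hD h2
  have hle0 : Module.finrank ℤ (US (eta T0) T0 D) ≤ Module.finrank ℤ L :=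
    Submodule.finrank_le _
  have hfm : ∀ {T : L}, T ∈ Comp D eta T0 → Fm D eta T ∧
      Module.finrank ℤ (US (eta T) T D) = Module.finrank ℤ (US (eta T0) T0 D) := fun hT =>
    h0.comp hF3 hD hall hT
  have hdim : ∀ {T : L}, T ∈ Comp D eta T0 → Module.finrank ℤ (US (eta T) T D) +
      (Module.finrank ℤ L - Module.finrank ℤ (US (eta T0) T0 D)) = Module.finrank ℤ L := by
    intro T hT
    rw [(hfm hT).2]
    omega
  have hex : ∀ S ∈ Comp D eta T0, ∃ T ∈ Comp D eta T0, Mut D S T (eta S) (eta T) := by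
    intro S hS
    obtain ⟨T, hT, hU⟩ := hall S (hfm hS).1.1
    have m := (hfm hS).1.mut hT hU
    exact ⟨T, comp_step hS m, m⟩
  have hdr : ∀ S ∈ Comp D eta T0, DropAt phi D S (eta S)
      (Module.finrank ℤ L - Module.finrank ℤ (US (eta T0) T0 D)) := by
    intro S hS
    obtain ⟨T, -, m⟩ := hex S hS
    exact H63.Sel.dropAt_of_mut hRk hL hD m (hdim hS)
  have hg1 : Module.finrank ℤ (US (eta T0) T0 D) < Module.finrank ℤ L := by
    rcases Nat.lt_or_ge (Module.finrank ℤ (US (eta T0) T0 D)) (Module.finrank ℤ L) with h | h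
    · exact h
    · exfalso
      obtain ⟨T, -, hU⟩ := hall T0 h0.1
      exact hU (KE.US_top (le_antisymm hle0 h) T)
  refine ⟨Module.finrank ℤ L - Module.finrank ℤ (US (eta T0) T0 D), by omega,
    ⟨T0, Relation.ReflTransGen.refl⟩, fun S hS => (hfm hS).1.1, fun S hS => (hdr S hS).us,
    fun S hS => (hdr S hS).dr, fun S hS e he i0 h => (hdr S hS).fr e he i0 h, ?_, hex, ?_⟩
  · intro S hS T hT hTU
    have m := (hfm hS).1.mut hT hTU
    exact ⟨comp_step hS m, m⟩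
  · intro hg2 S hS
    have hSd := hdim hS
    obtain ⟨T1, hT1, hTU1⟩ := H63.Sel.exists_ray hrk (US (eta S) S D) (by omega)
    have m1 := (hfm hS).1.mut hT1 hTU1
    set W1 : Submodule ℤ L := satur (US (eta S) S D ⊔ Submodule.span ℤ {T1}) with hW1
    have hW1d : Module.finrank ℤ W1 = Module.finrank ℤ (US (eta S) S D) + 1 := by
      rw [hW1, finrank_satur, finrank_sup_eq (US_sat _ _ _) hTU1]
    obtain ⟨T2, hT2, hTU2⟩ := H63.Sel.exists_ray hrk W1 (by omega)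
    have hTU2' : T2 ∉ US (eta S) S D := fun h =>
      hTU2 (le_satur _ ((le_sup_left : US (eta S) S D ≤ _) h))
    have m2 := (hfm hS).1.mut hT2 hTU2'
    refine ⟨T1, comp_step hS m1, T2, comp_step hS m2, m1, m2, ?_, ?_⟩
    · rw [(mut_US hF3 hD m1).2]
      exact hTU2
    · rw [(mut_US hF3 hD m2).2]
      intro hcon
      have h1 : W1 ≤ satur (US (eta S) S D ⊔ Submodule.span ℤ {T2}) := by
        rw [hW1]
        refine satur_le ?_
        rw [sup_le_iff]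
        refine ⟨fun x hx => le_satur _ ((le_sup_left : US (eta S) S D ≤ _) hx), ?_⟩
        rw [Submodule.span_singleton_le_iff_mem]
        exact hcon
      have h3 : T2 ∈ satur (US (eta S) S D ⊔ Submodule.span ℤ {T2}) :=
        le_satur _ ((le_sup_right : Submodule.span ℤ {T2} ≤ _)
          (Submodule.mem_span_singleton_self T2))
      have h4 := finrank_lt_of_sat h1 (satur_sat _) h3 hTU2
      rw [hW1d, finrank_satur, finrank_sup_eq (US_sat _ _ _) hTU2'] at h4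
      omega

/-! ## The designated loads of a counterexample of odd rank -/

/-- `eta S` is the B-load of `S` if it has a drop, otherwise the A-load; it has a drop. -/
def Des (phi : L →+ (P → ℤ)) (D : AO ℤ L) (q : ℤ[X]) (a : ℝ) (eta : L → (RO ℤ)ˣ) : Prop :=
  ∀ S, Ray D S → ∃ (f : ℤ[X]) (e : (RO ℤ)ˣ), RN D S q f e a ∧ ¬ Dfr phi D S (eta S) ∧
    (eta S = ld e 1 ∨ (eta S = -e ∧ f.coeff 0 = 1 ∧ Dfr phi D S (ld e 1)))

theorem des_exists (hE2 : E2S) (hOfa : OfaS) (hO1 : Oo1S) {q : ℤ[X]} {a : ℝ} {j : ℕ}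
    (hK : Ko phi D q a j) : ∃ eta, Des phi D q a eta := by
  classical
  have hD : DD phi D := hK.min.fp.dd
  have h2 : 2 ≤ Module.finrank ℤ L := by have := hK.rk; have := hK.j2; omega
  have key : ∀ S : L, ∃ d : (RO ℤ)ˣ, Ray D S → ∃ (f : ℤ[X]) (e : (RO ℤ)ˣ), RN D S q f e a ∧
      ¬ Dfr phi D S d ∧ (d = ld e 1 ∨ (d = -e ∧ f.coeff 0 = 1 ∧ Dfr phi D S (ld e 1))) := by
    intro S
    by_cases hS : Ray D S
    · obtain ⟨f, e, hR⟩ := ray_norm hE2 hD h2 hK.D0 hK.qn hS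
      by_cases hb : Dfr phi D S (ld e 1)
      · rcases lt_or_ge 1 (f.coeff 0) with hu | hu
        · exact absurd (hOfa P L phi D S q f e a j hK hS hR hu hb) id
        · have hu1 : f.coeff 0 = 1 := le_antisymm hu hR.u
          exact ⟨-e, fun _ => ⟨f, e, hR, fun ha => hO1 P L phi D S q f e a j hK hS hR hu1 hb ha,
            Or.inr ⟨rfl, hu1, hb⟩⟩⟩
      · exact ⟨ld e 1, fun _ => ⟨f, e, hR, hb, Or.inl rfl⟩⟩
    · exact ⟨1, fun h => absurd h hS⟩
  choose eta heta using key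
  exact ⟨eta, fun S hS => heta S hS⟩

/-- A load with a drop has a ray outside `U`. -/
theorem out_of_ndfr (hE2 : E2S) (hRk : RkUSS) (hD : DD phi D) (h2 : 2 ≤ Module.finrank ℤ L)
    {S : L} {e : (RO ℤ)ˣ} (hS : Ray D S) (h : ¬ Dfr phi D S e) :
    ∃ T, Ray D T ∧ T ∉ US e S D := by
  obtain ⟨-, -, -, -, hrk, -⟩ := hE2 ℤ P L phi D hD h2
  apply H63.Sel.exists_ray hrk
  by_contra hc
  apply h
  intro i0 h0
  have h1 := hRk ℤ P L phi D S i0 h0 e hD.inj hD.bin (hD.bin S hS.1)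
  have h3 := Submodule.finrank_le (US e S D)
  omega

/-- A ray outside `U`: the load has a drop. -/
theorem ndfr_of_out (hRk : RkUSS) (hD : DD phi D) {S T : L} {e : (RO ℤ)ˣ} (hS : Ray D S)
    (hU : T ∉ US e S D) : ¬ Dfr phi D S e := by
  intro h
  obtain ⟨i0, h0⟩ := exists_port hD hS
  have h1 := hRk ℤ P L phi D S i0 h0 e hD.inj hD.bin (hD.bin S hS.1)
  have h3 := h i0 h0
  exact hU (KE.US_top (by omega) T)

theorem Des.abd (hE2 : E2S) (hRk : RkUSS) (hD : DD phi D) (h2 : 2 ≤ Module.finrank ℤ L)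
    {q : ℤ[X]} {a : ℝ} {eta : L → (RO ℤ)ˣ} (h : Des phi D q a eta) : Abd D eta := by
  intro S hS
  obtain ⟨f, e, -, h1, -⟩ := h S hS
  exact out_of_ndfr hE2 hRk hD h2 hS h1

/-- The loads of a `Kc` are the designated loads. -/
theorem Kc_des {q : ℤ[X]} {a : ℝ} {g : ℕ} {eta eta' : L → (RO ℤ)ˣ} {C : Set L}
    (hC : Kc phi D eta g C) (h : Des phi D q a eta') : ∀ S ∈ C, eta' S = eta S := by
  intro S hS
  by_contra hne
  obtain ⟨f, e, -, h1, -⟩ := h S (hC.ray S hS)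
  exact h1 (hC.fr S hS _ hne)

/-- A `Kc` for other loads which agree on `C`. -/
theorem Kc_congr {g : ℕ} {eta eta' : L → (RO ℤ)ˣ} {C : Set L}
    (hC : Kc phi D eta g C) (h : ∀ S ∈ C, eta' S = eta S) : Kc phi D eta' g C := by
  refine ⟨hC.g1, hC.ne, hC.ray, fun S hS => by rw [h S hS]; exact hC.us S hS,
    fun S hS => by rw [h S hS]; exact hC.dr S hS,
    fun S hS e he => hC.fr S hS e (by rw [h S hS] at he; exact he), ?_, ?_, ?_⟩
  · intro S hS T hT hU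
    rw [h S hS] at hU ⊢
    obtain ⟨h1, h2⟩ := hC.mtl S hS T hT hU
    rw [h T h1]
    exact ⟨h1, h2⟩
  · intro S hS
    obtain ⟨T, hT, m⟩ := hC.ex S hS
    exact ⟨T, hT, by rw [h S hS, h T hT]; exact m⟩
  · intro hg S hS
    obtain ⟨S1, h1, S2, h2, m1, m2, h3, h4⟩ := hC.two hg S hS
    exact ⟨S1, h1, S2, h2, by rw [h S hS, h S1 h1]; exact m1, by rw [h S hS, h S2 h2]; exact m2,
      by rw [h S1 h1]; exact h3, by rw [h S2 h2]; exact h4⟩

/-- The rays of a `Kc` are fully mutual. -/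
theorem Kc_fm {g : ℕ} {eta : L → (RO ℤ)ˣ} {C : Set L} (hC : Kc phi D eta g C) {S : L}
    (hS : S ∈ C) : Fm D eta S :=
  ⟨hC.ray S hS, fun T hT hU => (hC.mtl S hS T hT hU).2.m1⟩

/-- A ray outside a `Kc` lies in `U_S` for every `S` in it. -/
theorem Kc_out {g : ℕ} {eta : L → (RO ℤ)ˣ} {C : Set L} (hC : Kc phi D eta g C) {S T : L}
    (hS : S ∈ C) (hT : Ray D T) (hTC : T ∉ C) : T ∈ US (eta S) S D := by
  by_contra h
  exact hTC (hC.mtl S hS T hT h).1

/-- THE COMPONENT OF A FULLY MUTUAL RAY at the designated loads, B or A. -/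
theorem Fm.kcX (hE2 : E2S) (hF3 : F3S) (hRk : RkUSS) (hL : LMNS) (hMco : McoS) {q : ℤ[X]}
    {a : ℝ} {j : ℕ} (hK : Ko phi D q a j) {eta : L → (RO ℤ)ˣ} (hdes : Des phi D q a eta)
    {T0 : L} (h0 : Fm D eta T0) : ∃ (g : ℕ) (f : ℤ[X]) (e : (RO ℤ)ˣ), RN D T0 q f e a ∧
      ((eta T0 = ld e 1 ∧ KcB phi D q f a j eta g (Comp D eta T0)) ∨
        (eta T0 = -e ∧ f.coeff 0 = 1 ∧ KcA phi D q f a j eta g (Comp D eta T0))) := by
  have hD : DD phi D := hK.min.fp.dd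
  have h2 : 2 ≤ Module.finrank ℤ L := by have := hK.rk; have := hK.j2; omega
  have hall := hdes.abd hE2 hRk hD h2
  obtain ⟨g, hKc⟩ := clos hE2 hF3 hRk hL hD h2 hall h0
  have hty : ∀ S ∈ Comp D eta T0, ∃ (f : ℤ[X]) (e : (RO ℤ)ˣ), RN D S q f e a ∧
      (eta S = ld e 1 ∨ (eta S = -e ∧ f.coeff 0 = 1)) := by
    intro S hS
    obtain ⟨f, e, hR, -, h3⟩ := hdes S (hKc.ray S hS)
    exact ⟨f, e, hR, h3.imp id fun h => ⟨h.1, h.2.1⟩⟩
  obtain ⟨f, e0, hRN0, hty0⟩ := hty T0 Relation.ReflTransGen.refl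
  have hX0 : ∀ p : ℤ[X], (X * p).coeff 0 = 0 := fun p => by
    rw [mul_coeff_zero, coeff_X_zero, zero_mul]
  refine ⟨g, f, e0, hRN0, ?_⟩
  rcases hty0 with hb | ⟨ha, hu⟩
  · -- type B
    left
    refine ⟨hb, hK, hKc, ?_⟩
    intro S hS
    obtain ⟨f', e', hRN', hty'⟩ := hty S hS
    have hco := comp_coe hMco hD hS
    rw [hb, ld_S1 hRN0] at hco
    rcases hty' with hb' | ⟨ha', -⟩
    · rw [hb', ld_S1 hRN'] at hco
      have h1 := mul_left_cancel₀ X_ne_zero (toLaurent_injective hco)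
      subst h1
      exact ⟨e', hb', hRN'⟩
    · exfalso
      rw [ha', neg_S hRN'] at hco
      have h1 := congrArg (fun p => coeff p 0) (toLaurent_injective hco)
      simp only [coeff_neg, hX0] at h1
      have := hRN'.u
      omega
  · -- type A
    right
    refine ⟨ha, hu, hK, hKc, ?_⟩
    intro S hS
    obtain ⟨f', e', hRN', hty'⟩ := hty S hS
    have hco := comp_coe hMco hD hS
    rw [ha, neg_S hRN0] at hco
    rcases hty' with hb' | ⟨ha', -⟩
    · exfalso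
      rw [hb', ld_S1 hRN'] at hco
      have h1 := congrArg (fun p => coeff p 0) (toLaurent_injective hco)
      simp only [coeff_neg, hX0] at h1
      omega
    · rw [ha', neg_S hRN'] at hco
      have h1 := neg_injective (toLaurent_injective hco)
      subst h1
      exact ⟨e', ha', hRN'⟩

/-- A FULLY MUTUAL RAY: `u = 1`; B: `n = j + 1` and the drop is 1 or 2. -/
theorem Fm.kcY (hE2 : E2S) (hF3 : F3S) (hRk : RkUSS) (hL : LMNS) (hMco : McoS) (hOfb : OfbS)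
    (hB2 : Ob2S) {q : ℤ[X]} {a : ℝ} {j : ℕ} (hK : Ko phi D q a j) {eta : L → (RO ℤ)ˣ}
    (hdes : Des phi D q a eta) {T0 : L} (h0 : Fm D eta T0) :
    ∃ (g : ℕ) (f : ℤ[X]) (e : (RO ℤ)ˣ), RN D T0 q f e a ∧ f.coeff 0 = 1 ∧
      ((eta T0 = ld e 1 ∧ KcB phi D q f a j eta g (Comp D eta T0) ∧
          f.coeff 1 - q.coeff 1 = j + 1 ∧ (g = 1 ∨ g = 2)) ∨
        (eta T0 = -e ∧ KcA phi D q f a j eta g (Comp D eta T0))) := by
  obtain ⟨g, f, e, hR, h⟩ := h0.kcX hE2 hF3 hRk hL hMco hK hdes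
  rcases h with ⟨h1, h2⟩ | ⟨h1, h2, h3⟩
  · have hu := hOfb P L phi D q f a j eta g _ h2
    obtain ⟨h3, h4⟩ := hB2 P L phi D q f a j eta g _ h2 hu
    exact ⟨g, f, e, hR, hu, Or.inl ⟨h1, h2, h3, h4⟩⟩
  · exact ⟨g, f, e, hR, h2, Or.inr ⟨h1, h3⟩⟩

/-- A FULLY MUTUAL RAY with `Oo4S`: B, `u = 1`, `n = j + 1`. -/
theorem Fm.kcZ (hE2 : E2S) (hF3 : F3S) (hRk : RkUSS) (hL : LMNS) (hMco : McoS) (hOfb : OfbS)
    (hO4 : Oo4S) (hB2 : Ob2S) {q : ℤ[X]} {a : ℝ} {j : ℕ} (hK : Ko phi D q a j)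
    {eta : L → (RO ℤ)ˣ} (hdes : Des phi D q a eta) {T0 : L} (h0 : Fm D eta T0) :
    ∃ (g : ℕ) (f : ℤ[X]) (e : (RO ℤ)ˣ), RN D T0 q f e a ∧ f.coeff 0 = 1 ∧ eta T0 = ld e 1 ∧
      KcB phi D q f a j eta g (Comp D eta T0) ∧ f.coeff 1 - q.coeff 1 = j + 1 ∧
        (g = 1 ∨ g = 2) := by
  obtain ⟨g, f, e, hR, hu, h⟩ := h0.kcY hE2 hF3 hRk hL hMco hOfb hB2 hK hdes
  rcases h with ⟨h1, h2, h3, h4⟩ | ⟨-, h3⟩
  · exact ⟨g, f, e, hR, hu, h1, h2, h3, h4⟩
  · exact (hO4 P L phi D q f a j eta g _ h3 hu).elim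

end

end Pool.Agent.B5.KO
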