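import Pool.Agent.Lib.MP_b5021c_nt.KO.H96.Clos

/-!
# MP_b5021c_nt, all `θ`, K odd: the row PATX (finding 3613, (3)), list form

A multiple closing `w^(Z i) = w i` of rays `Z i` (`i` in a finite type), killed by `nu` (`MKil`).
A moved ray `T` with all `Z i` in `U_T` gives a FULLY MUTUAL ray `T*` with `U_T ≤ U_T*` whose class
is killed.  Independent closed rays (`Msys`): the class of `u` and the coefficient of `T*`.
-/

set_option linter.unusedSectionVars false

namespace Pool.Agent.B5.KO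

open scoped LaurentPolynomial
open Polynomial
open Pool.Agent.B5.H07 Pool.Agent.B5.H63
open Pool.Agent.B5.KE

section

variable {P L : Type} [Fintype P] [DecidableEq P] [AddCommGroup L] [Module.Free ℤ L]
  [Module.Finite ℤ L] {phi : L →+ (P → ℤ)} {D : AO ℤ L} {ι : Type} [Fintype ι] [DecidableEq ι]

/-- The class sum of `x` modulo the rays `Z i` at the loads `w i`. -/
noncomputable def msum (D : AO ℤ L) (Z : ι → L) (w : ι → (RO ℤ)ˣ) (x : L) : RO ℤ :=
  ∑ s : Finset ι, (∏ i ∈ s, (w i : RO ℤ)) * D.coeff (x + ∑ i ∈ s, Z i)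

/-- `x` is disjoint from all `Z i`. -/
def Ouv (phi : L →+ (P → ℤ)) (Z : ι → L) (x : L) : Prop :=
  ∀ i q, phi x q = 0 ∨ phi (Z i) q = 0

/-- `nu` vanishes on the `Z i` and on the exponents of the multiple closing `w^(Z i) = w i`. -/
structure MKil (phi : L →+ (P → ℤ)) (D : AO ℤ L) (Z : ι → L) (w : ι → (RO ℤ)ˣ) (nu : L →+ ℤ) :
    Prop where
  z : ∀ i, nu (Z i) = 0
  part : ∀ x ∈ supp D, (∃ i, Part phi (Z i) x) → nu x = 0
  free : ∀ x, Ouv phi Z x → nu x ≠ 0 → msum D Z w x = 0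

/-- Ports of rays are not nested. -/
theorem nst (hI : Inj1S) (fp : FP phi D) {S T : L} (hS : Ray D S) (hT : Ray D T)
    (h : ∀ j, phi T j = 0 → phi S j = 0) : S = T := by
  obtain ⟨k, hk⟩ := (hI ℤ P L phi D fp T hT).1 S h
  obtain ⟨j, hj⟩ := exists_port fp.dd hS
  have h1 : phi S j = 1 := hj
  rw [hk, map_zsmul, Pi.smul_apply, smul_eq_mul] at h1
  rcases fp.dd.bin T hT.1 j with h2 | h2
  · rw [h2, mul_zero] at h1
    omega
  · rw [h2, mul_one] at h1
    rw [hk, h1, one_smul]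

/-- Not partial, different: disjoint. -/
theorem dsj (hI : Inj1S) (fp : FP phi D) {S T : L} (hS : Ray D S) (hT : Ray D T) (hne : S ≠ T)
    (h : ¬ Part phi S T) : ∀ q, phi T q = 0 ∨ phi S q = 0 := by
  by_contra hcon
  push Not at hcon
  obtain ⟨q, h1, h2⟩ := hcon
  apply hne
  apply nst hI fp hS hT
  intro j hj
  by_contra h3
  exact h ⟨⟨q, (fp.dd.bin T hT.1 q).resolve_left h1, (fp.dd.bin S hS.1 q).resolve_left h2⟩,
    j, hj, (fp.dd.bin S hS.1 j).resolve_left h3⟩

/-- `x` outside `U_T` and disjoint from `T`. -/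
theorem f1d (hF1 : F1S) (hD : DD phi D) {x T : L} {e : (RO ℤ)ˣ} (hT : Ray D T)
    (hxU : x ∉ US e T D) (hd : ∀ q, phi x q = 0 ∨ phi T q = 0) :
    D.coeff x + (e : RO ℤ) * D.coeff (x + T) = 0 :=
  (hF1 ℤ P L phi D T e hD.inj hD.bin (hD.bin T hT.1) hT.2.1 x hxU).2 hd

/-- `x ∈ supp D` partial: in `U_T`. -/
theorem f1p (hF1 : F1S) (hD : DD phi D) {x T : L} {e : (RO ℤ)ˣ} (hT : Ray D T) (hx : x ∈ supp D)
    (hp : Part phi T x) : x ∈ US e T D := by
  by_contra hxU
  exact hx ((hF1 ℤ P L phi D T e hD.inj hD.bin (hD.bin T hT.1) hT.2.1 x hxU).1 hp.1 hp.2)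

/-- A moved ray is disjoint from the closed rays. -/
theorem MKil.ouv (hI : Inj1S) (fp : FP phi D) {Z : ι → L} {w : ι → (RO ℤ)ˣ} {nu : L →+ ℤ}
    (hk : MKil phi D Z w nu) (hZ : ∀ i, Ray D (Z i)) {T : L} (hT : Ray D T) (hn : nu T ≠ 0) :
    Ouv phi Z T := fun i => dsj hI fp (hZ i) hT (by rintro rfl; exact hn (hk.z i))
      (fun h => hn (hk.part T hT.1 ⟨i, h⟩))

/-- The class of a ray outside `U_T`, `T` moved, the closed rays in `U_T`. -/
theorem MKil.next (hF1 : F1S) (hF2 : F2S) (hI : Inj1S) (fp : FP phi D) {Z : ι → L}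
    {w : ι → (RO ℤ)ˣ} {nu : L →+ ℤ} (hk : MKil phi D Z w nu) (hZ : ∀ i, Ray D (Z i)) {T T' : L}
    {eT : (RO ℤ)ˣ} (hT : Ray D T) (hn : nu T ≠ 0) (hU : ∀ i, Z i ∈ US eT T D) (hT' : Ray D T')
    (hU' : T' ∉ US eT T D) : Ouv phi Z T' ∧ msum D Z w T' = 0 := by
  have hD := fp.dd
  have ho := hk.ouv hI fp hZ hT hn
  have hdis := hF2 ℤ P L phi D T' T eT hD.inj hD.bin hT' hT hU'
  have hsum := f1d hF1 hD hT hU' hdis
  have hTT : T' + T ∈ supp D := by
    intro h
    change D.coeff (T' + T) = 0 at h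
    rw [h, mul_zero, add_zero] at hsum
    exact hT'.1 hsum
  have hout : Ouv phi Z T' := by
    intro i
    apply dsj hI fp (hZ i) hT' (by rintro rfl; exact hU' (hU i))
    rintro ⟨⟨x, hx1, hx2⟩, y, hy1, hy2⟩
    have hTz : ∀ q, phi (Z i) q = 1 → phi T q = 0 := by
      intro q hq
      exact (ho i q).resolve_right (by rw [hq]; exact one_ne_zero)
    have h3 := hk.part T' hT'.1 ⟨i, ⟨x, hx1, hx2⟩, y, hy1, hy2⟩
    have h4 := hk.part (T' + T) hTT ⟨i, ⟨x, by
      rw [map_add, Pi.add_apply, hx1, hTz x hx2, add_zero], hx2⟩, y, by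
      rw [map_add, Pi.add_apply, hy1, hTz y hy2, add_zero], hy2⟩
    rw [map_add, h3, zero_add] at h4
    exact hn h4
  refine ⟨hout, ?_⟩
  by_cases hn' : nu T' = 0
  · have h1 : Ouv phi Z (T' + T) := by
      intro i q
      rcases hout i q with h2 | h2
      · rcases ho i q with h3 | h3
        · left
          rw [map_add, Pi.add_apply, h2, h3, add_zero]
        · exact Or.inr h3
      · exact Or.inr h2
    have h2 : msum D Z w (T' + T) = 0 := hk.free _ h1 (by
      rw [map_add, hn', zero_add]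
      exact hn)
    have h3 : msum D Z w T' = -((eT : RO ℤ) * msum D Z w (T' + T)) := by
      unfold msum
      rw [Finset.mul_sum, ← Finset.sum_neg_distrib]
      refine Finset.sum_congr rfl fun s _ => ?_
      have hsU : ∑ i ∈ s, Z i ∈ US eT T D := Submodule.sum_mem _ fun i _ => hU i
      have h4 : T' + ∑ i ∈ s, Z i ∉ US eT T D := by
        intro h
        apply hU'
        have h5 := Submodule.sub_mem _ h hsU
        rwa [add_sub_cancel_right] at h5
      have h5 : ∀ q, phi (T' + ∑ i ∈ s, Z i) q = 0 ∨ phi T q = 0 := by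
        intro q
        by_cases hq : phi T q = 0
        · exact Or.inr hq
        · left
          rw [map_add, map_sum, Pi.add_apply, Finset.sum_apply, (hdis q).resolve_right hq,
            zero_add]
          exact Finset.sum_eq_zero fun i _ => (ho i q).resolve_left hq
      have h6 := f1d hF1 hD hT h4 h5
      rw [add_right_comm T' (∑ i ∈ s, Z i) T] at h6
      linear_combination (∏ i ∈ s, (w i : RO ℤ)) * h6
    rw [h3, h2, mul_zero, neg_zero]
  · exact hk.free _ hout hn'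

/-- (PATX) A MOVED RAY WHOSE `U` CONTAINS THE CLOSED RAYS GIVES A FULLY MUTUAL KILLED RAY. -/
theorem MKil.patx (hF1 : F1S) (hF2 : F2S) (hF3 : F3S) (hI : Inj1S) (fp : FP phi D) {Z : ι → L}
    {w : ι → (RO ℤ)ˣ} {nu : L →+ ℤ} (hk : MKil phi D Z w nu) (hZ : ∀ i, Ray D (Z i))
    {eta : L → (RO ℤ)ˣ} (hall : Abd D eta) {T : L} (hT : Ray D T) (hn : nu T ≠ 0)
    (hU : ∀ i, Z i ∈ US (eta T) T D) : ∃ R, Fm D eta R ∧ US (eta T) T D ≤ US (eta R) R D ∧
      (R = T ∨ R ∉ US (eta T) T D) ∧ Ouv phi Z R ∧ msum D Z w R = 0 := by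
  classical
  have hD := fp.dd
  have ho := hk.ouv hI fp hZ hT hn
  -- a ray with the largest `U` among `T` and the rays outside `U_T`
  have hne : {R : L | Ray D R ∧ R ∉ US (eta T) T D}.Nonempty := by
    obtain ⟨R, hR, hRU⟩ := hall T hT
    exact ⟨R, hR, hRU⟩
  obtain ⟨R, ⟨hR, hRU⟩, hmin⟩ := WellFounded.has_min
    (measure (fun S : L => Module.finrank ℤ L - Module.finrank ℤ (US (eta S) S D))).wf _ hne
  have hmax : ∀ S, Ray D S → S ∉ US (eta T) T D →
      Module.finrank ℤ (US (eta S) S D) ≤ Module.finrank ℤ (US (eta R) R D) := by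
    intro S hS hSU
    have h1 : ¬ (Module.finrank ℤ L - Module.finrank ℤ (US (eta S) S D) <
        Module.finrank ℤ L - Module.finrank ℤ (US (eta R) R D)) := hmin S ⟨hS, hSU⟩
    have h2 := Submodule.finrank_le (US (eta S) S D)
    have h3 := Submodule.finrank_le (US (eta R) R D)
    omega
  by_cases hlt : Module.finrank ℤ (US (eta T) T D) < Module.finrank ℤ (US (eta R) R D)
  · -- `R`
    have hTR : T ∈ US (eta R) R D := by
      by_contra h
      have := (mut_US hF3 hD (⟨hT, hR, hRU, h⟩ : Mut D T R (eta T) (eta R))).1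
      omega
    obtain ⟨i1, i2⟩ := incl_US hF3 hD hT hR hRU hTR
    obtain ⟨k1, k2⟩ := hk.next hF1 hF2 hI fp hZ hT hn hU hR hRU
    refine ⟨R, ⟨hR, fun T' hT' hU' hin => ?_⟩, i1, Or.inr hRU, k1, k2⟩
    have h1 := (incl_US hF3 hD hR hT' hU' hin).2
    have h2 := hmax T' hT' (fun h => hU' (i1 h))
    omega
  · -- `T`
    refine ⟨T, ⟨hT, fun T' hT' hU' hin => ?_⟩, le_rfl, Or.inl rfl, ho, hk.free T ho hn⟩
    have h1 := (incl_US hF3 hD hT hT' hU' hin).2
    have h2 := hmax T' hT' hU'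
    omega

/-! ## Components -/

/-- `N_T = 0` at a ray of `C`: then also at the mutual rays of `C`. -/
theorem Kc_nbr (hF3 : F3S) (hD : DD phi D) {g : ℕ} {eta : L → (RO ℤ)ˣ} {C : Set L}
    (hC : Kc phi D eta g C) {S S' T : L} (hS' : S' ∈ C) (hT : Ray D T)
    (hTC : T ∉ C) (m : Mut D S S' (eta S) (eta S')) (hU : S ∈ US (eta T) T D) :
    S' ∈ US (eta T) T D := by
  by_contra h
  have h1 : T ∈ US (eta S') S' D := Kc_out hC hS' hT hTC
  exact m.m1 ((incl_US hF3 hD hT m.r1 h h1).1 hU)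

/-- A fully mutual ray whose `U` contains a ray `S` of `C` is not in the component of `S`'s
neighbours; it lies in `U_S`. -/
theorem Fm.in_US {eta : L → (RO ℤ)ˣ} {S R : L} (hS : Fm D eta S) (hR : Ray D R)
    (hU : S ∈ US (eta R) R D) : R ∈ US (eta S) S D := by
  by_contra h
  exact hS.2 R hR h hU

/-! ## Independent closed rays -/

/-- Disjoint rays, the others independent modulo `U_i` (load `e i`). -/
structure Msys (phi : L →+ (P → ℤ)) (D : AO ℤ L) (Z : ι → L) (e : ι → (RO ℤ)ˣ) : Prop where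
  ray : ∀ i, Ray D (Z i)
  dis : ∀ i j, i ≠ j → ∀ q, phi (Z i) q = 0 ∨ phi (Z j) q = 0
  ind : ∀ i (m : ι → ℤ), m i = 0 → ∑ j, m j • Z j ∈ US (e i) (Z i) D → m = 0

theorem Msys.out {Z : ι → L} {e : ι → (RO ℤ)ˣ} (h : Msys phi D Z e) {i : ι} {s : Finset ι}
    (hi : i ∉ s) (hs : s.Nonempty) : ∑ j ∈ s, Z j ∉ US (e i) (Z i) D := by
  intro hin
  have h1 : ∑ j, (if j ∈ s then (1 : ℤ) else 0) • Z j = ∑ j ∈ s, Z j := by
    simp [ite_smul]
  obtain ⟨k, hk⟩ := hs
  have h2 := h.ind i (fun j => if j ∈ s then (1 : ℤ) else 0) (if_neg hi) (by rw [h1]; exact hin)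
  have h3 := congrFun h2 k
  simp [hk] at h3

/-- `u` in all `U_i`, disjoint from the closed rays: the coefficients of the class. -/
theorem Msys.cof (hF1 : F1S) (hD : DD phi D) {Z : ι → L} {e : ι → (RO ℤ)ˣ}
    (h : Msys phi D Z e) {u : L} (ho : Ouv phi Z u) (hu : ∀ i, u ∈ US (e i) (Z i) D) :
    ∃ r : RO ℤ, ∀ s : Finset ι, s.Nonempty →
      (∏ i ∈ s, (e i : RO ℤ)) * D.coeff (u + ∑ i ∈ s, Z i) = (-1) ^ s.card * r := by
  -- the flip
  have flip : ∀ (s : Finset ι) (i : ι), s.Nonempty → i ∉ s →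
      (∏ j ∈ insert i s, (e j : RO ℤ)) * D.coeff (u + ∑ j ∈ insert i s, Z j) =
        -((∏ j ∈ s, (e j : RO ℤ)) * D.coeff (u + ∑ j ∈ s, Z j)) := by
    intro s i hs hi
    have h1 : u + ∑ j ∈ s, Z j ∉ US (e i) (Z i) D := by
      intro h2
      apply h.out hi hs
      have h3 := Submodule.sub_mem _ h2 (hu i)
      rwa [add_sub_cancel_left] at h3
    have h2 : ∀ q, phi (u + ∑ j ∈ s, Z j) q = 0 ∨ phi (Z i) q = 0 := by
      intro q
      by_cases hq : phi (Z i) q = 0
      · exact Or.inr hq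
      · left
        rw [map_add, map_sum, Pi.add_apply, Finset.sum_apply, (ho i q).resolve_right hq, zero_add]
        refine Finset.sum_eq_zero fun j hj => ?_
        exact (h.dis j i (by rintro rfl; exact hi hj) q).resolve_right hq
    have h3 := f1d hF1 hD (h.ray i) h1 h2
    rw [Finset.prod_insert hi, Finset.sum_insert hi]
    rw [add_assoc, add_comm _ (Z i)] at h3
    linear_combination (∏ j ∈ s, (e j : RO ℤ)) * h3
  -- singletons
  have sing : ∀ i j, (e i : RO ℤ) * D.coeff (u + Z i) = (e j : RO ℤ) * D.coeff (u + Z j) := by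
    intro i j
    by_cases hij : i = j
    · rw [hij]
    · have h1 := flip {i} j (Finset.singleton_nonempty i) (by
        rw [Finset.mem_singleton]; exact fun h => hij h.symm)
      have h2 := flip {j} i (Finset.singleton_nonempty j) (by
        rw [Finset.mem_singleton]; exact hij)
      rw [Finset.pair_comm] at h2
      rw [h1] at h2
      simpa using h2
  rcases isEmpty_or_nonempty ι with hem | ⟨⟨k⟩⟩
  · exact ⟨0, fun s hs => (hem.false hs.choose).elim⟩
  · refine ⟨-((e k : RO ℤ) * D.coeff (u + Z k)), ?_⟩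
    intro s
    induction s using Finset.induction_on with
    | empty => intro hs; exact absurd hs Finset.not_nonempty_empty
    | insert i s hi ih =>
      intro _
      rcases s.eq_empty_or_nonempty with rfl | hs
      · have h1 := sing i k
        simp only [insert_empty_eq, Finset.prod_singleton, Finset.sum_singleton,
          Finset.card_singleton, pow_one]
        linear_combination h1
      · rw [flip s i hs hi, ih hs, Finset.card_insert_of_notMem hi]
        ring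

/-- The class sum at the loads `e i * t i`. -/
theorem msum_of (D : AO ℤ L) {Z : ι → L} {e t : ι → (RO ℤ)ˣ} {u : L} {r : RO ℤ}
    (h : ∀ s : Finset ι, s.Nonempty →
      (∏ i ∈ s, (e i : RO ℤ)) * D.coeff (u + ∑ i ∈ s, Z i) = (-1) ^ s.card * r) :
    msum D Z (fun i => e i * t i) u = D.coeff u - r * (1 - ∏ i, (1 - (t i : RO ℤ))) := by
  classical
  have h1 : ∀ s : Finset ι, (∏ i ∈ s, ((e i * t i : (RO ℤ)ˣ) : RO ℤ)) * D.coeff (u + ∑ i ∈ s, Z i) =
      (if s = ∅ then D.coeff u - r else 0) + (∏ i ∈ s, -(t i : RO ℤ)) * r := by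
    intro s
    by_cases hs : s = ∅
    · subst hs
      simp
    · rw [if_neg hs, zero_add, Finset.prod_neg]
      have h2 := h s (Finset.nonempty_iff_ne_empty.mpr hs)
      simp only [Units.val_mul, Finset.prod_mul_distrib]
      linear_combination (∏ i ∈ s, (t i : RO ℤ)) * h2
  unfold msum
  rw [Finset.sum_congr rfl fun s _ => h1 s, Finset.sum_add_distrib, Finset.sum_ite_eq',
    if_pos (Finset.mem_univ _), ← Finset.sum_mul]
  have h2 : ∏ i, (1 - (t i : RO ℤ)) = ∑ s : Finset ι, ∏ i ∈ s, -(t i : RO ℤ) := by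
    have h3 := Finset.prod_one_add (f := fun i => -(t i : RO ℤ)) (Finset.univ : Finset ι)
    rw [Finset.powerset_univ] at h3
    rw [← h3]
    exact Finset.prod_congr rfl fun i _ => by ring
  rw [h2]
  ring

/-- A ray whose class is killed and which lies in all `U_i`: its coefficient. -/
theorem Msys.killed (hF1 : F1S) (hD : DD phi D) {Z : ι → L} {e t : ι → (RO ℤ)ˣ}
    (h : Msys phi D Z e) {T : L} (hT : Ray D T) (ho : Ouv phi Z T)
    (hu : ∀ i, T ∈ US (e i) (Z i) D) (hm : msum D Z (fun i => e i * t i) T = 0) :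
    ∃ r : RO ℤ, r ≠ 0 ∧ D.coeff T = r * (1 - ∏ i, (1 - (t i : RO ℤ))) ∧
      ∀ i, (e i : RO ℤ) * D.coeff (T + Z i) = -r := by
  obtain ⟨r, hr⟩ := h.cof hF1 hD ho hu
  have h1 := msum_of D (t := t) hr
  rw [hm] at h1
  have h2 : D.coeff T = r * (1 - ∏ i, (1 - (t i : RO ℤ))) := by linear_combination -h1
  refine ⟨r, ?_, h2, fun i => ?_⟩
  · rintro rfl
    rw [zero_mul] at h2
    exact hT.1 h2
  · have h3 := hr {i} (Finset.singleton_nonempty i)
    simpa using h3

/-- If `Z i` is outside `U_T` then the load of `T` is determined. -/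
theorem Msys.p4 (hF1 : F1S) (hD : DD phi D) {Z : ι → L} {e t : ι → (RO ℤ)ˣ} {T : L}
    (hT : Ray D T) (ho : Ouv phi Z T) {eT : (RO ℤ)ˣ} {r : RO ℤ}
    (h1 : D.coeff T = r * (1 - ∏ i, (1 - (t i : RO ℤ))))
    (h2 : ∀ i, (e i : RO ℤ) * D.coeff (T + Z i) = -r) {i : ι} (hU : Z i ∉ US eT T D) :
    (eT : RO ℤ) * D.coeff T = (1 - ∏ j, (1 - (t j : RO ℤ))) * ((e i : RO ℤ) * D.coeff (Z i)) := by
  have h3 := f1d hF1 hD hT hU (fun q => (ho i q).symm)
  rw [add_comm (Z i) T] at h3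
  have h4 := h2 i
  linear_combination (eT : RO ℤ) * h1 - (1 - ∏ j, (1 - (t j : RO ℤ))) * (e i : RO ℤ) * h3 +
    (eT : RO ℤ) * (1 - ∏ j, (1 - (t j : RO ℤ))) * h4

end

end Pool.Agent.B5.KO
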