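import Pool.Agent.Lib.MP_b5021c_nt.KO.H71.Nf
import Pool.Agent.Lib.MP_b5021c_nt.E.H61.FacetDraft
import Pool.Agent.Lib.MP_b5021c_nt.E.H07.Mxu

/-!
# MP_b5021c_nt, all `θ`, K odd, leaf O4, `l = 3`, ALPHA: two closed triples and their ports

`Tri phi D r e mu`, `Tri phi D r' e' mu'`, neutral to each other.
* `ovl_supp`: if a ray `r i` meets a ray `r' k` then every exponent is killed by all `mu i` or by all
  `mu' k` (so `D_(r i + r' k) = 0`).
* `tri_in`: if the ports of one `r i` are covered by exponents killed by `mu` then the same holds for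
  all `r j`.
* `ovl_alt`: either every `r i` has a port outside all `r' k`, or conversely, or the sums are equal.
(helper96, after helper21)
-/

set_option linter.unusedSectionVars false

namespace Pool.Agent.B5.KO.H96

open scoped LaurentPolynomial
open Pool.Agent.B5 Pool.Agent.B5.H63 Pool.Agent.B5.KO.H71

section

variable {O : Type} [CommRing O] [IsDomain O] [IsPrincipalIdealRing O] [Coef O] {P : Type}
  [Fintype P] [DecidableEq P] {L : Type} [AddCommGroup L] [Module.Free ℤ L] [Module.Finite ℤ L]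
  {phi : L →+ (P → ℤ)} {D : AO O L} {r r' : ZMod 3 → L} {e e' : ZMod 3 → (RO O)ˣ}
  {mu mu' : ZMod 3 → L →+ ℤ}

/-- All singles `u + r i` are exponents. -/
theorem singles (T : Tri phi D r e mu) (hF1 : F1S) (hI : Function.Injective phi)
    (hb : ∀ a ∈ supp D, Bin phi a) {a : L} (ha : a ∈ supp D) (hm : ∃ i, mu i a ≠ 0) :
    ∃ u, Fr phi r mu u ∧ (∀ i, u + r i ∈ supp D) ∧ ∀ (f : L →+ ℤ), (∀ i, f (r i) = 0) →
      f a = f u := by
  rcases T.nf hF1 hI hb ha with h0 | ⟨i, u, hu, rfl⟩ | ⟨i, u, hu, rfl⟩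
  · obtain ⟨i, hi⟩ := hm
    exact absurd (h0 i) hi
  · refine ⟨u, hu, fun j => ?_, fun f hf => by rw [map_add, hf, add_zero]⟩
    have h1 := T.all_eq hF1 hI hb hu i j
    intro h2
    rw [h2, mul_zero] at h1
    exact ha ((mul_eq_zero.mp h1).resolve_left (e i).ne_zero)
  · refine ⟨u, hu, fun j => ?_, fun f hf => by
      rw [map_add, map_add, hf, hf, add_zero, add_zero]⟩
    have h1 := T.pair hF1 hI hb hu (i := i + 1) (j := i - 1) (z3g i) j
    intro h2
    rw [h2, mul_zero, neg_zero] at h1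
    have h3 := (mul_eq_zero.mp h1).resolve_left
      (mul_ne_zero (e (i + 1)).ne_zero (e (i - 1)).ne_zero)
    exact ha h3

/-- OVERLAP: every exponent is killed by all `mu i` or by all `mu' k`. -/
theorem ovl_supp (T : Tri phi D r e mu) (T' : Tri phi D r' e' mu') (hF1 : F1S)
    (hI : Function.Injective phi) (hb : ∀ a ∈ supp D, Bin phi a)
    (hn' : ∀ i k, mu' k (r i) = 0) {i0 k0 : ZMod 3} {q0 : P}
    (h1 : phi (r i0) q0 = 1) (h2 : phi (r' k0) q0 = 1) {a : L} (ha : a ∈ supp D) :
    (∀ i, mu i a = 0) ∨ ∀ k, mu' k a = 0 := by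
  by_contra hcon
  push Not at hcon
  obtain ⟨hm, k1, hk1⟩ := hcon
  obtain ⟨u, hu, hs, hf⟩ := singles T hF1 hI hb ha hm
  have hau : ∀ k, mu' k a = mu' k u := fun k => hf (mu' k) (fun i => hn' i k)
  have hv : ∀ i k, mu' k (u + r i) = mu' k u := fun i k => by rw [map_add, hn', add_zero]
  have hk1' : mu' k1 (u + r i0) ≠ 0 := by rw [hv, ← hau]; exact hk1
  have huq : phi u q0 = 0 := (hu.1 i0 q0).resolve_right (by rw [h1]; norm_num)
  have hrq : phi (r (i0 + 1)) q0 = 0 :=
    (T.dis i0 (i0 + 1) (z3e i0) q0).resolve_left (by rw [h1]; norm_num)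
  have hk0 : phi (r' k0) q0 ≠ 0 := by rw [h2]; norm_num
  obtain ⟨k, m0, ⟨m1, m2⟩ | ⟨m1, m2⟩⟩ := T'.shape (hs i0) ⟨k1, hk1'⟩
  · rw [hv] at m0 m1 m2
    have f0 := T'.ty2 hF1 hI hb (hs i0) (i := k) (by rw [hv, m0]) (by rw [hv, m1]) (by rw [hv, m2])
    have f1 := T'.ty2 hF1 hI hb (hs (i0 + 1)) (i := k) (by rw [hv, m0]) (by rw [hv, m1])
      (by rw [hv, m2])
    have g0 := (f0.1 k0 q0).resolve_right hk0
    have g1 := (f1.1 k0 q0).resolve_right hk0
    simp only [map_sub, map_add, Pi.sub_apply, Pi.add_apply] at g0 g1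
    rw [huq, h1] at g0
    rw [huq, hrq] at g1
    omega
  · rw [hv] at m0 m1 m2
    have f0 := T'.ty1 hF1 hI hb (hs i0) (i := k) (by rw [hv, m0]) (by rw [hv, m1]) (by rw [hv, m2])
    have f1 := T'.ty1 hF1 hI hb (hs (i0 + 1)) (i := k) (by rw [hv, m0]) (by rw [hv, m1])
      (by rw [hv, m2])
    have g0 := (f0.1 k0 q0).resolve_right hk0
    have g1 := (f1.1 k0 q0).resolve_right hk0
    simp only [map_sub, map_add, Pi.sub_apply, Pi.add_apply] at g0 g1
    rw [huq, h1] at g0
    rw [huq, hrq] at g1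
    omega

/-- OVERLAP: `D_(r i + r' k) = 0` for all `i`, `k`. -/
theorem ovl_zero (T : Tri phi D r e mu) (T' : Tri phi D r' e' mu') (hF1 : F1S)
    (hI : Function.Injective phi) (hb : ∀ a ∈ supp D, Bin phi a)
    (hn : ∀ i k, mu i (r' k) = 0) (hn' : ∀ i k, mu' k (r i) = 0) {i0 k0 : ZMod 3} {q0 : P}
    (h1 : phi (r i0) q0 = 1) (h2 : phi (r' k0) q0 = 1) (i k : ZMod 3) :
    D.coeff (r i + r' k) = 0 := by
  by_contra hcon
  rcases ovl_supp T T' hF1 hI hb hn' h1 h2 (a := r i + r' k) hcon with h3 | h3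
  · have := h3 (i + 1)
    rw [map_add, hn, T.prv', add_zero] at this
    norm_num at this
  · have := h3 (k + 1)
    rw [map_add, hn', T'.prv', zero_add] at this
    norm_num at this

end

section

variable {O : Type} [CommRing O] [IsDomain O] [IsPrincipalIdealRing O] [Coef O] {P : Type}
  [Fintype P] [DecidableEq P] {L : Type} [AddCommGroup L] [Module.Free ℤ L] [Module.Finite ℤ L]
  {phi : L →+ (P → ℤ)} {D : AO O L} {r r' : ZMod 3 → L} {e e' : ZMod 3 → (RO O)ˣ}
  {mu mu' : ZMod 3 → L →+ ℤ}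

/-- The ports of `a` are covered by the ports of the elements of `W`. -/
def Cov (phi : L →+ (P → ℤ)) (W : Set L) (a : L) : Prop :=
  ∀ q, phi a q = 1 → ∃ w ∈ W, phi w q = 1

/-- One step: `r i` covered implies `r (i - 1)` covered. -/
theorem tri_step (hFsp : FspS) (hF1 : F1S) (fp : FP phi D) (T : Tri phi D r e mu)
    (hr : ∀ i, r i ∈ supp D) {W : Set L} (hW : ∀ w ∈ W, w ∈ supp D ∧ ∀ i, mu i w = 0)
    {i : ZMod 3} (hi : Cov phi W (r i)) : Cov phi W (r (i - 1)) := by
  classical
  by_contra hcon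
  have hD := fp.dd
  have hI := hD.inj
  have hb := hD.bin
  -- the covered ports
  set Q : Finset P := Finset.univ.filter (fun q => ∀ w ∈ W, phi w q = 0) with hQ
  have hQm : ∀ q, q ∈ Q ↔ ∀ w ∈ W, phi w q = 0 := fun q => by simp [hQ]
  have hcovQ : ∀ a : L, Bin phi a → (Cov phi W a ↔ ∀ q ∈ Q, phi a q = 0) := by
    intro a hba
    constructor
    · intro h q hq
      rcases hba q with h1 | h1
      · exact h1
      · obtain ⟨w, hw, h2⟩ := h q h1
        rw [(hQm q).mp hq w hw] at h2
        exact absurd h2 (by norm_num)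
    · intro h q hq
      by_contra hno
      push Not at hno
      have h1 : q ∈ Q := (hQm q).mpr fun w hw => (hb w (hW w hw).1 q).resolve_right (hno w hw)
      rw [h q h1] at hq
      exact absurd hq (by norm_num)
  set lamQ : L →+ ℤ := ∑ q ∈ Q, co phi q with hlamQ
  have hlQ : ∀ a, lamQ a = ∑ q ∈ Q, phi a q := by
    intro a
    rw [hlamQ, AddMonoidHom.finsetSum_apply]
    rfl
  have hlQ0 : ∀ a ∈ supp D, 0 ≤ lamQ a := by
    intro a ha
    rw [hlQ]
    exact Finset.sum_nonneg fun q _ => by rcases hb a ha q with h | h <;> omega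
  have hlQ1 : ∀ a ∈ supp D, lamQ a = 0 → Cov phi W a := by
    intro a ha h0
    rw [hcovQ a (hb a ha)]
    rw [hlQ] at h0
    exact (Finset.sum_eq_zero_iff_of_nonneg fun q _ => by
      rcases hb a ha q with h | h <;> omega).mp h0
  have hlQ2 : ∀ a, Bin phi a → Cov phi W a → lamQ a = 0 := by
    intro a hba h
    rw [hlQ]
    exact Finset.sum_eq_zero ((hcovQ a hba).mp h)
  -- on covered exponents `mu (i + 1) ≤ 0`
  have hneg : ∀ a ∈ supp D, Cov phi W a → mu (i + 1) a ≤ 0 := by
    intro a ha hca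
    by_contra hpos
    push Not at hpos
    have h1 : mu (i + 1) a = 1 := by rcases T.val (i + 1) a ha with h | h | h <;> omega
    -- `r (i - 1)` is contained in `a`
    have hin : ∀ q, phi (r (i - 1)) q = 1 → phi a q = 1 := by
      rcases T.nf hF1 hI hb ha with h0 | ⟨k, u, hu, rfl⟩ | ⟨k, u, hu, rfl⟩
      · rw [h0] at h1
        exact absurd h1 (by norm_num)
      · have hk : k = i - 1 := by
          obtain ⟨k1, k2, k3⟩ := T.fr_v hu k
          rcases z3h k (i + 1) with h | h | h
          · rw [h, k1] at h1; exact absurd h1 (by norm_num)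
          · rw [h, k2] at h1; exact absurd h1 (by norm_num)
          · have : k = i + 1 + 1 := by rw [h]; exact (z3d k).symm
            rw [this, z3a]
        subst hk
        intro q hq
        rw [map_add, Pi.add_apply, (hu.1 (i - 1) q).resolve_right (by rw [hq]; norm_num), hq,
          zero_add]
      · have hk : k = i := by
          have k0 : mu k (u + r (k + 1) + r (k - 1)) = 0 := by
            rw [map_add, map_add, hu.2, T.nxt, T.prv]; norm_num
          have k2 : mu (k - 1) (u + r (k + 1) + r (k - 1)) = -1 := by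
            rw [map_add, map_add, hu.2, T.slf]
            have := T.prv (k - 1)
            rw [z3b] at this
            rw [this]; norm_num
          rcases z3h k (i + 1) with h | h | h
          · rw [h, k0] at h1; exact absurd h1 (by norm_num)
          · exact (add_right_cancel h).symm
          · rw [h, k2] at h1; exact absurd h1 (by norm_num)
        subst hk
        intro q hq
        have hne : phi (r (k - 1)) q ≠ 0 := by rw [hq]; norm_num
        rw [map_add, map_add, Pi.add_apply, Pi.add_apply,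
          (hu.1 (k - 1) q).resolve_right hne,
          (T.dis (k + 1) (k - 1) (z3g k) q).resolve_right hne, hq]
        norm_num
    exact hcon fun q hq => hca q (hin q hq)
  -- the face
  set lam : L →+ ℤ := 2 • lamQ - mu (i + 1) with hlam
  have hla : ∀ a, lam a = 2 * lamQ a - mu (i + 1) a := by
    intro a
    rw [hlam]
    simp
  set S : Set L := {a | a ∈ supp D ∧ lam a = 0} with hS
  have hnn : ∀ a ∈ supp D, 0 ≤ lam a ∧ (lam a = 0 → lamQ a = 0 ∧ mu (i + 1) a = 0) := by
    intro a ha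
    rw [hla]
    have h1 := hlQ0 a ha
    have h2 := T.val (i + 1) a ha
    rcases h1.lt_or_eq with h3 | h3
    · constructor
      · rcases h2 with h | h | h <;> omega
      · intro h4
        rcases h2 with h | h | h <;> omega
    · have h4 := hneg a ha (hlQ1 a ha h3.symm)
      constructor
      · omega
      · intro h5
        omega
  set K : Submodule ℤ L := satur (Submodule.span ℤ S) with hK
  have hKl : ∀ a ∈ K, lam a = 0 := by
    intro a ha
    obtain ⟨n, hn, hna⟩ := ha
    have h1 : ∀ b ∈ Submodule.span ℤ S, lam b = 0 := by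
      intro b hb
      induction hb using Submodule.span_induction with
      | mem x hx => exact hx.2
      | zero => exact map_zero _
      | add x y _ _ hx hy => rw [map_add, hx, hy, add_zero]
      | smul c x _ hx => rw [map_zsmul, hx, smul_zero]
    have h2 := h1 _ hna
    rw [map_zsmul, smul_eq_mul] at h2
    exact (mul_eq_zero.mp h2).resolve_left hn
  have hSK : ∀ a ∈ S, a ∈ K := fun a ha => le_satur _ (Submodule.subset_span ha)
  have hWS : ∀ w ∈ W, w ∈ K := by
    intro w hw
    obtain ⟨h1, h2⟩ := hW w hw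
    refine hSK w ⟨h1, ?_⟩
    rw [hla, h2, hlQ2 w (hb w h1) (fun q hq => ⟨w, hw, hq⟩)]
    norm_num
  have hri : r i ∉ K := by
    intro h
    have h1 := hKl _ h
    rw [hla, T.prv', hlQ2 _ (T.bin i) hi] at h1
    norm_num at h1
  have hrk : rk {a | a ∈ supp D ∧ a ∈ K} = Module.finrank ℤ K := by
    have h1 : {a | a ∈ supp D ∧ a ∈ K} = S := by
      ext a
      constructor
      · rintro ⟨h1, h2⟩
        exact ⟨h1, hKl a h2⟩
      · intro h
        exact ⟨h.1, hSK a h⟩
    rw [h1, hK, Pool.Agent.B5.H07.finrank_satur]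
    rfl
  obtain ⟨q, hq1, hq2⟩ := hFsp O P L phi D fp K lam (satur_sat _) hKl
    (fun a ha haK => lt_of_le_of_ne (hnn a ha).1 (fun h => haK (hSK a ⟨ha, h.symm⟩)))
    hrk (r i) hri
  have hq3 : phi (r i) q = 1 := (T.bin i q).resolve_left hq2
  obtain ⟨w, hw, hwq⟩ := hi q hq3
  rw [hq1 w (hWS w hw)] at hwq
  exact absurd hwq (by norm_num)

/-- If one `r i` is covered by exponents killed by `mu` then all are. -/
theorem tri_in (hFsp : FspS) (hF1 : F1S) (fp : FP phi D) (T : Tri phi D r e mu)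
    (hr : ∀ i, r i ∈ supp D) {W : Set L} (hW : ∀ w ∈ W, w ∈ supp D ∧ ∀ i, mu i w = 0)
    {i : ZMod 3} (hi : Cov phi W (r i)) (j : ZMod 3) : Cov phi W (r j) := by
  rcases z3h i j with rfl | rfl | rfl
  · exact hi
  · have h1 := tri_step hFsp hF1 fp T hr hW (tri_step hFsp hF1 fp T hr hW hi)
    rwa [z3b] at h1
  · exact tri_step hFsp hF1 fp T hr hW hi

/-- The sum of the triple: binary, its ports are the ports of the `r i`. -/
theorem sum_port (T : Tri phi D r e mu) (q : P) :
    (phi (r 0 + r 1 + r 2) q = 1 ∧ ∃ i, phi (r i) q = 1) ∨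
      (phi (r 0 + r 1 + r 2) q = 0 ∧ ∀ i, phi (r i) q = 0) := by
  have b0 := T.bin 0 q
  have b1 := T.bin 1 q
  have b2 := T.bin 2 q
  have d01 := T.dis 0 1 (by decide) q
  have d02 := T.dis 0 2 (by decide) q
  have d12 := T.dis 1 2 (by decide) q
  simp only [map_add, Pi.add_apply]
  rcases b0 with h0 | h0
  · rcases b1 with h1 | h1
    · rcases b2 with h2 | h2
      · right
        refine ⟨by omega, fun i => ?_⟩
        rcases z3v i with rfl | rfl | rfl <;> assumption
      · left
        exact ⟨by omega, 2, h2⟩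
    · left
      have h2 : phi (r 2) q = 0 := d12.resolve_left (by rw [h1]; norm_num)
      exact ⟨by omega, 1, h1⟩
  · left
    have h1 : phi (r 1) q = 0 := d01.resolve_left (by rw [h0]; norm_num)
    have h2 : phi (r 2) q = 0 := d02.resolve_left (by rw [h0]; norm_num)
    exact ⟨by omega, 0, h0⟩

/-- THE ALTERNATIVES FOR THE PORTS. -/
theorem ovl_alt (hFsp : FspS) (hF1 : F1S) (fp : FP phi D) (T : Tri phi D r e mu)
    (T' : Tri phi D r' e' mu') (hr : ∀ i, r i ∈ supp D) (hr' : ∀ i, r' i ∈ supp D)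
    (hn : ∀ i k, mu i (r' k) = 0) (hn' : ∀ i k, mu' k (r i) = 0) :
    (∀ i, ∃ q, phi (r i) q = 1 ∧ ∀ k, phi (r' k) q = 0) ∨
      (∀ k, ∃ q, phi (r' k) q = 1 ∧ ∀ i, phi (r i) q = 0) ∨
        r 0 + r 1 + r 2 = r' 0 + r' 1 + r' 2 := by
  by_cases h1 : ∀ i, ∃ q, phi (r i) q = 1 ∧ ∀ k, phi (r' k) q = 0
  · exact Or.inl h1
  by_cases h2 : ∀ k, ∃ q, phi (r' k) q = 1 ∧ ∀ i, phi (r i) q = 0
  · exact Or.inr (Or.inl h2)
  right; right
  push Not at h1 h2
  obtain ⟨i, hi⟩ := h1
  obtain ⟨k, hk⟩ := h2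
  have c1 : Cov phi (Set.range r') (r i) := by
    intro q hq
    obtain ⟨k', hk'⟩ := hi q hq
    exact ⟨r' k', ⟨k', rfl⟩, (T'.bin k' q).resolve_left hk'⟩
  have c2 : Cov phi (Set.range r) (r' k) := by
    intro q hq
    obtain ⟨k', hk'⟩ := hk q hq
    exact ⟨r k', ⟨k', rfl⟩, (T.bin k' q).resolve_left hk'⟩
  have d1 := tri_in hFsp hF1 fp T hr (W := Set.range r')
    (by rintro w ⟨k', rfl⟩; exact ⟨hr' k', fun i => hn i k'⟩) c1
  have d2 := tri_in hFsp hF1 fp T' hr' (W := Set.range r)
    (by rintro w ⟨k', rfl⟩; exact ⟨hr k', fun i => hn' k' i⟩) c2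
  apply fp.dd.inj
  funext q
  rcases sum_port T q with ⟨h3, j, hj⟩ | ⟨h3, h4⟩
  · rcases sum_port T' q with ⟨h5, -⟩ | ⟨-, h6⟩
    · rw [h3, h5]
    · obtain ⟨w, ⟨k', rfl⟩, hw⟩ := d1 j q hj
      rw [h6 k'] at hw
      exact absurd hw (by norm_num)
  · rcases sum_port T' q with ⟨-, j, hj⟩ | ⟨h5, -⟩
    · obtain ⟨w, ⟨k', rfl⟩, hw⟩ := d2 j q hj
      rw [h4 k'] at hw
      exact absurd hw (by norm_num)
    · rw [h3, h5]

/-- A linear relation between two triples: the sums are equal. -/
theorem ovl_rank (hE : Function.Injective phi) (T : Tri phi D r e mu) (T' : Tri phi D r' e' mu')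
    (hn : ∀ i k, mu i (r' k) = 0) (hn' : ∀ i k, mu' k (r i) = 0)
    (hne : r 0 + r 1 + r 2 ≠ r' 0 + r' 1 + r' 2) :
    LinearIndependent ℤ (Sum.elim r r') := by
  rw [Fintype.linearIndependent_iff]
  intro g hg
  rw [Fintype.sum_sum_type] at hg
  simp only [Sum.elim_inl, Sum.elim_inr] at hg
  have hs : ∀ (f : ZMod 3 → L), ∑ i, f i = f 0 + f 1 + f 2 := fun f => Fin.sum_univ_three f
  have hp1 : mu 0 (r 1) = 1 := by have := T.nxt 0; rwa [zero_add] at this
  have hp2 : mu 0 (r 2) = -1 := by have := T.prv 0; rwa [show (0 : ZMod 3) - 1 = 2 by decide] at this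
  have hp3 : mu 1 (r 0) = -1 := by have := T.prv 1; rwa [show (1 : ZMod 3) - 1 = 0 by decide] at this
  have hp4 : mu 1 (r 2) = 1 := by have := T.nxt 1; rwa [show (1 : ZMod 3) + 1 = 2 by decide] at this
  have hq1 : mu' 0 (r' 1) = 1 := by have := T'.nxt 0; rwa [zero_add] at this
  have hq2 : mu' 0 (r' 2) = -1 := by
    have := T'.prv 0; rwa [show (0 : ZMod 3) - 1 = 2 by decide] at this
  have hq3 : mu' 1 (r' 0) = -1 := by
    have := T'.prv 1; rwa [show (1 : ZMod 3) - 1 = 0 by decide] at this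
  have hq4 : mu' 1 (r' 2) = 1 := by
    have := T'.nxt 1; rwa [show (1 : ZMod 3) + 1 = 2 by decide] at this
  rw [hs, hs] at hg
  have e0 := congrArg (mu 0) hg
  have e1 := congrArg (mu 1) hg
  have e2 := congrArg (mu' 0) hg
  have e3 := congrArg (mu' 1) hg
  simp only [map_add, map_zsmul, smul_eq_mul, map_zero, hn, hn', T.slf, T'.slf, hp1, hp2, hp3,
    hp4, hq1, hq2, hq3, hq4, mul_zero, mul_one, mul_neg, add_zero, zero_add] at e0 e1 e2 e3
  have a1 : g (Sum.inl 1) = g (Sum.inl 0) := by omega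
  have a2 : g (Sum.inl 2) = g (Sum.inl 0) := by omega
  have b1 : g (Sum.inr 1) = g (Sum.inr 0) := by omega
  have b2 : g (Sum.inr 2) = g (Sum.inr 0) := by omega
  rw [a1, a2, b1, b2, ← smul_add, ← smul_add, ← smul_add, ← smul_add] at hg
  have hq : ∀ q, g (Sum.inl 0) * phi (r 0 + r 1 + r 2) q +
      g (Sum.inr 0) * phi (r' 0 + r' 1 + r' 2) q = 0 := by
    intro q
    have h1 := congrArg (fun x => phi x q) hg
    simpa only [map_add, map_zsmul, Pi.add_apply, Pi.smul_apply, smul_eq_mul, map_zero,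
      Pi.zero_apply] using h1
  have hz : g (Sum.inl 0) = 0 ∧ g (Sum.inr 0) = 0 := by
    obtain ⟨q, hq1⟩ := T.port hE 0
    obtain ⟨q', hq1'⟩ := T'.port hE 0
    by_contra hcon
    have hnz : g (Sum.inl 0) ≠ 0 ∧ g (Sum.inr 0) ≠ 0 := by
      have h1 := hq q
      have h2 := hq q'
      have s1 : phi (r 0 + r 1 + r 2) q = 1 := by
        rcases sum_port T q with h | h
        · exact h.1
        · exact absurd (h.2 0) (by rw [hq1]; norm_num)
      have s2 : phi (r' 0 + r' 1 + r' 2) q' = 1 := by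
        rcases sum_port T' q' with h | h
        · exact h.1
        · exact absurd (h.2 0) (by rw [hq1']; norm_num)
      rw [s1, mul_one] at h1
      rw [s2, mul_one] at h2
      constructor
      · intro h3
        rw [h3, zero_mul, zero_add] at h2
        exact hcon ⟨h3, h2⟩
      · intro h3
        rw [h3, zero_mul, add_zero] at h1
        exact hcon ⟨h1, h3⟩
    apply hne
    apply hE
    funext p
    have h1 := hq p
    rcases sum_port T p with ⟨h3, -⟩ | ⟨h3, -⟩ <;> rcases sum_port T' p with ⟨h4, -⟩ | ⟨h4, -⟩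
    · rw [h3, h4]
    · rw [h3, h4, mul_one, mul_zero, add_zero] at h1
      exact absurd h1 hnz.1
    · rw [h3, h4, mul_one, mul_zero, zero_add] at h1
      exact absurd h1 hnz.2
    · rw [h3, h4]
  intro i
  rcases i with i | i
  · rcases z3v i with rfl | rfl | rfl
    · exact hz.1
    · rw [a1]; exact hz.1
    · rw [a2]; exact hz.1
  · rcases z3v i with rfl | rfl | rfl
    · exact hz.2
    · rw [b1]; exact hz.2
    · rw [b2]; exact hz.2

end

end Pool.Agent.B5.KO.H96
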