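import Pool.Agent.Lib.MP_b5021c_nt.KO.H96.Red
import Pool.Agent.Lib.MP_b5021c_nt.KO.H96.Ovl
import Pool.Agent.Lib.MP_b5021c_nt.KO.H71.Ncl
import Pool.Agent.Lib.MP_b5021c_nt.KO.H67.Tk
import Pool.Agent.Lib.MP_b5021c_nt.KO.H13.Rel

/-!
# MP_b5021c_nt, all `θ`, K odd, leaf O4: components are cycles; two neutral cycles
(helper96)
-/

set_option linter.unusedSectionVars false

namespace Pool.Agent.B5.KO.H96

open scoped LaurentPolynomial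
open Polynomial
open Pool.Agent.B5 Pool.Agent.B5.KE Pool.Agent.B5.H07 Pool.Agent.B5.H63 Pool.Agent.B5.H63.Sel
open Pool.Agent.B5.KO Pool.Agent.B5.KO.H71

section

variable {P L : Type} [Fintype P] [DecidableEq P] [AddCommGroup L] [Module.Free ℤ L]
  [Module.Finite ℤ L] {phi : L →+ (P → ℤ)} {D : AO ℤ L} {q f f' : ℤ[X]} {a : ℝ} {j : ℕ}
  {eta eta' : L → (RO ℤ)ˣ} {C C' : Set L}

/-- The cycle through an element of a component. -/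
theorem cyc_ex (hSf : SfzS) (hClp : ClpS) (hCyc : CycS) (W : KcB phi D q f a j eta 1 C)
    (hu : f.coeff 0 = 1) {S : L} (hS : S ∈ C) :
    ∃ (k : ℕ) (Z : ZMod (k + 3) → L) (mu : ZMod (k + 3) → L →+ ℤ), Cyc phi D eta k Z mu ∧
      Z 0 = S ∧ ∀ i, Z i ∈ C :=
  hCyc ℤ P L phi D eta a⁻¹ C W.ko.min (by have := W.ko.rk; have := W.ko.j2; omega)
    (KO67.aset hSf hClp W hu) S hS

/-- The rays of one cycle form a component. -/
theorem kcB_range (W : KcB phi D q f a j eta 1 C) {k : ℕ} {Z : ZMod (k + 3) → L}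
    {mu : ZMod (k + 3) → L →+ ℤ} (h : Cyc phi D eta k Z mu) (hZ : ∀ i, Z i ∈ C) :
    KcB phi D q f a j eta 1 (Set.range Z) := by
  refine ⟨W.ko, ⟨le_rfl, ⟨Z 0, 0, rfl⟩, ?_, ?_, ?_, ?_, ?_, ?_, fun h2 => absurd h2 (by norm_num)⟩,
    ?_⟩
  · rintro S ⟨i, rfl⟩; exact W.kc.ray _ (hZ i)
  · rintro S ⟨i, rfl⟩; exact W.kc.us _ (hZ i)
  · rintro S ⟨i, rfl⟩; exact W.kc.dr _ (hZ i)
  · rintro S ⟨i, rfl⟩; exact W.kc.fr _ (hZ i)
  · rintro S ⟨i, rfl⟩ T hT hTU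
    refine ⟨?_, (W.kc.mtl _ (hZ i) T hT hTU).2⟩
    rcases O4X.cyc_nb h hT hTU with h1 | h1
    · exact ⟨_, h1.symm⟩
    · exact ⟨_, h1.symm⟩
  · rintro S ⟨i, rfl⟩
    exact ⟨Z (i + 1), ⟨_, rfl⟩, h.mtl i⟩
  · rintro S ⟨i, rfl⟩; exact W.rn _ (hZ i)

/-- THE DICHOTOMY at a cycle: a neutral ray, or every outside ray kills the whole cycle at one
load. -/
theorem neu_or (hF3 : F3S) (hD : DD phi D) {k : ℕ} {Z : ZMod (k + 3) → L}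
    {mu : ZMod (k + 3) → L →+ ℤ} (h : Cyc phi D eta k Z mu) :
    (∃ R, Ray D R ∧ R ∉ Set.range Z ∧ NeuA D (Set.range Z) R) ∨
      ∀ R, Ray D R → (∀ i, R ≠ Z i) → ∃ e : (RO ℤ)ˣ, ∀ i, Z i ∉ US e R D := by
  by_cases h1 : ∃ R, Ray D R ∧ R ∉ Set.range Z ∧ NeuA D (Set.range Z) R
  · exact Or.inl h1
  right
  intro R hR hRZ
  have h2 : ¬ NeuA D (Set.range Z) R := fun h3 =>
    h1 ⟨R, hR, by rintro ⟨i, hi⟩; exact hRZ i hi.symm, h3⟩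
  unfold NeuA at h2
  push Not at h2
  obtain ⟨S, ⟨i, rfl⟩, e, he⟩ := h2
  exact ⟨e, fun i' => KO67.cyc_all hF3 hD h hR hRZ he i'⟩

/-- `Cyc` for another load function which agrees on the cycle. -/
theorem Cyc.congr {k : ℕ} {Z : ZMod (k + 3) → L} {mu : ZMod (k + 3) → L →+ ℤ}
    (h : Cyc phi D eta k Z mu) (he : ∀ i, eta' (Z i) = eta (Z i)) : Cyc phi D eta' k Z mu :=
  ⟨h.inj, fun i => by rw [he, he]; exact h.mtl i, h.dis, fun i j => by rw [he, he]; exact h.coe i j,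
    fun i a => by rw [he]; exact h.ker i a, h.nxt, h.prv, h.oth, h.val⟩

/-- TWO NEUTRAL CYCLES (all data of the case ALPHA). -/
structure Alp (phi : L →+ (P → ℤ)) (D : AO ℤ L) (q f f' : ℤ[X]) (a : ℝ) (j : ℕ)
    (eta : L → (RO ℤ)ˣ) (k k' : ℕ) (Z : ZMod (k + 3) → L) (mu : ZMod (k + 3) → L →+ ℤ)
    (Z' : ZMod (k' + 3) → L) (mu' : ZMod (k' + 3) → L →+ ℤ) : Prop where
  w : KcB phi D q f a j eta 1 (Set.range Z)
  w' : KcB phi D q f' a j eta 1 (Set.range Z')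
  u : f.coeff 0 = 1
  u' : f'.coeff 0 = 1
  n : f.coeff 1 - q.coeff 1 = j + 1
  n' : f'.coeff 1 - q.coeff 1 = j + 1
  c : Cyc phi D eta k Z mu
  c' : Cyc phi D eta k' Z' mu'
  ne : ∀ i l, Z i ≠ Z' l
  z : ∀ i l, mu i (Z' l) = 0
  z' : ∀ i l, mu' l (Z i) = 0
  nu : ∀ i l (e : (RO ℤ)ˣ), Z' l ∈ US e (Z i) D
  nu' : ∀ i l (e : (RO ℤ)ˣ), Z i ∈ US e (Z' l) D

theorem Alp.symm {k k' : ℕ} {Z : ZMod (k + 3) → L} {mu : ZMod (k + 3) → L →+ ℤ}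
    {Z' : ZMod (k' + 3) → L} {mu' : ZMod (k' + 3) → L →+ ℤ}
    (A : Alp phi D q f f' a j eta k k' Z mu Z' mu') :
    Alp phi D q f' f a j eta k' k Z' mu' Z mu :=
  ⟨A.w', A.w, A.u', A.u, A.n', A.n, A.c', A.c, fun i l h => A.ne l i h.symm, fun i l => A.z' l i,
    fun i l => A.z l i, fun i l e => A.nu' l i e, fun i l e => A.nu l i e⟩

/-- CASE ALPHA: a neutral ray gives a second cycle. -/
theorem alp_of (hE2 : E2S) (hF3 : F3S) (hRk : RkUSS) (hL : LMNS) (hMco : McoS) (hOfa : OfaS)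
    (hOfb : OfbS) (hO1 : Oo1S) (hO4 : Oo4S) (hB2 : Ob2S) (hB3 : Ob3S) (hSf : SfzS)
    (hClp : ClpS) (hCyc : CycS) (W : KcB phi D q f a j eta 1 C) (hu : f.coeff 0 = 1)
    (hn : f.coeff 1 - q.coeff 1 = j + 1) {k : ℕ} {Z : ZMod (k + 3) → L}
    {mu : ZMod (k + 3) → L →+ ℤ} (h : Cyc phi D eta k Z mu) (hZ : ∀ i, Z i ∈ C) {R0 : L}
    (hR0 : Ray D R0) (hR0Z : R0 ∉ Set.range Z) (hN0 : NeuA D (Set.range Z) R0) :
    ∃ (f' : ℤ[X]) (eta' : L → (RO ℤ)ˣ) (k' : ℕ) (Z' : ZMod (k' + 3) → L)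
      (mu' : ZMod (k' + 3) → L →+ ℤ), (∀ i, eta' (Z i) = eta (Z i)) ∧
      Alp phi D q f f' a j eta' k k' Z mu Z' mu' := by
  classical
  have W1 := kcB_range W h hZ
  obtain ⟨f', eta1, C1, W2, hu', hn', hne, hN1, hN2⟩ :=
    red hE2 hF3 hRk hL hMco hOfa hOfb hO1 hO4 hB2 hB3 W1 hR0 hR0Z hN0
  obtain ⟨S, hS⟩ := W2.kc.ne
  obtain ⟨k', Z', mu', h', -, hZ'⟩ := cyc_ex hSf hClp hCyc W2 hu' hS
  have W3 := kcB_range W2 h' hZ'
  set eta2 : L → (RO ℤ)ˣ := fun S => if S ∈ Set.range Z then eta S else eta1 S with heta2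
  have hA : ∀ S ∈ Set.range Z, eta2 S = eta S := fun S hS => by
    rw [heta2]; simp only [if_pos hS]
  have hB : ∀ S ∈ Set.range Z', eta2 S = eta1 S := by
    rintro S ⟨i, rfl⟩
    rw [heta2]
    simp only [if_neg (hne _ (hZ' i))]
  have hA' : ∀ i, eta2 (Z i) = eta (Z i) := fun i => hA _ ⟨i, rfl⟩
  have hB' : ∀ i, eta2 (Z' i) = eta1 (Z' i) := fun i => hB _ ⟨i, rfl⟩
  refine ⟨f', eta2, k', Z', mu', hA', ⟨KcB.congr W1 hA, KcB.congr W3 hB, hu, hu', hn, hn',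
    Cyc.congr h hA', Cyc.congr h' hB', ?_, ?_, ?_, ?_, ?_⟩⟩
  · intro i l he
    exact hne _ (hZ' l) ⟨i, he⟩
  · intro i l
    exact (h.ker i _).mp (hN2 (Z i) ⟨i, rfl⟩ (Z' l) (hZ' l) (eta (Z i)))
  · intro i l
    exact (h'.ker l _).mp (hN1 (Z' l) (hZ' l) (Z i) ⟨i, rfl⟩ (eta1 (Z' l)))
  · intro i l e
    exact hN2 (Z i) ⟨i, rfl⟩ (Z' l) (hZ' l) e
  · intro i l e
    exact hN1 (Z' l) (hZ' l) (Z i) ⟨i, rfl⟩ e

/-- The triples of case ALPHA, both lengths three. -/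
theorem Alp.tri (hE2 : E2S) {Z Z' : ZMod 3 → L} {mu mu' : ZMod 3 → L →+ ℤ}
    (A : Alp phi D q f f' a j eta 0 0 Z mu Z' mu') :
    Tri phi D Z (fun i => eta (Z i)) mu ∧ Tri phi D Z' (fun i => eta (Z' i)) mu' := by
  have hD := A.w.ko.min.fp.dd
  have h2 : 2 ≤ Module.finrank ℤ L := by have := A.w.ko.rk; have := A.w.ko.j2; omega
  obtain ⟨-, -, -, -, hrk, -⟩ := hE2 ℤ P L phi D hD h2
  exact ⟨Cyc.tri hD hrk A.c, Cyc.tri hD hrk A.c'⟩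

/-- The triple of case ALPHA, second length three. -/
theorem Alp.tri' (hE2 : E2S) {k : ℕ} {Z : ZMod (k + 3) → L} {mu : ZMod (k + 3) → L →+ ℤ}
    {Z' : ZMod 3 → L} {mu' : ZMod 3 → L →+ ℤ} (A : Alp phi D q f f' a j eta k 0 Z mu Z' mu') :
    Tri phi D Z' (fun i => eta (Z' i)) mu' := by
  have hD := A.w.ko.min.fp.dd
  have h2 : 2 ≤ Module.finrank ℤ L := by have := A.w.ko.rk; have := A.w.ko.j2; omega
  obtain ⟨-, -, -, -, hrk, -⟩ := hE2 ℤ P L phi D hD h2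
  exact Cyc.tri hD hrk A.c'

/-- Both lengths three: the alternatives for the ports. -/
theorem Alp.alt (hE2 : E2S) (hFsp : FspS) (hF1 : F1S) {Z Z' : ZMod 3 → L}
    {mu mu' : ZMod 3 → L →+ ℤ} (A : Alp phi D q f f' a j eta 0 0 Z mu Z' mu') :
    ((∀ i l p, phi (Z i) p = 0 ∨ phi (Z' l) p = 0) ∨
      ((∀ i l, D.coeff (Z i + Z' l) = 0) ∧
        ∀ b ∈ supp D, (∀ i, mu i b = 0) ∨ ∀ l, mu' l b = 0)) ∧
    ((∀ i, ∃ p, phi (Z i) p = 1 ∧ ∀ l, phi (Z' l) p = 0) ∨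
      (∀ l, ∃ p, phi (Z' l) p = 1 ∧ ∀ i, phi (Z i) p = 0) ∨
        Z 0 + Z 1 + Z 2 = Z' 0 + Z' 1 + Z' 2) ∧
    (Z 0 + Z 1 + Z 2 = Z' 0 + Z' 1 + Z' 2 ∨ 3 ≤ j) := by
  have fp := A.w.ko.min.fp
  have hD := fp.dd
  obtain ⟨T, T'⟩ := Alp.tri hE2 A
  have hr : ∀ i, Z i ∈ supp D := fun i => (A.c.mtl i).r0.1
  have hr' : ∀ i, Z' i ∈ supp D := fun i => (A.c'.mtl i).r0.1
  refine ⟨?_, ovl_alt hFsp hF1 fp T T' hr hr' A.z (fun i k => A.z' i k), ?_⟩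
  · by_cases h : ∀ i l p, phi (Z i) p = 0 ∨ phi (Z' l) p = 0
    · exact Or.inl h
    right
    push Not at h
    obtain ⟨i, l, p, h1, h2⟩ := h
    have h1' : phi (Z i) p = 1 := (hD.bin _ (hr i) p).resolve_left h1
    have h2' : phi (Z' l) p = 1 := (hD.bin _ (hr' l) p).resolve_left h2
    exact ⟨fun i k => ovl_zero T T' hF1 hD.inj hD.bin A.z (fun i k => A.z' i k) h1' h2' i k,
      fun b hb => ovl_supp T T' hF1 hD.inj hD.bin (fun i k => A.z' i k) h1' h2' hb⟩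
  · by_cases h : Z 0 + Z 1 + Z 2 = Z' 0 + Z' 1 + Z' 2
    · exact Or.inl h
    right
    have h1 := ovl_rank hD.inj T T' A.z (fun i k => A.z' i k) h
    have h2 := h1.fintype_card_le_finrank
    have h3 : Fintype.card (ZMod 3 ⊕ ZMod 3) = 6 := by
      rw [Fintype.card_sum, ZMod.card]
    have h4 := A.w.ko.rk
    omega

end

end Pool.Agent.B5.KO.H96
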