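import Pool.Agent.Lib.MP_b5021c_nt.KO.H96.Red2
import Pool.Agent.Lib.MP_b5021c_nt.KO.H62.Split
import Pool.Agent.Lib.MP_b5021c_nt.KO.H40.Df4

/-!
# MP_b5021c_nt, all `θ`, K odd, leaf O4: the assembly of ALPHA and the start of the leaf `l = 4`
(helper96)

* `l1` : a neutral pair gives a neutral ray.
* `Oal3S` : two neutral cycles, the first of length three or four, the second of length three.
* `ob4a_of` : `Ob4aS` from `Oal3S` and `Ob45S`.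
* `ball_q4` : all cycles have length four and no ray kills a 4-cycle: `Ball` and `Q4`.
-/

set_option linter.unusedSectionVars false

namespace Pool.Agent.B5.KO.H96

open scoped LaurentPolynomial
open Polynomial
open Pool.Agent.B5 Pool.Agent.B5.KE Pool.Agent.B5.H07 Pool.Agent.B5.H63 Pool.Agent.B5.H63.Sel
open Pool.Agent.B5.KO

section

variable {P L : Type} [Fintype P] [DecidableEq P] [AddCommGroup L] [Module.Free ℤ L]
  [Module.Finite ℤ L] {phi : L →+ (P → ℤ)} {D : AO ℤ L} {q f f' : ℤ[X]} {a : ℝ} {j : ℕ}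
  {eta eta' : L → (RO ℤ)ˣ} {C C' : Set L}

/-- (L1) a neutral pair gives a neutral ray. -/
theorem l1 (hE2 : E2S) (hF3 : F3S) (hRk : RkUSS) (W : KcB phi D q f a j eta 1 C) {k : ℕ}
    {Z : ZMod (k + 3) → L} {mu : ZMod (k + 3) → L →+ ℤ} (h : Cyc phi D eta k Z mu)
    (hZ : ∀ i, Z i ∈ C) {T : L} {lam : (RO ℤ)ˣ} (hT : Ray D T) (hTZ : ∀ i, T ≠ Z i)
    (hdr : ¬ Dfr phi D T lam) (hin : ∀ i, Z i ∈ US lam T D) :
    ∃ R, Ray D R ∧ R ∉ Set.range Z ∧ NeuA D (Set.range Z) R := by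
  have hD := W.ko.min.fp.dd
  have h2 : 2 ≤ Module.finrank ℤ L := by have := W.ko.rk; have := W.ko.j2; omega
  obtain ⟨-, -, -, -, hrk, -⟩ := hE2 ℤ P L phi D hD h2
  have hlt : Module.finrank ℤ (US lam T D) < Module.finrank ℤ L := by
    refine lt_of_le_of_ne (Submodule.finrank_le _) fun he => hdr fun i0 hi => ?_
    have h6 := hRk ℤ P L phi D T i0 hi lam hD.inj hD.bin (hD.bin _ hT.1)
    omega
  obtain ⟨R, hR, hRU⟩ := exists_ray hrk (US lam T D) hlt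
  have W1 := kcB_range W h hZ
  obtain ⟨h3, h4⟩ := neu_step hF3 hD W1.kc hT (by rintro ⟨i, hi⟩; exact hTZ i hi.symm)
    (by rintro S ⟨i, rfl⟩; exact hin i) hR hRU
  exact ⟨R, hR, h3, h4⟩

end

/-- (O43) TWO NEUTRAL CYCLES of the lengths `3` or `4`, and `3`. [ALPHA, helper92] -/
def Oal3S : Prop := ∀ (P L : Type) [Fintype P] [DecidableEq P] [AddCommGroup L]
  [Module.Free ℤ L] [Module.Finite ℤ L] (phi : L →+ (P → ℤ)) (D : AO ℤ L) (q f f' : ℤ[X])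
  (a : ℝ) (j : ℕ) (eta : L → (RO ℤ)ˣ) (k : ℕ) (Z : ZMod (k + 3) → L)
  (mu : ZMod (k + 3) → L →+ ℤ) (Z' : ZMod (0 + 3) → L) (mu' : ZMod (0 + 3) → L →+ ℤ),
    k ≤ 1 → Alp phi D q f f' a j eta k 0 Z mu Z' mu' → False

/-- ALPHA from two neutral cycles. -/
theorem ob4a_of (hE2 : E2S) (hF3 : F3S) (hRk : RkUSS) (hL : LMNS) (hMco : McoS) (hOfa : OfaS)
    (hOfb : OfbS) (hO1 : Oo1S) (hO4 : Oo4S) (hB2 : Ob2S) (hB3 : Ob3S) (hSf : SfzS)
    (hClp : ClpS) (hCyc : CycS) (h45 : Ob45S) (hA : Oal3S) : Ob4aS := by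
  intro P L _ _ _ _ _ phi D q f a j eta C Z mu T lam W hu hn h hZ hN
  obtain ⟨R, hR, hRZ, hRN⟩ := l1 hE2 hF3 hRk W h hZ hN.1 hN.2.1 hN.2.2.1 hN.2.2.2
  obtain ⟨f', eta', k', Z', mu', -, A⟩ := alp_of hE2 hF3 hRk hL hMco hOfa hOfb hO1 hO4 hB2 hB3
    hSf hClp hCyc W hu hn h hZ hR hRZ hRN
  rcases k' with _ | k'
  · exact hA P L phi D q f f' a j eta' 0 Z mu Z' mu' (by norm_num) A
  · rcases k' with _ | k'
    · exact hA P L phi D q f' f a j eta' 1 Z' mu' Z mu le_rfl A.symm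
    · exact h45 P L phi D q f' a j eta' _ k' Z' mu' A.w' A.u' A.n' A.c' fun i => ⟨i, rfl⟩

section

variable {P L : Type} [Fintype P] [DecidableEq P] [AddCommGroup L] [Module.Free ℤ L]
  [Module.Finite ℤ L] {phi : L →+ (P → ℤ)} {D : AO ℤ L} {q f f' : ℤ[X]} {a : ℝ} {j : ℕ}
  {eta eta' : L → (RO ℤ)ˣ} {C C' : Set L}

/-- (MIX) all cycles have length four, no ray kills a 4-cycle: every ray lies in a 4-cycle, one
load function. -/
theorem ball_q4 (hE2 : E2S) (hF3 : F3S) (hRk : RkUSS) (hL : LMNS) (hMco : McoS) (hOfa : OfaS)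
    (hOfb : OfbS) (hO1 : Oo1S) (hO4 : Oo4S) (hB2 : Ob2S) (hB3 : Ob3S) (hSf : SfzS)
    (hClp : ClpS) (hCyc : CycS) (hKo : Ko phi D q a j) (h4 : All4 phi D q a j)
    (hno : ∀ (f : ℤ[X]) (eta : L → (RO ℤ)ˣ) (C : Set L) (Z : ZMod (1 + 3) → L)
      (mu : ZMod (1 + 3) → L →+ ℤ), KcB phi D q f a j eta 1 C → f.coeff 0 = 1 →
        f.coeff 1 - q.coeff 1 = j + 1 → Cyc phi D eta 1 Z mu → (∀ i, Z i ∈ C) →
        ∀ R, Ray D R → (∀ i, R ≠ Z i) → ∀ (i : ZMod (1 + 3)) (e : (RO ℤ)ˣ), Z i ∈ US e R D) :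
    ∃ eta : L → (RO ℤ)ˣ, H40.Ball phi D q a j eta ∧ O4X.Q4 phi D eta := by
  obtain ⟨eta, hB, -⟩ := ball_of hE2 hF3 hRk hL hMco hOfa hOfb hO1 hO4 hB2 hB3 hKo (by
    intro f eta C W hu hn R hR hRC S hS e
    obtain ⟨k, Z, mu, h, h0, hZ⟩ := cyc_ex hSf hClp hCyc W hu hS
    have hk := h4 f eta C k Z mu W hu hn h hZ
    subst hk
    rw [← h0]
    exact hno f eta C Z mu W hu hn h hZ R hR (fun i hi => hRC (hi ▸ hZ i)) 0 e)
  refine ⟨eta, fun R hR => hB R hR, fun T hT => ?_⟩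
  obtain ⟨f, C, W, hu, hn, hTC⟩ := hB T hT
  obtain ⟨k, Z, mu, h, h0, hZ⟩ := cyc_ex hSf hClp hCyc W hu hTC
  have hk := h4 f eta C k Z mu W hu hn h hZ
  subst hk
  exact ⟨Z, mu, h, h0⟩

end

end Pool.Agent.B5.KO.H96
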