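import Pool.Agent.Lib.MP_b5021c_nt.KO.H96.Patx
import Pool.Agent.Lib.MP_b5021c_nt.KO.H67.Tri
import Pool.Agent.Lib.MP_b5021c_nt.E.H07.Mcf
import Pool.Agent.Lib.MP_b5021c_nt.H47.Mut

/-!
# MP_b5021c_nt, all `θ`, K odd: PATX at a component `C`, pairs and triples of closed rays
-/

set_option linter.unusedSectionVars false

namespace Pool.Agent.B5.KO

open scoped LaurentPolynomial
open Polynomial
open Pool.Agent.B5.H07 Pool.Agent.B5.H63
open Pool.Agent.B5.KE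

section

variable {P L : Type} [Fintype P] [DecidableEq P] [AddCommGroup L] [Module.Free ℤ L]
  [Module.Finite ℤ L] {phi : L →+ (P → ℤ)} {D : AO ℤ L} {ι : Type} [Fintype ι] [DecidableEq ι]

/-- From the class sums at the ports `p i` to `MKil` (independent closed rays). -/
theorem MKil.mk' (hF1 : F1S) (hD : DD phi D) {Z : ι → L} {e w : ι → (RO ℤ)ˣ}
    (h : Msys phi D Z e) {nu : L →+ ℤ} {p : ι → P} (hp : ∀ i, phi (Z i) (p i) = 1)
    (hz : ∀ i, nu (Z i) = 0)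
    (hf : ∀ a, (∀ i, phi a (p i) = 0) → nu a ≠ 0 → msum D Z w a = 0) : MKil phi D Z w nu := by
  classical
  refine ⟨hz, ?_, fun x hx hn => hf x (fun i => (hx i (p i)).resolve_right (by
    rw [hp i]; exact one_ne_zero)) hn⟩
  rintro x hx ⟨i, hi⟩
  by_contra hn
  -- values of sums of the closed rays at ports of `Z j`
  have hval : ∀ (m : ι → ℤ) (j : ι) (q : P), phi (Z j) q = 1 → phi (∑ k, m k • Z k) q = m j := by
    intro m j q hq
    rw [map_sum, Finset.sum_apply, Finset.sum_eq_single j]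
    · rw [map_zsmul, Pi.smul_apply, hq, smul_eq_mul, mul_one]
    · intro k _ hkj
      rw [map_zsmul, Pi.smul_apply, (h.dis k j hkj q).resolve_right (by rw [hq]; exact one_ne_zero),
        smul_zero]
    · intro hj
      exact absurd (Finset.mem_univ j) hj
  set s : Finset ι := Finset.univ.filter fun j => phi x (p j) = 1 with hs
  have hsum : ∀ T : Finset ι, ∑ j ∈ T, Z j = ∑ j, (if j ∈ T then (1 : ℤ) else 0) • Z j := by
    intro T
    simp [ite_smul]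
  have ha0 : ∀ j, phi (x - ∑ k ∈ s, Z k) (p j) = 0 := by
    intro j
    rw [hsum, map_sub, Pi.sub_apply, hval _ j (p j) (hp j)]
    rcases hD.bin x hx (p j) with h1 | h1
    · have hj : j ∉ s := by
        rw [hs, Finset.mem_filter]
        rintro ⟨-, h2⟩
        omega
      rw [h1, if_neg hj, sub_zero]
    · have hj : j ∈ s := by
        rw [hs, Finset.mem_filter]
        exact ⟨Finset.mem_univ j, h1⟩
      rw [h1, if_pos hj, sub_self]
  have hna : nu (x - ∑ k ∈ s, Z k) ≠ 0 := by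
    rw [map_sub, map_sum, Finset.sum_eq_zero fun k _ => hz k, sub_zero]
    exact hn
  have h0 := hf _ ha0 hna
  -- the class has one member
  have hone : ∀ T : Finset ι, T ≠ s → D.coeff (x - ∑ k ∈ s, Z k + ∑ k ∈ T, Z k) = 0 := by
    intro T hT
    by_contra hc
    apply hT
    set m : ι → ℤ := fun j => (if j ∈ T then (1 : ℤ) else 0) - (if j ∈ s then (1 : ℤ) else 0)
      with hm
    have hxm : x - ∑ k ∈ s, Z k + ∑ k ∈ T, Z k = x + ∑ j, m j • Z j := by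
      rw [hsum s, hsum T, hm]
      simp only [sub_smul, Finset.sum_sub_distrib]
      abel
    have hc' : x + ∑ j, m j • Z j ∈ supp D := by
      rw [← hxm]
      exact hc
    obtain ⟨⟨q1, hq1, hq1'⟩, q2, hq2, hq2'⟩ := hi
    have hb1 := hD.bin _ hc' q1
    have hb2 := hD.bin _ hc' q2
    rw [map_add, Pi.add_apply, hval m i q1 hq1', hq1] at hb1
    rw [map_add, Pi.add_apply, hval m i q2 hq2', hq2] at hb2
    have hmi : m i = 0 := by omega
    have hp' : Part phi (Z i) (x + ∑ j, m j • Z j) := by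
      refine ⟨⟨q1, ?_, hq1'⟩, q2, ?_, hq2'⟩
      · rw [map_add, Pi.add_apply, hval m i q1 hq1', hq1, hmi, add_zero]
      · rw [map_add, Pi.add_apply, hval m i q2 hq2', hq2, hmi, add_zero]
    have h1 := f1p (e := e i) hF1 hD (h.ray i) hc' hp'
    have h2 := f1p (e := e i) hF1 hD (h.ray i) hx ⟨⟨q1, hq1, hq1'⟩, q2, hq2, hq2'⟩
    have h3 := Submodule.sub_mem _ h1 h2
    rw [add_sub_cancel_left] at h3
    have h4 := h.ind i m hmi h3
    ext j
    have h5 := congrFun h4 j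
    simp only [hm, Pi.zero_apply] at h5
    by_cases hjT : j ∈ T <;> by_cases hjs : j ∈ s <;> simp_all
  rw [msum, Finset.sum_eq_single s (fun T _ hT => by rw [hone T hT, mul_zero])
    (fun h1 => absurd (Finset.mem_univ s) h1), sub_add_cancel] at h0
  rcases mul_eq_zero.mp h0 with h1 | h1
  · rw [Finset.prod_eq_zero_iff] at h1
    obtain ⟨k, -, hk⟩ := h1
    exact (w k).ne_zero hk
  · exact hx h1

/-- (PATX) AT A COMPONENT. -/
theorem Kc_patx (hF1 : F1S) (hF2 : F2S) (hF3 : F3S) (hI : Inj1S) (fp : FP phi D) {g : ℕ}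
    {eta : L → (RO ℤ)ˣ} {C : Set L} (hC : Kc phi D eta g C) (hall : Abd D eta) {Z : ι → L}
    (hZ : ∀ i, Z i ∈ C) (hM : Msys phi D Z (fun i => eta (Z i))) {t : ι → (RO ℤ)ˣ} {nu : L →+ ℤ}
    (hk : MKil phi D Z (fun i => eta (Z i) * t i) nu) {T : L} (hT : Ray D T) (hn : nu T ≠ 0)
    (hTC : T ∉ C) (hne : ∀ i, (eta T : RO ℤ) * D.coeff T ≠
      (1 - ∏ j, (1 - (t j : RO ℤ))) * ((eta (Z i) : RO ℤ) * D.coeff (Z i))) :
    ∃ (R : L) (r : RO ℤ), Fm D eta R ∧ (∀ i, R ∉ Comp D eta (Z i)) ∧ Ouv phi Z R ∧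
      (∀ i, R ∈ US (eta (Z i)) (Z i) D) ∧
      (∀ i, ∀ S ∈ Comp D eta (Z i), S ∈ US (eta R) R D ∧ S ∈ US (eta T) T D) ∧
      US (eta T) T D ≤ US (eta R) R D ∧ r ≠ 0 ∧
      D.coeff R = r * (1 - ∏ j, (1 - (t j : RO ℤ))) ∧
      ∀ i, (eta (Z i) : RO ℤ) * D.coeff (R + Z i) = -r := by
  have hD := fp.dd
  have hTo := hk.ouv hI fp hM.ray hT hn
  have hTU : ∀ i, T ∈ US (eta (Z i)) (Z i) D := fun i => Kc_out hC (hZ i) hT hTC
  obtain ⟨rT, -, hr1, hr2⟩ := hM.killed hF1 hD hT hTo hTU (hk.free T hTo hn)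
  have hU : ∀ i, Z i ∈ US (eta T) T D := by
    intro i
    by_contra h
    exact hne i (Msys.p4 hF1 hD hT hTo hr1 hr2 h)
  obtain ⟨R, hR, hle, -, hRo, hRm⟩ := hk.patx hF1 hF2 hF3 hI fp hM.ray hall hT hn hU
  have hZR : ∀ i, Z i ∈ US (eta R) R D := fun i => hle (hU i)
  have hRU : ∀ i, R ∈ US (eta (Z i)) (Z i) D := fun i => (Kc_fm hC (hZ i)).in_US hR.1 (hZR i)
  obtain ⟨r, hr0, hr3, hr4⟩ := hM.killed hF1 hD hR.1 hRo hRU hRm
  -- the components of the `Z i`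
  have hcomp : ∀ i, ∀ S ∈ Comp D eta (Z i), S ∈ C ∧ S ∈ US (eta T) T D := by
    intro i S hS
    induction hS with
    | refl => exact ⟨hZ i, hU i⟩
    | tail _ m ih =>
      have h1 := (hC.mtl _ ih.1 _ m.r1 m.m0).1
      exact ⟨h1, Kc_nbr hF3 hD hC h1 hT hTC m ih.2⟩
  refine ⟨R, r, hR, ?_, hRo, hRU, fun i S hS => ⟨hle (hcomp i S hS).2, (hcomp i S hS).2⟩, hle,
    hr0, hr3, hr4⟩
  intro i hRC
  obtain ⟨T', hT', hU'⟩ := hall R hR.1
  have m := hR.mut hT' hU'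
  exact hU' (hle (hcomp i T' (comp_step hRC m)).2)

/-! ## Pairs -/

theorem sum_fs2 (f : Finset (Fin 2) → RO ℤ) : ∑ s, f s = f ∅ + f {0} + f {1} + f {0, 1} := by
  have h1 : (Finset.univ : Finset (Finset (Fin 2))) = {∅, {0}, {1}, {0, 1}} := by decide
  rw [h1, Finset.sum_insert (by decide), Finset.sum_insert (by decide),
    Finset.sum_insert (by decide), Finset.sum_singleton]
  ring

theorem msum_two (S0 S1 : L) (u0 u1 : (RO ℤ)ˣ) (x : L) :
    msum D ![S0, S1] ![u0, u1] x = D.coeff x + (u0 : RO ℤ) * D.coeff (x + S0) +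
      (u1 : RO ℤ) * D.coeff (x + S1) + (u0 : RO ℤ) * (u1 : RO ℤ) * D.coeff (x + S0 + S1) := by
  unfold msum
  rw [sum_fs2]
  have h2 : (0 : Fin 2) ∉ ({1} : Finset (Fin 2)) := by decide
  rw [Finset.prod_insert h2, Finset.sum_insert h2]
  simp only [Finset.prod_empty, Finset.sum_empty, Finset.prod_singleton, Finset.sum_singleton,
    Matrix.cons_val_zero, Matrix.cons_val_one, add_zero, one_mul]
  rw [add_assoc x S0 S1]

theorem ouv_two {S0 S1 x : L} : Ouv phi ![S0, S1] x ↔ Out phi S0 S1 x := by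
  constructor
  · intro h q
    rcases h 0 q with h1 | h1
    · exact Or.inl h1
    · rcases h 1 q with h2 | h2
      · exact Or.inl h2
      · exact Or.inr ⟨h1, h2⟩
  · intro h i q
    rcases h q with h1 | h1
    · exact Or.inl h1
    · fin_cases i
      · exact Or.inr h1.1
      · exact Or.inr h1.2

/-- A killed pair. -/
theorem MKil.two {S0 S1 : L} {u0 u1 : (RO ℤ)ˣ} {nu : L →+ ℤ} (h : Kil phi D S0 S1 u0 u1 nu) :
    MKil phi D ![S0, S1] ![u0, u1] nu := by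
  refine ⟨?_, ?_, ?_⟩
  · intro i
    fin_cases i
    · exact h.s0
    · exact h.s1
  · rintro x hx ⟨i, hi⟩
    fin_cases i
    · exact h.part x hx (Or.inl hi)
    · exact h.part x hx (Or.inr hi)
  · intro x hx hn
    rw [msum_two]
    exact h.free x (ouv_two.mp hx) hn

/-- A mutual pair. -/
theorem Msys.two (hMco : McoS) (hD : DD phi D) {S0 S1 : L} {e0 e1 : (RO ℤ)ˣ}
    (m : Mut D S0 S1 e0 e1) : Msys phi D ![S0, S1] ![e0, e1] := by
  have hd := (hMco ℤ P L phi D S0 S1 e0 e1 hD.inj hD.bin m).1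
  refine ⟨?_, ?_, ?_⟩
  · intro i
    fin_cases i
    · exact m.r0
    · exact m.r1
  · intro i j hij q
    fin_cases i <;> fin_cases j
    · exact absurd rfl hij
    · exact hd q
    · exact (hd q).symm
    · exact absurd rfl hij
  · intro i c hi hc
    rw [Fin.sum_univ_two] at hc
    fin_cases i
    · change c 0 = 0 at hi
      rw [hi, zero_smul, zero_add] at hc
      have h1 : c 1 = 0 := by
        by_contra h
        exact m.m0 (KO67.satUS _ _ _ _ h hc)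
      ext k
      fin_cases k
      · exact hi
      · exact h1
    · change c 1 = 0 at hi
      rw [hi, zero_smul, add_zero] at hc
      have h1 : c 0 = 0 := by
        by_contra h
        exact m.m1 (KO67.satUS _ _ _ _ h hc)
      ext k
      fin_cases k
      · exact h1
      · exact hi

/-- (PATX) AT A PAIR. -/
theorem Kc_patx2 (hF1 : F1S) (hF2 : F2S) (hF3 : F3S) (hI : Inj1S) (hMco : McoS) (fp : FP phi D)
    {g : ℕ} {eta : L → (RO ℤ)ˣ} {C : Set L} (hC : Kc phi D eta g C) (hall : Abd D eta)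
    {S0 S1 : L} (hS0 : S0 ∈ C) (m : Mut D S0 S1 (eta S0) (eta S1)) {t0 t1 : (RO ℤ)ˣ}
    {nu : L →+ ℤ} (hk : Kil phi D S0 S1 (eta S0 * t0) (eta S1 * t1) nu) {T : L} (hT : Ray D T)
    (hn : nu T ≠ 0) (hTC : T ∉ C) (hne : (eta T : RO ℤ) * D.coeff T ≠
      (1 - (1 - (t0 : RO ℤ)) * (1 - (t1 : RO ℤ))) * ((eta S0 : RO ℤ) * D.coeff S0)) :
    ∃ (R : L) (r : RO ℤ), Fm D eta R ∧ R ∉ Comp D eta S0 ∧ Out phi S0 S1 R ∧
      R ∈ US (eta S0) S0 D ∧ R ∈ US (eta S1) S1 D ∧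
      (∀ S ∈ Comp D eta S0, S ∈ US (eta R) R D ∧ S ∈ US (eta T) T D) ∧
      US (eta T) T D ≤ US (eta R) R D ∧ r ≠ 0 ∧
      D.coeff R = r * (1 - (1 - (t0 : RO ℤ)) * (1 - (t1 : RO ℤ))) ∧
      (eta S0 : RO ℤ) * D.coeff (R + S0) = -r ∧ (eta S1 : RO ℤ) * D.coeff (R + S1) = -r := by
  have hS1 : S1 ∈ C := (hC.mtl S0 hS0 S1 m.r1 m.m0).1
  have hco := (hMco ℤ P L phi D S0 S1 _ _ fp.dd.inj fp.dd.bin m).2.1
  have e1 : (fun i => eta (![S0, S1] i)) = ![eta S0, eta S1] := by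
    funext i
    fin_cases i <;> rfl
  have e2 : (fun i => eta (![S0, S1] i) * ![t0, t1] i) = ![eta S0 * t0, eta S1 * t1] := by
    funext i
    fin_cases i <;> rfl
  have e3 : ∏ j, (1 - ((![t0, t1] j : (RO ℤ)ˣ) : RO ℤ)) = (1 - (t0 : RO ℤ)) * (1 - (t1 : RO ℤ)) := by
    rw [Fin.prod_univ_two]
    rfl
  obtain ⟨R, r, h1, h2, h3, h4, h5, h6, h7, h8, h9⟩ := Kc_patx (Z := ![S0, S1]) (t := ![t0, t1])
    hF1 hF2 hF3 hI fp hC hall (by intro i; fin_cases i; exacts [hS0, hS1])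
    (by rw [e1]; exact Msys.two hMco fp.dd m) (nu := nu) (by rw [e2]; exact MKil.two hk) hT hn hTC
    (by
      intro i
      rw [e3]
      fin_cases i
      · exact hne
      · change _ ≠ _ * ((eta S1 : RO ℤ) * D.coeff S1)
        rw [hco]
        exact hne)
  rw [e3] at h8
  exact ⟨R, r, h1, h2 0, ouv_two.mp h3, h4 0, h4 1, h5 0, h6, h7, h8, h9 0, h9 1⟩

/-! ## Triples -/

theorem sum_fs3 (f : Finset (Fin 3) → RO ℤ) : ∑ s, f s = f ∅ + f {0} + f {1} + f {0, 1} +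
    (f {2} + f {0, 2} + f {1, 2} + f {0, 1, 2}) := by
  have h1 : (Finset.univ : Finset (Finset (Fin 3))) =
      {∅, {0}, {1}, {0, 1}, {2}, {0, 2}, {1, 2}, {0, 1, 2}} := by decide
  rw [h1, Finset.sum_insert (by decide), Finset.sum_insert (by decide),
    Finset.sum_insert (by decide), Finset.sum_insert (by decide), Finset.sum_insert (by decide),
    Finset.sum_insert (by decide), Finset.sum_insert (by decide), Finset.sum_singleton]
  ring

theorem msum_three (S0 S1 S2 : L) (u0 u1 u2 : (RO ℤ)ˣ) (x : L) :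
    msum D ![S0, S1, S2] ![u0, u1, u2] x = msum D ![S0, S1] ![u0, u1] x +
      (u2 : RO ℤ) * msum D ![S0, S1] ![u0, u1] (x + S2) := by
  rw [msum_two, msum_two]
  unfold msum
  rw [sum_fs3]
  have h1 : (0 : Fin 3) ∉ ({1} : Finset (Fin 3)) := by decide
  have h2 : (0 : Fin 3) ∉ ({2} : Finset (Fin 3)) := by decide
  have h3 : (1 : Fin 3) ∉ ({2} : Finset (Fin 3)) := by decide
  have h4 : (0 : Fin 3) ∉ ({1, 2} : Finset (Fin 3)) := by decide
  rw [Finset.prod_insert h4, Finset.sum_insert h4, Finset.prod_insert h3, Finset.sum_insert h3,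
    Finset.prod_insert h2, Finset.sum_insert h2, Finset.prod_insert h1, Finset.sum_insert h1]
  simp only [Finset.prod_empty, Finset.sum_empty, Finset.prod_singleton, Finset.sum_singleton,
    Matrix.cons_val_zero, Matrix.cons_val_one, Matrix.cons_val, add_zero, one_mul]
  rw [show x + (S0 + S1) = x + S0 + S1 by abel, show x + (S0 + S2) = x + S2 + S0 by abel,
    show x + (S1 + S2) = x + S2 + S1 by abel,
    show x + (S0 + (S1 + S2)) = x + S2 + S0 + S1 by abel]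
  ring

/-- Three rays, pairwise mutual and independent. -/
theorem Msys.three (hMco : McoS) (hD : DD phi D) {S0 S1 S2 : L} {e0 e1 e2 : (RO ℤ)ˣ}
    (m1 : Mut D S0 S1 e0 e1) (m2 : Mut D S0 S2 e0 e2)
    (h2 : S2 ∉ satur (US e1 S1 D ⊔ Submodule.span ℤ {S0}))
    (h1 : S1 ∉ satur (US e2 S2 D ⊔ Submodule.span ℤ {S0})) (hF3 : F3S) :
    Msys phi D ![S0, S1, S2] ![e0, e1, e2] := by
  have h12 : S2 ∉ US e1 S1 D := fun h => h2 (le_satur _ ((le_sup_left : US e1 S1 D ≤ _) h))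
  have h21 : S1 ∉ US e2 S2 D := fun h => h1 (le_satur _ ((le_sup_left : US e2 S2 D ≤ _) h))
  have m12 : Mut D S1 S2 e1 e2 := ⟨m1.r1, m2.r1, h12, h21⟩
  have d1 := (hMco ℤ P L phi D S0 S1 e0 e1 hD.inj hD.bin m1).1
  have d2 := (hMco ℤ P L phi D S0 S2 e0 e2 hD.inj hD.bin m2).1
  have d3 := (hMco ℤ P L phi D S1 S2 e1 e2 hD.inj hD.bin m12).1
  -- the second and third index
  have key : ∀ {A B : L} {dA : (RO ℤ)ˣ}, S0 ∉ US dA A D →
      B ∉ satur (US dA A D ⊔ Submodule.span ℤ {S0}) → ∀ k l : ℤ,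
        k • S0 + l • B ∈ US dA A D → k = 0 ∧ l = 0 := by
    intro A B dA hA hB k l hkl
    have hl : l = 0 := by
      by_contra hl
      apply hB
      refine ⟨l, hl, ?_⟩
      have h3 : l • B = (k • S0 + l • B) - k • S0 := by abel
      rw [h3]
      exact Submodule.sub_mem _ (Submodule.mem_sup_left hkl)
        (Submodule.mem_sup_right (Submodule.smul_mem _ k (Submodule.mem_span_singleton_self S0)))
    refine ⟨?_, hl⟩
    rw [hl, zero_smul, add_zero] at hkl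
    by_contra hk
    exact hA (KO67.satUS _ _ _ _ hk hkl)
  refine ⟨?_, ?_, ?_⟩
  · intro i
    fin_cases i
    · exact m1.r0
    · exact m1.r1
    · exact m2.r1
  · intro i j hij q
    fin_cases i <;> fin_cases j
    · exact absurd rfl hij
    · exact d1 q
    · exact d2 q
    · exact (d1 q).symm
    · exact absurd rfl hij
    · exact d3 q
    · exact (d2 q).symm
    · exact (d3 q).symm
    · exact absurd rfl hij
  · intro i c hi hc
    rw [Fin.sum_univ_three] at hc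
    fin_cases i
    · change c 0 = 0 at hi
      rw [hi, zero_smul, zero_add] at hc
      obtain ⟨h3, h4⟩ := KO67.ind_of hF3 hD m1 h2 (c 1) (c 2) hc
      ext k
      fin_cases k
      · exact hi
      · exact h3
      · exact h4
    · change c 1 = 0 at hi
      rw [hi, zero_smul, add_zero] at hc
      obtain ⟨h3, h4⟩ := key m1.m1 h2 (c 0) (c 2) hc
      ext k
      fin_cases k
      · exact h3
      · exact hi
      · exact h4
    · change c 2 = 0 at hi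
      rw [hi, zero_smul, add_zero] at hc
      obtain ⟨h3, h4⟩ := key m2.m1 h1 (c 0) (c 1) hc
      ext k
      fin_cases k
      · exact h3
      · exact h4
      · exact hi

/-- (PATX) AT A TRIPLE. -/
theorem Kc_patx3 (hF1 : F1S) (hF2 : F2S) (hF3 : F3S) (hI : Inj1S) (hMco : McoS) (fp : FP phi D)
    {g : ℕ} {eta : L → (RO ℤ)ˣ} {C : Set L} (hC : Kc phi D eta g C) (hall : Abd D eta)
    {S0 S1 S2 : L} (hS0 : S0 ∈ C) (m1 : Mut D S0 S1 (eta S0) (eta S1))
    (m2 : Mut D S0 S2 (eta S0) (eta S2))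
    (h2 : S2 ∉ satur (US (eta S1) S1 D ⊔ Submodule.span ℤ {S0}))
    (h1 : S1 ∉ satur (US (eta S2) S2 D ⊔ Submodule.span ℤ {S0})) {t0 t1 t2 : (RO ℤ)ˣ}
    {nu : L →+ ℤ}
    (hk : MKil phi D ![S0, S1, S2] ![eta S0 * t0, eta S1 * t1, eta S2 * t2] nu) {T : L}
    (hT : Ray D T) (hn : nu T ≠ 0) (hTC : T ∉ C) (hne : (eta T : RO ℤ) * D.coeff T ≠
      (1 - (1 - (t0 : RO ℤ)) * (1 - (t1 : RO ℤ)) * (1 - (t2 : RO ℤ))) *
        ((eta S0 : RO ℤ) * D.coeff S0)) :
    ∃ (R : L) (r : RO ℤ), Fm D eta R ∧ R ∉ Comp D eta S0 ∧ Ouv phi ![S0, S1, S2] R ∧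
      (∀ S ∈ Comp D eta S0, S ∈ US (eta R) R D ∧ S ∈ US (eta T) T D) ∧
      (R ∈ US (eta S0) S0 D ∧ R ∈ US (eta S1) S1 D ∧ R ∈ US (eta S2) S2 D) ∧
      US (eta T) T D ≤ US (eta R) R D ∧ r ≠ 0 ∧
      D.coeff R = r * (1 - (1 - (t0 : RO ℤ)) * (1 - (t1 : RO ℤ)) * (1 - (t2 : RO ℤ))) ∧
      (eta S0 : RO ℤ) * D.coeff (R + S0) = -r ∧ (eta S1 : RO ℤ) * D.coeff (R + S1) = -r ∧
      (eta S2 : RO ℤ) * D.coeff (R + S2) = -r := by
  have hS1 : S1 ∈ C := (hC.mtl S0 hS0 S1 m1.r1 m1.m0).1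
  have hS2 : S2 ∈ C := (hC.mtl S0 hS0 S2 m2.r1 m2.m0).1
  have hco1 := (hMco ℤ P L phi D S0 S1 _ _ fp.dd.inj fp.dd.bin m1).2.1
  have hco2 := (hMco ℤ P L phi D S0 S2 _ _ fp.dd.inj fp.dd.bin m2).2.1
  have e1 : (fun i => eta (![S0, S1, S2] i)) = ![eta S0, eta S1, eta S2] := by
    funext i
    fin_cases i <;> rfl
  have e2 : (fun i => eta (![S0, S1, S2] i) * ![t0, t1, t2] i) =
      ![eta S0 * t0, eta S1 * t1, eta S2 * t2] := by
    funext i
    fin_cases i <;> rfl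
  have e3 : ∏ j, (1 - ((![t0, t1, t2] j : (RO ℤ)ˣ) : RO ℤ)) =
      (1 - (t0 : RO ℤ)) * (1 - (t1 : RO ℤ)) * (1 - (t2 : RO ℤ)) := by
    rw [Fin.prod_univ_three]
    rfl
  obtain ⟨R, r, a1, a2, a3, a4, a5, a6, a7, a8, a9⟩ := Kc_patx (Z := ![S0, S1, S2])
    (t := ![t0, t1, t2]) hF1 hF2 hF3 hI fp hC hall
    (by intro i; fin_cases i; exacts [hS0, hS1, hS2])
    (by rw [e1]; exact Msys.three hMco fp.dd m1 m2 h2 h1 hF3) (nu := nu) (by rw [e2]; exact hk)
    hT hn hTC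
    (by
      intro i
      rw [e3]
      fin_cases i
      · exact hne
      · change _ ≠ _ * ((eta S1 : RO ℤ) * D.coeff S1)
        rw [hco1]
        exact hne
      · change _ ≠ _ * ((eta S2 : RO ℤ) * D.coeff S2)
        rw [hco2]
        exact hne)
  rw [e3] at a8
  exact ⟨R, r, a1, a2 0, a3, a5 0, ⟨a4 0, a4 1, a4 2⟩, a6, a7, a8, a9 0, a9 1, a9 2⟩

/-! ## The functional of a multiple closing of deficient rank -/

/-- Multiple closing (`mcl`, E/H07/Mcl.lean). -/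
theorem MKil.of_mcl (hF1 : F1S) (hKm : KmuS) (hRk : RkS) (hD : DD phi D) {Z : ι → L}
    {e : ι → (RO ℤ)ˣ} (h : Msys phi D Z e) (X : Mp phi Z) {w : ι → (RO ℤ)ˣ}
    (hne : rk (supp (mcl X w D)) + Fintype.card ι ≠ Module.finrank ℤ L) :
    ∃ nu : L →+ ℤ, nu ≠ 0 ∧ MKil phi D Z w nu := by
  have h1 := (mcl_rank hKm hRk X w D).not.mp hne
  push Not at h1
  obtain ⟨nu, hz, hb, hnu⟩ := h1
  refine ⟨nu, hnu, MKil.mk' hF1 hD h (p := X.p) (fun i => by rw [X.hp i i, if_pos rfl]) hz ?_⟩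
  intro a ha hn
  have h2 := mcl_coeff X w D (fun b hb' i => hD.bin b hb' (X.p i)) (⟨a, ha⟩ : KK X)
  have h3 : (mcl X w D).coeff (⟨a, ha⟩ : KK X) = 0 := by
    by_contra h4
    exact hn (hb _ h4)
  rw [h3] at h2
  unfold msum
  rw [h2]
  exact Finset.sum_congr rfl fun s _ => mul_comm _ _

/-- The coefficients of a double closing. -/
theorem dc_msum (hD : DD phi D) {S0 S1 : L} (Y : Dp phi S0 S1)
    (dis : ∀ q, phi S0 q = 0 ∨ phi S1 q = 0) (u0 u1 : (RO ℤ)ˣ) (a : Ker Y.k1) :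
    (dc Y u0 u1 D).coeff a = msum D ![S0, S1] ![u0, u1] ((a : Ker (co phi Y.i0)) : L) := by
  have h1 : ∀ a : Ker (co phi Y.i0), (cl (co phi Y.i0) S0 Y.h0 u0 D).coeff a =
      D.coeff (a : L) + (u0 : RO ℤ) * D.coeff ((a : L) + S0) :=
    H47.cl_coeff_bin (co phi Y.i0) S0 Y.h0 u0 D (fun a ha => hD.bin a ha Y.i0)
  have hS1 : phi S1 Y.i1 = 1 := by
    have h2 := Y.hk Y.T
    rw [Y.h1, Y.eT] at h2
    exact h2.symm
  have hS0 : phi S0 Y.i1 = 0 := (dis Y.i1).resolve_right (by rw [hS1]; exact one_ne_zero)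
  have h2 : ∀ a ∈ supp (cl (co phi Y.i0) S0 Y.h0 u0 D), Y.k1 a = 0 ∨ Y.k1 a = 1 := by
    intro a ha
    have h3 : (cl (co phi Y.i0) S0 Y.h0 u0 D).coeff a ≠ 0 := ha
    rw [h1] at h3
    rw [Y.hk]
    by_cases h4 : D.coeff (a : L) = 0
    · rw [h4, zero_add] at h3
      have h5 := hD.bin _ (right_ne_zero_of_mul h3) Y.i1
      rw [map_add, Pi.add_apply, hS0, add_zero] at h5
      exact h5
    · exact hD.bin _ h4 Y.i1
  rw [dc, H47.cl_coeff_bin _ _ _ _ _ h2, h1, h1, msum_two]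
  have e1 : (((a : Ker (co phi Y.i0)) + Y.T : Ker (co phi Y.i0)) : L) =
      ((a : Ker (co phi Y.i0)) : L) + S1 :=
    congrArg (fun v => ((a : Ker (co phi Y.i0)) : L) + v) Y.eT
  rw [e1, add_right_comm (((a : Ker (co phi Y.i0)) : L)) S1 S0]
  ring

/-- The coefficients of a triple closing. -/
theorem tri_msum (hD : DD phi D) {S0 S1 S2 : L} (Y : Dp phi S0 S1)
    (d01 : ∀ q, phi S0 q = 0 ∨ phi S1 q = 0) (d02 : ∀ q, phi S0 q = 0 ∨ phi S2 q = 0)
    (d12 : ∀ q, phi S1 q = 0 ∨ phi S2 q = 0) (u0 u1 u2 : (RO ℤ)ˣ) {x : Ker Y.k1}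
    (hx : ((x : Ker (co phi Y.i0)) : L) = S2) {i2 : P} {k2 : Ker Y.k1 →+ ℤ}
    (hk2 : ∀ a : Ker Y.k1, k2 a = phi ((a : Ker (co phi Y.i0)) : L) i2) (h2 : k2 x = 1)
    (a : Ker k2) : (cl k2 x h2 u2 (dc Y u0 u1 D)).coeff a =
      msum D ![S0, S1, S2] ![u0, u1, u2] (((a : Ker Y.k1) : Ker (co phi Y.i0)) : L) := by
  have hS2 : phi S2 i2 = 1 := by
    have h3 := hk2 x
    rw [h2, hx] at h3
    exact h3.symm
  have hS0 : phi S0 i2 = 0 := (d02 i2).resolve_right (by rw [hS2]; exact one_ne_zero)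
  have hS1 : phi S1 i2 = 0 := (d12 i2).resolve_right (by rw [hS2]; exact one_ne_zero)
  have h3 : ∀ a ∈ supp (dc Y u0 u1 D), k2 a = 0 ∨ k2 a = 1 := by
    intro a ha
    have h4 : (dc Y u0 u1 D).coeff a ≠ 0 := ha
    rw [dc_msum hD Y d01, msum_two] at h4
    rw [hk2]
    have key : ∀ y : L, D.coeff y ≠ 0 → phi y i2 = phi ((a : Ker (co phi Y.i0)) : L) i2 →
        phi ((a : Ker (co phi Y.i0)) : L) i2 = 0 ∨ phi ((a : Ker (co phi Y.i0)) : L) i2 = 1 := by
      intro y hy hyi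
      rw [← hyi]
      exact hD.bin y hy i2
    by_contra hcon
    apply h4
    have z0 : D.coeff ((a : Ker (co phi Y.i0)) : L) = 0 := by
      by_contra h
      exact hcon (key _ h rfl)
    have z1 : D.coeff (((a : Ker (co phi Y.i0)) : L) + S0) = 0 := by
      by_contra h
      exact hcon (key _ h (by rw [map_add, Pi.add_apply, hS0, add_zero]))
    have z2 : D.coeff (((a : Ker (co phi Y.i0)) : L) + S1) = 0 := by
      by_contra h
      exact hcon (key _ h (by rw [map_add, Pi.add_apply, hS1, add_zero]))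
    have z3 : D.coeff (((a : Ker (co phi Y.i0)) : L) + S0 + S1) = 0 := by
      by_contra h
      exact hcon (key _ h (by
        rw [map_add, map_add, Pi.add_apply, Pi.add_apply, hS0, hS1, add_zero, add_zero]))
    rw [z0, z1, z2, z3]
    ring
  rw [H47.cl_coeff_bin _ _ _ _ _ h3, dc_msum hD Y d01, dc_msum hD Y d01, msum_three]
  have e1 : ((((a : Ker Y.k1) + x : Ker Y.k1) : Ker (co phi Y.i0)) : L) =
      (((a : Ker Y.k1) : Ker (co phi Y.i0)) : L) + S2 :=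
    congrArg (fun v => (((a : Ker Y.k1) : Ker (co phi Y.i0)) : L) + v) hx
  rw [e1]

/-- Triple closing of deficient rank. -/
theorem MKil.of_tri (hF1 : F1S) (hKm : KmuS) (hRk : RkS) (hD : DD phi D) {S0 S1 S2 : L}
    {e : Fin 3 → (RO ℤ)ˣ} (h : Msys phi D ![S0, S1, S2] e) (Y : Dp phi S0 S1)
    {u0 u1 u2 : (RO ℤ)ˣ} {x : Ker Y.k1} (hx : ((x : Ker (co phi Y.i0)) : L) = S2) {i2 : P}
    {k2 : Ker Y.k1 →+ ℤ}
    (hk2 : ∀ a : Ker Y.k1, k2 a = phi ((a : Ker (co phi Y.i0)) : L) i2) (h2 : k2 x = 1)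
    (hne : rk (supp (cl k2 x h2 u2 (dc Y u0 u1 D))) + 3 ≠ Module.finrank ℤ L) :
    ∃ nu : L →+ ℤ, nu ≠ 0 ∧ MKil phi D ![S0, S1, S2] ![u0, u1, u2] nu := by
  have d01 := h.dis 0 1 (by decide)
  have d02 := h.dis 0 2 (by decide)
  have d12 := h.dis 1 2 (by decide)
  change ∀ q, phi S0 q = 0 ∨ phi S1 q = 0 at d01
  change ∀ q, phi S0 q = 0 ∨ phi S2 q = 0 at d02
  change ∀ q, phi S1 q = 0 ∨ phi S2 q = 0 at d12
  have hS00 : phi S0 Y.i0 = 1 := Y.h0
  have hS10 : phi S1 Y.i0 = 0 := (d01 Y.i0).resolve_left (by rw [hS00]; exact one_ne_zero)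
  have hS20 : phi S2 Y.i0 = 0 := (d02 Y.i0).resolve_left (by rw [hS00]; exact one_ne_zero)
  have hS11 : phi S1 Y.i1 = 1 := by
    have h3 := Y.hk Y.T
    rw [Y.h1, Y.eT] at h3
    exact h3.symm
  have hS01 : phi S0 Y.i1 = 0 := (d01 Y.i1).resolve_right (by rw [hS11]; exact one_ne_zero)
  have hS21 : phi S2 Y.i1 = 0 := (d12 Y.i1).resolve_left (by rw [hS11]; exact one_ne_zero)
  have hS22 : phi S2 i2 = 1 := by
    have h3 := hk2 x
    rw [h2, hx] at h3
    exact h3.symm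
  have hS02 : phi S0 i2 = 0 := (d02 i2).resolve_right (by rw [hS22]; exact one_ne_zero)
  have hS12 : phi S1 i2 = 0 := (d12 i2).resolve_right (by rw [hS22]; exact one_ne_zero)
  -- the projection
  set pr : L →+ Ker k2 := (prj k2 x h2).comp ((prj Y.k1 Y.T Y.h1).comp
    (prj (co phi Y.i0) S0 Y.h0)) with hpr
  have hval : ∀ a, phi a Y.i0 = 0 → phi a Y.i1 = 0 → phi a i2 = 0 →
      ((((pr a : Ker k2) : Ker Y.k1) : Ker (co phi Y.i0)) : L) = a := by
    intro a b0 b1 b2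
    have e1 : prj (co phi Y.i0) S0 Y.h0 a = ⟨a, b0⟩ := by
      apply Subtype.ext
      rw [prj_coe]
      have : (co phi Y.i0) a = 0 := b0
      rw [this, zero_smul, sub_zero]
    have c1 : Y.k1 ⟨a, b0⟩ = 0 := by rw [Y.hk]; exact b1
    have e2 : prj Y.k1 Y.T Y.h1 ⟨a, b0⟩ = ⟨⟨a, b0⟩, c1⟩ := by
      apply Subtype.ext
      rw [prj_coe, c1, zero_smul, sub_zero]
    have c2 : k2 ⟨⟨a, b0⟩, c1⟩ = 0 := by rw [hk2]; exact b2
    have e3 : prj k2 x h2 ⟨⟨a, b0⟩, c1⟩ = ⟨⟨⟨a, b0⟩, c1⟩, c2⟩ := by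
      apply Subtype.ext
      rw [prj_coe, c2, zero_smul, sub_zero]
    have e4 : pr a = ⟨⟨⟨a, b0⟩, c1⟩, c2⟩ := by
      change prj k2 x h2 (prj Y.k1 Y.T Y.h1 (prj (co phi Y.i0) S0 Y.h0 a)) = _
      rw [e1, e2, e3]
    rw [e4]
  -- ranks
  have r1 := (hRk L L).1 (co phi Y.i0) (by
    intro h3
    have h4 : co phi Y.i0 S0 = 1 := Y.h0
    rw [h3] at h4
    exact zero_ne_one h4)
  have r2 := (hRk (Ker (co phi Y.i0)) (Ker (co phi Y.i0))).1 Y.k1 (by
    intro h3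
    have h4 := Y.h1
    rw [h3] at h4
    exact zero_ne_one h4)
  have r3 := (hRk (Ker Y.k1) (Ker Y.k1)).1 k2 (by
    intro h3
    have h4 := h2
    rw [h3] at h4
    exact zero_ne_one h4)
  have r4 : rk (supp (cl k2 x h2 u2 (dc Y u0 u1 D))) ≤ Module.finrank ℤ (Ker k2) :=
    (hRk (Ker k2) (Ker k2)).2.2.1 _
  obtain ⟨mu, hmu, hmu0⟩ := hKm (Ker k2) (supp (cl k2 x h2 u2 (dc Y u0 u1 D))) (by omega)
  refine ⟨mu.comp pr, ?_, MKil.mk' hF1 hD h (p := ![Y.i0, Y.i1, i2]) ?_ ?_ ?_⟩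
  · intro h3
    apply hmu
    ext a
    have h4 := DFunLike.congr_fun h3 (((a : Ker Y.k1) : Ker (co phi Y.i0)) : L)
    have a1 : phi (((a : Ker Y.k1) : Ker (co phi Y.i0)) : L) Y.i0 = 0 :=
      ((a : Ker Y.k1) : Ker (co phi Y.i0)).2
    have a2 : phi (((a : Ker Y.k1) : Ker (co phi Y.i0)) : L) Y.i1 = 0 := by
      rw [← Y.hk]
      exact (a : Ker Y.k1).2
    have a3 : phi (((a : Ker Y.k1) : Ker (co phi Y.i0)) : L) i2 = 0 := by
      rw [← hk2]
      exact a.2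
    have e3 : pr (((a : Ker Y.k1) : Ker (co phi Y.i0)) : L) = a := by
      apply Subtype.ext
      apply Subtype.ext
      apply Subtype.ext
      exact hval _ a1 a2 a3
    change mu (pr (((a : Ker Y.k1) : Ker (co phi Y.i0)) : L)) = 0 at h4
    rw [e3] at h4
    exact h4
  · intro i
    fin_cases i
    · exact hS00
    · exact hS11
    · exact hS22
  · intro i
    fin_cases i
    · change mu (prj k2 x h2 (prj Y.k1 Y.T Y.h1 (prj (co phi Y.i0) S0 Y.h0 S0))) = 0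
      rw [H71.prj_self, map_zero, map_zero, map_zero]
    · change mu (prj k2 x h2 (prj Y.k1 Y.T Y.h1 (prj (co phi Y.i0) S0 Y.h0 S1))) = 0
      have e1 : prj (co phi Y.i0) S0 Y.h0 S1 = Y.T := by
        apply Subtype.ext
        rw [prj_coe, Y.eT]
        have : (co phi Y.i0) S1 = 0 := hS10
        rw [this, zero_smul, sub_zero]
      rw [e1, H71.prj_self, map_zero, map_zero]
    · change mu (prj k2 x h2 (prj Y.k1 Y.T Y.h1 (prj (co phi Y.i0) S0 Y.h0 S2))) = 0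
      have e1 : prj (co phi Y.i0) S0 Y.h0 S2 = (x : Ker (co phi Y.i0)) := by
        apply Subtype.ext
        rw [prj_coe, hx]
        have : (co phi Y.i0) S2 = 0 := hS20
        rw [this, zero_smul, sub_zero]
      have e2 : prj Y.k1 Y.T Y.h1 (x : Ker (co phi Y.i0)) = x := by
        have c1 : Y.k1 (x : Ker (co phi Y.i0)) = 0 := x.2
        apply Subtype.ext
        rw [prj_coe, c1, zero_smul, sub_zero]
      rw [e1, e2, H71.prj_self, map_zero]
  · intro a ha hn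
    have b0 := ha 0
    have b1 := ha 1
    have b2 := ha 2
    change phi a Y.i0 = 0 at b0
    change phi a Y.i1 = 0 at b1
    change phi a i2 = 0 at b2
    have h3 : (cl k2 x h2 u2 (dc Y u0 u1 D)).coeff (pr a) = 0 := by
      by_contra h4
      exact hn (hmu0 _ h4)
    rw [tri_msum hD Y d01 d02 d12 u0 u1 u2 hx hk2 h2, hval a b0 b1 b2] at h3
    exact h3

end

end Pool.Agent.B5.KO
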