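import Pool.Agent.Lib.MP_b5021c_nt.KO.H96.BeV
import Pool.Agent.Lib.MP_b5021c_nt.KO.H58.N2Asm

/-!
# PURE BETA, row BE_N2: `j = 2`, no ray of type B
-/

namespace Pool.Agent.B5.KO.H96

open scoped LaurentPolynomial
open Polynomial
open Pool.Agent.B5.KE
open Pool.Agent.B5.Nr (TrezS)
open Pool.Agent.B5.KO58 (N2AS N2BS N2CS)

theorem other (i : Fin 2) : ∃ k : Fin 2, i ≠ k := by
  fin_cases i
  · exact ⟨1, by decide⟩
  · exact ⟨0, by decide⟩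

theorem n2a (hFD : FDS) (hG0 : G0S) (hC0 : Coeff0S) (hE1 : E1S) (hE2 : E2S) (hMV : MVS)
    (hMm : MmulS) (hRk : RkS) (hWW : WWfS) (hRF : RayFacS) (hSm : SmallS) (hKm : KmuS)
    (hU : UnitAS) (hRkU : RkUSS) (hTsa : TsaS) (hB : BpxS) (hSf : BeSfS) : N2AS := by
  intro P L _ _ _ _ _ phi D q f a s S es T lam be i g e E0 hR hl hE
  obtain rfl : s = 2 := by
    have := be.s2
    omega
  obtain ⟨k', hik⟩ := other i
  obtain ⟨E, hE', hE1', -, hEz⟩ := typa (be.nS 0).loc be.f0 (be.nS 0).ne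
  obtain rfl : E = E0 := mul_left_cancel₀ X_ne_zero (hE'.symm.trans hE)
  rw [be.n] at hE1'
  obtain ⟨c, k, t, r, hk, h1, h2, h3, h4, h5⟩ := be_A hFD hG0 hC0 hE1 hE2 hMV hMm hRk hWW hRF hSm
    hKm hU hRkU hTsa hB hSf be hik hR hl hE (by rw [hE1']; norm_num) hEz
  exact ⟨c, k, t, r, hk, h1, h2, h3, by rw [← h4]; ring, by omega⟩

theorem n2b (hFD : FDS) (hG0 : G0S) (hC0 : Coeff0S) (hE1 : E1S) (hE2 : E2S) (hMV : MVS)
    (hMm : MmulS) (hRk : RkS) (hWW : WWfS) (hRF : RayFacS) (hSm : SmallS) (hKm : KmuS)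
    (hU : UnitAS) (hF1 : F1S) (hRkU : RkUSS) (hTsa : TsaS) (hB : BpxS) (hSf : BeSfS) : N2BS := by
  intro P L _ _ _ _ _ phi D q f a s S es T lam be i g e ER hR hl hg hn hE
  obtain rfl : s = 2 := by
    have := be.s2
    omega
  obtain ⟨k', hik⟩ := other i
  obtain ⟨E, hE', hE1', -, hEz⟩ := typa hR.loc hg hR.ne
  obtain rfl : E = ER := mul_left_cancel₀ X_ne_zero (hE'.symm.trans hE)
  rw [hn] at hE1'
  obtain ⟨W, T'⟩ := be_B hFD hSm hU hMm hF1 hRkU hTsa hSf be hik hR hl hE (N := 2) (by norm_num)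
    hg (by rw [hE1']; norm_num) hEz
  obtain ⟨c, k, t, r, hk, h1, h2, h3, h4, h5⟩ := tw_two hFD hG0 hC0 hE1 hE2 hMV hMm hRk hWW hRF
    hSm hKm hB (fun K hK => be.ko.ih K (by omega)) W T'
  exact ⟨c, k, t, r, hk, h1, h2, h3, h4, by omega⟩

theorem n2c (hFD : FDS) (hG0 : G0S) (hC0 : Coeff0S) (hE1 : E1S) (hE2 : E2S) (hMV : MVS)
    (hMm : MmulS) (hRk : RkS) (hWW : WWfS) (hRF : RayFacS) (hSm : SmallS)
    (hU : UnitAS) (hF1 : F1S) (hRkU : RkUSS) (hTsa : TsaS) (hSf : BeSfS) : N2CS := by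
  intro P L _ _ _ _ _ phi D q f a s S es T lam be i g e hR hl hg hn
  obtain rfl : s = 2 := by
    have := be.s2
    omega
  obtain ⟨k', hik⟩ := other i
  obtain ⟨E, hE', hE1', -, hEz⟩ := typa hR.loc hg hR.ne
  rw [hn] at hE1'
  obtain ⟨W, T'⟩ := be_B hFD hSm hU hMm hF1 hRkU hTsa hSf be hik hR hl hE' (N := 1) le_rfl
    hg (by rw [hE1']; norm_num) hEz
  exact tw_one hFD hG0 hC0 hE1 hE2 hMV hMm hRk hWW hRF hSm W T'

/-- Row BE_N2. -/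
theorem beN2 (hFD : FDS) (hG0 : G0S) (hC0 : Coeff0S) (hE1 : E1S) (hE2 : E2S) (hMV : MVS)
    (hMm : MmulS) (hRk : RkS) (hWW : WWfS) (hRF : RayFacS) (hSm : SmallS) (hKm : KmuS)
    (hU : UnitAS) (hF1 : F1S) (hRkU : RkUSS) (hTsa : TsaS) (hB : BpxS) (hSf : BeSfS)
    (hF : FcmS) (hP : BeParS) (hNd : Nd3S) (hNv : Nd3vS) (hTr : TrezS) : BeN2S :=
  KO58.beN2 hF hP hNd hNv hTr
    (n2a hFD hG0 hC0 hE1 hE2 hMV hMm hRk hWW hRF hSm hKm hU hRkU hTsa hB hSf)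
    (n2b hFD hG0 hC0 hE1 hE2 hMV hMm hRk hWW hRF hSm hKm hU hF1 hRkU hTsa hB hSf)
    (n2c hFD hG0 hC0 hE1 hE2 hMV hMm hRk hWW hRF hSm hU hF1 hRkU hTsa hSf)

end Pool.Agent.B5.KO.H96
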