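import Pool.Agent.Lib.MP_b5021c_nt.KO.H96.TkWs

/-!
# MP_b5021c_nt, all `θ`, K ODD, (O4), l = 3, ALPHA, TK_DT: the minimal set of moved killers

`MinK`: `nu` kills the closing `Z n = 1` of `W = D(T = load B)`, is zero at `Z (n + 1)` and moves
exactly the rays `R i` outside the triple; every such functional which moves only rays `R i` is
proportional to `nu`.  `tk3_min`: it exists.
-/

set_option linter.unusedSectionVars false

namespace Pool.Agent.B5.KO.H96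

open scoped LaurentPolynomial
open Polynomial
open Pool.Agent.B5 Pool.Agent.B5.KE
open Pool.Agent.B5.H07 Pool.Agent.B5.H63
open Pool.Agent.B5.Nr.Sch
open Pool.Agent.B5.O4X

section

variable {P L : Type} [Fintype P] [DecidableEq P] [AddCommGroup L] [Module.Free ℤ L]
  [Module.Finite ℤ L] {phi : L →+ (P → ℤ)} {D : AO ℤ L} {eta : L → (RO ℤ)ˣ}

/-- Integer combinations of killing functionals. -/
theorem WKil.lin {S T : L} {e u : (RO ℤ)ˣ} {nu nu' : L →+ ℤ} (h : WKil phi D S T e u nu)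
    (h' : WKil phi D S T e u nu') (m m' : ℤ) : WKil phi D S T e u (m • nu + m' • nu') := by
  have key : ∀ x, (m • nu + m' • nu') x ≠ 0 → nu x ≠ 0 ∨ nu' x ≠ 0 := by
    intro x hx
    by_contra hc
    push Not at hc
    apply hx
    rw [AddMonoidHom.add_apply, AddMonoidHom.smul_apply, AddMonoidHom.smul_apply, hc.1, hc.2,
      smul_zero, smul_zero, add_zero]
  refine ⟨?_, ?_, ?_, ?_, ?_⟩
  · rw [AddMonoidHom.add_apply, AddMonoidHom.smul_apply, AddMonoidHom.smul_apply, h.s, h'.s,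
      smul_zero, smul_zero, add_zero]
  · rw [AddMonoidHom.add_apply, AddMonoidHom.smul_apply, AddMonoidHom.smul_apply, h.t, h'.t,
      smul_zero, smul_zero, add_zero]
  · intro x hx hp
    rw [AddMonoidHom.add_apply, AddMonoidHom.smul_apply, AddMonoidHom.smul_apply, h.pT x hx hp,
      h'.pT x hx hp, smul_zero, smul_zero, add_zero]
  · intro x hx hp hn
    rcases key x hn with h1 | h1
    · exact h.pS x hx hp h1
    · exact h'.pS x hx hp h1
  · intro x hx hn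
    rcases key x hn with h1 | h1
    · exact h.fr x hx h1
    · exact h'.fr x hx h1

/-- `nu` moves only the rays `R i` outside the triple. -/
def Mvo (D : AO ℤ L) (Z : ZMod 3 → L) {ι : Type} (R : ι → L) (nu : L →+ ℤ) : Prop :=
  ∀ S, Ray D S → (∀ m, S ≠ Z m) → (∀ i, S ≠ R i) → nu S = 0

/-- THE MINIMAL SET OF MOVED KILLERS. -/
structure MinK (phi : L →+ (P → ℤ)) (D : AO ℤ L) (eta : L → (RO ℤ)ˣ) (Z : ZMod 3 → L)
    (mu : ZMod 3 → L →+ ℤ) (T : L) (e : (RO ℤ)ˣ) (n : ZMod 3) {ι : Type} (R : ι → L)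
    (nu : L →+ ℤ) : Prop where
  inj : Function.Injective R
  ray : ∀ i, Ray D (R i)
  RZ : ∀ i m, R i ≠ Z m
  RT : ∀ i, R i ≠ T
  kil : ∀ i m, Z m ∉ US (eta (R i)) (R i) D
  dis : ∀ i i', i ≠ i' → ∀ p, phi (R i) p = 0 ∨ phi (R i') p = 0
  disT : ∀ i p, phi (R i) p = 0 ∨ phi T p = 0
  disZ : ∀ i m p, phi (R i) p = 0 ∨ phi (Z m) p = 0
  wk : WKil phi D (Z n) T (eta (Z n)) (ld e 1) nu
  n1 : nu (Z (n + 1)) = 0
  mv : ∀ i, nu (R i) ≠ 0
  oth : Mvo D Z R nu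
  min : ∀ nu', WKil phi D (Z n) T (eta (Z n)) (ld e 1) nu' → nu' (Z (n + 1)) = 0 →
    Mvo D Z R nu' → ∃ m c : ℤ, m ≠ 0 ∧ m • nu' = c • nu

variable {q f f' : ℤ[X]} {a : ℝ} {j k' : ℕ} {Z : ZMod 3 → L} {mu : ZMod 3 → L →+ ℤ}
  {Z' : ZMod (k' + 3) → L} {mu' : ZMod (k' + 3) → L →+ ℤ} {T : L} {e : (RO ℤ)ˣ} {nuC : L →+ ℤ}

/-- (MIN) -/
theorem tk3_min (hTop : TopS) (hRy : RaySpanS) (hRk : RkS) (hF1 : F1S) (hF2 : F2S) (hF3 : F3S)
    (hI : Inj1S) (hE2 : E2S) (hRkU : RkUSS) (hL : LMNS) (hMco : McoS) (hOfb : OfbS) (hO4 : Oo4S)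
    (hB2 : Ob2S) (h : Tk3 phi D q f f' a j eta k' Z mu Z' mu' T e nuC) {n : ZMod 3}
    {nu0 : L →+ ℤ} (hk0 : WKil phi D (Z n) T (eta (Z n)) (ld e 1) nu0)
    (h1 : nu0 (Z (n + 1)) = 0) (hne : nu0 ≠ 0) :
    ∃ (ι : Type) (_ : Fintype ι) (_ : DecidableEq ι) (_ : Nonempty ι) (R : ι → L) (nu : L →+ ℤ),
      MinK phi D eta Z mu T e n R nu := by
  classical
  have fp := h.alp.w.ko.min.fp
  have hD := fp.dd
  have hc := h.alp.c
  -- the moved set
  let M : (L →+ ℤ) → Finset L := fun nu => D.coeff.support.filter fun S =>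
    Ray D S ∧ (∀ m, S ≠ Z m) ∧ nu S ≠ 0
  have memM : ∀ (nu : L →+ ℤ) (S : L), S ∈ M nu ↔ Ray D S ∧ (∀ m, S ≠ Z m) ∧ nu S ≠ 0 := by
    intro nu S
    rw [Finset.mem_filter, Finsupp.mem_support_iff]
    exact ⟨fun hh => hh.2, fun hh => ⟨hh.1.1, hh⟩⟩
  have hex : ({nu : L →+ ℤ | WKil phi D (Z n) T (eta (Z n)) (ld e 1) nu ∧ nu (Z (n + 1)) = 0 ∧
      (M nu).Nonempty}).Nonempty := by
    obtain ⟨R, rR, hRZ, hRn, -⟩ :=
      tk3_ex hTop hRy hRk hF1 hF2 hF3 hI hE2 hRkU hL hMco hOfb hO4 hB2 h hk0 h1 hne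
    exact ⟨nu0, hk0, h1, R, (memM nu0 R).mpr ⟨rR, hRZ, hRn⟩⟩
  obtain ⟨nu, ⟨hk, hn1, hM⟩, hmin⟩ := WellFounded.has_min
    (measure (fun nu : L →+ ℤ => (M nu).card)).wf _ hex
  have hmin' : ∀ nu' : L →+ ℤ, WKil phi D (Z n) T (eta (Z n)) (ld e 1) nu' →
      nu' (Z (n + 1)) = 0 → (M nu').Nonempty → (M nu).card ≤ (M nu').card := by
    intro nu' a1 a2 a3
    have : ¬ (M nu').card < (M nu).card := hmin nu' ⟨a1, a2, a3⟩
    omega
  have hR : ∀ i : {x // x ∈ M nu}, Ray D (i : L) ∧ (∀ m, (i : L) ≠ Z m) ∧ nu (i : L) ≠ 0 :=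
    fun i => (memM nu i).mp i.2
  have hkil : ∀ (i : {x // x ∈ M nu}) (m : ZMod 3), Z m ∉ US (eta (i : L)) (i : L) D :=
    fun i m => tk3_sup hF1 hF2 hF3 hI hE2 hRkU hL hMco hOfb hO4 hB2 h hk (hR i).1 (hR i).2.1
      (hR i).2.2 m
  have hRT : ∀ i : {x // x ∈ M nu}, (i : L) ≠ T := fun i hh => (hR i).2.2 (by rw [hh, hk.t])
  refine ⟨{x // x ∈ M nu}, inferInstance, inferInstance, ⟨⟨hM.choose, hM.choose_spec⟩⟩,
    Subtype.val, nu, ?_⟩
  refine ⟨Subtype.val_injective, fun i => (hR i).1, fun i => (hR i).2.1, hRT, hkil, ?_, ?_, ?_,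
    hk, hn1, fun i => (hR i).2.2, ?_, ?_⟩
  · intro i i' hii
    exact kil_dis hF1 hF2 hF3 hI fp hc (hR i).1 (hR i).2.1 (hkil i) (hR i').1 (hR i').2.1
      (hkil i') (fun hh => hii (Subtype.ext hh))
  · intro i
    exact kil_dis hF1 hF2 hF3 hI fp hc (hR i).1 (hR i).2.1 (hkil i) h.rT h.TZ h.kil (hRT i)
  · intro i m p
    exact (hF2 ℤ P L phi D (Z m) (i : L) (eta (i : L)) hD.inj hD.bin (hc.mtl m).r0 (hR i).1
      (hkil i m) p).symm
  · intro S rS hSZ hSR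
    by_contra hcon
    exact hSR ⟨S, (memM nu S).mpr ⟨rS, hSZ, hcon⟩⟩ rfl
  · intro nu' hk' hn1' hmo
    obtain ⟨R0, hR0⟩ := hM
    have hR0' := (memM nu R0).mp hR0
    set nu2 : L →+ ℤ := nu R0 • nu' + (-nu' R0) • nu with hnu2
    have hk2 : WKil phi D (Z n) T (eta (Z n)) (ld e 1) nu2 := hk'.lin hk _ _
    have v : ∀ x, nu2 x = nu R0 * nu' x - nu' R0 * nu x := by
      intro x
      rw [hnu2, AddMonoidHom.add_apply, AddMonoidHom.smul_apply, AddMonoidHom.smul_apply,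
        smul_eq_mul, smul_eq_mul]
      ring
    have hn2 : nu2 (Z (n + 1)) = 0 := by rw [v, hn1, hn1', mul_zero, mul_zero, sub_zero]
    have hsub : M nu2 ⊆ (M nu).erase R0 := by
      intro S hS
      obtain ⟨s1, s2, s3⟩ := (memM nu2 S).mp hS
      rw [Finset.mem_erase]
      refine ⟨?_, ?_⟩
      · rintro rfl
        apply s3
        rw [v]
        ring
      · rw [memM]
        refine ⟨s1, s2, fun h0 => s3 ?_⟩
        rw [v, h0, hmo S s1 s2 (fun i hi => (hR i).2.2 (by rw [← hi]; exact h0)), mul_zero,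
          mul_zero, sub_zero]
    have hcard : (M nu2).card < (M nu).card :=
      lt_of_le_of_lt (Finset.card_le_card hsub) (Finset.card_erase_lt_of_mem hR0)
    have hemp : ¬ (M nu2).Nonempty := fun hh => by
      have := hmin' nu2 hk2 hn2 hh
      omega
    have h0 : nu2 = 0 := by
      have h3 := tk3_only hTop hRy hE2 hRk hF1 hF2 hF3 h hk2 (fun S rS hSZ => by
        by_contra hcon
        exact hemp ⟨S, (memM nu2 S).mpr ⟨rS, hSZ, hcon⟩⟩)
      rw [h3, hn2, zero_smul]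
    refine ⟨nu R0, nu' R0, hR0'.2.2, ?_⟩
    ext x
    have h4 : nu2 x = 0 := by rw [h0]; rfl
    rw [v] at h4
    rw [AddMonoidHom.smul_apply, AddMonoidHom.smul_apply, smul_eq_mul, smul_eq_mul]
    linarith

/-- The functional `kap`, zero at `Z (n + 1)`, `Z (n + 2)` and `T`, equal to `nu` outside. -/
theorem MinK.kap (hc : Cyc phi D eta 0 Z mu) {n : ZMod 3} {ι : Type} {R : ι → L} {nu : L →+ ℤ}
    (M : MinK phi D eta Z mu T e n R nu) (rT : Ray D T) (hTZ : ∀ m, T ≠ Z m) :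
    (nu - nu (Z (n + 2)) • mu (n + 1)) (Z (n + 1)) = 0 ∧
    (nu - nu (Z (n + 2)) • mu (n + 1)) (Z (n + 2)) = 0 ∧
    (nu - nu (Z (n + 2)) • mu (n + 1)) T = 0 ∧
    ∀ S, Ray D S → (∀ m, S ≠ Z m) → (nu - nu (Z (n + 2)) • mu (n + 1)) S = nu S := by
  have m1 : mu (n + 1) (Z (n + 1)) = 0 := by
    obtain ⟨n1, n2, -⟩ := KO.H40.idx 0 (n + 1)
    exact KO.H40.cyc_mu hc n1 n2
  have m2 : mu (n + 1) (Z (n + 2)) = 1 := by
    have h3 := hc.nxt (n + 1)
    have e1 : (n + 1 + 1 : ZMod 3) = n + 2 := by ring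
    rw [e1] at h3
    exact h3
  refine ⟨?_, ?_, ?_, fun S rS hSZ => ?_⟩
  · rw [AddMonoidHom.sub_apply, AddMonoidHom.smul_apply, M.n1, m1, smul_zero, sub_zero]
  · rw [AddMonoidHom.sub_apply, AddMonoidHom.smul_apply, m2, smul_eq_mul, mul_one, sub_self]
  · rw [AddMonoidHom.sub_apply, AddMonoidHom.smul_apply, M.wk.t,
      hc.oth (n + 1) T rT (hTZ _) (hTZ _), smul_zero, sub_zero]
  · rw [AddMonoidHom.sub_apply, AddMonoidHom.smul_apply,
      hc.oth (n + 1) S rS (hSZ _) (hSZ _), smul_zero, sub_zero]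

end

end Pool.Agent.B5.KO.H96
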