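import Pool.Agent.Lib.MP_b5021c_nt.KO.H96.TkW

/-!
# MP_b5021c_nt, all `θ`, K ODD, (O4), l = 3, ALPHA, row TK_SUP, at the level of `W = D(T = u)`

`wkil_of`: `WKil` from `nu = 0` on `U_S(W)`.  `tk3_sup`: a ray outside the triple moved by a
functional which kills the closing `Z n = 1` of `W` kills the triple.  `tk3_ex`: there is one.
-/

set_option linter.unusedSectionVars false

namespace Pool.Agent.B5.KO.H96

open scoped LaurentPolynomial
open Polynomial
open Pool.Agent.B5 Pool.Agent.B5.KE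
open Pool.Agent.B5.H07 Pool.Agent.B5.H63
open Pool.Agent.B5.Nr.Sch
open Pool.Agent.B5.O4X
open Pool.Agent.B5.KV67 (TT1)

section

variable {P L : Type} [Fintype P] [DecidableEq P] [AddCommGroup L] [Module.Free ℤ L]
  [Module.Finite ℤ L] {phi : L →+ (P → ℤ)} {D : AO ℤ L} {eta : L → (RO ℤ)ˣ}

/-- `WKil` FROM THE LEVEL OF `W`. -/
theorem wkil_of (hF1 : F1S) (hD : DD phi D) {S T : L} {iT : P} (hT : co phi iT T = 1)
    {u e eT : (RO ℤ)ˣ} (hinj : Function.Injective (phO phi T iT))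
    (hbin : ∀ a ∈ supp (cl (co phi iT) T hT u D), Bin (phO phi T iT) a)
    (rS : Ray D S) (rT : Ray D T) (dis : ∀ p, phi T p = 0 ∨ phi S p = 0) (hkl : S ∉ US eT T D)
    {z : Ker (co phi iT)} (hz : (z : L) = S) {nu : L →+ ℤ} (nT : nu T = 0)
    (hn : ∀ a ∈ US e z (cl (co phi iT) T hT u D), nu (a : L) = 0) : WKil phi D S T e u nu := by
  have hiT : phi T iT = 1 := hT
  have hps : ∀ (x : Ker (co phi iT)) (p : P), phO phi T iT x p =
      if phi T p = 0 then phi (x : L) p else 0 := fun _ _ => rfl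
  have zbin : Bin (phO phi T iT) z := by
    intro p
    rw [hps, hz]
    by_cases h : phi T p = 0
    · rw [if_pos h]
      exact hD.bin S rS.1 p
    · rw [if_neg h]
      exact Or.inl rfl
  have z0 : z ≠ 0 := by
    rintro rfl
    exact rS.2.1 hz.symm
  have F := hF1 ℤ P (Ker (co phi iT)) (phO phi T iT) (cl (co phi iT) T hT u D) z e hinj hbin zbin z0
  have zU : z ∈ US e z (cl (co phi iT) T hT u D) := mem_US _ _ _
  have pz : ∀ p, phi S p = 1 → phO phi T iT z p = 1 := by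
    intro p hp
    rw [hps, hz, if_pos ((dis p).resolve_right (by rw [hp]; exact one_ne_zero)), hp]
  have co_of : ∀ x : L, (∀ p, phi x p = 0 ∨ phi T p = 0) → co phi iT x = 0 := fun x hx =>
    (hx iT).resolve_right (by rw [hiT]; exact one_ne_zero)
  refine ⟨?_, nT, ?_, ?_, ?_⟩
  · rw [← hz]
    exact hn z zU
  · -- partial at `T`
    rintro x hx ⟨⟨p1, h11, h12⟩, p2, h21, h22⟩
    by_contra hnx
    set c : ℤ := phi x iT with hc
    have hW : ∀ y : L, phi y iT = c → phi y p1 = 1 → phi y p2 = 0 → ∀ b : Ker (co phi iT),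
        (b : L) = y - c • T → ((cl (co phi iT) T hT u D).coeff b = 0 ↔ D.coeff y = 0) := by
      intro y hy y1 y2 b hb
      rw [KO67.cl_co hD, hb]
      rcases hD.bin x hx iT with h0 | h0
      · rw [show c = 0 from h0, zero_smul, sub_zero]
        have h3 : D.coeff (y + T) = 0 := by
          by_contra h4
          have h5 := hD.bin _ h4 p1
          rw [map_add, Pi.add_apply, y1, h12] at h5
          omega
        rw [h3, mul_zero, add_zero]
      · rw [show c = 1 from h0, one_smul, sub_add_cancel]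
        have h3 : D.coeff (y - T) = 0 := by
          by_contra h4
          have h5 := hD.bin _ h4 p2
          rw [map_sub, Pi.sub_apply, y2, h22] at h5
          omega
        rw [h3, zero_add]
        constructor
        · intro h4
          exact (mul_eq_zero.mp h4).resolve_left u.ne_zero
        · intro h4
          rw [h4, mul_zero]
    have mem : ∀ y : L, phi y iT = c → co phi iT (y - c • T) = 0 := by
      intro y hy
      rw [map_sub, map_zsmul, hT, smul_eq_mul, mul_one]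
      change phi y iT - c = 0
      rw [hy, sub_self]
    have s1 : phi S p1 = 0 := (dis p1).resolve_left (by rw [h12]; exact one_ne_zero)
    have s2 : phi S p2 = 0 := (dis p2).resolve_left (by rw [h22]; exact one_ne_zero)
    have s3 : phi S iT = 0 := (dis iT).resolve_left (by rw [hiT]; exact one_ne_zero)
    have xU : x ∈ US eT T D := KO.f1p hF1 hD rT hx ⟨⟨p1, h11, h12⟩, p2, h21, h22⟩
    let A : Ker (co phi iT) := ⟨x - c • T, mem x rfl⟩
    have hAU : A ∉ US e z (cl (co phi iT) T hT u D) := by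
      intro h
      have h3 := hn A h
      change nu (x - c • T) = 0 at h3
      rw [map_sub, map_zsmul, nT, smul_zero, sub_zero] at h3
      exact hnx h3
    have hA0 : (cl (co phi iT) T hT u D).coeff A ≠ 0 := fun h =>
      hx ((hW x rfl h11 h21 A rfl).mp h)
    have vA : ∀ p, phi T p = 0 → phO phi T iT A p = phi x p := by
      intro p hp
      rw [hps, if_pos hp]
      change phi (x - c • T) p = phi x p
      rw [map_sub, map_zsmul, Pi.sub_apply, Pi.smul_apply, hp, smul_zero, sub_zero]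
    by_cases hp : Part (phO phi T iT) z A
    · exact hA0 ((F A hAU).1 hp.1 hp.2)
    by_cases hd : ∀ p, phO phi T iT A p = 0 ∨ phO phi T iT z p = 0
    · have h3 := (F A hAU).2 hd
      have h4 : D.coeff (x + S) ≠ 0 := by
        intro h5
        have e1 : ((A + z : Ker (co phi iT)) : L) = x + S - c • T := by
          change x - c • T + (z : L) = _
          rw [hz]
          abel
        rw [(hW (x + S) (by rw [map_add, Pi.add_apply, s3, add_zero])
          (by rw [map_add, Pi.add_apply, s1, add_zero, h11])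
          (by rw [map_add, Pi.add_apply, s2, add_zero, h21]) (A + z) e1).mpr h5, mul_zero,
          add_zero] at h3
        exact hA0 h3
      have h5 : x + S ∈ US eT T D := KO.f1p hF1 hD rT h4 ⟨⟨p1, by
        rw [map_add, Pi.add_apply, s1, add_zero, h11], h12⟩, p2, by
        rw [map_add, Pi.add_apply, s2, add_zero, h21], h22⟩
      apply hkl
      have h6 := Submodule.sub_mem _ h5 xU
      rwa [add_sub_cancel_left] at h6
    · push Not at hd
      obtain ⟨p, hp1, hp2⟩ := hd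
      have hp1' := (hbin A hA0 p).resolve_left hp1
      have hp2' := (zbin p).resolve_left hp2
      have hBU : A - z ∉ US e z (cl (co phi iT) T hT u D) := by
        intro h
        apply hAU
        have h6 := Submodule.add_mem _ h zU
        rwa [sub_add_cancel] at h6
      have h3 := (F _ hBU).2 (fun r => by
        rcases zbin r with h4 | h4
        · exact Or.inr h4
        · left
          have h5 : phO phi T iT A r = 1 := by
            rcases hbin A hA0 r with h6 | h6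
            · exact absurd ⟨⟨p, hp1', hp2'⟩, r, h6, h4⟩ hp
            · exact h6
          rw [map_sub, Pi.sub_apply, h5, h4, sub_self])
      rw [sub_add_cancel] at h3
      have h4 : D.coeff (x - S) ≠ 0 := by
        intro h5
        have e1 : ((A - z : Ker (co phi iT)) : L) = x - S - c • T := by
          change x - c • T - (z : L) = _
          rw [hz]
          abel
        rw [(hW (x - S) (by rw [map_sub, Pi.sub_apply, s3, sub_zero])
          (by rw [map_sub, Pi.sub_apply, s1, sub_zero, h11])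
          (by rw [map_sub, Pi.sub_apply, s2, sub_zero, h21]) (A - z) e1).mpr h5, zero_add] at h3
        exact hA0 ((mul_eq_zero.mp h3).resolve_left e.ne_zero)
      have h5 : x - S ∈ US eT T D := KO.f1p hF1 hD rT h4 ⟨⟨p1, by
        rw [map_sub, Pi.sub_apply, s1, sub_zero, h11], h12⟩, p2, by
        rw [map_sub, Pi.sub_apply, s2, sub_zero, h21], h22⟩
      apply hkl
      have h6 := Submodule.sub_mem _ xU h5
      rwa [sub_sub_cancel] at h6
  · -- partial at `S`
    rintro x hxT ⟨⟨p1, h11, h12⟩, p2, h21, h22⟩ hnx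
    have hAU : (⟨x, co_of x hxT⟩ : Ker (co phi iT)) ∉ US e z (cl (co phi iT) T hT u D) :=
      fun h => hnx (hn _ h)
    have q1 : phi T p1 = 0 := (dis p1).resolve_right (by rw [h12]; exact one_ne_zero)
    have q2 : phi T p2 = 0 := (dis p2).resolve_right (by rw [h22]; exact one_ne_zero)
    have h3 := (F _ hAU).1 ⟨p1, by rw [hps, if_pos q1]; exact h11, pz p1 h12⟩
      ⟨p2, by rw [hps, if_pos q2]; exact h21, pz p2 h22⟩
    rw [KO67.cl_co hD] at h3
    exact h3
  · -- disjoint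
    intro x ho hnx
    have hxT : ∀ p, phi x p = 0 ∨ phi T p = 0 := fun p => (ho p).imp id And.right
    have hAU : (⟨x, co_of x hxT⟩ : Ker (co phi iT)) ∉ US e z (cl (co phi iT) T hT u D) :=
      fun h => hnx (hn _ h)
    have h3 := (F _ hAU).2 (fun p => by
      rw [hps, hps]
      by_cases hp : phi T p = 0
      · rw [if_pos hp, if_pos hp, hz]
        exact (ho p).imp id And.left
      · rw [if_neg hp]
        exact Or.inl rfl)
    rw [KO67.cl_co hD, KO67.cl_co hD] at h3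
    have e1 : (((⟨x, co_of x hxT⟩ : Ker (co phi iT)) + z : Ker (co phi iT)) : L) = x + S := by
      rw [← hz]
      rfl
    rw [e1] at h3
    change D.coeff x + (u : RO ℤ) * D.coeff (x + T) + _ = 0 at h3
    linear_combination h3

section tk3

variable {q f f' : ℤ[X]} {a : ℝ} {j k' : ℕ} {Z : ZMod 3 → L} {mu : ZMod 3 → L →+ ℤ}
  {Z' : ZMod (k' + 3) → L} {mu' : ZMod (k' + 3) → L →+ ℤ} {T : L} {e : (RO ℤ)ˣ} {nuC : L →+ ℤ}

/-- (TK_SUP) A RAY OUTSIDE THE TRIPLE, MOVED BY A FUNCTIONAL WHICH KILLS THE CLOSING `Z n = 1` OF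
`W = D(T = load B)`, KILLS THE TRIPLE. -/
theorem tk3_sup (hF1 : F1S) (hF2 : F2S) (hF3 : F3S) (hI : Inj1S) (hE2 : E2S) (hRkU : RkUSS)
    (hL : LMNS) (hMco : McoS) (hOfb : OfbS) (hO4 : Oo4S) (hB2 : Ob2S)
    (h : Tk3 phi D q f f' a j eta k' Z mu Z' mu' T e nuC) {n : ZMod 3} {nu : L →+ ℤ}
    (hk : WKil phi D (Z n) T (eta (Z n)) (ld e 1) nu) {R : L} (rR : Ray D R)
    (hRZ : ∀ m, R ≠ Z m) (hn : nu R ≠ 0) (m : ZMod 3) : Z m ∉ US (eta R) R D := by
  intro hin
  have fp := h.alp.w.ko.min.fp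
  have hD := fp.dd
  have h2 : 2 ≤ Module.finrank ℤ L := by have := h.alp.w.ko.rk; have := h.alp.w.ko.j2; omega
  have hc := h.alp.c
  have rZ : ∀ m, Ray D (Z m) := fun m => (hc.mtl m).r0
  have hin' : ∀ m, Z m ∈ US (eta R) R D := by
    intro m'
    by_contra hcc
    exact KO67.cyc_all hF3 hD hc rR hRZ hcc m hin
  have hTR := no_kill hF3 hD hc h.rT h.TZ h.kil rR hRZ hin'
  obtain ⟨S, hFm, hRS, hST, hkl⟩ := hk.patx hF1 hF2 hF3 hI fp (rZ n) h.rT
    (h.des.abd hE2 hRkU hD h2) rR hn (hin' n) hTR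
  have hSZ : ∀ m, S ≠ Z m := by
    rintro m' rfl
    rcases hRS with h1 | h1
    · exact hRZ m' h1.symm
    · exact h1 (hin' m')
  have hdtr := h.dtr hF1 hF2 hF3 hI hFm hSZ n
  have e1 : ((ld e 1 : (RO ℤ)ˣ) : RO ℤ) = LaurentPolynomial.T 1 * (e : RO ℤ) := ld_val e 1
  have e2 : (eta T : RO ℤ) = -(e : RO ℤ) := by rw [h.eT, Units.val_neg]
  have t2 : (LaurentPolynomial.T 2 : RO ℤ) = LaurentPolynomial.T 1 * LaurentPolynomial.T 1 := by
    rw [← LaurentPolynomial.T_add]
    norm_num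
  rw [e2, t2] at hdtr
  by_cases hp : Part phi (Z n) S
  · have hk1 := hkl.1 hp
    obtain ⟨⟨p1, h11, h12⟩, -⟩ := hp
    have z1 : D.coeff (S + Z n) = 0 := by
      by_contra hcc
      have h3 := hD.bin _ hcc p1
      rw [map_add, Pi.add_apply, h11, h12] at h3
      omega
    rw [z1] at hdtr
    apply hFm.1.1
    rw [e1] at hk1
    linear_combination hk1 + hdtr
  · have hS0 : ∀ p, phi S p = 0 ∨ phi (Z n) p = 0 :=
      KO.dsj hI fp (rZ n) hFm.1 (fun hcc => hSZ _ hcc.symm) hp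
    have hk1 := hkl.2 hS0
    have dT : ∀ p, phi T p = 0 ∨ phi (Z n) p = 0 := fun p =>
      (hF2 ℤ P L phi D (Z n) T (eta T) hD.inj hD.bin (rZ n) h.rT (h.kil n) p).symm
    have hx : S + Z n ∉ US (eta T) T D := fun hcc => h.kil n (by
      have := Submodule.sub_mem _ hcc (h.fm S hFm hSZ)
      rwa [add_sub_cancel_left] at this)
    have hk0 := KO.f1d hF1 hD h.rT hx (fun p => by
      rcases hST p with h3 | h3
      · rcases dT p with h4 | h4
        · exact Or.inr h4
        · left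
          rw [map_add, Pi.add_apply, h3, h4, add_zero]
      · exact Or.inr h3)
    rw [e2] at hk0
    rw [e1] at hk1
    obtain ⟨-, g, e', hRN, hg, -, -⟩ :=
      hFm.kcZ hE2 hF3 hRkU hL hMco hOfb hO4 hB2 h.alp.w.ko h.des
    apply no_two hg (y := (e' : RO ℤ) * ((eta (Z n) : RO ℤ) * D.coeff (S + Z n)))
    rw [← hRN.DS, t2]
    linear_combination (e' : RO ℤ) * hk1 + (e' : RO ℤ) * hdtr +
      ((e' : RO ℤ) * (eta (Z n) : RO ℤ) * LaurentPolynomial.T 1) * hk0

/-- Subtracting a multiple of `mu n`. -/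
theorem WKil.sub (hF1 : F1S) (hF3 : F3S) (hD : DD phi D) {k : ℕ} {Z : ZMod (k + 3) → L}
    {mu : ZMod (k + 3) → L →+ ℤ} (h : Cyc phi D eta k Z mu) {n : ZMod (k + 3)} {T : L}
    (hT : Ray D T) (hTZ : ∀ m, T ≠ Z m) {e' : (RO ℤ)ˣ} (hi : Z n ∉ US e' T D)
    (dis : ∀ p, phi T p = 0 ∨ phi (Z n) p = 0) {u : (RO ℤ)ˣ} {nu : L →+ ℤ}
    (hk : WKil phi D (Z n) T (eta (Z n)) u nu) (c : ℤ) :
    WKil phi D (Z n) T (eta (Z n)) u (nu - c • mu n) := by
  have mT : mu n T = 0 := h.oth n T hT (hTZ _) (hTZ _)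
  have mZ : mu n (Z n) = 0 := by
    obtain ⟨n1, n2, -⟩ := KO.H40.idx k n
    exact KO.H40.cyc_mu h n1 n2
  have F := hF1 ℤ P L phi D (Z n) (eta (Z n)) hD.inj hD.bin (hD.bin _ (h.mtl n).r0.1)
    (h.mtl n).r0.2.1
  have hxT : ∀ x, mu n x ≠ 0 → x + T ∉ US (eta (Z n)) (Z n) D := fun x hm hc => hm (by
    have := (h.ker n _).mp hc
    rwa [map_add, mT, add_zero] at this)
  refine ⟨?_, ?_, ?_, ?_, ?_⟩
  · rw [AddMonoidHom.sub_apply, AddMonoidHom.smul_apply, hk.s, mZ, smul_zero, sub_zero]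
  · rw [AddMonoidHom.sub_apply, AddMonoidHom.smul_apply, hk.t, mT, smul_zero, sub_zero]
  · intro x hx hp
    rw [AddMonoidHom.sub_apply, AddMonoidHom.smul_apply, hk.pT x hx hp, zero_sub, neg_eq_zero,
      (KO.H40.cyc_killer hF3 hD h hT hTZ hi x (KO.f1p hF1 hD hT hx hp)).1, smul_zero]
  · intro x hx hp hnx
    by_cases hm : mu n x = 0
    · rw [AddMonoidHom.sub_apply, AddMonoidHom.smul_apply, hm, smul_zero, sub_zero] at hnx
      exact hk.pS x hx hp hnx
    · obtain ⟨⟨p1, h11, h12⟩, p2, h21, h22⟩ := hp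
      rw [(F x (fun hc => hm ((h.ker n x).mp hc))).1 ⟨p1, h11, h12⟩ ⟨p2, h21, h22⟩,
        (F (x + T) (hxT x hm)).1 ⟨p1, by
          rw [map_add, Pi.add_apply, h11, (dis p1).resolve_right (by rw [h12]; exact one_ne_zero),
            add_zero], h12⟩ ⟨p2, by
          rw [map_add, Pi.add_apply, h21, (dis p2).resolve_right (by rw [h22]; exact one_ne_zero),
            add_zero], h22⟩, mul_zero, add_zero]
  · intro x hx hnx
    by_cases hm : mu n x = 0
    · rw [AddMonoidHom.sub_apply, AddMonoidHom.smul_apply, hm, smul_zero, sub_zero] at hnx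
      exact hk.fr x hx hnx
    · have f0 := (F x (fun hc => hm ((h.ker n x).mp hc))).2 (fun p => (hx p).imp id And.left)
      have f1 := (F (x + T) (hxT x hm)).2 (fun p => by
            rcases hx p with h1 | h1
            · rcases dis p with h3 | h3
              · left
                rw [map_add, Pi.add_apply, h1, h3, add_zero]
              · exact Or.inr h3
            · exact Or.inr h1.1)
      rw [add_right_comm x T (Z n)] at f1
      linear_combination f0 + (u : RO ℤ) * f1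

/-- (TOP) at the level of `W`. -/
theorem WKil.top (hD : DD phi D) {t : L} {ep : (RO ℤ)ˣ}
    (hrev : ∀ a : L, D.coeff (t - a) = (ep : RO ℤ) * rsh (D.coeff a))
    (htop : ∀ i, co phi i ≠ 0 → phi t i = 1) {S T : L} (rS : Ray D S) (rT : Ray D T)
    (dis : ∀ p, phi T p = 0 ∨ phi S p = 0) {u0 u1 : (RO ℤ)ˣ} {nu : L →+ ℤ}
    (hk : WKil phi D S T u0 u1 nu)
    (hv : D.coeff 0 + (u0 : RO ℤ) * D.coeff S + (u1 : RO ℤ) * D.coeff T +
      (u0 : RO ℤ) * (u1 : RO ℤ) * D.coeff (S + T) ≠ 0) : nu t = 0 := by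
  by_contra hn
  have tp : ∀ {R : L}, Ray D R → ∀ p, phi R p ≠ 0 → phi t p = 1 ∧ phi R p = 1 := by
    intro R rR p hp
    refine ⟨htop p fun hc => hp ?_, (hD.bin R rR.1 p).resolve_left hp⟩
    have := congrArg (fun g : L →+ ℤ => g R) hc
    exact this
  have ho : Out phi S T (t - (S + T)) := by
    intro p
    rw [map_sub, map_add, Pi.sub_apply, Pi.add_apply]
    by_cases h0 : phi S p = 0
    · by_cases h1 : phi T p = 0
      · exact Or.inr ⟨h0, h1⟩
      · left
        rw [h0, (tp rT p h1).1, (tp rT p h1).2]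
        norm_num
    · left
      rw [(dis p).resolve_right h0, (tp rS p h0).1, (tp rS p h0).2]
      norm_num
  have h1 := hk.fr _ ho (by rw [map_sub, map_add, hk.s, hk.t, add_zero, sub_zero]; exact hn)
  rw [show t - (S + T) + S + T = t - 0 by abel, show t - (S + T) + S = t - T by abel,
    show t - (S + T) + T = t - S by abel, hrev, hrev, hrev, hrev] at h1
  have r0 := H24.rsh_unit u0
  have r1 := H24.rsh_unit u1
  apply hv
  apply rsh_inj0
  have h2 : (ep : RO ℤ) * ((u0 : RO ℤ) * (u1 : RO ℤ) *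
      rsh (D.coeff 0 + (u0 : RO ℤ) * D.coeff S + (u1 : RO ℤ) * D.coeff T +
      (u0 : RO ℤ) * (u1 : RO ℤ) * D.coeff (S + T))) = 0 := by
    simp only [map_add, map_mul]
    linear_combination h1 + ((ep : RO ℤ) * (u1 : RO ℤ) * rsh (D.coeff S)) * r0 +
      ((ep : RO ℤ) * (u0 : RO ℤ) * rsh (D.coeff T)) * r1 +
      ((ep : RO ℤ) * rsh (D.coeff (S + T))) * r0 +
      ((ep : RO ℤ) * rsh (u0 : RO ℤ) * (u0 : RO ℤ) * rsh (D.coeff (S + T))) * r1
  have h3 := (mul_eq_zero.mp h2).resolve_left ep.ne_zero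
  exact (mul_eq_zero.mp h3).resolve_left (mul_ne_zero u0.ne_zero u1.ne_zero)

/-- The value of `H^`. -/
theorem tk3_val (hF1 : F1S) (hF2 : F2S) (h : Tk3 phi D q f f' a j eta k' Z mu Z' mu' T e nuC)
    (n : ZMod 3) :
    D.coeff 0 + (eta (Z n) : RO ℤ) * D.coeff (Z n) + ((ld e 1 : (RO ℤ)ˣ) : RO ℤ) * D.coeff T +
      (eta (Z n) : RO ℤ) * ((ld e 1 : (RO ℤ)ˣ) : RO ℤ) * D.coeff (Z n + T) =
      toLaurent (q + X * ((2 - X ^ 2) * f)) := by
  have hD := h.alp.w.ko.min.fp.dd
  have h1 := V0_ld h.rn 1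
  rw [pow_one] at h1
  have h2 := KO.f1d hF1 hD h.rT (h.kil n) (hF2 ℤ P L phi D (Z n) T (eta T) hD.inj hD.bin
    (h.alp.c.mtl n).r0 h.rT (h.kil n))
  rw [h.eT, Units.val_neg] at h2
  obtain ⟨en, hen, hRn⟩ := h.alp.w.rn (Z n) ⟨n, rfl⟩
  have h3 : (eta (Z n) : RO ℤ) * D.coeff (Z n) = toLaurent (X * f) := by
    rw [hen, KO.ld_S1 hRn]
  have e1 : (toLaurent (q + X * ((2 - X ^ 2) * f)) : RO ℤ) =
      toLaurent (q + X * ((1 - X - X ^ 2) * f)) + (1 + LaurentPolynomial.T 1) *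
        toLaurent (X * f) := by
    have e2 : q + X * ((2 - X ^ 2) * f) = (q + X * ((1 - X - X ^ 2) * f)) + (1 + X) * (X * f) := by
      ring
    rw [e2, map_add, map_mul (toLaurent) (1 + X) (X * f), map_add toLaurent (1 : ℤ[X]) X,
      map_one, toLaurent_X]
  have h4 : ((ld e 1 : (RO ℤ)ˣ) : RO ℤ) = LaurentPolynomial.T 1 * (e : RO ℤ) := ld_val e 1
  have h5 : ((ld e ((1 : ℕ) : ℤ) : (RO ℤ)ˣ) : RO ℤ) = ((ld e 1 : (RO ℤ)ˣ) : RO ℤ) := by
    rw [Nat.cast_one]
  rw [h5] at h1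
  rw [e1, ← h1, ← h3, h4]
  linear_combination (-(eta (Z n) : RO ℤ) * LaurentPolynomial.T 1) * h2

/-- (TK_SUP) a functional which kills the closing of `W` and is zero on the rays outside the triple
is a multiple of `mu n`. -/
theorem tk3_only (hTop : TopS) (hRy : RaySpanS) (hE2 : E2S) (hRk : RkS) (hF1 : F1S)
    (hF2 : F2S) (hF3 : F3S) (h : Tk3 phi D q f f' a j eta k' Z mu Z' mu' T e nuC) {n : ZMod 3}
    {nu : L →+ ℤ} (hk : WKil phi D (Z n) T (eta (Z n)) (ld e 1) nu)
    (ho : ∀ R, Ray D R → (∀ m, R ≠ Z m) → nu R = 0) : nu = nu (Z (n + 1)) • mu n := by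
  have hD := h.alp.w.ko.min.fp.dd
  have h2 : 2 ≤ Module.finrank ℤ L := by have := h.alp.w.ko.rk; have := h.alp.w.ko.j2; omega
  have hc := h.alp.c
  have dT : ∀ p, phi T p = 0 ∨ phi (Z n) p = 0 := fun p =>
    (hF2 ℤ P L phi D (Z n) T (eta T) hD.inj hD.bin (hc.mtl n).r0 h.rT (h.kil n) p).symm
  obtain ⟨t, ep, hrev, htop, -⟩ := hTop ℤ P L phi D hD h2
  have hk' := hk.sub hF1 hF3 hD hc h.rT h.TZ (h.kil n) dT (nu (Z (n + 1)))
  rw [← sub_eq_zero]
  have hv : D.coeff 0 + (eta (Z n) : RO ℤ) * D.coeff (Z n) +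
      ((ld e 1 : (RO ℤ)ˣ) : RO ℤ) * D.coeff T +
      (eta (Z n) : RO ℤ) * ((ld e 1 : (RO ℤ)ˣ) : RO ℤ) * D.coeff (Z n + T) ≠ 0 := by
    rw [tk3_val hF1 hF2 h n]
    intro h0
    have h5 := toLaurent_eq_zero.mp h0
    have h3 := congrArg (fun p : ℤ[X] => p.coeff 0) h5
    simp only [coeff_add, coeff_X_mul_zero, h.rn.loc.q0, coeff_zero, add_zero] at h3
    exact one_ne_zero h3
  refine one_ray hRy hE2 hRk hD h2 hrev (hk'.top hD hrev htop (hc.mtl n).r0 h.rT dT hv)
    (hc.mtl (n - 1)).r0 fun R hR hne => ?_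
  by_cases hcc : ∀ m, R ≠ Z m
  · rw [AddMonoidHom.sub_apply, AddMonoidHom.smul_apply, ho R hR hcc,
      hc.oth n R hR (hcc _) (hcc _), smul_zero, sub_zero]
  · push Not at hcc
    obtain ⟨m, rfl⟩ := hcc
    have h3 : m = n ∨ m = n + 1 ∨ m = n - 1 := three_idx n m
    rcases h3 with rfl | rfl | rfl
    · exact hk'.s
    · have h4 : mu n (Z (n + 1)) = 1 := hc.nxt n
      rw [AddMonoidHom.sub_apply, AddMonoidHom.smul_apply, h4, smul_eq_mul, mul_one, sub_self]
    · exact absurd rfl hne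

/-- (TK_SUP) a functional `≠ 0` which kills the closing of `W` and is zero at `Z (n + 1)` moves a
ray outside, which kills the triple. -/
theorem tk3_ex (hTop : TopS) (hRy : RaySpanS) (hRk : RkS) (hF1 : F1S) (hF2 : F2S) (hF3 : F3S)
    (hI : Inj1S) (hE2 : E2S) (hRkU : RkUSS) (hL : LMNS) (hMco : McoS) (hOfb : OfbS) (hO4 : Oo4S)
    (hB2 : Ob2S) (h : Tk3 phi D q f f' a j eta k' Z mu Z' mu' T e nuC) {n : ZMod 3}
    {nu : L →+ ℤ} (hk : WKil phi D (Z n) T (eta (Z n)) (ld e 1) nu) (h1 : nu (Z (n + 1)) = 0)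
    (hne : nu ≠ 0) : ∃ R, Ray D R ∧ (∀ m, R ≠ Z m) ∧ nu R ≠ 0 ∧ R ≠ T ∧
      (∀ m, Z m ∉ US (eta R) R D) ∧ ∀ p, phi T p = 0 ∨ phi R p = 0 := by
  by_contra hcon
  push Not at hcon
  apply hne
  have h2 := tk3_only hTop hRy hE2 hRk hF1 hF2 hF3 h hk (fun R rR hRZ => by
    by_contra hc
    have h3 := tk3_sup hF1 hF2 hF3 hI hE2 hRkU hL hMco hOfb hO4 hB2 h hk rR hRZ hc
    have h4 : R ≠ T := by
      rintro rfl
      exact hc hk.t
    obtain ⟨p, hp1, hp2⟩ := hcon R rR hRZ hc h4 h3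
    rcases kil_dis hF1 hF2 hF3 hI h.alp.w.ko.min.fp h.alp.c h.rT h.TZ h.kil rR hRZ h3
      (Ne.symm h4) p with h5 | h5
    · exact hp1 h5
    · exact hp2 h5)
  rw [h2, h1, zero_smul]

end tk3

end

end Pool.Agent.B5.KO.H96
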