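import Pool.Agent.Lib.MP_b5021c_nt.KO.H96.Min
import Pool.Agent.Lib.MP_b5021c_nt.KO.H52.Mins

/-!
# MP_b5021c_nt, all `θ`, K ODD, (O4), l = 3, ALPHA, TK_DT: `MinK` gives helper52's `Mins`
-/

set_option linter.unusedSectionVars false

namespace Pool.Agent.B5.KO.H96

open scoped LaurentPolynomial
open Polynomial
open Pool.Agent.B5 Pool.Agent.B5.KE
open Pool.Agent.B5.H07 Pool.Agent.B5.H63
open Pool.Agent.B5.Nr.Sch
open Pool.Agent.B5.O4X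
open Pool.Agent.B5.KO52 (Mins)

section

variable {P L : Type} [Fintype P] [DecidableEq P] [AddCommGroup L] [Module.Free ℤ L]
  [Module.Finite ℤ L] {phi : L →+ (P → ℤ)} {D : AO ℤ L} {eta : L → (RO ℤ)ˣ}
  {q f f' : ℤ[X]} {a : ℝ} {j k' : ℕ} {Z : ZMod 3 → L} {mu : ZMod 3 → L →+ ℤ}
  {Z' : ZMod (k' + 3) → L} {mu' : ZMod (k' + 3) → L →+ ℤ} {T : L} {e : (RO ℤ)ˣ} {nuC : L →+ ℤ}

/-- `MinK` AT `n = 0` GIVES `Mins`. -/
theorem mins_of (hF1 : F1S) (hF2 : F2S) (hF3 : F3S)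
    (h : Tk3 phi D q f f' a j eta k' Z mu Z' mu' T e nuC) {ι : Type} {R : ι → L} {nu : L →+ ℤ}
    (M : MinK phi D eta Z mu T e 0 R nu) : Mins phi D eta Z mu T e R nu := by
  have hD := h.alp.w.ko.min.fp.dd
  have hc := h.alp.c
  have dT : ∀ p, phi T p = 0 ∨ phi (Z 0) p = 0 := fun p =>
    (hF2 ℤ P L phi D (Z 0) T (eta T) hD.inj hD.bin (hc.mtl 0).r0 h.rT (h.kil 0) p).symm
  have n1 : nu (Z 1) = 0 := by
    have := M.n1
    rwa [zero_add] at this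
  refine ⟨M.inj, M.ray, M.RZ, M.RT, M.kil, M.disT, M.dis, M.disZ, M.wk, n1, M.mv, ?_, ?_⟩
  · intro S rS hSZ hn
    by_contra hcon
    push Not at hcon
    exact hn (M.oth S rS hSZ hcon)
  · intro nu' hk hfix
    have h1 : mu 0 (Z 1) = 1 := hc.nxt 0
    obtain ⟨m, c, hm, hmc⟩ := M.min (nu' - nu' (Z 1) • mu 0)
      (hk.sub hF1 hF3 hD hc h.rT h.TZ (h.kil 0) dT _) (by
        rw [zero_add, AddMonoidHom.sub_apply, AddMonoidHom.smul_apply, h1, smul_eq_mul, mul_one,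
          sub_self]) (by
        intro S rS hSZ hSR
        rw [AddMonoidHom.sub_apply, AddMonoidHom.smul_apply, hc.oth 0 S rS (hSZ _) (hSZ _),
          smul_zero, sub_zero]
        by_contra hn
        obtain ⟨i, hi⟩ := hfix S rS hSZ hn
        exact hSR i hi)
    refine ⟨m, c, m * nu' (Z 1), hm, ?_⟩
    rw [← hmc]
    ext x
    simp only [AddMonoidHom.add_apply, AddMonoidHom.smul_apply, AddMonoidHom.sub_apply,
      smul_eq_mul]
    ring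

/-- (MIN) -/
theorem tk3_mins (hTop : TopS) (hRy : RaySpanS) (hRk : RkS) (hF1 : F1S) (hF2 : F2S) (hF3 : F3S)
    (hI : Inj1S) (hE2 : E2S) (hRkU : RkUSS) (hL : LMNS) (hMco : McoS) (hOfb : OfbS) (hO4 : Oo4S)
    (hB2 : Ob2S) (h : Tk3 phi D q f f' a j eta k' Z mu Z' mu' T e nuC)
    {nu0 : L →+ ℤ} (hk0 : WKil phi D (Z 0) T (eta (Z 0)) (ld e 1) nu0)
    (h1 : nu0 (Z 1) = 0) (hne : nu0 ≠ 0) :
    ∃ (ι : Type) (_ : Fintype ι) (_ : DecidableEq ι) (_ : Nonempty ι) (R : ι → L) (nu : L →+ ℤ),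
      Mins phi D eta Z mu T e R nu := by
  obtain ⟨ι, i1, i2, i3, R, nu, M⟩ := tk3_min hTop hRy hRk hF1 hF2 hF3 hI hE2 hRkU hL hMco hOfb
    hO4 hB2 h (n := 0) hk0 (by rw [zero_add]; exact h1) hne
  exact ⟨ι, i1, i2, i3, R, nu, mins_of hF1 hF2 hF3 h M⟩

end

end Pool.Agent.B5.KO.H96
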