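import Pool.Agent.Lib.MP_b5021c_nt.IfaceBE
import Pool.Agent.Lib.MP_b5021c_nt.KO.H71.Ncl
import Pool.Agent.Lib.MP_b5021c_nt.KO.H67.Tk
import Pool.Agent.Lib.MP_b5021c_nt.KO.H13.Rel

/-!
# MP_b5021c_nt, all `θ`, K odd, (O4), PURE BETA: row BE_STR (helper96, PaperBeta 1)
-/

set_option linter.unusedSectionVars false

namespace Pool.Agent.B5.KO.H96

open scoped LaurentPolynomial
open Polynomial
open Pool.Agent.B5 Pool.Agent.B5.KE Pool.Agent.B5.KO.H71

/-! ## Disjoint binary vectors -/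

section

variable {P L : Type} [Fintype P] [DecidableEq P] [AddCommGroup L] {phi : L →+ (P → ℤ)}

/-- The value of a combination of disjoint binary vectors at a port of one of them. -/
theorem comb_port {ι : Type} [Fintype ι] [DecidableEq ι] {v : ι → L}
    (hd : ∀ i k, i ≠ k → ∀ p, phi (v i) p = 0 ∨ phi (v k) p = 0) (c : ι → ℤ) {i : ι} {p : P}
    (hp : phi (v i) p = 1) : phi (∑ k, c k • v k) p = c i := by
  rw [map_sum, Finset.sum_apply, Finset.sum_eq_single i]
  · rw [map_zsmul, Pi.smul_apply, hp, smul_eq_mul, mul_one]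
  · intro k _ hk
    rw [map_zsmul, Pi.smul_apply, (hd i k (Ne.symm hk) p).resolve_left (by rw [hp]; norm_num),
      smul_zero]
  · intro h
    exact absurd (Finset.mem_univ i) h

theorem lin_ind {ι : Type} [Fintype ι] [DecidableEq ι] {v : ι → L}
    (hd : ∀ i k, i ≠ k → ∀ p, phi (v i) p = 0 ∨ phi (v k) p = 0)
    (hp : ∀ i, ∃ p, phi (v i) p = 1) : LinearIndependent ℤ v := by
  rw [Fintype.linearIndependent_iff]
  intro g hg i
  obtain ⟨p, h⟩ := hp i
  have h1 := comb_port hd g h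
  rw [hg, map_zero] at h1
  exact h1.symm

end

section

variable {P L : Type} [Fintype P] [DecidableEq P] [AddCommGroup L] [Module.Free ℤ L]
  [Module.Finite ℤ L] {phi : L →+ (P → ℤ)} {D : AO ℤ L} {q f : ℤ[X]} {a : ℝ} {j : ℕ}
  {eta et : L → (RO ℤ)ˣ} {C : Set L} {Z : ZMod (0 + 3) → L} {mu : ZMod (0 + 3) → L →+ ℤ}

/-- A port of a ray. -/
theorem ray_port (hD : DD phi D) {R : L} (hR : Ray D R) : ∃ p, phi R p = 1 := by
  by_contra hcon
  push Not at hcon
  apply hR.2.1
  apply hD.inj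
  rw [map_zero]
  funext p
  exact (hD.bin _ hR.1 p).resolve_right (hcon p)

/-- Rays are not nested. -/
theorem not_nest (hI : Inj1S) (fp : FP phi D) {R S : L} (hR : Ray D R) (hS : Ray D S)
    (h : ∀ p, phi R p = 1 → phi S p = 1) : R = S := by
  have hD := fp.dd
  obtain ⟨k, hk⟩ := (hI ℤ P L phi D fp S hS).1 R (by
    intro p hp
    rcases hD.bin _ hR.1 p with h1 | h1
    · exact h1
    · rw [h p h1] at hp
      exact absurd hp (by norm_num))
  obtain ⟨p, hp⟩ := ray_port hD hR
  have h1 := h p hp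
  have h2 : phi R p = k * phi S p := by rw [hk, map_zsmul, Pi.smul_apply, smul_eq_mul]
  rw [hp, h1, mul_one] at h2
  rw [hk, ← h2, one_smul]

/-- The closing of an outside ray: all `Z i` killed, `US` in the kernels. -/
theorem bet_us (hF3 : F3S) (hB : Bet phi D q f a j eta C Z mu et) {T : L} (hT : Ray D T)
    (hTZ : ∀ i, T ≠ Z i) : (∀ i, Z i ∉ US (et T) T D) ∧
      ∀ b ∈ US (et T) T D, ∀ i, mu i b = 0 := by
  have hD := hB.kc.ko.min.fp.dd
  obtain ⟨i, hi⟩ := hB.kil T hT hTZ
  have hall := fun k => KO67.cyc_all hF3 hD hB.cyc hT hTZ hi k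
  exact ⟨hall, fun b hb k => (H40.cyc_killer hF3 hD hB.cyc hT hTZ (hall k) b hb).1⟩

/-- The flip of an outside ray. -/
theorem bet_flip (hF1 : F1S) (hF3 : F3S) (hB : Bet phi D q f a j eta C Z mu et) {T : L}
    (hT : Ray D T) (hTZ : ∀ i, T ≠ Z i) {b : L} (hb : ∃ i, mu i b ≠ 0) :
    ((∃ p, phi b p = 1 ∧ phi T p = 1) → (∃ p, phi b p = 0 ∧ phi T p = 1) → D.coeff b = 0) ∧
      ((∀ p, phi b p = 0 ∨ phi T p = 0) →
        D.coeff b + (et T : RO ℤ) * D.coeff (b + T) = 0) := by
  have hD := hB.kc.ko.min.fp.dd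
  obtain ⟨i, hi⟩ := hb
  exact hF1 ℤ P L phi D T (et T) hD.inj hD.bin (hD.bin _ hT.1) hT.2.1 b
    (fun h => hi ((bet_us hF3 hB hT hTZ).2 b h i))

/-- Outside rays are disjoint from the cycle. -/
theorem bet_dis (hF2 : F2S) (hF3 : F3S) (hB : Bet phi D q f a j eta C Z mu et) {T : L}
    (hT : Ray D T) (hTZ : ∀ i, T ≠ Z i) (i : ZMod (0 + 3)) (p : P) :
    phi (Z i) p = 0 ∨ phi T p = 0 := by
  have hD := hB.kc.ko.min.fp.dd
  exact hF2 ℤ P L phi D (Z i) T (et T) hD.inj hD.bin (hB.cyc.mtl i).r0 hT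
    ((bet_us hF3 hB hT hTZ).1 i) p

theorem bet_mu (hB : Bet phi D q f a j eta C Z mu et) {T : L} (hT : Ray D T)
    (hTZ : ∀ i, T ≠ Z i) (i : ZMod (0 + 3)) : mu i T = 0 :=
  hB.cyc.oth i T hT (hTZ _) (hTZ _)

/-- Two outside rays are disjoint. -/
theorem bet_dis2 (hI : Inj1S) (hF1 : F1S) (hF2 : F2S) (hF3 : F3S)
    (hB : Bet phi D q f a j eta C Z mu et) {T T' : L}
    (hT : Ray D T) (hTZ : ∀ i, T ≠ Z i) (hT' : Ray D T') (hTZ' : ∀ i, T' ≠ Z i)
    (hne : T ≠ T') (p : P) : phi T p = 0 ∨ phi T' p = 0 := by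
  have fp := hB.kc.ko.min.fp
  have hD := fp.dd
  have hd := bet_dis hF2 hF3 hB hT hTZ 0
  have hd' := bet_dis hF2 hF3 hB hT' hTZ' 0
  have hm : mu 1 (Z 0) ≠ 0 := by
    have := hB.cyc.prv 1
    rw [show (1 : ZMod (0 + 3)) - 1 = 0 by decide] at this
    rw [this]; norm_num
  have hm2 : mu 1 (Z 0 + T) ≠ 0 := by
    rw [map_add, bet_mu hB hT hTZ, add_zero]; exact hm
  have h1 := (bet_flip hF1 hF3 hB hT hTZ (b := Z 0) ⟨1, hm⟩).2 hd
  have h2 : D.coeff (Z 0 + T) ≠ 0 := by
    intro h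
    rw [h, mul_zero, add_zero] at h1
    exact (hB.cyc.mtl 0).r0.1 h1
  by_contra hcon
  push Not at hcon
  obtain ⟨c1, c2⟩ := hcon
  have c1' : phi T p = 1 := (hD.bin _ hT.1 p).resolve_left c1
  have c2' : phi T' p = 1 := (hD.bin _ hT'.1 p).resolve_left c2
  have h3 := (bet_flip hF1 hF3 hB hT' hTZ' (b := Z 0 + T) ⟨1, hm2⟩).1 ⟨p, by
    rw [map_add, Pi.add_apply, c1', (hd p).resolve_right c1]; norm_num, c2'⟩
  have h4 : ¬ ∃ p', phi (Z 0 + T) p' = 0 ∧ phi T' p' = 1 := fun h => h2 (h3 h)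
  push Not at h4
  apply hne
  refine (not_nest hI fp hT' hT fun p' hp' => ?_).symm
  by_contra h5
  have h6 : phi T p' = 0 := (hD.bin _ hT.1 p').resolve_right h5
  refine h4 p' ?_ hp'
  rw [map_add, Pi.add_apply, h6, (hd' p').resolve_right (by rw [hp']; norm_num), add_zero]

end

/-- (BE_STR) -/
theorem beStr (hE2 : E2S) (hRS : RaySpanS) (hI : Inj1S) (hF1 : F1S) (hF2 : F2S) (hF3 : F3S) :
    BeStrS := by
  classical
  intro P L _ _ _ _ _ phi D q f a j eta C Z mu et hB
  have hKo := hB.kc.ko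
  have fp := hKo.min.fp
  have hD := fp.dd
  have hrkL := hKo.rk
  have hj2 := hKo.j2
  have h2 : 2 ≤ Module.finrank ℤ L := by omega
  obtain ⟨-, hthin, -, -, hrk, -⟩ := hE2 ℤ P L phi D hD h2
  have Tr : Tri phi D Z (fun i => eta (Z i)) mu := Cyc.tri hD hrk hB.cyc
  -- the rays outside
  set Os : Set L := {R | Ray D R ∧ ∀ i, R ≠ Z i} with hOs
  have hfin : Os.Finite := (O4X.rays_finite D).subset fun R h => h.1
  set e : Fin hfin.toFinset.card ≃ hfin.toFinset := hfin.toFinset.equivFin.symm with he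
  set s : ℕ := hfin.toFinset.card with hs
  set T : Fin s → L := fun i => ((e i : hfin.toFinset) : L) with hTdef
  have hTm : ∀ i, Ray D (T i) ∧ ∀ k, T i ≠ Z k := fun i => by
    have := (e i).2
    rw [Set.Finite.mem_toFinset] at this
    exact this
  have hTinj : Function.Injective T := fun i k h => e.injective (Subtype.ext h)
  have hTsur : ∀ R, Ray D R → (∀ k, R ≠ Z k) → ∃ i, R = T i := by
    intro R hR hRZ
    have h1 : R ∈ hfin.toFinset := by rw [Set.Finite.mem_toFinset]; exact ⟨hR, hRZ⟩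
    exact ⟨e.symm ⟨R, h1⟩, by rw [hTdef]; simp⟩
  set S : Fin 3 → L := fun i => Z i with hSdef
  have hSray : ∀ i, Ray D (S i) := fun i => (hB.cyc.mtl i).r0
  choose es hes hRN using fun i : Fin 3 => hB.kc.rn (S i) (hB.mem i)
  -- disjointness
  have dSS : ∀ i k, i ≠ k → ∀ p, phi (S i) p = 0 ∨ phi (S k) p = 0 := hB.cyc.dis
  have dST : ∀ i k p, phi (S i) p = 0 ∨ phi (T k) p = 0 := fun i k p =>
    bet_dis hF2 hF3 hB (hTm k).1 (hTm k).2 i p
  have dTT : ∀ i k, i ≠ k → ∀ p, phi (T i) p = 0 ∨ phi (T k) p = 0 := fun i k hik p =>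
    bet_dis2 hI hF1 hF2 hF3 hB (hTm i).1 (hTm i).2 (hTm k).1 (hTm k).2
      (fun h => hik (hTinj h)) p
  set v : Fin 3 ⊕ Fin s → L := Sum.elim S T with hv
  have dv : ∀ i k, i ≠ k → ∀ p, phi (v i) p = 0 ∨ phi (v k) p = 0 := by
    rintro (i | i) (k | k) hik p
    · exact dSS i k (fun h => hik (by rw [h])) p
    · exact dST i k p
    · exact (dST k i p).symm
    · exact dTT i k (fun h => hik (by rw [h])) p
  have hvr : ∀ i, Ray D (v i) := by
    rintro (i | i)
    · exact hSray i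
    · exact (hTm i).1
  have hvp : ∀ i, ∃ p, phi (v i) p = 1 := fun i => ray_port hD (hvr i)
  have hli : LinearIndependent ℤ v := lin_ind dv hvp
  have hrng : {b | Ray D b} = Set.range v := by
    ext R
    constructor
    · intro hR
      by_cases h : ∃ k, R = Z k
      · obtain ⟨k, hk⟩ := h
        exact ⟨Sum.inl k, hk.symm⟩
      · push Not at h
        obtain ⟨i, hi⟩ := hTsur R hR h
        exact ⟨Sum.inr i, hi.symm⟩
    · rintro ⟨i, rfl⟩
      exact hvr i
  have hcard : 3 + s = 2 * j + 1 := by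
    have h1 := finrank_span_eq_card hli
    have h3 : Fintype.card (Fin 3 ⊕ Fin s) = 3 + s := by
      rw [Fintype.card_sum, Fintype.card_fin, Fintype.card_fin]
    have h4 : rk {b | Ray D b} = 3 + s := by
      unfold rk
      rw [hrng, h1, h3]
    omega
  -- the support
  obtain ⟨lam0, hlam0, -⟩ := hD.st.2
  have hspan := (hRS ℤ L D ⟨lam0, hlam0⟩ hthin).1
  have hsup : ∀ b ∈ supp D, ∃ c : Fin 3 ⊕ Fin s → ℤ, (∀ i, c i = 0 ∨ c i = 1) ∧
      b = ∑ i, c i • v i := by
    intro b hb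
    by_cases hb0 : b = 0
    · exact ⟨fun _ => 0, fun _ => Or.inl rfl, by simp [hb0]⟩
    obtain ⟨n, hn, hmem⟩ := hspan b hb hb0
    have h1 : ∃ d : Fin 3 ⊕ Fin s → ℤ, n • b = ∑ i, d i • v i := by
      have : n • b ∈ Submodule.span ℤ (Set.range v) := by
        rw [← hrng]
        have h5 : AddSubmonoid.closure {b | Ray D b} ≤
            (Submodule.span ℤ {b | Ray D b}).toAddSubmonoid :=
          AddSubmonoid.closure_le.mpr Submodule.subset_span
        exact h5 hmem
      rw [Submodule.mem_span_range_iff_exists_fun] at this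
      obtain ⟨d, hd⟩ := this
      exact ⟨d, hd.symm⟩
    obtain ⟨d, hd⟩ := h1
    choose pt hpt using hvp
    refine ⟨fun i => phi b (pt i), fun i => hD.bin b hb _, ?_⟩
    have h6 : ∀ i, d i = n * phi b (pt i) := by
      intro i
      have h7 := comb_port dv d (hpt i)
      rw [← hd, map_nsmul, Pi.smul_apply, nsmul_eq_mul] at h7
      exact h7.symm
    have h8 : n • b = n • ∑ i, phi b (pt i) • v i := by
      rw [hd, Finset.smul_sum]
      refine Finset.sum_congr rfl fun i _ => ?_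
      rw [h6 i, mul_smul, natCast_zsmul]
    have h9 : n • (b - ∑ i, phi b (pt i) • v i) = 0 := by rw [smul_sub, h8, sub_self]
    have : NoZeroSMulDivisors ℕ L := inferInstance
    exact sub_eq_zero.mp ((smul_eq_zero.mp h9).resolve_left (by omega))
  have hsum : ∀ c : Fin 3 ⊕ Fin s → ℤ, ∑ i, c i • v i =
      ∑ i, c (Sum.inl i) • S i + ∑ i, c (Sum.inr i) • T i := fun c => by
    rw [Fintype.sum_sum_type]
    rfl
  refine ⟨s, S, es, T, fun i => et (T i), ?_⟩
  have hmuT : ∀ k i, mu k (T i) = 0 := fun k i => bet_mu hB (hTm i).1 (hTm i).2 k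
  have hmuB : ∀ k (B : Finset (Fin s)), mu k (∑ i ∈ B, T i) = 0 := fun k B => by
    rw [map_sum]
    exact Finset.sum_eq_zero fun i _ => hmuT k i
  -- the values of `mu` at a proper non-empty subset
  have hmuA : ∀ A : Finset (Fin 3), A ≠ ∅ → A ≠ Finset.univ → ∃ k, mu k (∑ i ∈ A, S i) ≠ 0 := by
    have m01 : mu 0 (S 1) = 1 := hB.cyc.nxt 0
    have m12 : mu 1 (S 2) = 1 := hB.cyc.nxt 1
    have m20 : mu 2 (S 0) = 1 := hB.cyc.nxt 2
    have m02 : mu 0 (S 2) = -1 := hB.cyc.prv 0
    have m10 : mu 1 (S 0) = -1 := hB.cyc.prv 1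
    have m21 : mu 2 (S 1) = -1 := hB.cyc.prv 2
    have m00 : mu 0 (S 0) = 0 := Tr.slf 0
    have m11 : mu 1 (S 1) = 0 := Tr.slf 1
    have m22 : mu 2 (S 2) = 0 := Tr.slf 2
    intro A h1 h2
    have key : ∀ A : Finset (Fin 3), A ≠ ∅ → A ≠ Finset.univ →
        A = {0} ∨ A = {1} ∨ A = {2} ∨ A = {0, 1} ∨ A = {0, 2} ∨ A = {1, 2} := by decide
    rcases key A h1 h2 with rfl | rfl | rfl | rfl | rfl | rfl
    · exact ⟨1, by rw [Finset.sum_singleton]; rw [m10]; norm_num⟩
    · exact ⟨0, by rw [Finset.sum_singleton]; rw [m01]; norm_num⟩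
    · exact ⟨0, by rw [Finset.sum_singleton]; rw [m02]; norm_num⟩
    · exact ⟨0, by rw [Finset.sum_pair (by decide), map_add, m00, m01]; norm_num⟩
    · exact ⟨0, by rw [Finset.sum_pair (by decide), map_add, m00, m02]; norm_num⟩
    · exact ⟨1, by rw [Finset.sum_pair (by decide), map_add, m11, m12]; norm_num⟩
  -- `Σ_A S` with the product of the loads
  have hldc : ∀ i, ((ld (es i) 1 : (RO ℤ)ˣ) : RO ℤ) * D.coeff (S i) = toLaurent (X * f) := by
    intro i
    have h1 := ld_S (hRN i) 1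
    rw [pow_one] at h1
    exact_mod_cast h1
  have hpsi0 : ∀ A : Finset (Fin 3), A ≠ ∅ → A ≠ Finset.univ →
      (∏ i ∈ A, ((ld (es i) 1 : (RO ℤ)ˣ) : RO ℤ)) * D.coeff (∑ i ∈ A, S i) =
        -((-1) ^ A.card * toLaurent (X * f)) := by
    have hfr0 : Fr phi Z mu 0 := ⟨fun i p => Or.inl (by rw [map_zero]; rfl), fun i => map_zero _⟩
    have hpair : ∀ i k : Fin 3, i ≠ k → ((ld (es i) 1 : (RO ℤ)ˣ) : RO ℤ) *
        ((ld (es k) 1 : (RO ℤ)ˣ) : RO ℤ) * D.coeff (S i + S k) = -toLaurent (X * f) := by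
      intro i k hik
      have h1 := Tr.pair hF1 hD.inj hD.bin hfr0 (i := i) (j := k) hik 0
      rw [zero_add, zero_add] at h1
      rw [← hes i, ← hes k, ← hldc 0, ← hes 0]
      exact h1
    intro A h1 h2
    have key : ∀ A : Finset (Fin 3), A ≠ ∅ → A ≠ Finset.univ →
        A = {0} ∨ A = {1} ∨ A = {2} ∨ A = {0, 1} ∨ A = {0, 2} ∨ A = {1, 2} := by decide
    rcases key A h1 h2 with rfl | rfl | rfl | rfl | rfl | rfl
    · rw [Finset.prod_singleton, Finset.sum_singleton, hldc, Finset.card_singleton]; ring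
    · rw [Finset.prod_singleton, Finset.sum_singleton, hldc, Finset.card_singleton]; ring
    · rw [Finset.prod_singleton, Finset.sum_singleton, hldc, Finset.card_singleton]; ring
    · rw [Finset.prod_pair (by decide), Finset.sum_pair (by decide), hpair 0 1 (by decide),
        Finset.card_pair (by decide)]; ring
    · rw [Finset.prod_pair (by decide), Finset.sum_pair (by decide), hpair 0 2 (by decide),
        Finset.card_pair (by decide)]; ring
    · rw [Finset.prod_pair (by decide), Finset.sum_pair (by decide), hpair 1 2 (by decide),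
        Finset.card_pair (by decide)]; ring
  refine
    { ko := hKo
      f0 := hB.f0
      n := hB.n
      s2 := by omega
      rS := hSray
      nS := hRN
      dS := fun i e' he' => by
        rw [← hes i] at he'
        exact fun i0 h => hB.kc.kc.fr (S i) (hB.mem i) e' he' i0 h
      mt := ?_
      rT := fun i => (hTm i).1
      tT := ?_
      ray := ?_
      bas := ?_
      dSS := dSS
      dST := dST
      dTT := dTT
      sup := ?_
      psi := ?_ }
  · intro i k hik
    rw [← hes i, ← hes k]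
    rcases z3h i k with h | h | h
    · exact absurd h.symm hik
    · rw [h]
      exact hB.cyc.mtl i
    · have h0 : ∀ k' : ZMod (0 + 3), k' + 1 = i → Mut D (S i) (Z k') (eta (S i)) (eta (Z k')) := by
        rintro k' rfl
        have h1 := hB.cyc.mtl k'
        exact ⟨h1.r1, h1.r0, h1.m1, h1.m0⟩
      exact h0 k (by rw [h]; exact z3d i)
  · intro i
    obtain ⟨g, e', h1, h3, h4⟩ := hB.des (T i) (hTm i).1
    exact ⟨h3, g, e', h1, h4⟩
  · intro R hR
    by_cases h : ∃ k, R = Z k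
    · obtain ⟨k, hk⟩ := h
      exact Or.inl ⟨k, hk⟩
    · push Not at h
      exact Or.inr (hTsur R hR h)
  · constructor
    · rintro ⟨c1, c2⟩ ⟨d1, d2⟩ h
      have h1 : ∑ i, (Sum.elim c1 c2 i) • v i = ∑ i, (Sum.elim d1 d2 i) • v i := by
        rw [hsum, hsum]
        exact h
      have h3 : ∀ i, Sum.elim c1 c2 i = Sum.elim d1 d2 i := by
        intro i
        obtain ⟨p, hp⟩ := hvp i
        rw [← comb_port dv (Sum.elim c1 c2) hp, ← comb_port dv (Sum.elim d1 d2) hp, h1]
      rw [Prod.mk.injEq]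
      exact ⟨funext fun i => h3 (Sum.inl i), funext fun i => h3 (Sum.inr i)⟩
    · intro b
      have h1 : b ∈ Submodule.span ℤ (Set.range v) := by
        have h3 : Submodule.span ℤ (supp D) ≤ Submodule.span ℤ (Set.range v) := by
          rw [Submodule.span_le]
          intro x hx
          obtain ⟨c, -, hc⟩ := hsup x hx
          rw [hc]
          exact Submodule.sum_mem _ fun i _ => Submodule.smul_mem _ _
            (Submodule.subset_span ⟨i, rfl⟩)
        rw [hKo.min.top] at h3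
        exact h3 Submodule.mem_top
      rw [Submodule.mem_span_range_iff_exists_fun] at h1
      obtain ⟨c, hc⟩ := h1
      refine ⟨(fun i => c (Sum.inl i), fun i => c (Sum.inr i)), ?_⟩
      rw [← hc, hsum]
  · intro b hb
    obtain ⟨c, hc, hb'⟩ := hsup b hb
    refine ⟨Finset.univ.filter fun i => c (Sum.inl i) = 1,
      Finset.univ.filter fun i => c (Sum.inr i) = 1, ?_⟩
    rw [hb', hsum]
    unfold sST
    rw [Finset.sum_filter, Finset.sum_filter]
    congr 1
    · refine Finset.sum_congr rfl fun i _ => ?_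
      rcases hc (Sum.inl i) with h | h
      · rw [h, zero_smul, if_neg (by norm_num)]
      · rw [h, one_smul, if_pos rfl]
    · refine Finset.sum_congr rfl fun i _ => ?_
      rcases hc (Sum.inr i) with h | h
      · rw [h, zero_smul, if_neg (by norm_num)]
      · rw [h, one_smul, if_pos rfl]
  · intro A B hA1 hA2
    induction B using Finset.induction_on with
    | empty =>
      unfold sST
      rw [Finset.prod_empty, mul_one, Finset.sum_empty, add_zero, Finset.card_empty, add_zero]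
      exact hpsi0 A hA1 hA2
    | insert i B hi ih =>
      obtain ⟨k, hk⟩ := hmuA A hA1 hA2
      have h1 : mu k (sST S T A B) ≠ 0 := by
        unfold sST
        rw [map_add, hmuB, add_zero]
        exact hk
      have h3 := (bet_flip hF1 hF3 hB (hTm i).1 (hTm i).2 (b := sST S T A B) ⟨k, h1⟩).2 (by
        intro p
        by_cases hp : phi (T i) p = 0
        · exact Or.inr hp
        left
        unfold sST
        rw [map_add, map_sum, map_sum, Pi.add_apply, Finset.sum_apply, Finset.sum_apply,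
          Finset.sum_eq_zero fun k _ => (dST k i p).resolve_right hp,
          Finset.sum_eq_zero fun k hk => (dTT i k (fun h => hi (h ▸ hk)) p).resolve_left hp,
          add_zero])
      have h4 : sST S T A (insert i B) = sST S T A B + T i := by
        unfold sST
        rw [Finset.sum_insert hi]
        abel
      rw [h4, Finset.prod_insert hi, Finset.card_insert_of_notMem hi]
      have h5 : (et (T i) : RO ℤ) * D.coeff (sST S T A B + T i) = -D.coeff (sST S T A B) := by
        linear_combination h3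
      calc _ = (∏ i ∈ A, ((ld (es i) 1 : (RO ℤ)ˣ) : RO ℤ)) * (∏ i ∈ B, (et (T i) : RO ℤ)) *
            ((et (T i) : RO ℤ) * D.coeff (sST S T A B + T i)) := by ring
        _ = -((∏ i ∈ A, ((ld (es i) 1 : (RO ℤ)ˣ) : RO ℤ)) * (∏ i ∈ B, (et (T i) : RO ℤ)) *
            D.coeff (sST S T A B)) := by rw [h5]; ring
        _ = _ := by rw [ih]; ring

end Pool.Agent.B5.KO.H96
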