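import Pool.Agent.Lib.MP_b5021c_nt.KO.H96.Tws
import Pool.Agent.Lib.MP_b5021c_nt.O4V.H40.End
import Pool.Agent.Lib.MP_b5021c_nt.O4V.H96.E2

/-!
# PURE BETA, `j = 2` (row BE_N2): the two closings, Theorem B' for the double closing
-/

set_option linter.unusedSectionVars false

namespace Pool.Agent.B5.KO.H96

open scoped LaurentPolynomial
open Polynomial
open Pool.Agent.B5.KE
open Pool.Agent.B5.Nr.Sch
open Pool.Agent.B5.H66 (classV_of)
open Pool.Agent.B5.KV67 (csm_coeff)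
open Pool.Agent.B5.KO.H40 (lsplit v1_nf)
open Pool.Agent.B5.H57.Dus (supp_prod_ker)

/-- `E - F` is zero-free in the open disc. -/
theorem v_gen {E F : ℤ[X]} {N : ℕ} (hN : 1 ≤ N) (E0 : E.coeff 0 = N + 1) (F0 : F.coeff 0 = 1)
    (Ez : ∀ z : ℂ, ‖z‖ ≤ 1 → aeval z E ≠ 0)
    (le : ∀ z : ℂ, ‖z‖ = 1 → ‖aeval z F‖ ≤ ‖aeval z E‖) :
    ∀ z : ℂ, ‖z‖ < 1 → aeval z (E - F) ≠ 0 := by
  have hsp : SP (F.map (Int.castRingHom ℝ)) (E.map (Int.castRingHom ℝ)) := by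
    apply SP.of_circle
    · intro z hz
      rw [aeval_map_real]
      exact Ez z hz
    · intro z hz
      rw [aeval_map_real, aeval_map_real]
      exact le z hz
  intro z hz hz0
  have h2 : (aeval z (F.map (Int.castRingHom ℝ)) : ℂ) =
      aeval z (E.map (Int.castRingHom ℝ)) := by
    rw [aeval_map_real, aeval_map_real]
    rw [map_sub, sub_eq_zero] at hz0
    exact hz0.symm
  have h3 := sp_eq hsp hz h2
  have h4 := congrArg (fun r : ℝ[X] => r.coeff 0) h3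
  simp only [coeff_map] at h4
  rw [F0, E0] at h4
  have h5 : (1 : ℝ) = N + 1 := by simpa using h4
  have h6 : (1 : ℝ) ≤ N := by exact_mod_cast hN
  linarith

section

variable {P L : Type} [Fintype P] [DecidableEq P] [AddCommGroup L] [Module.Free ℤ L]
  [Module.Finite ℤ L] {phi : L →+ (P → ℤ)} {D : AO ℤ L} {V : Fin 5 → L} {u0 u1 eT : (RO ℤ)ˣ}

/-- The numbers: the first closing has class `V(N + 1)`, the second one class `V(N)`. -/
structure Tn (phi : L →+ (P → ℤ)) (D : AO ℤ L) (V : Fin 5 → L) (u0 u1 : (RO ℤ)ˣ) (N : ℕ)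
    (E F g : ℤ[X]) : Prop where
  e0 : D.coeff 0 + (u0 : RO ℤ) * D.coeff (V 0) = -toLaurent (X * E)
  f0 : (u1 : RO ℤ) * (D.coeff (V 1) + (u0 : RO ℤ) * D.coeff (V 1 + V 0)) = toLaurent (X * F)
  E0 : E.coeff 0 = N + 1
  F0 : F.coeff 0 = 1
  Ez : ∀ z : ℂ, ‖z‖ < 1 → (aeval z E : ℂ) ≠ 0
  w0 : ∃ (w : (RO ℤ)ˣ) (g0 : ℤ[X]), g0.coeff 0 = 1 ∧
    (w : RO ℤ) * (D.coeff (V 2) + (u0 : RO ℤ) * D.coeff (V 2 + V 0)) = toLaurent g0
  w2 : ∃ w : (RO ℤ)ˣ, (w : RO ℤ) * csm D (V 0) (V 1) u0 u1 (V 2) = toLaurent g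
  w3 : ∃ w : (RO ℤ)ˣ, (w : RO ℤ) * csm D (V 0) (V 1) u0 u1 (V 3) = toLaurent g
  g1 : g.coeff 0 = 1
  dfr : Dfr phi D (V 0) u0
  sm : ∀ (i0 : P) (h0 : co phi i0 (V 0) = 1) (c : RO ℤ) (n : ℕ)
    (G : Fin n → AO ℤ (Ker (co phi i0))), FD phi D (V 0) i0 u0 h0 c n G →
      ¬ (snp phi (V 0) i0 G).Nonempty

theorem lau_ne {g : ℤ[X]} {k : ℤ} (h : g.coeff 0 = k) (hk : k ≠ 0) : (toLaurent g : RO ℤ) ≠ 0 := by
  rw [toLaurent_ne_zero]
  intro h0
  rw [h0, coeff_zero] at h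
  exact hk h.symm

theorem w_ne {w : (RO ℤ)ˣ} {x : RO ℤ} {g : ℤ[X]} (hg : g.coeff 0 = 1)
    (h : (w : RO ℤ) * x = toLaurent g) : x ≠ 0 := by
  rintro rfl
  rw [mul_zero] at h
  exact lau_ne hg one_ne_zero h.symm

/-- The first closing: one factor; the constant coefficient of the second closing has class
`V(N)`. -/
theorem tw_first (hFD : FDS) (hG0 : G0S) (hC0 : Coeff0S) (hE1 : E1S) (hE2 : E2S) (hMV : MVS)
    (hMm : MmulS) (hRk : RkS) (hWW : WWfS) (hRF : RayFacS) {N : ℕ} (hN : 1 ≤ N) {E F g : ℤ[X]}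
    (W : Tw phi D V u0 u1 eT) (T : Tn phi D V u0 u1 N E F g) {i0 : P}
    (h0 : co phi i0 (V 0) = 1) :
    ∃ (R' : Ker (co phi i0)) (c : RO ℤ) (G : AO ℤ (Ker (co phi i0))), (R' : L) = V 1 ∧
      ClassV 1 c ∧ cl (co phi i0) (V 0) h0 u0 D = cst c * G ∧ DD (phO phi (V 0) i0) G ∧
      Ray G R' ∧ ClassV N (G.coeff 0 + (u1 : RO ℤ) * G.coeff R') := by
  have hr2 : 2 ≤ Module.finrank ℤ L := by rw [W.r5]; norm_num
  have h0' : phi (V 0) i0 = 1 := h0
  have hcV : ClassV ((N : ℝ) + 1) (D.coeff 0 + (u0 : RO ℤ) * D.coeff (V 0)) := by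
    refine classV_of (a := 1) (x' := -E) (by
      have : (0 : ℝ) ≤ N := Nat.cast_nonneg N
      linarith) ?_ ?_ ?_
    · rw [T.e0, map_neg, map_mul, toLaurent_X]
      ring
    · rw [coeff_neg, T.E0, Int.cast_neg, abs_neg]
      push_cast
      exact abs_of_nonneg (by positivity)
    · intro z hz
      rw [show ((-E).map (Int.castRingHom ℂ)).eval z = aeval z (-E) from ev_map _ z, map_neg]
      exact neg_ne_zero.mpr (T.Ez z hz)
  obtain ⟨w0, g0, hg0, hw0⟩ := T.w0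
  obtain ⟨x, hx, hxr⟩ := W.ray1 h0 (k := 2) (by decide) (w_ne hg0 hw0)
  have hcf : ∀ b : Ker (co phi i0), (cl (co phi i0) (V 0) h0 u0 D).coeff b =
      D.coeff (b : L) + (u0 : RO ℤ) * D.coeff ((b : L) + V 0) :=
    H47.cl_coeff_bin (co phi i0) (V 0) h0 u0 D (fun b hb' => W.dd.bin b hb' i0)
  obtain ⟨c, G, hc1, hcl, hDG, hVG⟩ := H67.one_fac hFD hG0 hC0 hE1 hMV hMm hRk hWW hRF phi D (V 0)
    i0 h0 u0 ((N : ℝ) + 1) W.dd hr2 (W.ray 0) (W.ims 0) hcV (T.dfr i0 h0)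
    (fun c n G fd _ => T.sm i0 h0 c n G fd) x hxr (w0 : RO ℤ) 0 g0 (by rw [hg0, abs_one]) (by
      rw [hcf, hx, hw0, LaurentPolynomial.T_zero, one_mul])
  have hc0 : c ≠ 0 := ((hMV ℤ).1 _ _ hc1).1
  have hsup : supp (cl (co phi i0) (V 0) h0 u0 D) = supp G := by
    rw [hcl, H56.supp_cst_mul hc0]
  have hcG : ∀ b : Ker (co phi i0), c * G.coeff b =
      D.coeff (b : L) + (u0 : RO ℤ) * D.coeff ((b : L) + V 0) := by
    intro b
    rw [← hcf, hcl, H75.T2C.cst_mul_coeff]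
  have hFne : D.coeff (V 1) + (u0 : RO ℤ) * D.coeff (V 1 + V 0) ≠ 0 := by
    intro h2
    have h3 := T.f0
    rw [h2, mul_zero, map_mul] at h3
    rcases mul_eq_zero.mp h3.symm with h4 | h4
    · rw [toLaurent_X] at h4
      exact (LaurentPolynomial.isUnit_T 1).ne_zero h4
    · exact lau_ne T.F0 one_ne_zero h4
  obtain ⟨R', hR', hRr⟩ := W.ray1 h0 (k := 1) (by decide) hFne
  have hRG : Ray G R' := ray_congr hsup hRr
  refine ⟨R', c, G, hR', hc1, hcl, hDG, hRG, ?_⟩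
  -- the content
  obtain ⟨s, n, c', hsc, hc'0, hc'z⟩ := v1_nf hc1
  have hspl : ∀ (U : (RO ℤ)ˣ) (y : RO ℤ) (m : ℤ) (v : ℤ[X]), v.coeff 0 ≠ 0 →
      (U : RO ℤ) * (c * y) = LaurentPolynomial.T m * toLaurent v →
      ∃ (w : (RO ℤ)ˣ) (y' : ℤ[X]), (w : RO ℤ) * y = toLaurent y' ∧ c' * y' = v ∧
        y'.coeff 0 = v.coeff 0 := by
    intro U y m v hv h
    refine lsplit (c := (s : RO ℤ) * c) (U := U * s⁻¹) (m := m) hsc hc'0 hv ?_
    rw [← h, Units.val_mul]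
    have : ((s⁻¹ : (RO ℤ)ˣ) : RO ℤ) * (s : RO ℤ) = 1 := s.inv_mul
    linear_combination (U : RO ℤ) * (c * y) * this
  have hN0 : (N : ℤ) + 1 ≠ 0 := by positivity
  have e0 : c * G.coeff 0 = -toLaurent (X * E) := by
    rw [hcG, Submodule.coe_zero, zero_add]
    exact T.e0
  have e1 : (u1 : RO ℤ) * (c * G.coeff R') = toLaurent (X * F) := by
    rw [hcG, hR']
    exact T.f0
  obtain ⟨w, E', hw, hE', hE'0⟩ := hspl (-1) (G.coeff 0) 1 E (by rw [T.E0]; exact hN0) (by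
    rw [Units.val_neg, Units.val_one, e0, map_mul, toLaurent_X]
    ring)
  obtain ⟨w', F', hw', hF', hF'0⟩ := hspl u1 (G.coeff R') 1 F (by rw [T.F0]; exact one_ne_zero) (by
    rw [e1, map_mul, toLaurent_X])
  have hfr := finrank_ker hRk h0
  have hfr4 : Module.finrank ℤ (Ker (co phi i0)) = 4 := by
    have := W.r5
    omega
  obtain ⟨ez, -, -, -, -, eray⟩ := hE2 ℤ P (Ker (co phi i0)) (phO phi (V 0) i0) G hDG (by omega)
  have hE'z : ∀ z : ℂ, ‖z‖ ≤ 1 → aeval z E' ≠ 0 := by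
    intro z hz h2
    rcases lt_or_eq_of_le hz with h3 | h3
    · apply T.Ez z h3
      rw [← hE', map_mul, h2, mul_zero]
    · obtain ⟨zc, rfl⟩ := circle_of z h3
      apply ez zc
      have h4 := congrArg (fun p => evR zc p) hw
      simp only [map_mul] at h4
      rw [evR_poly, h2] at h4
      rcases mul_eq_zero.mp h4 with h5 | h5
      · exact absurd h5 (norm_ne_zero_iff.mp (by
          rw [C4C.norm_evR_unit zc w.isUnit]
          exact one_ne_zero))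
      · exact h5
  have hle : ∀ z : ℂ, ‖z‖ = 1 → ‖(aeval z F' : ℂ)‖ ≤ ‖(aeval z E' : ℂ)‖ := by
    intro z hz
    obtain ⟨zc, rfl⟩ := circle_of z hz
    have h2 := (eray R' hRG).1 zc
    rw [← evR_poly, ← evR_poly, ← hw', ← hw, map_mul, map_mul, norm_mul, norm_mul,
      C4C.norm_evR_unit zc w.isUnit, C4C.norm_evR_unit zc w'.isUnit, one_mul, one_mul]
    exact h2
  have hV' := v_gen hN (hE'0.trans T.E0) (hF'0.trans T.F0) hE'z hle
  have hc'ne : (toLaurent c' : RO ℤ) ≠ 0 := lau_ne hc'0 one_ne_zero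
  -- the constant coefficient
  have hsum : LaurentPolynomial.T n * (G.coeff 0 + (u1 : RO ℤ) * G.coeff R') =
      -((s : RO ℤ) * (LaurentPolynomial.T 1 * toLaurent (E' - F'))) := by
    apply mul_left_cancel₀ hc'ne
    have h2 : c * (G.coeff 0 + (u1 : RO ℤ) * G.coeff R') =
        -(LaurentPolynomial.T 1 * (toLaurent c' * toLaurent (E' - F'))) := by
      rw [← hE'] at e0
      rw [← hF'] at e1
      rw [map_mul, toLaurent_X, map_mul] at e0 e1
      rw [map_sub]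
      linear_combination e0 + e1
    linear_combination (-(G.coeff 0 + (u1 : RO ℤ) * G.coeff R')) * hsc + (s : RO ℤ) * h2
  obtain ⟨m, s', hs', hsu⟩ := MP_b5021c_nt.Unr.unit_R (s : RO ℤ) s.isUnit
  rw [LaurentPolynomial.single_eq_C_mul_T] at hsu
  have hss : |(s' : ℝ)| = 1 := by rcases hs' with h | h <;> rw [h] <;> simp
  have hTn : (LaurentPolynomial.T (-n) * LaurentPolynomial.T n : RO ℤ) = 1 := by
    rw [← LaurentPolynomial.T_add, neg_add_cancel, LaurentPolynomial.T_zero]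
  refine classV_of (a := -n + m + 1) (x' := C (-s') * (E' - F')) (by exact_mod_cast hN) ?_ ?_ ?_
  · have h2 : G.coeff 0 + (u1 : RO ℤ) * G.coeff R' = LaurentPolynomial.T (-n) *
        -((s : RO ℤ) * (LaurentPolynomial.T 1 * toLaurent (E' - F'))) := by
      linear_combination (LaurentPolynomial.T (-n) : RO ℤ) * hsum -
        (G.coeff 0 + (u1 : RO ℤ) * G.coeff R') * hTn
    rw [h2, hsu, map_mul, toLaurent_C, map_neg, LaurentPolynomial.T_add, LaurentPolynomial.T_add]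
    ring
  · rw [mul_coeff_zero, coeff_C_zero, coeff_sub, hE'0, hF'0, T.E0, T.F0, Int.cast_mul,
      abs_mul, Int.cast_neg, abs_neg, hss, one_mul]
    push_cast
    rw [add_sub_cancel_right]
    exact abs_of_nonneg (Nat.cast_nonneg N)
  · intro z hz
    rw [show ((C (-s') * (E' - F')).map (Int.castRingHom ℂ)).eval z =
      aeval z (C (-s') * (E' - F')) from ev_map _ z, map_mul, aeval_C]
    refine mul_ne_zero ?_ (hV' z hz)
    rcases hs' with h | h <;> rw [h] <;> simp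

/-- The port and the projection of the second closing. -/
theorem tw_port (W : Tw phi D V u0 u1 eT) {i0 : P} {R' : Ker (co phi i0)}
    (hR' : (R' : L) = V 1) :
    ∃ i1, co (phO phi (V 0) i0) i1 R' = 1 := by
  obtain ⟨pt, hpt⟩ := W.pt
  refine ⟨pt 1, ?_⟩
  have h2 : phi (V 0) (pt 1) = 0 := by rw [W.phk (hpt 1), if_neg (by decide)]
  change (if phi (V 0) (pt 1) = 0 then phi (R' : L) (pt 1) else 0) = 1
  rw [if_pos h2, hR', hpt 1]

/-- The constant coefficient of the double closing. -/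
theorem tw_c0 {N : ℕ} {E F g : ℤ[X]} (T : Tn phi D V u0 u1 N E F g) :
    csm D (V 0) (V 1) u0 u1 0 = -toLaurent (X * (E - F)) := by
  have e0 := T.e0
  have f0 := T.f0
  unfold csm
  rw [zero_add, zero_add, map_mul, map_sub]
  rw [map_mul] at e0 f0
  rw [add_comm (V 1) (V 0)] at f0
  linear_combination e0 + f0

/-- A small factor of the double closing: `N = 1`. -/
theorem tw_small (hSm : SmallS) {N : ℕ} {E F g : ℤ[X]} (hN : 1 ≤ N)
    (W : Tw phi D V u0 u1 eT) (T : Tn phi D V u0 u1 N E F g) {i0 i1 : P}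
    (h0 : co phi i0 (V 0) = 1) {R' : Ker (co phi i0)} (hR' : (R' : L) = V 1)
    (h1 : co (phO phi (V 0) i0) i1 R' = 1) {c1 c : RO ℤ} {G : AO ℤ (Ker (co phi i0))}
    (hcl : cl (co phi i0) (V 0) h0 u0 D = cst c1 * G) (hc1 : c1 ≠ 0) {n : ℕ}
    {H : Fin n → AO ℤ (Ker (co (phO phi (V 0) i0) i1))}
    (fd : FD (phO phi (V 0) i0) G R' i1 u1 h1 c n H)
    (hs : (snp (phO phi (V 0) i0) R' i1 H).Nonempty) : N = 1 := by
  classical
  obtain ⟨l, hl⟩ := hs
  unfold snp at hl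
  obtain ⟨-, hl1, hl2⟩ := Finset.mem_filter.mp hl
  obtain ⟨-, -, h3⟩ := hSm ℤ P (Ker (co phi i0)) (phO phi (V 0) i0) G R' i1 u1 h1 c n H fd l hl1
  obtain ⟨b, j, e, sp⟩ := h3 hl2
  obtain ⟨k, hk, -, hv⟩ := W.small h0 hR' h1 hcl hc1 fd sp
  obtain ⟨w, hw⟩ : ∃ w : (RO ℤ)ˣ, (w : RO ℤ) * csm D (V 0) (V 1) u0 u1 (V k) = toLaurent g := by
    rcases hk with rfl | rfl
    · exact T.w2
    · exact T.w3
  have hEF : (-(E - F)).coeff 0 = -(N : ℤ) := by
    rw [coeff_neg, coeff_sub, T.E0, T.F0]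
    ring
  have h4 := H67.low_unit (p := csm D (V 0) (V 1) u0 u1 0) (m := 0) (n := 1) (r := g)
    (p' := -(E - F)) (x := (w : RO ℤ) * -((e⁻¹ : (RO ℤ)ˣ) : RO ℤ)) (by
      rw [LaurentPolynomial.T_zero, one_mul, ← hw, hv]
      ring) (by rw [T.g1, abs_one]) (by
      rw [tw_c0 T, map_mul, toLaurent_X, map_neg]
      ring) (by
      rw [hEF]
      exact neg_ne_zero.mpr (by exact_mod_cast (by omega : N ≠ 0)))
  rw [hEF, abs_neg, Nat.abs_cast] at h4
  exact_mod_cast h4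

/-- Class `V(1)` for the double closing: impossible. -/
theorem tw_one (hFD : FDS) (hG0 : G0S) (hC0 : Coeff0S) (hE1 : E1S) (hE2 : E2S) (hMV : MVS)
    (hMm : MmulS) (hRk : RkS) (hWW : WWfS) (hRF : RayFacS) (hSm : SmallS)
    {E F g : ℤ[X]} (W : Tw phi D V u0 u1 eT) (T : Tn phi D V u0 u1 1 E F g) : False := by
  classical
  obtain ⟨i0, h0⟩ := exists_port W.dd (W.ray 0)
  obtain ⟨R', c1, G, hR', hc1, hcl, hDG, hRG, hcV⟩ := tw_first hFD hG0 hC0 hE1 hE2 hMV hMm hRk hWW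
    hRF (le_refl 1) W T h0
  obtain ⟨i1, h1⟩ := tw_port W hR'
  have hfr := finrank_ker hRk h0
  have hfr4 : Module.finrank ℤ (Ker (co phi i0)) = 4 := by
    have := W.r5
    omega
  have hc10 : c1 ≠ 0 := ((hMV ℤ).1 _ _ hc1).1
  have cc : CC (phO phi (V 0) i0) G R' i1 u1 :=
    ⟨hDG, by omega, hRG, h1, ((hMV ℤ).1 _ _ hcV).1⟩
  obtain ⟨c, n, H, fd⟩ := hFD ℤ P (Ker (co phi i0)) (phO phi (V 0) i0) G R' i1 u1 h1 cc
  rw [fd.v00] at hcV
  -- all factors are small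
  have hone : ∀ l, ¬ 1 < M ((H l).coeff 0) := by
    intro l
    have h2 : c * ∏ i, (H i).coeff 0 =
        (H l).coeff 0 * (c * ∏ i ∈ Finset.univ.erase l, (H i).coeff 0) := by
      rw [← Finset.mul_prod_erase Finset.univ (fun i => (H i).coeff 0) (Finset.mem_univ l)]
      ring
    rw [h2] at hcV
    obtain ⟨N1, N2, hp1, hp2, hNN⟩ := (hE1 ℤ).1 _ _ _ hcV
    have h3 : M ((H l).coeff 0) = N1 := ((hMV ℤ).1 _ _ hp1).2
    have h4 : 1 ≤ N1 := hp1.1
    have h5 : 1 ≤ N2 := hp2.1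
    rw [Nat.cast_one] at hNN
    rw [h3]
    intro h6
    nlinarith
  -- their rays
  have hray : ∀ l, ∀ a ∈ supp (H l), ∃ k : Fin 5, (k = 2 ∨ k = 3) ∧
      (((a : Ker (co phi i0)) : L) = 0 ∨ ((a : Ker (co phi i0)) : L) = V k) := by
    intro l a ha
    obtain ⟨-, -, h3⟩ := hSm ℤ P (Ker (co phi i0)) (phO phi (V 0) i0) G R' i1 u1 h1 c n H fd l
      (hone l)
    obtain ⟨b, j, e, sp⟩ := h3 (O4V.nopure_im (W.ims1 h0 hR') fd l)
    obtain ⟨k, hk, hb, -⟩ := W.small h0 hR' h1 hcl hc10 fd sp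
    refine ⟨k, hk, ?_⟩
    by_contra hcon
    rw [not_or] at hcon
    apply ha
    rw [sp.eq, H75.T2C.cst_mul_coeff, AddMonoidAlgebra.coeff_sub, Finsupp.sub_apply,
      AddMonoidAlgebra.coeff_single, AddMonoidAlgebra.one_def, AddMonoidAlgebra.coeff_single,
      Finsupp.single_eq_of_ne, Finsupp.single_eq_of_ne, sub_zero, mul_zero]
    · intro h5
      apply hcon.2
      rw [h5, hb]
    · intro h5
      apply hcon.1
      rw [h5]
      rfl
  -- the port of `V 4`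
  obtain ⟨pt, hpt⟩ := W.pt
  have hz4 : ∀ l ∈ (Finset.univ : Finset (Fin n)), ∀ a ∈ supp (H l),
      co (phK phi (co phi i0)) (pt 4) (a : Ker (co phi i0)) = 0 := by
    intro l _ a ha
    obtain ⟨k, hk, h2⟩ := hray l a ha
    change phi ((a : Ker (co phi i0)) : L) (pt 4) = 0
    rcases h2 with h2 | h2
    · rw [h2, map_zero]
      rfl
    · rw [h2, W.phk (hpt 4), if_neg (by rcases hk with rfl | rfl <;> decide)]
  have h0' : phi (V 0) i0 = 1 := h0
  have hS1 : phi (V 0) i1 = 0 := by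
    by_contra hne
    have h2 : (if phi (V 0) i1 = 0 then phi (R' : L) i1 else 0) = 1 := h1
    rw [if_neg hne] at h2
    exact zero_ne_one h2
  have hR1 : phi (V 1) i1 = 1 := by
    have h2 : (if phi (V 0) i1 = 0 then phi (R' : L) i1 else 0) = 1 := h1
    rw [if_pos hS1, hR'] at h2
    exact h2
  have hkk : ∀ b : Ker (co phi i0), co (phO phi (V 0) i0) i1 b = phi (b : L) i1 := by
    intro b
    change (if phi (V 0) i1 = 0 then phi (b : L) i1 else 0) = _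
    rw [if_pos hS1]
  obtain ⟨x, hx⟩ : ∃ x : Ker (co (phO phi (V 0) i0) i1), ((x : Ker (co phi i0)) : L) =
      V 2 + V 4 := by
    refine ⟨⟨⟨V 2 + V 4, ?_⟩, ?_⟩, rfl⟩
    · change phi (V 2 + V 4) i0 = 0
      rw [map_add, Pi.add_apply, W.port1 h0' (by decide), W.port1 h0' (by decide), add_zero]
    · rw [mem_Ker, hkk]
      change phi (V 2 + V 4) i1 = 0
      rw [map_add, Pi.add_apply, W.phk hR1, W.phk hR1, if_neg (by decide), if_neg (by decide),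
        add_zero]
  have hxs : x ∈ supp (∏ i, H i) := by
    intro h2
    apply W.ne24
    have h3 := csm_coeff W.dd.bin h0 hR' h1 u0 u1 x
    rw [hx, hcl, map_mul, H75.T2C.cl_cst, fd.eq, H75.T2C.cst_mul_coeff, H75.T2C.cst_mul_coeff, h2,
      mul_zero, mul_zero] at h3
    exact h3.symm
  have h2 := supp_prod_ker Finset.univ H
    ((co (phK phi (co phi i0)) (pt 4)).comp (incl (Ker (co (phO phi (V 0) i0) i1)))) hz4 x hxs
  change phi ((x : Ker (co phi i0)) : L) (pt 4) = 0 at h2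
  rw [hx, map_add, Pi.add_apply, W.phk (hpt 4), W.phk (hpt 4), if_neg (by decide),
    if_pos rfl] at h2
  norm_num at h2

/-- Class `V(2)` for the double closing, the numbers: binomials. -/
theorem tw_two (hFD : FDS) (hG0 : G0S) (hC0 : Coeff0S) (hE1 : E1S) (hE2 : E2S) (hMV : MVS)
    (hMm : MmulS) (hRk : RkS) (hWW : WWfS) (hRF : RayFacS) (hSm : SmallS) (hKm : KmuS)
    (hB : BpxS) (ih : ∀ K < 4, Bnk K)
    {E F g : ℤ[X]} (W : Tw phi D V u0 u1 eT) (T : Tn phi D V u0 u1 2 E F g) :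
    ∃ (c : ℤ[X]) (k : ℕ) (t r : ℤ), 1 ≤ k ∧ c.coeff 0 = 1 ∧
      (∀ z : ℂ, ‖z‖ < 1 → (aeval z c : ℂ) ≠ 0) ∧ g = c * (1 + C r * X ^ k) ∧
      E - F = c * (C 2 + C t * X ^ k) ∧ |t| ≤ 1 := by
  classical
  obtain ⟨i0, h0⟩ := exists_port W.dd (W.ray 0)
  obtain ⟨R', c1, G, hR', hc1, hcl, hDG, hRG, hcV⟩ := tw_first hFD hG0 hC0 hE1 hE2 hMV hMm hRk hWW
    hRF (by norm_num) W T h0
  obtain ⟨i1, h1⟩ := tw_port W hR'
  have hfr := finrank_ker hRk h0
  have hfr4 : Module.finrank ℤ (Ker (co phi i0)) = 4 := by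
    have := W.r5
    omega
  have hfr' := finrank_ker hRk h1
  have hc10 : c1 ≠ 0 := ((hMV ℤ).1 _ _ hc1).1
  obtain ⟨x, hx, hxr⟩ := W.ray2 h0 hR' h1 (k := 2) (by decide) (by decide) W.c2
  have hdc : cl (co (phO phi (V 0) i0) i1) R' h1 u1 (cl (co phi i0) (V 0) h0 u0 D) =
      cst c1 * cl (co (phO phi (V 0) i0) i1) R' h1 u1 G := by
    rw [hcl, map_mul, H75.T2C.cl_cst]
  have hsup : supp (cl (co (phO phi (V 0) i0) i1) R' h1 u1 (cl (co phi i0) (V 0) h0 u0 D)) =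
      supp (cl (co (phO phi (V 0) i0) i1) R' h1 u1 G) := by
    rw [hdc, H75.T2C.supp_cst_mul hc10]
  have hdr := W.dr hRk hKm h0 hR' h1
  rw [hsup] at hdr
  obtain ⟨w2, hw2⟩ := T.w2
  have hcv : ∀ y : Ker (co (phO phi (V 0) i0) i1),
      c1 * (cl (co (phO phi (V 0) i0) i1) R' h1 u1 G).coeff y =
        csm D (V 0) (V 1) u0 u1 ((y : Ker (co phi i0)) : L) := by
    intro y
    rw [← csm_coeff W.dd.bin h0 hR' h1, hdc, H75.T2C.cst_mul_coeff]
  obtain ⟨c2, H, hc2, hcl2, hDH, hVH⟩ := H67.one_fac hFD hG0 hC0 hE1 hMV hMm hRk hWW hRF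
    (phO phi (V 0) i0) G R' i1 h1 u1 ((2 : ℕ) : ℝ) hDG (by omega) hRG (W.ims1 h0 hR') hcV hdr
    (fun c n H fd _ hs => by
      have := tw_small hSm (by norm_num) W T h0 hR' h1 hcl hc10 fd hs
      omega) x (ray_congr hsup hxr) ((w2 : RO ℤ) * c1) 0 g (by rw [T.g1, abs_one]) (by
      rw [mul_assoc, hcv, hx, hw2, LaurentPolynomial.T_zero, one_mul])
  have hc20 : c2 ≠ 0 := ((hMV ℤ).1 _ _ hc2).1
  have hxH : Ray H x := by
    refine ray_congr ?_ (ray_congr hsup hxr)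
    rw [hcl2, H75.T2C.supp_cst_mul hc20]
  have hco : ∀ y : Ker (co (phO phi (V 0) i0) i1), c1 * (c2 * H.coeff y) =
      csm D (V 0) (V 1) u0 u1 ((y : Ker (co phi i0)) : L) := by
    intro y
    rw [← hcv, hcl2, H75.T2C.cst_mul_coeff]
  -- the contents
  obtain ⟨s, n, d1, hsc, hd10, hd1z⟩ := v1_nf hc1
  obtain ⟨s2, n2, d2, hsc2, hd20, hd2z⟩ := v1_nf hc2
  obtain ⟨c', hc'⟩ : ∃ c', c' = d1 * d2 := ⟨_, rfl⟩
  have hc'0 : c'.coeff 0 = 1 := by rw [hc', mul_coeff_zero, hd10, hd20, one_mul]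
  have hc'z : ∀ z : ℂ, ‖z‖ < 1 → (aeval z c' : ℂ) ≠ 0 := by
    intro z hz
    rw [hc', map_mul]
    exact mul_ne_zero (hd1z z hz) (hd2z z hz)
  have hsc3 : ((s * s2 : (RO ℤ)ˣ) : RO ℤ) * (c1 * c2) =
      LaurentPolynomial.T (n + n2) * toLaurent c' := by
    rw [Units.val_mul, hc', map_mul, LaurentPolynomial.T_add]
    linear_combination ((s2 : RO ℤ) * c2) * hsc +
      (LaurentPolynomial.T n * toLaurent d1 : RO ℤ) * hsc2
  have hspl : ∀ (U : (RO ℤ)ˣ) (y : RO ℤ) (m : ℤ) (v : ℤ[X]), v.coeff 0 ≠ 0 →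
      (U : RO ℤ) * (c1 * (c2 * y)) = LaurentPolynomial.T m * toLaurent v →
      ∃ (w : (RO ℤ)ˣ) (y' : ℤ[X]), (w : RO ℤ) * y = toLaurent y' ∧ c' * y' = v ∧
        y'.coeff 0 = v.coeff 0 := by
    intro U y m v hv h
    refine lsplit (c := ((s * s2 : (RO ℤ)ˣ) : RO ℤ) * (c1 * c2)) (U := U * (s * s2)⁻¹) (m := m)
      hsc3 hc'0 hv ?_
    rw [← h, Units.val_mul]
    have : (((s * s2)⁻¹ : (RO ℤ)ˣ) : RO ℤ) * ((s * s2 : (RO ℤ)ˣ) : RO ℤ) = 1 := (s * s2).inv_mul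
    linear_combination (U : RO ℤ) * (c1 * (c2 * y)) * this
  have hEF : (E - F).coeff 0 = 2 := by
    rw [coeff_sub, T.E0, T.F0]
    norm_num
  obtain ⟨w, p, hp, hcp, hp0⟩ := hspl (-1) (H.coeff 0) 1 (E - F) (by rw [hEF]; norm_num) (by
    rw [hco, Submodule.coe_zero, Submodule.coe_zero, tw_c0 T, Units.val_neg, Units.val_one,
      map_mul, toLaurent_X]
    ring)
  obtain ⟨w', g', hg', hcg, hg'0⟩ := hspl w2 (H.coeff x) 0 g (by rw [T.g1]; exact one_ne_zero) (by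
    rw [hco, hx, hw2, LaurentPolynomial.T_zero, one_mul])
  rw [hEF] at hp0
  rw [T.g1] at hg'0
  obtain ⟨hb1, hb2⟩ := hB P (Ker (co (phO phi (V 0) i0) i1)) (phO (phO phi (V 0) i0) R' i1) H 2 x
    w w' p g' le_rfl hDH hVH (by omega) ih hxH hp (by rw [hp0]; norm_num) hg' hg'0
  obtain ⟨k, t, r, hk, hpk, hgk⟩ : ∃ (k : ℕ) (t r : ℤ), 1 ≤ k ∧ p = C 2 + C t * X ^ k ∧
      g' = 1 + C r * X ^ k := by
    by_cases hg1 : g' = 1
    · rcases hb2 hg1 with ⟨k, t, hk, h2⟩ | ⟨s, M, F, h2, h3, -⟩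
      · exact ⟨k, t, 0, hk, by rw [h2]; norm_num, by rw [hg1, C_0, zero_mul, add_zero]⟩
      · have := h3.1
        omega
    · rcases hb1 hg1 with ⟨k, t, r, hk, h2, h3⟩ | ⟨s, M, F, h2, h3, -⟩
      · exact ⟨k, t, r, hk, by rw [h2]; norm_num, h3⟩
      · have := h3.1
        omega
  refine ⟨c', k, t, r, hk, hc'0, hc'z, by rw [← hcg, hgk], by rw [← hcp, hpk], ?_⟩
  -- zero-free in the closed disc
  apply O4.t_le hk
  rw [← hpk]
  intro z hz h2
  rcases lt_or_eq_of_le hz with h3 | h3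
  · obtain ⟨-, m0, v0, hv0, hv00, hv0z⟩ := id hVH
    have h5 : v0.coeff 0 ≠ 0 := by
      intro h6
      rw [h6, map_zero, norm_zero] at hv00
      norm_num at hv00
    obtain ⟨m, s', hs', hsu⟩ := MP_b5021c_nt.Unr.unit_R (w : RO ℤ) w.isUnit
    rw [LaurentPolynomial.single_eq_C_mul_T] at hsu
    have h6 : (LaurentPolynomial.T (m + m0) * toLaurent (C s' * v0) : RO ℤ) =
        LaurentPolynomial.T 0 * toLaurent p := by
      rw [LaurentPolynomial.T_zero, one_mul, ← hp, hsu, hv0, map_mul, toLaurent_C,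
        LaurentPolynomial.T_add]
      ring
    obtain ⟨-, h7⟩ := H78.T_eq (by
      rw [mul_coeff_zero, coeff_C_zero]
      exact mul_ne_zero (by rcases hs' with h | h <;> rw [h] <;> norm_num) h5) (by
      rw [hp0]
      norm_num) h6
    rw [← h7, map_mul] at h2
    rcases mul_eq_zero.mp h2 with h8 | h8
    · rw [aeval_C] at h8
      rcases hs' with h | h <;> rw [h] at h8 <;> simp at h8
    · apply hv0z z h3
      rw [show (v0.map (Coef.emb : ℤ →+* ℂ)).eval z = aeval z v0 from ev_map _ z]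
      exact h8
  · obtain ⟨zc, rfl⟩ := circle_of z h3
    have h5 := (hE2 ℤ P _ _ H hDH (by omega)).1 zc
    apply h5
    have h6 := congrArg (fun p => evR zc p) hp
    simp only [map_mul] at h6
    rw [evR_poly, h2] at h6
    rcases mul_eq_zero.mp h6 with h7 | h7
    · exact absurd h7 (norm_ne_zero_iff.mp (by
        rw [C4C.norm_evR_unit zc w.isUnit]
        exact one_ne_zero))
    · exact h7

end

end Pool.Agent.B5.KO.H96
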