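import Pool.Agent.Lib.MP_b5021c_nt.KO.H12.Kodn

/-!
# MP_b5021c_nt, all `θ`, K odd, leaf O4, `l = 3`, ALPHA: reduction to two neutral components

`C` is a component (`KcB`, drop one).  A ray `R` outside `C` is neutral to `C` if no load of `R` kills
an element of `C`.  If there is a neutral ray then there is a second component `C'` (`KcB`, drop one),
neutral to `C`.  (helper96, after helper92)
-/

set_option linter.unusedSectionVars false

namespace Pool.Agent.B5.KO.H96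

open scoped LaurentPolynomial
open Polynomial
open Pool.Agent.B5 Pool.Agent.B5.KE Pool.Agent.B5.H07 Pool.Agent.B5.H63 Pool.Agent.B5.H63.Sel
open Pool.Agent.B5.KO

section

variable {P L : Type} [Fintype P] [DecidableEq P] [AddCommGroup L] [Module.Free ℤ L]
  [Module.Finite ℤ L] {phi : L →+ (P → ℤ)} {D : AO ℤ L} {eta1 eta2 : L → (RO ℤ)ˣ} {g1 g2 : ℕ}
  {C1 C2 : Set L}

/-- `R` is neutral to the set `C`: no load of `R` kills an element of `C`. -/
def NeuA (D : AO ℤ L) (C : Set L) (R : L) : Prop := ∀ S ∈ C, ∀ e : (RO ℤ)ˣ, S ∈ US e R D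

/-- `US` of a ray `T` killed by `S`, and the ray `R` inside a third `US`. -/
theorem US_le_of (hF3 : F3S) (hD : DD phi D) {S T : L} {e e' : (RO ℤ)ˣ} (hS : Ray D S)
    (hT : Ray D T) (hTS : T ∉ US e S D) {K : Submodule ℤ L} (h1 : US e' T D ≤ satur K)
    (h2 : S ∈ satur K) : US e S D ≤ satur K := by
  refine (hF3 ℤ P L phi D S T e e' hD.inj hD.bin hS hT hTS).trans (satur_le ?_)
  rw [sup_le_iff]
  refine ⟨h1, ?_⟩
  rw [Submodule.span_singleton_le_iff_mem]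
  exact h2

/-- A ray killed by a neutral pair `(R, e)` is neutral. -/
theorem neu_step (hF3 : F3S) (hD : DD phi D) {eta : L → (RO ℤ)ˣ} {g : ℕ} {C : Set L}
    (hK : Kc phi D eta g C) {R T : L} {e : (RO ℤ)ˣ} (hR : Ray D R) (hRC : R ∉ C)
    (hN : ∀ S ∈ C, S ∈ US e R D) (hT : Ray D T) (hTR : T ∉ US e R D) :
    T ∉ C ∧ NeuA D C T := by
  have hTC : T ∉ C := fun h => hTR (hN T h)
  refine ⟨hTC, fun S hS e' => ?_⟩
  by_contra hcon
  have hRS : R ∈ US (eta S) S D := by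
    by_contra h
    exact hRC (hK.mtl S hS R hR h).1
  have hTS : T ∈ US (eta S) S D := by
    by_contra h
    exact hTC (hK.mtl S hS T hT h).1
  have h1 : US e' T D ≤ US (eta S) S D := US_le_of hF3 hD hT (hK.ray S hS) hcon le_rfl hTS
  have h2 : US e R D ≤ US (eta S) S D := US_le_of hF3 hD hR hT hTR h1 hRS
  obtain ⟨S', hS', hM⟩ := hK.ex S hS
  exact hM.m0 (h2 (hN S' hS'))

/-- `mxu` for two rays. -/
theorem mxu2 (hF3 : F3S) (hD : DD phi D) {S T : L} {e e' : (RO ℤ)ˣ} (hS : Ray D S) (hT : Ray D T)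
    (hTU : T ∉ US e S D)
    (hle : Module.finrank ℤ (US e' T D) ≤ Module.finrank ℤ (US e S D)) :
    S ∉ US e' T D ∧ Module.finrank ℤ (US e' T D) = Module.finrank ℤ (US e S D) ∧
      satur (US e' T D ⊔ Submodule.span ℤ {S}) = satur (US e S D ⊔ Submodule.span ℤ {T}) := by
  have hA := hF3 ℤ P L phi D S T e e' hD.inj hD.bin hS hT hTU
  have hB : S ∉ US e' T D := by
    intro h
    have h6 : US e S D ≤ US e' T D := US_le_of hF3 hD hS hT hTU le_rfl h
    have h7 := finrank_lt_of_sat h6 (US_sat _ _ _) (mem_US e' T D) hTU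
    omega
  have hC := hF3 ℤ P L phi D T S e' e hD.inj hD.bin hT hS hB
  have hE : satur (US e' T D ⊔ Submodule.span ℤ {S}) = satur (US e S D ⊔ Submodule.span ℤ {T}) := by
    apply le_antisymm
    · apply satur_le
      rw [sup_le_iff]
      refine ⟨hC, ?_⟩
      rw [Submodule.span_singleton_le_iff_mem]
      exact le_satur _ ((le_sup_left : US e S D ≤ _) (mem_US _ _ _))
    · apply satur_le
      rw [sup_le_iff]
      refine ⟨hA, ?_⟩
      rw [Submodule.span_singleton_le_iff_mem]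
      exact le_satur _ ((le_sup_left : US e' T D ≤ _) (mem_US _ _ _))
  refine ⟨hB, ?_, hE⟩
  have e1 := finrank_sup_eq (US_sat e' T D) hB
  have e2 := finrank_sup_eq (US_sat e S D) hTU
  have e3 := finrank_satur (US e' T D ⊔ Submodule.span ℤ {S})
  have e4 := finrank_satur (US e S D ⊔ Submodule.span ℤ {T})
  rw [hE] at e3
  omega

/-- The selection inside a set `N` of rays which is closed under killing. -/
theorem sel_gen (hE2 : E2S) (hF3 : F3S) (hRk : RkUSS) (hL : LMNS) (hD : DD phi D)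
    (htwo : 2 ≤ Module.finrank ℤ L)
    (hdrop : ∀ R, Ray D R → ∃ e : (RO ℤ)ˣ, Module.finrank ℤ (US e R D) ≠ Module.finrank ℤ L)
    {N : Set L} (hNn : N.Nonempty) (hNr : ∀ R ∈ N, Ray D R)
    (hcl : ∀ R ∈ N, ∀ (e : (RO ℤ)ˣ) (T : L), Ray D T → T ∉ US e R D → T ∈ N) :
    ∃ (eta' : L → (RO ℤ)ˣ) (g' : ℕ) (C' : Set L), 1 ≤ g' ∧ C'.Nonempty ∧ C' ⊆ N ∧
      ∀ S ∈ C', DropAt phi D S (eta' S) g' ∧
        (∃ T ∈ C', Mut D S T (eta' S) (eta' T)) ∧
        (∀ T, Ray D T → T ∉ US (eta' S) S D → T ∈ C' ∧ Mut D S T (eta' S) (eta' T)) ∧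
        (2 ≤ g' → ∃ S1 ∈ C', ∃ S2 ∈ C', Mut D S S1 (eta' S) (eta' S1) ∧
          Mut D S S2 (eta' S) (eta' S2) ∧
          S2 ∉ satur (US (eta' S1) S1 D ⊔ Submodule.span ℤ {S}) ∧
          S1 ∉ satur (US (eta' S2) S2 D ⊔ Submodule.span ℤ {S})) := by
  classical
  obtain ⟨-, -, -, -, hrk, -⟩ := hE2 ℤ P L phi D hD htwo
  set et : L → (RO ℤ)ˣ := fun S =>
    if h : ∃ e : (RO ℤ)ˣ, Module.finrank ℤ (US e S D) ≠ Module.finrank ℤ L then h.choose else 1
    with het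
  have hetS : ∀ S : L, Ray D S → Module.finrank ℤ (US (et S) S D) ≠ Module.finrank ℤ L := by
    intro S hS
    have hex := hdrop S hS
    have h2 : et S = hex.choose := by rw [het]; simp only [dif_pos hex]
    rw [h2]
    exact hex.choose_spec
  set dm : L → ℕ := fun S => Module.finrank ℤ (US (et S) S D) with hdm
  have hdmle : ∀ S, dm S ≤ Module.finrank ℤ L := fun S => Submodule.finrank_le _
  obtain ⟨S0, hS0, hmin⟩ := WellFounded.has_min
    (measure (fun S : L => Module.finrank ℤ L - dm S)).wf N hNn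
  have hmax0 : ∀ T ∈ N, dm T ≤ dm S0 := by
    intro T hT
    have h1 : ¬ (Module.finrank ℤ L - dm T < Module.finrank ℤ L - dm S0) := hmin T hT
    have h2 := hdmle T
    have h3 := hdmle S0
    omega
  have hlt : dm S0 < Module.finrank ℤ L := lt_of_le_of_ne (hdmle S0) (hetS S0 (hNr S0 hS0))
  refine ⟨et, Module.finrank ℤ L - dm S0, {S | S ∈ N ∧ dm S = dm S0}, by omega,
    ⟨S0, hS0, rfl⟩, fun S h => h.1, ?_⟩
  rintro S ⟨hSN, hS⟩
  have hR := hNr S hSN
  have hM : ∀ T, Ray D T → T ∉ US (et S) S D → (T ∈ N ∧ dm T = dm S0) ∧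
      Mut D S T (et S) (et T) ∧ satur (US (et T) T D ⊔ Submodule.span ℤ {S}) =
        satur (US (et S) S D ⊔ Submodule.span ℤ {T}) := by
    intro T hT hTU
    have hTm : T ∈ N := hcl S hSN _ T hT hTU
    have hle : Module.finrank ℤ (US (et T) T D) ≤ Module.finrank ℤ (US (et S) S D) := by
      change dm T ≤ dm S
      rw [hS]
      exact hmax0 T hTm
    obtain ⟨b1, b2, b3⟩ := mxu2 hF3 hD hR hT hTU hle
    exact ⟨⟨hTm, by rw [← hS]; exact b2⟩, ⟨hR, hT, hTU, b1⟩, b3⟩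
  have hdim : Module.finrank ℤ (US (et S) S D) = dm S0 := hS
  have hus : Module.finrank ℤ (US (et S) S D) + (Module.finrank ℤ L - dm S0) =
      Module.finrank ℤ L := by omega
  obtain ⟨T, hT, hTU⟩ := exists_ray hrk (US (et S) S D) (by omega)
  obtain ⟨hC, hMut, -⟩ := hM T hT hTU
  refine ⟨dropAt_of_mut hRk hL hD hMut hus, ⟨T, hC, hMut⟩,
    fun T' h1 h2 => ⟨(hM T' h1 h2).1, (hM T' h1 h2).2.1⟩, fun hg => ?_⟩
  obtain ⟨T1, hT1, hTU1⟩ := exists_ray hrk (US (et S) S D) (by omega)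
  obtain ⟨hC1, hMut1, hE1⟩ := hM T1 hT1 hTU1
  set W1 : Submodule ℤ L := satur (US (et S) S D ⊔ Submodule.span ℤ {T1}) with hW1
  have hW1d : Module.finrank ℤ W1 = dm S0 + 1 := by
    rw [hW1, finrank_satur, finrank_sup_eq (US_sat _ _ _) hTU1, hdim]
  obtain ⟨T2, hT2, hTU2⟩ := exists_ray hrk W1 (by omega)
  have hTU2' : T2 ∉ US (et S) S D := fun h =>
    hTU2 (le_satur _ ((le_sup_left : US (et S) S D ≤ _) h))
  obtain ⟨hC2, hMut2, hE2⟩ := hM T2 hT2 hTU2'
  refine ⟨T1, hC1, T2, hC2, hMut1, hMut2, ?_, ?_⟩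
  · rw [hE1]
    exact hTU2
  · rw [hE2]
    intro hcon
    have h1 : W1 ≤ satur (US (et S) S D ⊔ Submodule.span ℤ {T2}) := by
      rw [hW1]
      refine satur_le ?_
      rw [sup_le_iff]
      refine ⟨fun x hx => le_satur _ ((le_sup_left : US (et S) S D ≤ _) hx), ?_⟩
      rw [Submodule.span_singleton_le_iff_mem]
      exact hcon
    have h2 : T2 ∈ satur (US (et S) S D ⊔ Submodule.span ℤ {T2}) :=
      le_satur _ ((le_sup_right : Submodule.span ℤ {T2} ≤ _)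
        (Submodule.mem_span_singleton_self T2))
    have h3 := finrank_lt_of_sat h1 (satur_sat _) h2 hTU2
    rw [hW1d, finrank_satur, finrank_sup_eq (US_sat _ _ _) hTU2', hdim] at h3
    omega

/-- A drop free load: `US` is everything. -/
theorem US_top (hRk : RkUSS) (hD : DD phi D) {S : L} {e : (RO ℤ)ˣ} (hS : Ray D S)
    (h : Dfr phi D S e) : Module.finrank ℤ (US e S D) = Module.finrank ℤ L := by
  obtain ⟨i0, hi⟩ : ∃ i, phi S i = 1 := by
    by_contra hcon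
    push Not at hcon
    apply hS.2.1
    apply hD.inj
    rw [map_zero]
    funext i
    exact (hD.bin _ hS.1 i).resolve_right (hcon i)
  have h1 := h i0 hi
  have h2 := hRk ℤ P L phi D S i0 hi e hD.inj hD.bin (hD.bin _ hS.1)
  omega

/-- Every ray of a minimal counterexample has a drop at some load. -/
theorem drop_ex (hE2 : E2S) (hRk : RkUSS) (hOfa : OfaS) (hO1 : Oo1S) {q : ℤ[X]} {a : ℝ} {j : ℕ}
    (hKo : Ko phi D q a j) {R : L} (hR : Ray D R) :
    ∃ e : (RO ℤ)ˣ, Module.finrank ℤ (US e R D) ≠ Module.finrank ℤ L := by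
  have hD : DD phi D := hKo.min.fp.dd
  have h2 : 2 ≤ Module.finrank ℤ L := by have := hKo.rk; have := hKo.j2; omega
  by_contra hcon
  push Not at hcon
  obtain ⟨f', e, hRN⟩ := ray_norm hE2 hD h2 hKo.D0 hKo.qn hR
  have hfr : ∀ e' : (RO ℤ)ˣ, Dfr phi D R e' := by
    intro e' i0 h
    have h1 := hRk ℤ P L phi D R i0 h e' hD.inj hD.bin (hD.bin _ hR.1)
    rw [hcon e'] at h1
    exact h1
  rcases lt_or_ge 1 (f'.coeff 0) with hu | hu
  · exact hOfa P L phi D R q f' e a j hKo hR hRN hu (hfr _)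
  · exact hO1 P L phi D R q f' e a j hKo hR hRN (le_antisymm hu hRN.u) (hfr _) (hfr _)

/-- A set of rays closed under killing contains a component with drop one. -/
theorem comp_in (hE2 : E2S) (hF3 : F3S) (hRk : RkUSS) (hL : LMNS) (hMco : McoS) (hOfa : OfaS)
    (hOfb : OfbS) (hO1 : Oo1S) (hO4 : Oo4S) (hB2 : Ob2S) (hB3 : Ob3S) {q : ℤ[X]} {a : ℝ}
    {j : ℕ} (hKo : Ko phi D q a j) {N : Set L} (hNn : N.Nonempty) (hNr : ∀ R ∈ N, Ray D R)
    (hcl : ∀ R ∈ N, ∀ (e : (RO ℤ)ˣ) (T : L), Ray D T → T ∉ US e R D → T ∈ N) :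
    ∃ (f' : ℤ[X]) (eta' : L → (RO ℤ)ˣ) (C' : Set L), KcB phi D q f' a j eta' 1 C' ∧
      f'.coeff 0 = 1 ∧ f'.coeff 1 - q.coeff 1 = j + 1 ∧ C' ⊆ N := by
  have hD : DD phi D := hKo.min.fp.dd
  have h2 : 2 ≤ Module.finrank ℤ L := by have := hKo.rk; have := hKo.j2; omega
  have hnorm : ∀ S, Ray D S → ∃ (f : ℤ[X]) (e : (RO ℤ)ˣ), RN D S q f e a := fun S hS =>
    ray_norm hE2 hD h2 hKo.D0 hKo.qn hS
  obtain ⟨eta', g', C1, hg, ⟨S0, hS0⟩, hCN, hC⟩ :=
    sel_gen hE2 hF3 hRk hL hD h2 (fun R hR => drop_ex hE2 hRk hOfa hO1 hKo hR) hNn hNr hcl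
  have hty : ∀ S ∈ C1, ∃ (f : ℤ[X]) (e : (RO ℤ)ˣ), RN D S q f e a ∧
      (eta' S = ld e 1 ∨ (eta' S = -e ∧ f.coeff 0 = 1)) := by
    intro S hS
    have hray := hNr S (hCN hS)
    obtain ⟨hdr, -, -, -⟩ := hC S hS
    obtain ⟨f, e, hRN⟩ := hnorm S hray
    refine ⟨f, e, hRN, ?_⟩
    by_cases hb : eta' S = ld e 1
    · exact Or.inl hb
    · right
      have hfb : Dfr phi D S (ld e 1) := fun i0 h => hdr.fr _ (Ne.symm hb) i0 h
      rcases lt_or_ge 1 (f.coeff 0) with hu | hu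
      · exact absurd (hOfa P L phi D S q f e a j hKo hray hRN hu hfb) id
      · have hu1 : f.coeff 0 = 1 := le_antisymm hu hRN.u
        refine ⟨?_, hu1⟩
        by_contra ha
        exact hO1 P L phi D S q f e a j hKo hray hRN hu1 hfb
          (fun i0 h => hdr.fr _ (Ne.symm ha) i0 h)
  -- the component of `S0`
  have hsub : ∀ T ∈ Comp D eta' S0, T ∈ C1 := by
    intro T hT
    induction hT with
    | refl => exact hS0
    | tail _ h ih => exact ((hC _ ih).2.2.1 _ h.r1 h.m0).1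
  have hKc : Kc phi D eta' g' (Comp D eta' S0) := by
    refine ⟨hg, ⟨S0, Relation.ReflTransGen.refl⟩, fun S hS => hNr S (hCN (hsub S hS)),
      fun S hS => (hC S (hsub S hS)).1.us, fun S hS => (hC S (hsub S hS)).1.dr,
      fun S hS e he i0 h => (hC S (hsub S hS)).1.fr e he i0 h, ?_, ?_, ?_⟩
    · intro S hS T hT hTU
      have h1 := (hC S (hsub S hS)).2.2.1 T hT hTU
      exact ⟨comp_step hS h1.2, h1.2⟩
    · intro S hS
      obtain ⟨T, -, hT⟩ := (hC S (hsub S hS)).2.1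
      exact ⟨T, comp_step hS hT, hT⟩
    · intro hg2 S hS
      obtain ⟨S1, -, S2, -, hM1, hM2, h3, h4⟩ := (hC S (hsub S hS)).2.2.2 hg2
      exact ⟨S1, comp_step hS hM1, S2, comp_step hS hM2, hM1, hM2, h3, h4⟩
  obtain ⟨f', e0, hRN0, hty0⟩ := hty S0 hS0
  have hX0 : ∀ p : ℤ[X], (X * p).coeff 0 = 0 := fun p => by
    rw [mul_coeff_zero, coeff_X_zero, zero_mul]
  rcases hty0 with hb | ⟨ha, hu⟩
  · -- type B
    have hrn : ∀ S ∈ Comp D eta' S0, ∃ e : (RO ℤ)ˣ, eta' S = ld e 1 ∧ RN D S q f' e a := by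
      intro S hS
      obtain ⟨f1, e', hRN', hty'⟩ := hty S (hsub S hS)
      have hco := comp_coe hMco hD hS
      rw [hb, ld_S1 hRN0] at hco
      rcases hty' with hb' | ⟨ha', -⟩
      · rw [hb', ld_S1 hRN'] at hco
        have h1 := mul_left_cancel₀ X_ne_zero (toLaurent_injective hco)
        subst h1
        exact ⟨e', hb', hRN'⟩
      · exfalso
        rw [ha', neg_S hRN'] at hco
        have h1 := congrArg (fun p => coeff p 0) (toLaurent_injective hco)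
        simp only [coeff_neg, hX0] at h1
        have := hRN'.u
        omega
    have hKcB : KcB phi D q f' a j eta' g' (Comp D eta' S0) := ⟨hKo, hKc, hrn⟩
    have hu := hOfb P L phi D q f' a j eta' g' _ hKcB
    obtain ⟨hn, hg12⟩ := hB2 P L phi D q f' a j eta' g' _ hKcB hu
    have hg1 : g' = 1 := by
      rcases hg12 with h1 | h1
      · exact h1
      · subst h1
        exact absurd (hB3 P L phi D q f' a j eta' _ hKcB hu hn) id
    subst hg1
    exact ⟨f', eta', Comp D eta' S0, hKcB, hu, hn, fun T hT => hCN (hsub T hT)⟩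
  · -- type A
    have hrn : ∀ S ∈ Comp D eta' S0, ∃ e : (RO ℤ)ˣ, eta' S = -e ∧ RN D S q f' e a := by
      intro S hS
      obtain ⟨f1, e', hRN', hty'⟩ := hty S (hsub S hS)
      have hco := comp_coe hMco hD hS
      rw [ha, neg_S hRN0] at hco
      rcases hty' with hb' | ⟨ha', -⟩
      · exfalso
        rw [hb', ld_S1 hRN'] at hco
        have h1 := congrArg (fun p => coeff p 0) (toLaurent_injective hco)
        simp only [coeff_neg, hX0] at h1
        omega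
      · rw [ha', neg_S hRN'] at hco
        have h1 := neg_injective (toLaurent_injective hco)
        subst h1
        exact ⟨e', ha', hRN'⟩
    exact absurd (hO4 P L phi D q f' a j eta' g' _ ⟨hKo, hKc, hrn⟩ hu) id

/-- (RED) a ray outside `C`, neutral to `C`, gives a second component `C'` with drop one, neutral to
`C`. -/
theorem red (hE2 : E2S) (hF3 : F3S) (hRk : RkUSS) (hL : LMNS) (hMco : McoS) (hOfa : OfaS)
    (hOfb : OfbS) (hO1 : Oo1S) (hO4 : Oo4S) (hB2 : Ob2S) (hB3 : Ob3S) {q f : ℤ[X]} {a : ℝ}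
    {j g : ℕ} {eta : L → (RO ℤ)ˣ} {C : Set L} (hK : KcB phi D q f a j eta g C) {R0 : L}
    (hR0 : Ray D R0) (hR0C : R0 ∉ C) (hN0 : NeuA D C R0) :
    ∃ (f' : ℤ[X]) (eta' : L → (RO ℤ)ˣ) (C' : Set L), KcB phi D q f' a j eta' 1 C' ∧
      f'.coeff 0 = 1 ∧ f'.coeff 1 - q.coeff 1 = j + 1 ∧ (∀ T ∈ C', T ∉ C) ∧
      (∀ T ∈ C', NeuA D C T) ∧ (∀ S ∈ C, NeuA D C' S) := by
  have hD : DD phi D := hK.ko.min.fp.dd
  obtain ⟨f', eta', C', hKcB, hu, hn, hsub⟩ := comp_in hE2 hF3 hRk hL hMco hOfa hOfb hO1 hO4 hB2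
    hB3 hK.ko (N := {S | Ray D S ∧ S ∉ C ∧ NeuA D C S}) ⟨R0, hR0, hR0C, hN0⟩ (fun R h => h.1)
    (fun R h e T hT hTU => ⟨hT, neu_step hF3 hD hK.kc h.1 h.2.1 (fun S hS => h.2.2 S hS e) hT hTU⟩)
  refine ⟨f', eta', C', hKcB, hu, hn, fun T hT => (hsub hT).2.1, fun T hT => (hsub hT).2.2,
    fun S hS T hT e => ?_⟩
  obtain ⟨hTR, hTC, -⟩ := hsub hT
  by_cases he : e = eta S
  · by_contra hcon
    rw [he] at hcon
    exact hTC (hK.kc.mtl S hS T hTR hcon).1
  · obtain ⟨S', hS', hM⟩ := hK.kc.ex S hS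
    exact hL ℤ P L phi D S S' (eta S) (eta S') e hD.inj hD.bin hM.r0 hM.r1 hM.m0 hM.m1 he T hTR.1

/-! ## One load function for all components -/

/-- The load with the drop is unique. -/
theorem eta_uni (hK : Kc phi D eta1 g1 C1) (hK' : Kc phi D eta2 g2 C2) {R : L} (h1 : R ∈ C1)
    (h2 : R ∈ C2) (hD : DD phi D) : eta1 R = eta2 R := by
  by_contra hne
  have hR := hK.ray R h1
  obtain ⟨i0, hi⟩ : ∃ i, phi R i = 1 := by
    by_contra hcon
    push Not at hcon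
    apply hR.2.1
    apply hD.inj
    rw [map_zero]
    funext i
    exact (hD.bin _ hR.1 i).resolve_right (hcon i)
  have h3 := hK.fr R h1 (eta2 R) (Ne.symm hne) i0 hi
  have h4 := hK'.dr R h2 i0 hi
  have h5 := hK'.g1
  omega

/-- Change of the load function outside the set. -/
theorem Kc.congr {eta eta' : L → (RO ℤ)ˣ} {g : ℕ} {C : Set L} (hK : Kc phi D eta g C)
    (h : ∀ S ∈ C, eta' S = eta S) : Kc phi D eta' g C := by
  refine ⟨hK.g1, hK.ne, hK.ray, fun S hS => by rw [h S hS]; exact hK.us S hS,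
    fun S hS => by rw [h S hS]; exact hK.dr S hS, fun S hS e he => hK.fr S hS e (by
      rwa [h S hS] at he), ?_, ?_, ?_⟩
  · intro S hS T hT hTU
    rw [h S hS] at hTU ⊢
    obtain ⟨h1, h2⟩ := hK.mtl S hS T hT hTU
    rw [h T h1]
    exact ⟨h1, h2⟩
  · intro S hS
    obtain ⟨T, hT, hM⟩ := hK.ex S hS
    exact ⟨T, hT, by rw [h S hS, h T hT]; exact hM⟩
  · intro hg S hS
    obtain ⟨S1, hS1, S2, hS2, hM1, hM2, h3, h4⟩ := hK.two hg S hS
    exact ⟨S1, hS1, S2, hS2, by rw [h S hS, h S1 hS1]; exact hM1,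
      by rw [h S hS, h S2 hS2]; exact hM2, by rw [h S1 hS1]; exact h3,
      by rw [h S2 hS2]; exact h4⟩

theorem KcB.congr {q f : ℤ[X]} {a : ℝ} {j : ℕ} {eta eta' : L → (RO ℤ)ˣ} {g : ℕ} {C : Set L}
    (hK : KcB phi D q f a j eta g C) (h : ∀ S ∈ C, eta' S = eta S) :
    KcB phi D q f a j eta' g C :=
  ⟨hK.ko, Kc.congr hK.kc h, fun S hS => by rw [h S hS]; exact hK.rn S hS⟩

/-- (BALL) if no component has a killer then every ray lies in a component, one load function. -/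
theorem ball_of (hE2 : E2S) (hF3 : F3S) (hRk : RkUSS) (hL : LMNS) (hMco : McoS) (hOfa : OfaS)
    (hOfb : OfbS) (hO1 : Oo1S) (hO4 : Oo4S) (hB2 : Ob2S) (hB3 : Ob3S) {q : ℤ[X]} {a : ℝ}
    {j : ℕ} (hKo : Ko phi D q a j)
    (hno : ∀ (f : ℤ[X]) (eta : L → (RO ℤ)ˣ) (C : Set L), KcB phi D q f a j eta 1 C →
      f.coeff 0 = 1 → f.coeff 1 - q.coeff 1 = j + 1 → ∀ R, Ray D R → R ∉ C → NeuA D C R) :
    ∃ eta : L → (RO ℤ)ˣ, (∀ R, Ray D R → ∃ (f : ℤ[X]) (C : Set L),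
      KcB phi D q f a j eta 1 C ∧ f.coeff 0 = 1 ∧ f.coeff 1 - q.coeff 1 = j + 1 ∧ R ∈ C) ∧
      ∀ (f : ℤ[X]) (eta' : L → (RO ℤ)ˣ) (C : Set L), KcB phi D q f a j eta' 1 C →
        f.coeff 0 = 1 → f.coeff 1 - q.coeff 1 = j + 1 → ∀ S ∈ C, eta S = eta' S := by
  classical
  have hD : DD phi D := hKo.min.fp.dd
  -- the predicate `R` is in a component with the load `e`
  set Q : L → (RO ℤ)ˣ → Prop := fun R e => ∃ (f : ℤ[X]) (eta' : L → (RO ℤ)ˣ) (C : Set L),
    KcB phi D q f a j eta' 1 C ∧ f.coeff 0 = 1 ∧ f.coeff 1 - q.coeff 1 = j + 1 ∧ R ∈ C ∧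
      eta' R = e with hQ
  have hall : ∀ R, Ray D R → ∃ e, Q R e := by
    intro R hR
    by_contra hcon
    obtain ⟨f', eta', C', hKcB, hu, hn, hsub⟩ := comp_in hE2 hF3 hRk hL hMco hOfa hOfb hO1 hO4
      hB2 hB3 hKo (N := {S | Ray D S ∧ ¬ ∃ e, Q S e}) ⟨R, hR, hcon⟩ (fun R h => h.1)
      (fun R h e T hT hTU => ⟨hT, by
        rintro ⟨e', f, et, C, hK, hu, hn, hTC, -⟩
        refine h.2 ?_
        by_contra hRq
        have hRC : R ∉ C := fun hRC => hRq ⟨_, f, et, C, hK, hu, hn, hRC, rfl⟩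
        exact hTU (hno f et C hK hu hn R h.1 hRC T hTC e)⟩)
    obtain ⟨S, hS⟩ := hKcB.kc.ne
    exact (hsub hS).2 ⟨_, f', eta', C', hKcB, hu, hn, hS, rfl⟩
  set eta : L → (RO ℤ)ˣ := fun R => if h : ∃ e, Q R e then h.choose else 1 with heta
  have key : ∀ (f : ℤ[X]) (eta' : L → (RO ℤ)ˣ) (C : Set L), KcB phi D q f a j eta' 1 C →
      f.coeff 0 = 1 → f.coeff 1 - q.coeff 1 = j + 1 → ∀ S ∈ C, eta S = eta' S := by
    intro f eta' C hK hu hn S hS
    have hex : ∃ e, Q S e := ⟨_, f, eta', C, hK, hu, hn, hS, rfl⟩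
    have h1 : eta S = hex.choose := by rw [heta]; simp only [dif_pos hex]
    obtain ⟨f2, et2, C2, hK2, -, -, hS2, he2⟩ := hex.choose_spec
    rw [h1, ← he2]
    exact eta_uni hK2.kc hK.kc hS2 hS hD
  refine ⟨eta, fun R hR => ?_, key⟩
  obtain ⟨e, f, et, C, hK, hu, hn, hRC, -⟩ := hall R hR
  exact ⟨f, C, KcB.congr hK (key f et C hK hu hn), hu, hn, hRC⟩

end

end Pool.Agent.B5.KO.H96
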