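import Pool.Agent.Lib.MP_b5021c_nt.KO.H96.Twn
import Pool.Agent.Lib.MP_b5021c_nt.KO.H96.Red
import Pool.Agent.Lib.MP_b5021c_nt.BE.H24.Sf
import Pool.Agent.Lib.MP_b5021c_nt.E.H52.Div

/-!
# PURE BETA, `j = 2` (row BE_N2): the five rays of `D`, the values of the double closing
-/

set_option linter.unusedSectionVars false

namespace Pool.Agent.B5.KO.H96

open scoped LaurentPolynomial
open Polynomial
open Pool.Agent.B5.KE
open Pool.Agent.B5.KV67 (csm_coeff)
open Pool.Agent.B5.BE.H24 (sST_insert sST_empty sST_zero sST_one)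

section

variable {P L : Type} [Fintype P] [DecidableEq P] [AddCommGroup L] [Module.Free ℤ L]
  [Module.Finite ℤ L] {phi : L →+ (P → ℤ)} {D : AO ℤ L}

/-- The order of the five rays does not matter. -/
theorem B5s.perm {V : Fin 5 → L} (W : B5s phi D V) (σ : Fin 5 → Fin 5)
    (hσ : Function.Bijective σ) : B5s phi D (fun i => V (σ i)) := by
  refine ⟨W.dd, W.r5, fun i => W.ray _, fun i k h p => W.dis _ _ (fun h2 => h (hσ.1 h2)) p,
    fun x => ?_⟩
  obtain ⟨c, hc⟩ := W.exp x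
  exact ⟨fun i => c (σ i), by rw [hc]; exact (hσ.sum_comp fun i => c i • V i).symm⟩

theorem sum2 {M : Type} [AddCommMonoid M] (g : Fin 2 → M) {i k : Fin 2} (h : i ≠ k) :
    ∑ m, g m = g i + g k := by
  rw [Fin.sum_univ_two]
  fin_cases i <;> fin_cases k
  · exact absurd rfl h
  · rfl
  · exact add_comm _ _
  · exact absurd rfl h

variable {q f : ℤ[X]} {a : ℝ} {S : Fin 3 → L} {es : Fin 3 → (RO ℤ)ˣ} {T : Fin 2 → L}
  {lam : Fin 2 → (RO ℤ)ˣ} {i k : Fin 2}

theorem be_b5 (be : Be phi D q f a 2 2 S es T lam) (h : i ≠ k) :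
    B5s phi D ![S 0, S 1, S 2, T i, T k] := by
  refine ⟨be.ko.min.fp.dd, be.ko.rk, ?_, ?_, ?_⟩
  · intro m
    fin_cases m
    · exact be.rS 0
    · exact be.rS 1
    · exact be.rS 2
    · exact be.rT i
    · exact be.rT k
  · intro m n hmn p
    fin_cases m <;> fin_cases n
    · exact absurd rfl hmn
    · exact be.dSS 0 1 (by decide) p
    · exact be.dSS 0 2 (by decide) p
    · exact be.dST 0 i p
    · exact be.dST 0 k p
    · exact be.dSS 1 0 (by decide) p
    · exact absurd rfl hmn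
    · exact be.dSS 1 2 (by decide) p
    · exact be.dST 1 i p
    · exact be.dST 1 k p
    · exact be.dSS 2 0 (by decide) p
    · exact be.dSS 2 1 (by decide) p
    · exact absurd rfl hmn
    · exact be.dST 2 i p
    · exact be.dST 2 k p
    · exact (be.dST 0 i p).symm
    · exact (be.dST 1 i p).symm
    · exact (be.dST 2 i p).symm
    · exact absurd rfl hmn
    · exact be.dTT i k h p
    · exact (be.dST 0 k p).symm
    · exact (be.dST 1 k p).symm
    · exact (be.dST 2 k p).symm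
    · exact be.dTT k i h.symm p
    · exact absurd rfl hmn
  · intro x
    obtain ⟨c, hc⟩ := be.bas.2 x
    refine ⟨![c.1 0, c.1 1, c.1 2, c.2 i, c.2 k], ?_⟩
    rw [← hc, Fin.sum_univ_five]
    simp only
    rw [Fin.sum_univ_three, sum2 _ h]
    change _ = c.1 0 • S 0 + c.1 1 • S 1 + c.1 2 • S 2 + c.2 i • T i + c.2 k • T k
    abel

/-- Order `(S 0, T i, S 1, S 2, T k)`. -/
theorem be_bA (be : Be phi D q f a 2 2 S es T lam) (h : i ≠ k) :
    B5s phi D ![S 0, T i, S 1, S 2, T k] := by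
  have h1 := (be_b5 be h).perm ![0, 3, 1, 2, 4] (by decide)
  convert h1 using 1
  funext m
  fin_cases m <;> rfl

/-- Order `(T i, S 0, S 1, S 2, T k)`. -/
theorem be_bB (be : Be phi D q f a 2 2 S es T lam) (h : i ≠ k) :
    B5s phi D ![T i, S 0, S 1, S 2, T k] := by
  have h1 := (be_b5 be h).perm ![3, 0, 1, 2, 4] (by decide)
  convert h1 using 1
  funext m
  fin_cases m <;> rfl

/-- Order `(T k, T i, S 0, S 1, S 2)`. -/
theorem be_bC (be : Be phi D q f a 2 2 S es T lam) (h : i ≠ k) :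
    B5s phi D ![T k, T i, S 0, S 1, S 2] := by
  have h1 := (be_b5 be h).perm ![4, 3, 0, 1, 2] (by decide)
  convert h1 using 1
  funext m
  fin_cases m <;> rfl

/-! ## Coefficients -/

theorem ps1 (be : Be phi D q f a 2 2 S es T lam) (m : Fin 3) :
    (ld (es m) 1 : RO ℤ) * D.coeff (S m) = toLaurent (X * f) := by
  have h1 := be.psi {m} ∅ (Finset.singleton_ne_empty m) (by fin_cases m <;> decide)
  rw [Finset.prod_singleton, Finset.prod_empty, mul_one, sST_one, Finset.card_singleton,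
    Finset.card_empty, add_zero, pow_one] at h1
  rw [h1]
  ring

theorem ps2 (be : Be phi D q f a 2 2 S es T lam) {m : Fin 3} (hm : m ≠ 0) :
    (ld (es m) 1 : RO ℤ) * (ld (es 0) 1 : RO ℤ) * D.coeff (S m + S 0) = -toLaurent (X * f) := by
  have h1 := be.psi {m, 0} ∅ (Finset.insert_ne_empty _ _) (by fin_cases m <;> decide)
  rw [Finset.prod_pair hm, Finset.prod_empty, mul_one, Finset.card_pair hm, Finset.card_empty,
    add_zero] at h1
  have h2 : sST S T {m, 0} ∅ = S m + S 0 := by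
    unfold sST
    rw [Finset.sum_pair hm, Finset.sum_empty, add_zero]
  rw [h2] at h1
  rw [h1]
  ring

theorem ps3 (be : Be phi D q f a 2 2 S es T lam) (m : Fin 3) (i : Fin 2) :
    (ld (es m) 1 : RO ℤ) * (lam i : RO ℤ) * D.coeff (S m + T i) = -toLaurent (X * f) := by
  have h1 := be.psi {m} {i} (Finset.singleton_ne_empty m) (by fin_cases m <;> decide)
  rw [Finset.prod_singleton, Finset.prod_singleton, Finset.card_singleton,
    Finset.card_singleton] at h1
  have h2 : sST S T {m} {i} = S m + T i := by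
    unfold sST
    rw [Finset.sum_singleton, Finset.sum_singleton]
  rw [h2] at h1
  rw [h1]
  ring

theorem ps4 (be : Be phi D q f a 2 2 S es T lam) {m : Fin 3} (hm : m ≠ 0) (i : Fin 2) :
    (ld (es m) 1 : RO ℤ) * (ld (es 0) 1 : RO ℤ) * (lam i : RO ℤ) * D.coeff (S m + S 0 + T i) =
      toLaurent (X * f) := by
  have h1 := be.psi {m, 0} {i} (Finset.insert_ne_empty _ _) (by fin_cases m <;> decide)
  rw [Finset.prod_pair hm, Finset.prod_singleton, Finset.card_pair hm, Finset.card_singleton] at h1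
  have h2 : sST S T {m, 0} {i} = S m + S 0 + T i := by
    unfold sST
    rw [Finset.sum_pair hm, Finset.sum_singleton]
  rw [h2] at h1
  rw [h1]
  ring

/-- The flip at `T k`. -/
theorem flp (be : Be phi D q f a 2 2 S es T lam) {A : Finset (Fin 3)} {B : Finset (Fin 2)}
    (h0 : A ≠ ∅) (h1 : A ≠ Finset.univ) {k : Fin 2} (hk : k ∉ B) {x : L} (hx : x = sST S T A B) :
    D.coeff x + (lam k : RO ℤ) * D.coeff (x + T k) = 0 := by
  rw [hx, sST_insert A hk]
  exact BE.H24.flip be h0 h1 hk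

theorem csm_comm (D : AO ℤ L) (S R : L) (u0 u1 : (RO ℤ)ˣ) (b : L) :
    csm D S R u0 u1 b = csm D R S u1 u0 b := by
  unfold csm
  rw [add_right_comm b S R]
  ring

/-- The coefficient of `S m`, `m = 1, 2`, of the double closing. -/
theorem csm_S (be : Be phi D q f a 2 2 S es T lam) {m : Fin 3} (hm : m ≠ 0) {uS uR : (RO ℤ)ˣ}
    {eS eR : (RO ℤ)ˣ} (hS : ld (es 0) 1 = ld eS 1) (hR : lam i = ld eR 1)
    (hu : ((ld eS 1 : RO ℤ) - (uS : RO ℤ)) * ((ld eR 1 : RO ℤ) - (uR : RO ℤ)) =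
      LaurentPolynomial.T 1 * ((eS : RO ℤ) * (eR : RO ℤ)) * toLaurent (1 - X ^ 2)) :
    (ld (es m) 1 : RO ℤ) * csm D (S 0) (T i) uS uR (S m) = toLaurent ((1 - X ^ 2) * f) := by
  have h1 := ps1 be m
  have h2 := ps2 be hm
  have h3 := ps3 be m i
  have h4 := ps4 be hm i
  rw [hS] at h2 h4
  rw [hR] at h3 h4
  rw [map_mul, toLaurent_X] at h1 h2 h3 h4
  have hld : ∀ e : (RO ℤ)ˣ, (ld e 1 : RO ℤ) = LaurentPolynomial.T 1 * (e : RO ℤ) := by
    intro e
    unfold ld
    rw [Units.val_mul, H40.uT_val, Units.val_one, map_one, one_mul]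
  have hne : (ld eS 1 : RO ℤ) * (ld eR 1 : RO ℤ) ≠ 0 := mul_ne_zero (Units.ne_zero _)
    (Units.ne_zero _)
  apply mul_left_cancel₀ hne
  unfold csm
  have hS' := hld eS
  have hR' := hld eR
  rw [map_mul]
  have h5 : (ld eS 1 : RO ℤ) * (ld eR 1 : RO ℤ) * ((ld (es m) 1 : RO ℤ) *
      (D.coeff (S m) + (uS : RO ℤ) * D.coeff (S m + S 0) + (uR : RO ℤ) * D.coeff (S m + T i) +
        (uS : RO ℤ) * (uR : RO ℤ) * D.coeff (S m + S 0 + T i))) =
      LaurentPolynomial.T 1 * toLaurent f *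
        (((ld eS 1 : RO ℤ) - (uS : RO ℤ)) * ((ld eR 1 : RO ℤ) - (uR : RO ℤ))) := by
    linear_combination (ld eS 1 : RO ℤ) * (ld eR 1 : RO ℤ) * h1 +
      (uS : RO ℤ) * (ld eR 1 : RO ℤ) * h2 + (uR : RO ℤ) * (ld eS 1 : RO ℤ) * h3 +
      (uS : RO ℤ) * (uR : RO ℤ) * h4
  rw [h5, hu]
  linear_combination (-(toLaurent (1 - X ^ 2) * toLaurent f * (ld eR 1 : RO ℤ))) * hS' -
    (toLaurent (1 - X ^ 2) * toLaurent f * (LaurentPolynomial.T 1 * (eS : RO ℤ))) * hR'

end

end Pool.Agent.B5.KO.H96
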