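import Pool.Agent.Lib.MP_b5021c_nt.KO.H96.BeT

/-!
# PURE BETA, `j = 2` (row BE_N2): `x_(T k) = 1` is not a factor of the double closing
-/

set_option linter.unusedSectionVars false

namespace Pool.Agent.B5.KO.H96

open scoped LaurentPolynomial
open Polynomial
open Pool.Agent.B5.KE
open Pool.Agent.B5.KV67 (csm_coeff)
open Pool.Agent.B5.BE.H24 (sST_insert sST_empty sST_zero sST_one)

section

variable {P L : Type} [Fintype P] [DecidableEq P] [AddCommGroup L] [Module.Free ℤ L]
  [Module.Finite ℤ L] {phi : L →+ (P → ℤ)} {D : AO ℤ L}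
variable {q f : ℤ[X]} {a : ℝ} {S : Fin 3 → L} {es : Fin 3 → (RO ℤ)ˣ} {T : Fin 2 → L}
  {lam : Fin 2 → (RO ℤ)ˣ} {i k : Fin 2}

/-- The constant coefficient of the closing `x_(T k) = 1` is not zero. -/
theorem bm_ne {j s : ℕ} {T : Fin s → L} {lam : Fin s → (RO ℤ)ˣ}
    (be : Be phi D q f a j s S es T lam) (k : Fin s) :
    D.coeff 0 + (lam k : RO ℤ) * D.coeff (T k) ≠ 0 := by
  obtain ⟨-, g, e, hR, h | ⟨h, hg, -⟩⟩ := be.tT k
  · rw [h]
    exact V0_ne hR (k := 1) (le_refl 1)
  · obtain ⟨E, hE, -, hE0, -⟩ := typa hR.loc hg hR.ne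
    rw [h, V0_A hR, Ne, toLaurent_eq_zero]
    intro h2
    have h3 : X * E = 0 := by
      rw [← hE]
      linear_combination -h2
    have h4 : E = 0 := by
      rcases mul_eq_zero.mp h3 with h4 | h4
      · exact absurd h4 X_ne_zero
      · exact h4
    rw [h4, coeff_zero] at hE0
    omega

/-- The closing at `x_(T i) = uR`, `uR ≠ lam i`, does not vanish at `x_(T k) = 1`. -/
theorem be_noT (hFD : FDS) (hSm : SmallS) (hU : UnitAS) (hMm : MmulS) (hSf : BeSfS)
    (be : Be phi D q f a 2 2 S es T lam) (hik : i ≠ k) {uS uR : (RO ℤ)ˣ} (hu : uR ≠ lam i)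
    (h1 : csm D (S 0) (T i) uS uR 0 + (lam k : RO ℤ) * csm D (S 0) (T i) uS uR (T k) = 0)
    (h2 : csm D (S 0) (T i) uS uR (S 1 + S 2) +
      (lam k : RO ℤ) * csm D (S 0) (T i) uS uR (S 1 + S 2 + T k) = 0) : False := by
  classical
  have hD := be.ko.min.fp.dd
  have B := be_bC be hik
  have hki : k ∉ ({i} : Finset (Fin 2)) := by
    rw [Finset.mem_singleton]
    exact fun h => hik h.symm
  have hk0 : k ∉ (∅ : Finset (Fin 2)) := Finset.notMem_empty k
  have hS0 : sST S T {0} ∅ = S 0 := sST_one 0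
  have hf : ∀ {A : Finset (Fin 3)} (x : L), A ≠ ∅ → A ≠ Finset.univ → x = ∑ m ∈ A, S m →
      (D.coeff x + (lam k : RO ℤ) * D.coeff (x + T k) = 0) ∧
      (D.coeff (x + T i) + (lam k : RO ℤ) * D.coeff (x + T i + T k) = 0) := by
    intro A x hA0 hA1 hx
    refine ⟨flp be hA0 hA1 hk0 ?_, flp be hA0 hA1 hki ?_⟩
    · unfold sST
      rw [Finset.sum_empty, add_zero, hx]
    · unfold sST
      rw [Finset.sum_singleton, hx]
  obtain ⟨f1, f2⟩ := hf (A := {0}) (S 0) (Finset.singleton_ne_empty 0) (by decide)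
    (Finset.sum_singleton _ _).symm
  have hcs : ∀ y, csm D (T k) (T i) (lam k) uR y =
      (D.coeff y + (lam k : RO ℤ) * D.coeff (y + T k)) +
        (uR : RO ℤ) * (D.coeff (y + T i) + (lam k : RO ℤ) * D.coeff (y + T i + T k)) := by
    intro y
    unfold csm
    rw [add_right_comm y (T k) (T i)]
    ring
  -- the two relations of the closing at `T k`
  have w0 : csm D (T k) (T i) (lam k) uR 0 = 0 := by
    rw [hcs]
    unfold csm at h1
    simp only [zero_add] at h1 ⊢
    rw [add_comm (T k) (S 0), add_right_comm (S 0) (T k) (T i), add_comm (T k) (T i)] at h1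
    linear_combination h1 - (uS : RO ℤ) * f1 - (uS : RO ℤ) * (uR : RO ℤ) * f2
  have wX : csm D (T k) (T i) (lam k) uR (S 1 + S 2 + S 0) = 0 := by
    obtain ⟨g1, g2⟩ := hf (A := {1, 2}) (S 1 + S 2) (Finset.insert_ne_empty _ _) (by decide)
      (Finset.sum_pair (by decide)).symm
    rw [hcs]
    unfold csm at h2
    rw [add_right_comm (S 1 + S 2) (T k) (S 0), add_right_comm (S 1 + S 2) (T k) (T i),
      add_right_comm (S 1 + S 2 + S 0) (T k) (T i)] at h2
    have hu0 : (uS : RO ℤ) ≠ 0 := Units.ne_zero _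
    apply mul_left_cancel₀ hu0
    linear_combination h2 - g1 - (uR : RO ℤ) * g2
  -- all coefficients
  obtain ⟨i0, h0⟩ := exists_port hD (be.rT k)
  obtain ⟨p, hp⟩ : ∃ p, phi (T i) p = 1 := exists_port hD (be.rT i)
  have hall : ∀ y : L, phi y i0 = 0 → phi y p = 0 → csm D (T k) (T i) (lam k) uR y = 0 := by
    intro y hy0 hy1
    by_contra hne
    obtain ⟨c, hc, c0, c1, hy⟩ := B.bin2 (u0 := lam k) (u1 := uR) h0 hp hy0 hy1 hne
    obtain ⟨A, hA⟩ : ∃ A : Finset (Fin 3), A = Finset.univ.filter fun m : Fin 3 =>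
      c (m.succ.succ) = 1 := ⟨_, rfl⟩
    have hyA : y = ∑ m ∈ A, S m := by
      rw [hy, Fin.sum_univ_five, hA, Finset.sum_filter, Fin.sum_univ_three, c0, c1]
      change (0 : ℤ) • T k + (0 : ℤ) • T i + c 2 • S 0 + c 3 • S 1 + c 4 • S 2 =
        (if c 2 = 1 then S 0 else 0) + (if c 3 = 1 then S 1 else 0) + (if c 4 = 1 then S 2 else 0)
      have hcc : ∀ (m : Fin 5) (x : L), c m • x = if c m = 1 then x else 0 := by
        intro m x
        rcases hc m with h | h
        · rw [h, zero_smul, if_neg (by norm_num)]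
        · rw [h, one_smul, if_pos rfl]
      rw [hcc, hcc, hcc, zero_smul, zero_smul, zero_add, zero_add]
    by_cases hA0 : A = ∅
    · rw [hA0, Finset.sum_empty] at hyA
      rw [hyA] at hne
      exact hne w0
    by_cases hA1 : A = Finset.univ
    · rw [hA1, Fin.sum_univ_three] at hyA
      rw [hyA, show S 0 + S 1 + S 2 = S 1 + S 2 + S 0 by abel] at hne
      exact hne wX
    · obtain ⟨g1, g2⟩ := hf y hA0 hA1 hyA
      apply hne
      rw [hcs, g1, g2]
      ring
  -- the closing at `T k` and its factors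
  have h0' : phi (T k) i0 = 1 := h0
  have hRi0 : phi (T i) i0 = 0 := by
    rcases be.dTT i k hik i0 with h | h
    · exact h
    · rw [h0'] at h
      exact absurd h one_ne_zero
  have hkp : phi (T k) p = 0 := by
    rcases be.dTT i k hik p with h | h
    · rw [hp] at h
      exact absurd h one_ne_zero
    · exact h
  obtain ⟨R', hR'⟩ : ∃ R' : Ker (co phi i0), (R' : L) = T i := ⟨⟨T i, hRi0⟩, rfl⟩
  have h1' : co (phO phi (T k) i0) p R' = 1 := by
    change (if phi (T k) p = 0 then phi (R' : L) p else 0) = 1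
    rw [if_pos hkp, hR', hp]
  have hkk : ∀ b : Ker (co phi i0), co (phO phi (T k) i0) p b = phi (b : L) p := by
    intro b
    change (if phi (T k) p = 0 then phi (b : L) p else 0) = _
    rw [if_pos hkp]
  have hr2 : 2 ≤ Module.finrank ℤ L := by rw [B.r5]; norm_num
  have cc : CC phi D (T k) i0 (lam k) := ⟨hD, hr2, be.rT k, h0, bm_ne be k⟩
  obtain ⟨c, n, G, fd⟩ := hFD ℤ P L phi D (T k) i0 (lam k) h0 cc
  have hzero : cl (co (phO phi (T k) i0) p) R' h1' uR (cl (co phi i0) (T k) h0 (lam k) D) = 0 := by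
    refine AddMonoidAlgebra.ext (Finsupp.ext fun y => ?_)
    rw [csm_coeff hD.bin h0 hR' h1']
    refine hall _ (y : Ker (co phi i0)).2 ?_
    have h4 := y.2
    rw [mem_Ker, hkk] at h4
    exact h4
  rw [fd.eq, map_mul, map_prod, H75.T2C.cl_cst] at hzero
  have hcst : (cst c : AO ℤ (Ker (co (phO phi (T k) i0) p))) ≠ 0 := by
    intro h
    have h3 := congrArg (fun x : AO ℤ (Ker (co (phO phi (T k) i0) p)) => x.coeff 0) h
    have h4 := H75.T2C.cst_mul_coeff c (1 : AO ℤ (Ker (co (phO phi (T k) i0) p))) 0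
    rw [mul_one] at h4
    rw [h4, AddMonoidAlgebra.one_def, AddMonoidAlgebra.coeff_single, Finsupp.single_eq_same,
      mul_one] at h3
    exact fd.c0 h3
  obtain ⟨l, -, hl⟩ := Finset.prod_eq_zero_iff.mp ((mul_eq_zero.mp hzero).resolve_left hcst)
  obtain ⟨A, hA⟩ := H52.Div.dvd_of_cl _ _ h1' uR hl
  have hR'0 : R' ≠ 0 := by
    rintro rfl
    rw [Submodule.coe_zero] at hR'
    exact (be.rT i).2.1 hR'.symm
  have hAu : IsUnit A := by
    rcases (fd.irr l).isUnit_or_isUnit hA with h | h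
    · exfalso
      have h3 := H52.Div.cl_of_dvd (co (phO phi (T k) i0) p) R' h1' uR
        (dvd_refl (1 - AddMonoidAlgebra.single R' ((uR⁻¹ : (RO ℤ)ˣ) : RO ℤ)))
      have h4 := h.map (cl (co (phO phi (T k) i0) p) R' h1' uR)
      rw [h3] at h4
      exact not_isUnit_zero h4
    · exact h
  obtain ⟨x, d, hd, hAx⟩ := (hU ℤ _ A).1 hAu
  have hGl : ∀ y, (G l).coeff y = (if y = x then d else 0) -
      ((uR⁻¹ : (RO ℤ)ˣ) : RO ℤ) * (if y = R' + x then d else 0) := by
    intro y
    rw [hA, hAx, sub_mul, one_mul, AddMonoidAlgebra.coeff_sub, Finsupp.sub_apply,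
      AddMonoidAlgebra.coeff_single, AddMonoidAlgebra.single_mul_single,
      AddMonoidAlgebra.coeff_single, Finsupp.single_apply, Finsupp.single_apply]
    simp only [eq_comm (a := x), eq_comm (a := R' + x)]
    rw [mul_ite, mul_zero]
  have hGl0 : (G l).coeff 0 ≠ 0 := by
    intro h
    apply bm_ne be k
    rw [fd.v00, Finset.prod_eq_zero (Finset.mem_univ l) h, mul_zero]
  have hd0 : d ≠ 0 := hd.ne_zero
  have hx0 : x = 0 := by
    by_contra hx
    have h3 : R' + x = 0 := by
      by_contra h4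
      apply hGl0
      rw [hGl, if_neg (Ne.symm hx), if_neg (Ne.symm h4)]
      ring
    have hxs : x ∈ supp (G l) := by
      intro h4
      rw [hGl, if_pos rfl, if_neg (by
        intro h5
        apply hR'0
        have := h5
        rw [right_eq_add] at this
        exact this)] at h4
      apply hd0
      linear_combination h4
    have h5 := (fd.ww l x hxs).1 p (by
      unfold OO
      exact Finset.mem_filter.mpr ⟨Finset.mem_univ _, hkp⟩)
    have h6 : x = -R' := eq_neg_of_add_eq_zero_right h3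
    have h7 : phi (x : L) p = -1 := by
      rw [h6, Submodule.coe_neg, map_neg, Pi.neg_apply, hR', hp]
    change phi (x : L) p = 0 ∨ phi (x : L) p = 1 at h5
    omega
  subst hx0
  have hM1 : ¬ 1 < M ((G l).coeff 0) := by
    rw [hGl, if_pos rfl, add_zero, if_neg (Ne.symm hR'0), mul_zero, sub_zero,
      (hMm ℤ).2.2 _ hd]
    exact lt_irrefl _
  obtain ⟨-, -, h3⟩ := hSm ℤ P L phi D (T k) i0 (lam k) h0 c n G fd l hM1
  have hRs : R' ∈ supp (G l) := by
    intro h4
    rw [hGl, if_neg hR'0, add_zero, if_pos rfl, zero_sub, neg_eq_zero] at h4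
    exact (mul_ne_zero (Units.ne_zero _) hd0) h4
  obtain ⟨b, jj, e, sp⟩ := h3 (by
    intro hpu
    have h5 := hpu R' hRs p (by
      unfold OO
      exact Finset.mem_filter.mpr ⟨Finset.mem_univ _, hkp⟩)
    rw [hR', hp] at h5
    exact one_ne_zero h5)
  have hbR : b = R' ∧ e = uR := by
    have h5 : (G l).coeff R' = (G l).coeff 0 *
        -(if R' = b then ((e⁻¹ : (RO ℤ)ˣ) : RO ℤ) else 0) := by
      conv_lhs => rw [sp.eq]
      rw [H75.T2C.cst_mul_coeff, AddMonoidAlgebra.coeff_sub, Finsupp.sub_apply,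
        AddMonoidAlgebra.coeff_single, AddMonoidAlgebra.one_def, AddMonoidAlgebra.coeff_single,
        Finsupp.single_eq_of_ne (Ne.symm hR'0).symm, zero_sub, Finsupp.single_apply]
      simp only [eq_comm (a := b)]
    rw [hGl, hGl, if_neg hR'0, add_zero, if_pos rfl, if_pos rfl, if_neg (Ne.symm hR'0)] at h5
    by_cases hb : R' = b
    · refine ⟨hb.symm, ?_⟩
      rw [if_pos hb] at h5
      have h6 : ((uR⁻¹ : (RO ℤ)ˣ) : RO ℤ) = ((e⁻¹ : (RO ℤ)ˣ) : RO ℤ) := by
        apply mul_left_cancel₀ hd0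
        linear_combination -h5
      exact inv_injective (Units.ext h6.symm)
    · exfalso
      rw [if_neg hb] at h5
      apply mul_ne_zero (Units.ne_zero uR⁻¹) hd0
      linear_combination -h5
  obtain ⟨rfl, rfl⟩ := hbR
  rcases hSf P L phi D q f a 2 2 S es T lam k i0 h0 c n G l b jj e be fd sp with
    ⟨k', -, hk', he⟩ | ⟨Bs, -, hb, -⟩
  · rw [hR'] at hk'
    have h5 : k' = i := by
      by_contra h6
      rcases be.dTT k' i h6 p with h7 | h7
      · rw [← hk', hp] at h7
        exact one_ne_zero h7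
      · rw [hp] at h7
        exact one_ne_zero h7
    rw [h5] at he
    exact hu he
  · obtain ⟨p0, hp0⟩ : ∃ p0, phi (S 0) p0 = 1 := exists_port hD (be.rS 0)
    have h5 : phi (sST S T Finset.univ Bs) p0 = 1 := by
      rw [BE.H24.phS be hp0, if_pos (Finset.mem_univ _)]
    have h6 : sST S T Finset.univ Bs = T i := by
      rw [← hR', hb]
      unfold sST
      rw [Fin.sum_univ_three]
    rw [h6] at h5
    rcases be.dST 0 i p0 with h7 | h7
    · rw [hp0] at h7
      exact one_ne_zero h7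
    · rw [h7] at h5
      exact zero_ne_one h5

end

end Pool.Agent.B5.KO.H96
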