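import Pool.Agent.Lib.MP_b5021c_nt.KO.H96.BeU

/-!
# PURE BETA, `j = 2` (row BE_N2): the two double closings `(S 0, T i)` and `(T i, S 0)`
-/

set_option linter.unusedSectionVars false

namespace Pool.Agent.B5.KO.H96

open scoped LaurentPolynomial
open Polynomial
open Pool.Agent.B5.KE
open Pool.Agent.B5.KO67 (neA)

section

variable {P L : Type} [Fintype P] [DecidableEq P] [AddCommGroup L] [Module.Free ℤ L]
  [Module.Finite ℤ L] {phi : L →+ (P → ℤ)} {D : AO ℤ L}
variable {q f g : ℤ[X]} {a : ℝ} {S : Fin 3 → L} {es : Fin 3 → (RO ℤ)ˣ} {T : Fin 2 → L}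
  {lam : Fin 2 → (RO ℤ)ˣ} {i k : Fin 2}

theorem ld_val (e : (RO ℤ)ˣ) (n : ℤ) : (ld e n : RO ℤ) = LaurentPolynomial.T n * (e : RO ℤ) := by
  unfold ld
  rw [Units.val_mul, H40.uT_val, Units.val_one, map_one, one_mul]

theorem T12 : (LaurentPolynomial.T 2 : RO ℤ) = LaurentPolynomial.T 1 * LaurentPolynomial.T 1 := by
  rw [← LaurentPolynomial.T_add]
  norm_num

/-- The loads are not the designated ones. -/
theorem ld_ne2 (e : (RO ℤ)ˣ) : ld e 2 ≠ ld e 1 := by
  intro h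
  have h1 := congrArg (fun u : (RO ℤ)ˣ => ((u * e⁻¹ : (RO ℤ)ˣ) : RO ℤ)) h
  simp only [Units.val_mul, ld_val, mul_assoc] at h1
  have h2 : (e : RO ℤ) * ((e⁻¹ : (RO ℤ)ˣ) : RO ℤ) = 1 := e.mul_inv
  rw [h2, mul_one, mul_one] at h1
  have h3 := congrArg (fun p : RO ℤ => p.coeff 2) h1
  simp only [LaurentPolynomial.T_apply] at h3
  norm_num at h3

/-- One port is enough. -/
theorem dfr_of_port (hRkU : RkUSS) (hD : DD phi D) {R : L} (hR : Ray D R) {e : (RO ℤ)ˣ} {i0 : P}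
    (h : co phi i0 R = 1) (hr : Module.finrank ℤ L = rk (supp (cl (co phi i0) R h e D)) + 1) :
    Dfr phi D R e := by
  have h1 := hRkU ℤ P L phi D R i0 h e hD.inj hD.bin (hD.bin _ hR.1)
  intro i1 h'
  have h2 := hRkU ℤ P L phi D R i1 h' e hD.inj hD.bin (hD.bin _ hR.1)
  omega

theorem csm_flip (be : Be phi D q f a 2 2 S es T lam) (hik : i ≠ k) {m : Fin 3} (hm : m ≠ 0)
    (uS uR : (RO ℤ)ˣ) : csm D (S 0) (T i) uS uR (S m) +
      (lam k : RO ℤ) * csm D (S 0) (T i) uS uR (S m + T k) = 0 := by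
  have hki : k ∉ ({i} : Finset (Fin 2)) := by
    rw [Finset.mem_singleton]
    exact fun h => hik h.symm
  have hk0 : k ∉ (∅ : Finset (Fin 2)) := Finset.notMem_empty k
  have h1 := flp be (A := {m}) (B := ∅) (Finset.singleton_ne_empty m) (by fin_cases m <;> decide)
    hk0 (BE.H24.sST_one m).symm
  have h2 := flp be (A := {m, 0}) (B := ∅) (Finset.insert_ne_empty _ _)
    (by fin_cases m <;> decide) hk0 (x := S m + S 0) (by
      unfold sST
      rw [Finset.sum_pair hm, Finset.sum_empty, add_zero])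
  have h3 := flp be (A := {m}) (B := {i}) (Finset.singleton_ne_empty m)
    (by fin_cases m <;> decide) hki (x := S m + T i) (by
      unfold sST
      rw [Finset.sum_singleton, Finset.sum_singleton])
  have h4 := flp be (A := {m, 0}) (B := {i}) (Finset.insert_ne_empty _ _)
    (by fin_cases m <;> decide) hki (x := S m + S 0 + T i) (by
      unfold sST
      rw [Finset.sum_pair hm, Finset.sum_singleton])
  unfold csm
  rw [add_right_comm (S m) (T k) (S 0), add_right_comm (S m) (T k) (T i),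
    add_right_comm (S m + S 0) (T k) (T i)]
  linear_combination h1 + (uS : RO ℤ) * h2 + (uR : RO ℤ) * h3 +
    (uS : RO ℤ) * (uR : RO ℤ) * h4

/-- A load of `T i` which is not the designated one is drop free. -/
theorem dfrT (hF1 : F1S) (hRkU : RkUSS) (be : Be phi D q f a 2 2 S es T lam) (hik : i ≠ k)
    {u : (RO ℤ)ˣ} (hu : u ≠ lam i) : Dfr phi D (T i) u := by
  have hD := be.ko.min.fp.dd
  have h1 := hF1 ℤ P L phi D (T i) u hD.inj hD.bin (hD.bin _ (be.rT i).1) (be.rT i).2.1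
  have hii : i ∉ (∅ : Finset (Fin 2)) := Finset.notMem_empty i
  have hiik : i ∉ ({k} : Finset (Fin 2)) := by
    rw [Finset.mem_singleton]
    exact hik
  have key : ∀ x : L, D.coeff (x + T i) ≠ 0 → D.coeff x + (lam i : RO ℤ) * D.coeff (x + T i) = 0 →
      (∀ p, phi x p = 0 ∨ phi (T i) p = 0) → x ∈ US u (T i) D := by
    intro x hx h2 h3
    by_contra hcon
    have h4 := (h1 x hcon).2 h3
    apply hu
    apply Units.ext
    apply mul_right_cancel₀ hx
    linear_combination h4 - h2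
  have hS : ∀ m, S m ∈ US u (T i) D := by
    intro m
    have h2 := flp be (A := {m}) (B := ∅) (Finset.singleton_ne_empty m)
      (by fin_cases m <;> decide) hii (BE.H24.sST_one m).symm
    refine key _ ?_ h2 (be.dST m i)
    have h3 := ps3 be m i
    intro h4
    rw [h4, mul_zero] at h3
    exact BE.H24.zf_ne be (neg_eq_zero.mp h3.symm)
  have hT : T k ∈ US u (T i) D := by
    have h2 := flp be (A := {0}) (B := {k}) (Finset.singleton_ne_empty 0)
      (by decide) hiik (x := S 0 + T k) (by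
        unfold sST
        rw [Finset.sum_singleton, Finset.sum_singleton])
    have h3 : S 0 + T k ∈ US u (T i) D := by
      refine key _ ?_ h2 ?_
      · intro h4
        have h5 := BE.H24.nz be (A := {0}) (insert i {k}) (Finset.singleton_ne_empty 0) (by decide)
        apply h5
        rw [← h4]
        congr 1
        rw [← BE.H24.sST_insert {0} hiik]
        unfold sST
        rw [Finset.sum_singleton, Finset.sum_singleton]
      · intro p
        rcases be.dST 0 i p with h4 | h4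
        · rcases be.dTT k i hik.symm p with h5 | h5
          · left
            rw [map_add, Pi.add_apply, h4, h5, add_zero]
          · exact Or.inr h5
        · exact Or.inr h4
    have h4 := Submodule.sub_mem _ h3 (hS 0)
    rwa [add_sub_cancel_left] at h4
  intro i0 h
  refine dr_of_US hRkU hD (be.rT i) h fun x _ => ?_
  obtain ⟨c, hc⟩ := (be_b5 be hik).exp x
  rw [hc]
  refine Submodule.sum_mem _ fun m _ => Submodule.smul_mem _ _ ?_
  fin_cases m
  · exact hS 0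
  · exact hS 1
  · exact hS 2
  · exact H47.S_mem u (T i) D
  · exact hT

/-- `S 1` is not in `U_(S 0)`: the B-load of `S 0` has a drop. -/
theorem ndfr0 (hRkU : RkUSS) (be : Be phi D q f a 2 2 S es T lam) :
    ¬ Dfr phi D (S 0) (ld (es 0) 1) := by
  intro h
  have h1 := KO.H96.US_top hRkU be.ko.min.fp.dd (be.rS 0) h
  exact (be.mt 0 1 (by decide)).m0 (KE.US_top h1 (S 1))

theorem ES1 {e : (RO ℤ)ˣ} {x : RO ℤ} {f : ℤ[X]} (h : (e : RO ℤ) * x = toLaurent f) :
    (ld e 1 : RO ℤ) * x = toLaurent (X * f) := by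
  rw [ld_val, map_mul, toLaurent_X, ← h]
  ring

/-- The coefficient of `S 0 + T i`. -/
theorem ps5 (be : Be phi D q f a 2 2 S es T lam) {eR : (RO ℤ)ˣ} (hl : lam i = ld eR 1) :
    LaurentPolynomial.T 1 * ((es 0 : RO ℤ) * (eR : RO ℤ) * D.coeff (S 0 + T i)) =
      -toLaurent f := by
  have h1 := ps3 be 0 i
  rw [hl, ld_val, ld_val, map_mul, toLaurent_X] at h1
  have h2 : (LaurentPolynomial.T 1 : RO ℤ) ≠ 0 := (LaurentPolynomial.isUnit_T 1).ne_zero
  apply mul_left_cancel₀ h2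
  linear_combination h1

/-- CASE (A): the closing at `S 0`, `y_0 = -1/z`, and then at `T i`, `x_i = z`. -/
theorem be_A (hFD : FDS) (hG0 : G0S) (hC0 : Coeff0S) (hE1 : E1S) (hE2 : E2S) (hMV : MVS)
    (hMm : MmulS) (hRk : RkS) (hWW : WWfS) (hRF : RayFacS) (hSm : SmallS) (hKm : KmuS)
    (hU : UnitAS) (hRkU : RkUSS) (hTsa : TsaS) (hB : BpxS) (hSf : BeSfS)
    (be : Be phi D q f a 2 2 S es T lam) (hik : i ≠ k) {eR : (RO ℤ)ˣ}
    (hR : RN D (T i) q g eR a) (hl : lam i = ld eR 1) {E : ℤ[X]} (hE : f - q = X * E)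
    (hE0 : E.coeff 0 = 3) (hEz : ∀ z : ℂ, ‖z‖ < 1 → (aeval z E : ℂ) ≠ 0) :
    ∃ (c : ℤ[X]) (k : ℕ) (t r : ℤ), 1 ≤ k ∧ c.coeff 0 = 1 ∧
      (∀ z : ℂ, ‖z‖ < 1 → (aeval z c : ℂ) ≠ 0) ∧ (1 - X ^ 2) * f = c * (1 + C r * X ^ k) ∧
      E - (f + X * g) = c * (C 2 + C t * X ^ k) ∧ |t| ≤ 1 := by
  have fp := be.ko.min.fp
  have hD := fp.dd
  have hS0 := be.nS 0
  have hone : toLaurent ((1 - X ^ 2) * f) ≠ (0 : RO ℤ) := by
    rw [Ne, toLaurent_eq_zero]
    intro h
    have h2 := congrArg (fun p : ℤ[X] => p.coeff 0) h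
    simp only [mul_coeff_zero, coeff_sub, coeff_one_zero, coeff_X_pow, be.f0, coeff_zero] at h2
    norm_num at h2
  have hu : ((ld (es 0) 1 : RO ℤ) - ((-es 0 : (RO ℤ)ˣ) : RO ℤ)) *
      ((ld eR 1 : RO ℤ) - ((ld eR 2 : (RO ℤ)ˣ) : RO ℤ)) =
      LaurentPolynomial.T 1 * ((es 0 : RO ℤ) * (eR : RO ℤ)) * toLaurent (1 - X ^ 2) := by
    rw [ld_val, ld_val, ld_val, Units.val_neg, map_sub, map_one, toLaurent_X_pow, Nat.cast_ofNat,
      T12]
    ring
  have v1 := csm_S be (m := 1) (by decide) rfl hl hu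
  have v2 := csm_S be (m := 2) (by decide) rfl hl hu
  have hne : ∀ {m : Fin 3}, (ld (es m) 1 : RO ℤ) * csm D (S 0) (T i) (-es 0) (ld eR 2) (S m) =
      toLaurent ((1 - X ^ 2) * f) → csm D (S 0) (T i) (-es 0) (ld eR 2) (S m) ≠ 0 := by
    intro m h h2
    rw [h2, mul_zero] at h
    exact hone h.symm
  have W : Tw phi D ![S 0, T i, S 1, S 2, T k] (-es 0) (ld eR 2) (lam k) := by
    refine ⟨be_bA be hik, hne v1, hne v2, csm_flip be hik (by decide) _ _, ?_⟩
    intro h1 h2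
    exact be_noT hFD hSm hU hMm hSf be hik (uS := -es 0) (uR := ld eR 2)
      (by rw [hl]; exact ld_ne2 eR) h1 h2
  have p5 := ps5 be hl
  have p1 := ps1 be 1
  have p2 := ps2 be (m := 1) (by decide)
  have T' : Tn phi D ![S 0, T i, S 1, S 2, T k] (-es 0) (ld eR 2) 2 E (f + X * g)
      ((1 - X ^ 2) * f) := by
    refine ⟨?_, ?_, ?_, ?_, hEz, ?_, ⟨ld (es 1) 1, v1⟩, ⟨ld (es 2) 1, v2⟩, ?_, be.dS 0 _ (neA _),
      ?_⟩
    · change D.coeff 0 + ((-es 0 : (RO ℤ)ˣ) : RO ℤ) * D.coeff (S 0) = _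
      rw [V0_A hS0, ← hE, ← map_neg]
      congr 1
      ring
    · change (ld eR 2 : RO ℤ) * (D.coeff (T i) + ((-es 0 : (RO ℤ)ˣ) : RO ℤ) *
        D.coeff (T i + S 0)) = _
      have h1 := hR.DS
      rw [ld_val, Units.val_neg, add_comm (T i) (S 0), T12, map_mul toLaurent, map_add toLaurent,
        map_mul toLaurent, toLaurent_X]
      linear_combination (LaurentPolynomial.T 1 * LaurentPolynomial.T 1 : RO ℤ) * h1 -
        (LaurentPolynomial.T 1 : RO ℤ) * p5
    · rw [hE0]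
      norm_num
    · rw [coeff_add, be.f0, coeff_X_mul_zero, add_zero]
    · refine ⟨ld (es 1) 1, (1 + X) * f, by rw [mul_coeff_zero, be.f0]; simp, ?_⟩
      change (ld (es 1) 1 : RO ℤ) * (D.coeff (S 1) + ((-es 0 : (RO ℤ)ˣ) : RO ℤ) *
        D.coeff (S 1 + S 0)) = _
      have h2 : (ld (es 1) 1 : RO ℤ) * ((es 0 : RO ℤ) * D.coeff (S 1 + S 0)) =
          -toLaurent f := by
        have h3 : (LaurentPolynomial.T 1 : RO ℤ) ≠ 0 := (LaurentPolynomial.isUnit_T 1).ne_zero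
        apply mul_left_cancel₀ h3
        rw [ld_val (es 0), map_mul, toLaurent_X] at p2
        linear_combination p2
      rw [map_mul, toLaurent_X] at p1
      rw [Units.val_neg, map_mul toLaurent, map_add toLaurent, map_one, toLaurent_X]
      linear_combination p1 - h2
    · rw [mul_coeff_zero, be.f0]
      simp
    · intro i0 h0 c n G fd hs
      apply ndfr0 hRkU be
      exact dfr_of_port hRkU hD (be.rS 0) h0 (hTsa P L phi D (S 0) i0 h0 c n G q f (es 0) a fp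
        (by rw [W.r5]; norm_num) (be.rS 0) hS0 be.f0 (by rw [be.n]; norm_num) fd
        (be.dS 0 _ (neA _) i0 h0) hs)
  exact tw_two hFD hG0 hC0 hE1 hE2 hMV hMm hRk hWW hRF hSm hKm hB
    (fun K hK => be.ko.ih K (by omega)) W T'

/-- CASE (B), (C): the closing at `T i`, `x_i = -1/z`, and then at `S 0`, `y_0 = z`. -/
theorem be_B (hFD : FDS) (hSm : SmallS) (hU : UnitAS) (hMm : MmulS) (hF1 : F1S) (hRkU : RkUSS)
    (hTsa : TsaS) (hSf : BeSfS)
    (be : Be phi D q f a 2 2 S es T lam) (hik : i ≠ k) {eR : (RO ℤ)ˣ}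
    (hR : RN D (T i) q g eR a) (hl : lam i = ld eR 1) {E : ℤ[X]} (hE : g - q = X * E) {N : ℕ}
    (hN : 1 ≤ N) (hg : g.coeff 0 = 1) (hE0 : E.coeff 0 = N + 1)
    (hEz : ∀ z : ℂ, ‖z‖ < 1 → (aeval z E : ℂ) ≠ 0) :
    Tw phi D ![T i, S 0, S 1, S 2, T k] (-eR) (ld (es 0) 2) (lam k) ∧
    Tn phi D ![T i, S 0, S 1, S 2, T k] (-eR) (ld (es 0) 2) N E ((1 + X) * f)
      ((1 - X ^ 2) * f) := by
  have fp := be.ko.min.fp
  have hD := fp.dd
  have hS0 := be.nS 0
  have hone : toLaurent ((1 - X ^ 2) * f) ≠ (0 : RO ℤ) := by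
    rw [Ne, toLaurent_eq_zero]
    intro h
    have h2 := congrArg (fun p : ℤ[X] => p.coeff 0) h
    simp only [mul_coeff_zero, coeff_sub, coeff_one_zero, coeff_X_pow, be.f0, coeff_zero] at h2
    norm_num at h2
  have hu : ((ld (es 0) 1 : RO ℤ) - ((ld (es 0) 2 : (RO ℤ)ˣ) : RO ℤ)) *
      ((ld eR 1 : RO ℤ) - ((-eR : (RO ℤ)ˣ) : RO ℤ)) =
      LaurentPolynomial.T 1 * ((es 0 : RO ℤ) * (eR : RO ℤ)) * toLaurent (1 - X ^ 2) := by
    rw [ld_val, ld_val, ld_val, Units.val_neg, map_sub, map_one, toLaurent_X_pow, Nat.cast_ofNat,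
      T12]
    ring
  have v1 := csm_S be (m := 1) (by decide) rfl hl hu
  have v2 := csm_S be (m := 2) (by decide) rfl hl hu
  rw [csm_comm] at v1 v2
  have hne : ∀ {m : Fin 3}, (ld (es m) 1 : RO ℤ) * csm D (T i) (S 0) (-eR) (ld (es 0) 2) (S m) =
      toLaurent ((1 - X ^ 2) * f) → csm D (T i) (S 0) (-eR) (ld (es 0) 2) (S m) ≠ 0 := by
    intro m h h2
    rw [h2, mul_zero] at h
    exact hone h.symm
  have hnA : -eR ≠ lam i := by
    rw [hl]
    exact neA eR
  have W : Tw phi D ![T i, S 0, S 1, S 2, T k] (-eR) (ld (es 0) 2) (lam k) := by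
    refine ⟨be_bB be hik, hne v1, hne v2, ?_, ?_⟩
    · have h1 := csm_flip be hik (m := 1) (by decide) (ld (es 0) 2) (-eR)
      rw [csm_comm D (S 0), csm_comm D (S 0)] at h1
      exact h1
    · intro h1 h2
      change csm D (T i) (S 0) (-eR) (ld (es 0) 2) 0 +
        (lam k : RO ℤ) * csm D (T i) (S 0) (-eR) (ld (es 0) 2) (T k) = 0 at h1
      change csm D (T i) (S 0) (-eR) (ld (es 0) 2) (S 1 + S 2) +
        (lam k : RO ℤ) * csm D (T i) (S 0) (-eR) (ld (es 0) 2) (S 1 + S 2 + T k) = 0 at h2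
      rw [csm_comm D (T i), csm_comm D (T i)] at h1 h2
      exact be_noT hFD hSm hU hMm hSf be hik (uS := ld (es 0) 2) (uR := -eR) hnA h1 h2
  refine ⟨W, ?_⟩
  have p5 := ps5 be hl
  have p1 := ps1 be 1
  have p3 := ps3 be 1 i
  have hdf := dfrT hF1 hRkU be hik hnA
  refine ⟨?_, ?_, hE0, ?_, hEz, ?_, ⟨ld (es 1) 1, v1⟩, ⟨ld (es 2) 1, v2⟩, ?_, hdf, ?_⟩
  · change D.coeff 0 + ((-eR : (RO ℤ)ˣ) : RO ℤ) * D.coeff (T i) = _
    rw [V0_A hR, ← hE, ← map_neg]
    congr 1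
    ring
  · change (ld (es 0) 2 : RO ℤ) * (D.coeff (S 0) + ((-eR : (RO ℤ)ˣ) : RO ℤ) *
      D.coeff (S 0 + T i)) = _
    have h1 := hS0.DS
    rw [ld_val, Units.val_neg, T12, map_mul toLaurent, map_mul toLaurent, map_add toLaurent,
      map_one, toLaurent_X]
    linear_combination (LaurentPolynomial.T 1 * LaurentPolynomial.T 1 : RO ℤ) * h1 -
      (LaurentPolynomial.T 1 : RO ℤ) * p5
  · rw [mul_coeff_zero, be.f0]
    simp
  · refine ⟨ld (es 1) 1, (1 + X) * f, by rw [mul_coeff_zero, be.f0]; simp, ?_⟩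
    change (ld (es 1) 1 : RO ℤ) * (D.coeff (S 1) + ((-eR : (RO ℤ)ˣ) : RO ℤ) *
      D.coeff (S 1 + T i)) = _
    have h2 : (ld (es 1) 1 : RO ℤ) * ((eR : RO ℤ) * D.coeff (S 1 + T i)) =
        -toLaurent f := by
      have h3 : (LaurentPolynomial.T 1 : RO ℤ) ≠ 0 := (LaurentPolynomial.isUnit_T 1).ne_zero
      apply mul_left_cancel₀ h3
      rw [hl, ld_val eR, map_mul, toLaurent_X] at p3
      linear_combination p3
    rw [map_mul, toLaurent_X] at p1
    rw [Units.val_neg, map_mul toLaurent, map_add toLaurent, map_one, toLaurent_X]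
    linear_combination p1 - h2
  · rw [mul_coeff_zero, be.f0]
    simp
  · intro i0 h0 c n G fd hs
    apply (be.tT i).1
    rw [hl]
    refine dfr_of_port hRkU hD (be.rT i) h0 (hTsa P L phi D (T i) i0 h0 c n G q g eR a fp
      (by rw [W.r5]; norm_num) (be.rT i) hR hg ?_ fd (hdf i0 h0) hs)
    have h1 : g.coeff 1 - q.coeff 1 = N + 1 := by
      rw [← coeff_sub, hE, coeff_X_mul, hE0]
    rw [h1]
    have : (1 : ℤ) ≤ N := by exact_mod_cast hN
    omega

end

end Pool.Agent.B5.KO.H96
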