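import Pool.Agent.Lib.MP_b5021c_nt.KO.H96.TkTop

/-!
# MP_b5021c_nt, all `θ`, K ODD, (O4), l = 3, ALPHA, row TK_SUP

`Z` a cycle (loads B) of any length, `nuV ≠ 0` at the ray `T` outside, `nuV` kills `V''` of
`Z i, Z (i+1)`.  Then (`mov_or`) `T` kills the cycle at its load A.
`no_kill`: a ray which does not kill the cycle does not kill `T`.
`tk_rel`: a fully mutual `R` outside: `e D_(R+T) = (1/z - 1 - z) eta D_(R+Z i)`, or the cycles overlap.
`tk_sup`: a ray moved by a functional which kills `H^ = D(Z i = 1, T = load B)` kills the cycle.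
`kil_dis`: two rays which kill the cycle are disjoint.
-/

set_option linter.unusedSectionVars false

namespace Pool.Agent.B5.KO.H96

open scoped LaurentPolynomial
open Polynomial
open Pool.Agent.B5 Pool.Agent.B5.KE
open Pool.Agent.B5.Nr.Sch
open Pool.Agent.B5.O4X
open Pool.Agent.B5.KV67 (TT1)

section

variable {P L : Type} [Fintype P] [DecidableEq P] [AddCommGroup L] [Module.Free ℤ L]
  [Module.Finite ℤ L] {phi : L →+ (P → ℤ)} {D : AO ℤ L} {eta : L → (RO ℤ)ˣ}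

/-- The integer polynomial `X² - 2` times a Laurent polynomial is no polynomial with odd value at
`0`. -/
theorem no_two {g : ℤ[X]} (hg : g.coeff 0 = 1) {y : RO ℤ}
    (h : toLaurent g = (LaurentPolynomial.T 2 - 2) * y) : False := by
  obtain ⟨n, p, hp⟩ : ∃ (n : ℕ) (p : ℤ[X]), toLaurent p = y * LaurentPolynomial.T n :=
    LaurentPolynomial.exists_T_pow y
  have h1 : toLaurent (X ^ n * g) = toLaurent ((X ^ 2 - 2) * p) := by
    have e2 : (toLaurent (2 : ℤ[X]) : RO ℤ) = 2 := by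
      have := map_ofNat (toLaurent (R := ℤ)) 2
      exact this
    have e4 : (toLaurent (X ^ 2 : ℤ[X]) : RO ℤ) = LaurentPolynomial.T 2 := by
      rw [Polynomial.toLaurent_X_pow]
      norm_num
    rw [map_mul, map_mul, hp, h, map_sub, e2, e4, Polynomial.toLaurent_X_pow]
    ring
  have h2 := toLaurent_injective h1
  have hX : Prime (X : ℤ[X]) := prime_X
  have hnd : ¬ (X : ℤ[X]) ∣ X ^ 2 - 2 := by
    rw [X_dvd_iff]
    simp
  obtain ⟨p', rfl⟩ := hX.pow_dvd_of_dvd_mul_left n hnd (Dvd.intro g h2)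
  have h3 : g = (X ^ 2 - 2) * p' := by
    have h4 : X ^ n * g = X ^ n * ((X ^ 2 - 2) * p') := by
      rw [h2]
      ring
    exact mul_left_cancel₀ (pow_ne_zero n X_ne_zero) h4
  have h5 := congrArg (fun q : ℤ[X] => q.coeff 0) h3
  simp only [mul_coeff_zero, hg, coeff_sub, coeff_X_pow] at h5
  have e2 : (2 : ℤ[X]).coeff 0 = 2 := by
    have := coeff_ofNat_zero (R := ℤ) 2
    exact this
  rw [e2] at h5
  norm_num at h5
  omega

variable {k : ℕ} {Z : ZMod (k + 3) → L} {mu : ZMod (k + 3) → L →+ ℤ}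

/-- A ray which does not kill the cycle does not kill a killer of the cycle. -/
theorem no_kill (hF3 : F3S) (hD : DD phi D) (h : Cyc phi D eta k Z mu) {T R : L} (hT : Ray D T)
    (hTZ : ∀ n, T ≠ Z n) {e e' : (RO ℤ)ˣ} (hall : ∀ n, Z n ∉ US e T D) (rR : Ray D R)
    (hRZ : ∀ n, R ≠ Z n) (hin : ∀ n, Z n ∈ US e' R D) : T ∈ US e' R D := by
  by_contra hc
  have h1 := hF3 ℤ P L phi D R T e' e hD.inj hD.bin rR hT hc
  obtain ⟨n, hn, hm⟩ := h1 (hin 1)
  obtain ⟨u, hu, r, hr, hur⟩ := Submodule.mem_sup.mp hm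
  obtain ⟨c, rfl⟩ := Submodule.mem_span_singleton.mp hr
  have h2 := (KO.H40.cyc_killer hF3 hD h hT hTZ (hall 0) u hu).1
  have h3 : mu 0 R = 0 := h.oth 0 R rR (hRZ _) (hRZ _)
  have h4 := congrArg (mu 0) hur
  have h5 := h.nxt 0
  rw [zero_add] at h5
  rw [map_add, h2, map_zsmul, h3, smul_zero, zero_add, map_zsmul, h5, smul_eq_mul, mul_one] at h4
  exact hn h4.symm

/-- Two killers of the cycle are disjoint. -/
theorem kil_dis (hF1 : F1S) (hF2 : F2S) (hF3 : F3S) (hI : Inj1S) (fp : FP phi D)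
    (h : Cyc phi D eta k Z mu) {T R : L}
    (hT : Ray D T) (hTZ : ∀ n, T ≠ Z n) {e e' : (RO ℤ)ˣ} (hT0 : ∀ n, Z n ∉ US e T D)
    (rR : Ray D R) (hRZ : ∀ n, R ≠ Z n) (hR0 : ∀ n, Z n ∉ US e' R D) (hne : T ≠ R) :
    ∀ p, phi T p = 0 ∨ phi R p = 0 := by
  have hD := fp.dd
  have dT := hF2 ℤ P L phi D (Z 1) T e hD.inj hD.bin (h.mtl 1).r0 hT (hT0 1)
  have dR := hF2 ℤ P L phi D (Z 1) R e' hD.inj hD.bin (h.mtl 1).r0 rR (hR0 1)
  apply KO.dsj hI fp rR hT (Ne.symm hne)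
  rintro ⟨⟨x, hx1, hx2⟩, y, hy1, hy2⟩
  have f0 := KO.f1d hF1 hD hT (hT0 1) dT
  have hs : Z 1 + T ∈ supp D := by
    intro hh
    change D.coeff (Z 1 + T) = 0 at hh
    rw [hh, mul_zero, add_zero] at f0
    exact (h.mtl 1).r0.1 f0
  have h1 : Z 1 + T ∈ US e' R D := KO.f1p hF1 hD rR hs ⟨⟨x, by
    rw [map_add, Pi.add_apply, hx1, (dR x).resolve_right (by rw [hx2]; exact one_ne_zero),
      zero_add], hx2⟩, y, by
    rw [map_add, Pi.add_apply, hy1, (dR y).resolve_right (by rw [hy2]; exact one_ne_zero),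
      zero_add], hy2⟩
  have h2 := (KO.H40.cyc_killer hF3 hD h rR hRZ (hR0 0) _ h1).1
  have h5 := h.nxt 0
  rw [zero_add] at h5
  rw [map_add, h5, h.oth 0 T hT (hTZ _) (hTZ _)] at h2
  norm_num at h2

variable {q f : ℤ[X]} {a : ℝ} {j : ℕ} {i : ZMod (k + 3)} {t0 t1 eT : (RO ℤ)ˣ} {nuV : L →+ ℤ}
  {T : L}

/-- The data of row TK3 (any length of the cycle): a ray `T` moved by `V''`. -/
structure Mvd (phi : L →+ (P → ℤ)) (D : AO ℤ L) (q f : ℤ[X]) (a : ℝ) (j : ℕ)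
    (eta : L → (RO ℤ)ˣ) (k : ℕ) (Z : ZMod (k + 3) → L) (mu : ZMod (k + 3) → L →+ ℤ)
    (i : ZMod (k + 3)) (t0 t1 : (RO ℤ)ˣ) (nuV : L →+ ℤ) (T : L) (eT : (RO ℤ)ˣ) : Prop where
  ko : Ko phi D q a j
  des : KO.Des phi D q a eta
  f0 : f.coeff 0 = 1
  n : f.coeff 1 - q.coeff 1 = j + 1
  loc : Loc q f a
  ne : ∃ z : ℂ, ‖z‖ = 1 ∧ ‖aeval z f‖ ≠ ‖aeval z q‖
  cyc : Cyc phi D eta k Z mu
  cf : ∀ i, (eta (Z i) : RO ℤ) * D.coeff (Z i) = toLaurent (X * f)
  px : ∀ R r, KO.Fm D eta R → (∀ n, R ≠ Z n) → ¬ T00 phi D eta (Z i) (Z (i + 1)) R r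
  fm : ∀ R, KO.Fm D eta R → ∃ (g : ℤ[X]) (e : (RO ℤ)ˣ), g.coeff 0 = 1 ∧ eta R = ld e 1 ∧
    RN D R q g e a
  lds : Lds t0 t1
  kv : Kil phi D (Z i) (Z (i + 1)) (eta (Z i) * t0) (eta (Z (i + 1)) * t1) nuV
  rT : Ray D T
  TZ : ∀ n, T ≠ Z n
  nT : nuV T ≠ 0
  eta : eta T = -eT
  rn : RN D T q ((1 - X - X ^ 2) * f) eT a
  dfr : Dfr phi D T (ld eT 1)
  kil : ∀ n, Z n ∉ US (-eT) T D

theorem Mvd.dd (M : Mvd phi D q f a j eta k Z mu i t0 t1 nuV T eT) : DD phi D := M.ko.min.fp.dd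

theorem Mvd.two (M : Mvd phi D q f a j eta k Z mu i t0 t1 nuV T eT) :
    2 ≤ Module.finrank ℤ L := by
  have h1 := M.ko.rk
  have h2 := M.ko.j2
  omega

theorem Mvd.ray (M : Mvd phi D q f a j eta k Z mu i t0 t1 nuV T eT) (n : ZMod (k + 3)) :
    Ray D (Z n) := (M.cyc.mtl n).r0

theorem Mvd.muT (M : Mvd phi D q f a j eta k Z mu i t0 t1 nuV T eT) (n : ZMod (k + 3)) :
    mu n T = 0 := M.cyc.oth n T M.rT (M.TZ _) (M.TZ _)

theorem Mvd.kil' (M : Mvd phi D q f a j eta k Z mu i t0 t1 nuV T eT) (n : ZMod (k + 3)) :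
    Z n ∉ US (eta T) T D := by
  rw [M.eta]
  exact M.kil n

/-- `T` is disjoint from the cycle. -/
theorem Mvd.dis (hF2 : F2S) (M : Mvd phi D q f a j eta k Z mu i t0 t1 nuV T eT)
    (n : ZMod (k + 3)) : ∀ p, phi T p = 0 ∨ phi (Z n) p = 0 := fun p =>
  (hF2 ℤ P L phi D (Z n) T (-eT) M.dd.inj M.dd.bin (M.ray n) M.rT (M.kil n) p).symm

/-- The killing. -/
theorem Mvd.k0 (hF1 : F1S) (M : Mvd phi D q f a j eta k Z mu i t0 t1 nuV T eT) {x : L}
    (hx : x ∉ US (-eT) T D) (hd : ∀ p, phi x p = 0 ∨ phi T p = 0) :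
    (eT : RO ℤ) * D.coeff (x + T) = D.coeff x := by
  have h1 := KO.f1d hF1 M.dd M.rT hx hd
  rw [Units.val_neg] at h1
  linear_combination -h1

/-- A fully mutual ray outside the cycle is not moved by `V''`. -/
theorem Mvd.nfm (hF1 : F1S) (hI : Inj1S) (M : Mvd phi D q f a j eta k Z mu i t0 t1 nuV T eT)
    {S : L} (hS : KO.Fm D eta S) (hSZ : ∀ n, S ≠ Z n) : nuV S = 0 := by
  by_contra hnS
  have hM := M.cyc.mtl i
  have dis := M.cyc.dis i (i + 1) (KO29.ne_succ i)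
  obtain ⟨ho, hb⟩ := mov_blk hI M.ko.min.fp hM.r0 hM.r1 M.kv hS.1 hnS
  obtain ⟨r, t00⟩ := t00_blk hF1 M.dd M.lds hM dis ho hS.1 (cyc_out M.cyc hS.1 hSZ i)
    (cyc_out M.cyc hS.1 hSZ (i + 1)) hb
  exact M.px S r hS hSZ t00

/-- `T` does not kill a fully mutual ray outside the cycle. -/
theorem Mvd.inT (hF1 : F1S) (hF2 : F2S) (hF3 : F3S) (hI : Inj1S) (hE2 : E2S) (hRk : RkUSS)
    (M : Mvd phi D q f a j eta k Z mu i t0 t1 nuV T eT) {R : L} (hR : KO.Fm D eta R)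
    (hRZ : ∀ n, R ≠ Z n) : R ∈ US (-eT) T D := by
  rw [← M.eta]
  exact mov_only hF1 hF2 hF3 hI hE2 hRk M.ko M.des M.cyc M.px M.lds M.kv M.rT M.TZ M.nT hR hRZ

/-- A fully mutual ray outside the cycle does not kill `T`. -/
theorem Mvd.inR (hF3 : F3S) (M : Mvd phi D q f a j eta k Z mu i t0 t1 nuV T eT) {R : L}
    (hR : KO.Fm D eta R) (hRZ : ∀ n, R ≠ Z n) : T ∈ US (eta R) R D :=
  no_kill hF3 M.dd M.cyc M.rT M.TZ M.kil hR.1 hRZ (fm_out M.cyc hR hRZ)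

/-- (REL) the pair coefficient of `T` and a fully mutual ray, disjoint from `Z i`, `Z (i + 1)`. -/
theorem Mvd.rel (hF1 : F1S) (hF2 : F2S) (hF3 : F3S) (hI : Inj1S) (hE2 : E2S) (hRk : RkUSS)
    (M : Mvd phi D q f a j eta k Z mu i t0 t1 nuV T eT) {R : L} (hR : KO.Fm D eta R)
    (hRZ : ∀ n, R ≠ Z n) (hRT : ∀ p, phi R p = 0 ∨ phi T p = 0)
    (h0 : ∀ p, phi R p = 0 ∨ phi (Z i) p = 0) (h1 : ∀ p, phi R p = 0 ∨ phi (Z (i + 1)) p = 0) :
    (eT : RO ℤ) * D.coeff (R + T) = (LaurentPolynomial.T (-1) - 1 - LaurentPolynomial.T 1) *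
      ((eta (Z i) : RO ℤ) * D.coeff (R + Z i)) := by
  have hD := M.dd
  have hM := M.cyc.mtl i
  have ne01 : i ≠ i + 1 := KO29.ne_succ i
  have dis := M.cyc.dis i (i + 1) ne01
  have hTo : Out phi (Z i) (Z (i + 1)) T := fun p => by
    rcases M.dis hF2 i p with h3 | h3
    · exact Or.inl h3
    · rcases M.dis hF2 (i + 1) p with h4 | h4
      · exact Or.inl h4
      · exact Or.inr ⟨h3, h4⟩
  have hRo : Out phi (Z i) (Z (i + 1)) R := fun p => by
    rcases h0 p with h3 | h3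
    · exact Or.inl h3
    · rcases h1 p with h4 | h4
      · exact Or.inl h4
      · exact Or.inr ⟨h3, h4⟩
  have hRTo : Out phi (Z i) (Z (i + 1)) (R + T) := fun p => by
    rcases hRo p with h3 | h3
    · rcases hTo p with h4 | h4
      · left
        rw [map_add, Pi.add_apply, h3, h4, add_zero]
      · exact Or.inr h4
    · exact Or.inr h3
  have hb := M.kv.free (R + T) hRTo (by
    rw [map_add, M.nfm hF1 hI hR hRZ, zero_add]
    exact M.nT)
  -- `R + T` is in `U_(Z i)` and `U_(Z (i+1))`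
  have u0 : R + T ∈ US (eta (Z i)) (Z i) D :=
    Submodule.add_mem _ (cyc_out M.cyc hR.1 hRZ i) (cyc_out M.cyc M.rT M.TZ i)
  have u1 : R + T ∈ US (eta (Z (i + 1))) (Z (i + 1)) D :=
    Submodule.add_mem _ (cyc_out M.cyc hR.1 hRZ (i + 1)) (cyc_out M.cyc M.rT M.TZ (i + 1))
  have a0 : R + T + Z i ∉ US (eta (Z (i + 1))) (Z (i + 1)) D := fun h => hM.m1 (by
    have := Submodule.sub_mem _ h u1
    rwa [add_sub_cancel_left] at this)
  have a1 : R + T + Z (i + 1) ∉ US (eta (Z i)) (Z i) D := fun h => hM.m0 (by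
    have := Submodule.sub_mem _ h u0
    rwa [add_sub_cancel_left] at this)
  have e0 := KO.f1d hF1 hD hM.r1 a0 (fun p => by
    rcases dis p with h3 | h3
    · rcases hRTo p with h4 | h4
      · left
        rw [map_add, Pi.add_apply, h3, h4, add_zero]
      · exact Or.inr h4.2
    · exact Or.inr h3)
  have e1 := KO.f1d hF1 hD hM.r0 a1 (fun p => by
    rcases dis p with h3 | h3
    · exact Or.inr h3
    · rcases hRTo p with h4 | h4
      · left
        rw [map_add, Pi.add_apply, h3, h4, add_zero]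
      · exact Or.inr h4.1)
  rw [add_right_comm (R + T) (Z (i + 1)) (Z i)] at e1
  have lds := M.lds
  unfold Lds at lds
  rw [Units.val_mul, Units.val_mul] at hb
  -- the killing at `R + Z i`
  have hx : R + Z i ∉ US (-eT) T D := fun hc => M.kil i (by
    have := Submodule.sub_mem _ hc (M.inT hF1 hF2 hF3 hI hE2 hRk hR hRZ)
    rwa [add_sub_cancel_left] at this)
  have hk := M.k0 hF1 hx (fun p => by
    rcases hRT p with h3 | h3
    · rcases M.dis hF2 i p with h4 | h4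
      · exact Or.inr h4
      · left
        rw [map_add, Pi.add_apply, h3, h4, add_zero]
    · exact Or.inr h3)
  rw [add_right_comm R (Z i) T] at hk
  have key : D.coeff (R + T) = (LaurentPolynomial.T (-1) - 1 - LaurentPolynomial.T 1) *
      ((eta (Z i) : RO ℤ) * D.coeff (R + T + Z i)) := by
    linear_combination hb - (eta (Z (i + 1)) : RO ℤ) * (t1 : RO ℤ) * e1 +
      ((eta (Z i) : RO ℤ) * (t1 : RO ℤ) * (1 - (t0 : RO ℤ))) * e0 +
      ((eta (Z i) : RO ℤ) * D.coeff (R + T + Z i)) * lds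
  rw [key]
  linear_combination ((LaurentPolynomial.T (-1) - 1 - LaurentPolynomial.T 1 : RO ℤ) *
    (eta (Z i) : RO ℤ)) * hk

/-- (TK_SUP) A RAY OUTSIDE, MOVED BY A KILLING FUNCTIONAL OF `H^ = D(Z i = 1, T = load B)`, KILLS
THE CYCLE. -/
theorem Mvd.sup (hF1 : F1S) (hF2 : F2S) (hF3 : F3S) (hI : Inj1S) (hE2 : E2S) (hRk : RkUSS)
    (M : Mvd phi D q f a j eta k Z mu i t0 t1 nuV T eT) {nu : L →+ ℤ}
    (hk : Kil phi D (Z i) T (eta (Z i)) (ld eT 1) nu) {R : L} (rR : Ray D R)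
    (hRZ : ∀ n, R ≠ Z n) (hn : nu R ≠ 0) (n : ZMod (k + 3)) : Z n ∉ US (eta R) R D := by
  intro hin
  have fp := M.ko.min.fp
  have hD := M.dd
  have hM := M.cyc.mtl i
  have ne01 : i ≠ i + 1 := KO29.ne_succ i
  have dis := M.cyc.dis i (i + 1) ne01
  have hin' : ∀ m, Z m ∈ US (eta R) R D := by
    intro m
    by_contra hc
    exact KO67.cyc_all hF3 hD M.cyc rR hRZ hc n hin
  have hTR := no_kill hF3 hD M.cyc M.rT M.TZ M.kil rR hRZ hin'
  have rays : ∀ m : Fin 2, Ray D (![Z i, T] m) := by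
    intro m
    fin_cases m
    · exact hM.r0
    · exact M.rT
  obtain ⟨S, hFm, hle, hRS, hOu, hms⟩ := (KO.MKil.two hk).patx hF1 hF2 hF3 hI fp rays
    (M.des.abd hE2 hRk hD M.two) rR hn (by
      intro m
      fin_cases m
      · exact hin' i
      · exact hTR)
  have hSZ : ∀ n, S ≠ Z n := by
    rintro m rfl
    rcases hRS with h1 | h1
    · exact hRZ m h1.symm
    · exact h1 (hin' m)
  have ho := KO.ouv_two.mp hOu
  have hS0 : ∀ p, phi S p = 0 ∨ phi (Z i) p = 0 := fun p => (ho p).imp id And.left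
  have hST : ∀ p, phi S p = 0 ∨ phi T p = 0 := fun p => (ho p).imp id And.right
  rw [KO.msum_two, ld_val] at hms
  have inT := M.inT hF1 hF2 hF3 hI hE2 hRk hFm hSZ
  have hx : S + Z i ∉ US (-eT) T D := fun hc => M.kil i (by
    have := Submodule.sub_mem _ hc inT
    rwa [add_sub_cancel_left] at this)
  have hk0 := M.k0 hF1 hx (fun p => by
    rcases hST p with h3 | h3
    · rcases M.dis hF2 i p with h4 | h4
      · exact Or.inr h4
      · left
        rw [map_add, Pi.add_apply, h3, h4, add_zero]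
    · exact Or.inr h3)
  by_cases hp : Part phi (Z (i + 1)) S
  · -- the ray meets `Z (i+1)`
    obtain ⟨⟨x, hx1, hx2⟩, y, hy1, hy2⟩ := hp
    have hTp : ∀ p, phi (Z (i + 1)) p = 1 → phi T p = 0 := fun p hp1 =>
      (M.dis hF2 (i + 1) p).resolve_right (by rw [hp1]; exact one_ne_zero)
    have hZp : ∀ p, phi (Z (i + 1)) p = 1 → phi (Z i) p = 0 := fun p hp1 =>
      (dis p).resolve_right (by rw [hp1]; exact one_ne_zero)
    have z1 : D.coeff (S + T) = 0 := by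
      by_contra hc
      have h1 := M.kv.part (S + T) hc (Or.inr ⟨⟨x, by
        rw [map_add, Pi.add_apply, hx1, hTp x hx2, add_zero], hx2⟩, y, by
        rw [map_add, Pi.add_apply, hy1, hTp y hy2, add_zero], hy2⟩)
      rw [map_add, M.nfm hF1 hI hFm hSZ, zero_add] at h1
      exact M.nT h1
    have z2 : D.coeff (S + Z i) = 0 := by
      by_contra hc
      have h1 : S + Z i ∈ US (eta (Z (i + 1))) (Z (i + 1)) D := KO.f1p hF1 hD hM.r1 hc ⟨⟨x, by
        rw [map_add, Pi.add_apply, hx1, hZp x hx2, add_zero], hx2⟩, y, by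
        rw [map_add, Pi.add_apply, hy1, hZp y hy2, add_zero], hy2⟩
      exact hM.m1 (by
        have := Submodule.sub_mem _ h1 (cyc_out M.cyc hFm.1 hSZ (i + 1))
        rwa [add_sub_cancel_left] at this)
    have z3 : D.coeff (S + Z i + T) = 0 := by
      rw [z2] at hk0
      exact (mul_eq_zero.mp hk0).resolve_left eT.ne_zero
    rw [z1, z2, z3, mul_zero, mul_zero, mul_zero, add_zero, add_zero, add_zero] at hms
    exact hFm.1.1 hms
  · -- disjoint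
    have hS1 : ∀ p, phi S p = 0 ∨ phi (Z (i + 1)) p = 0 :=
      KO.dsj hI fp hM.r1 hFm.1 (fun hc => hSZ _ hc.symm) hp
    have hrel := M.rel hF1 hF2 hF3 hI hE2 hRk hFm hSZ hST hS0 hS1
    obtain ⟨g, e, hg, -, hRN⟩ := M.fm S hFm
    apply no_two hg (y := (e : RO ℤ) * ((eta (Z i) : RO ℤ) * D.coeff (S + Z i)))
    have t2 : (LaurentPolynomial.T 2 : RO ℤ) = LaurentPolynomial.T 1 * LaurentPolynomial.T 1 := by
      rw [← LaurentPolynomial.T_add]
      norm_num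
    rw [← hRN.DS, t2]
    linear_combination (e : RO ℤ) * hms - ((e : RO ℤ) * LaurentPolynomial.T 1) * hrel -
      ((e : RO ℤ) * (eta (Z i) : RO ℤ) * LaurentPolynomial.T 1) * hk0 +
      (-(e : RO ℤ) * (eta (Z i) : RO ℤ) * D.coeff (S + Z i)) * TT1

/-- The value of `H^`. -/
theorem Mvd.val (hF1 : F1S) (hF2 : F2S) (M : Mvd phi D q f a j eta k Z mu i t0 t1 nuV T eT) :
    D.coeff 0 + (eta (Z i) : RO ℤ) * D.coeff (Z i) + ((ld eT 1 : (RO ℤ)ˣ) : RO ℤ) * D.coeff T +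
      (eta (Z i) : RO ℤ) * ((ld eT 1 : (RO ℤ)ˣ) : RO ℤ) * D.coeff (Z i + T) =
      toLaurent (q + X * ((2 - X ^ 2) * f)) := by
  have h1 := V0_ld M.rn 1
  rw [pow_one] at h1
  have h2 := M.k0 hF1 (M.kil i) (fun p => (M.dis hF2 i p).symm)
  have h3 := M.cf i
  have e1 : (toLaurent (q + X * ((2 - X ^ 2) * f)) : RO ℤ) =
      toLaurent (q + X * ((1 - X - X ^ 2) * f)) + (1 + LaurentPolynomial.T 1) *
        toLaurent (X * f) := by
    have e2 : q + X * ((2 - X ^ 2) * f) = (q + X * ((1 - X - X ^ 2) * f)) + (1 + X) * (X * f) := by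
      ring
    rw [e2, map_add, map_mul (toLaurent) (1 + X) (X * f), map_add toLaurent (1 : ℤ[X]) X,
      map_one, toLaurent_X]
  have h4 : ((ld eT 1 : (RO ℤ)ˣ) : RO ℤ) = LaurentPolynomial.T 1 * (eT : RO ℤ) := by
    rw [ld_val]
  have h5 : ((ld eT ((1 : ℕ) : ℤ) : (RO ℤ)ˣ) : RO ℤ) = ((ld eT 1 : (RO ℤ)ˣ) : RO ℤ) := by
    rw [Nat.cast_one]
  rw [h5] at h1
  rw [e1, ← h1, ← h3, h4]
  linear_combination ((eta (Z i) : RO ℤ) * LaurentPolynomial.T 1) * h2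

theorem Mvd.val_ne (hF1 : F1S) (hF2 : F2S)
    (M : Mvd phi D q f a j eta k Z mu i t0 t1 nuV T eT) :
    D.coeff 0 + (eta (Z i) : RO ℤ) * D.coeff (Z i) + ((ld eT 1 : (RO ℤ)ˣ) : RO ℤ) * D.coeff T +
      (eta (Z i) : RO ℤ) * ((ld eT 1 : (RO ℤ)ˣ) : RO ℤ) * D.coeff (Z i + T) ≠ 0 := by
  rw [M.val hF1 hF2]
  intro h0
  have h2 := toLaurent_eq_zero.mp h0
  have h3 := congrArg (fun p : ℤ[X] => p.coeff 0) h2
  simp only [coeff_add, coeff_X_mul_zero, M.loc.q0, coeff_zero, add_zero] at h3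
  exact one_ne_zero h3

theorem kil_of {S0 S1 : L} {u0 u1 : (RO ℤ)ˣ} {nu : L →+ ℤ}
    (h : KO.MKil phi D ![S0, S1] ![u0, u1] nu) : Kil phi D S0 S1 u0 u1 nu := by
  refine ⟨h.z 0, h.z 1, fun x hx hn => ?_, fun b hb hp => ?_⟩
  · rw [← KO.msum_two]
    exact h.free x (KO.ouv_two.mpr hx) hn
  · rcases hp with h1 | h1
    · exact h.part b hb ⟨0, h1⟩
    · exact h.part b hb ⟨1, h1⟩

/-- (TK_SUP) for `MKil`. -/
theorem Mvd.supM (hF1 : F1S) (hF2 : F2S) (hF3 : F3S) (hI : Inj1S) (hE2 : E2S) (hRk : RkUSS)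
    (M : Mvd phi D q f a j eta k Z mu i t0 t1 nuV T eT) {nu : L →+ ℤ}
    (hk : KO.MKil phi D ![Z i, T] ![eta (Z i), ld eT 1] nu) {R : L} (rR : Ray D R)
    (hRZ : ∀ n, R ≠ Z n) (hn : nu R ≠ 0) (n : ZMod (k + 3)) : Z n ∉ US (eta R) R D :=
  M.sup hF1 hF2 hF3 hI hE2 hRk (kil_of hk) rR hRZ hn n

/-- (TK_SUP) FOR A 3-CYCLE: a killing functional of `H^` which is zero on the rays outside is a
multiple of `mu i`. -/
theorem Mvd.onlyK (hTop : TopS) (hRy : RaySpanS) (hE2 : E2S) (hRk : RkS) (hF1 : F1S)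
    (hF2 : F2S) (hF3 : F3S) {Z : ZMod (0 + 3) → L} {mu : ZMod (0 + 3) → L →+ ℤ}
    {i : ZMod (0 + 3)} (M : Mvd phi D q f a j eta 0 Z mu i t0 t1 nuV T eT) {nu : L →+ ℤ}
    (hk : Kil phi D (Z i) T (eta (Z i)) (ld eT 1) nu)
    (ho : ∀ R, Ray D R → (∀ n, R ≠ Z n) → nu R = 0) : nu = nu (Z (i + 1)) • mu i :=
  h_out hTop hRy hE2 hRk hF1 hF3 M.dd M.two M.cyc M.rT M.TZ (M.kil i) (M.dis hF2 i) hk
    (M.val_ne hF1 hF2) ho

/-- (TK_SUP) FOR A 3-CYCLE: a killing functional of `H^` which is zero at `Z (i + 1)` and not zero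
moves a ray outside, which kills the cycle. -/
theorem Mvd.exK (hTop : TopS) (hRy : RaySpanS) (hE2 : E2S) (hRk : RkS) (hRkU : RkUSS)
    (hF1 : F1S) (hF2 : F2S) (hF3 : F3S) (hI : Inj1S) {Z : ZMod (0 + 3) → L}
    {mu : ZMod (0 + 3) → L →+ ℤ} {i : ZMod (0 + 3)}
    (M : Mvd phi D q f a j eta 0 Z mu i t0 t1 nuV T eT) {nu : L →+ ℤ}
    (hk : Kil phi D (Z i) T (eta (Z i)) (ld eT 1) nu) (h1 : nu (Z (i + 1)) = 0) (hne : nu ≠ 0) :
    ∃ R, Ray D R ∧ (∀ n, R ≠ Z n) ∧ nu R ≠ 0 ∧ R ≠ T ∧ (∀ n, Z n ∉ US (eta R) R D) ∧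
      ∀ p, phi T p = 0 ∨ phi R p = 0 := by
  by_contra hcon
  push Not at hcon
  apply hne
  have h2 := M.onlyK hTop hRy hE2 hRk hF1 hF2 hF3 hk (fun R rR hRZ => by
    by_contra hc
    have h3 := M.sup hF1 hF2 hF3 hI hE2 hRkU hk rR hRZ hc
    have h4 : R ≠ T := by
      rintro rfl
      exact hc hk.s1
    obtain ⟨p, hp1, hp2⟩ := hcon R rR hRZ hc h4 h3
    rcases kil_dis hF1 hF2 hF3 hI M.ko.min.fp M.cyc M.rT M.TZ M.kil rR hRZ h3 (Ne.symm h4) p
      with h5 | h5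
    · exact hp1 h5
    · exact hp2 h5)
  rw [h2, h1, zero_smul]

end

end Pool.Agent.B5.KO.H96
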