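import Pool.Agent.Lib.MP_b5021c_nt.KO.H13.Mov
import Pool.Agent.Lib.MP_b5021c_nt.KO.H96.Red2
import Pool.Agent.Lib.MP_b5021c_nt.B.H24.B5u

/-!
# MP_b5021c_nt, all `θ`, K ODD, (O4), l = 3, ALPHA, row TK_SUP: the largest exponent

`kil_top`: a functional which kills a double closing with non-zero value is zero at the largest
exponent.  `top_pos`: a functional `≥ 0` on the rays, not zero on the rays, is positive there.
`v_out`: for a 3-cycle, a functional which kills `V''` moves a ray outside the cycle.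
`h_out`: the same for `H^ = D(Z i = 1, T = 1)` modulo `mu i`.
-/

set_option linter.unusedSectionVars false

namespace Pool.Agent.B5.KO.H96

open scoped LaurentPolynomial
open Polynomial
open Pool.Agent.B5 Pool.Agent.B5.KE
open Pool.Agent.B5.Nr.Sch
open Pool.Agent.B5.O4X (Lds blk)

section

variable {P L : Type} [Fintype P] [DecidableEq P] [AddCommGroup L] [Module.Free ℤ L]
  [Module.Finite ℤ L] {phi : L →+ (P → ℤ)} {D : AO ℤ L} {eta : L → (RO ℤ)ˣ}

theorem rsh_inj0 {b : RO ℤ} (h : rsh b = 0) : b = 0 := by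
  have h1 : rsh (rsh b) = b := by
    rw [rsh_int, rsh_int]
    exact LaurentPolynomial.involutive_invert b
  rw [← h1, h, map_zero]

/-- (TOP) A KILLING FUNCTIONAL IS ZERO AT THE LARGEST EXPONENT. -/
theorem kil_top (hD : DD phi D) {t : L} {ep : (RO ℤ)ˣ}
    (hrev : ∀ a : L, D.coeff (t - a) = (ep : RO ℤ) * rsh (D.coeff a))
    (htop : ∀ i, co phi i ≠ 0 → phi t i = 1) {S S1 : L} (rS : Ray D S) (rS1 : Ray D S1)
    (dis : ∀ p, phi S p = 0 ∨ phi S1 p = 0) {u0 u1 : (RO ℤ)ˣ} {nu : L →+ ℤ}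
    (hk : Kil phi D S S1 u0 u1 nu)
    (hv : D.coeff 0 + (u0 : RO ℤ) * D.coeff S + (u1 : RO ℤ) * D.coeff S1 +
      (u0 : RO ℤ) * (u1 : RO ℤ) * D.coeff (S + S1) ≠ 0) : nu t = 0 := by
  by_contra hn
  have tp : ∀ {R : L}, Ray D R → ∀ p, phi R p ≠ 0 → phi t p = 1 ∧ phi R p = 1 := by
    intro R rR p hp
    refine ⟨htop p fun hc => hp ?_, (hD.bin R rR.1 p).resolve_left hp⟩
    have := congrArg (fun g : L →+ ℤ => g R) hc
    exact this
  have ho : Out phi S S1 (t - (S + S1)) := by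
    intro p
    rw [map_sub, map_add, Pi.sub_apply, Pi.add_apply]
    by_cases h0 : phi S p = 0
    · by_cases h1 : phi S1 p = 0
      · exact Or.inr ⟨h0, h1⟩
      · left
        rw [h0, (tp rS1 p h1).1, (tp rS1 p h1).2]
        norm_num
    · left
      rw [(dis p).resolve_left h0, (tp rS p h0).1, (tp rS p h0).2]
      norm_num
  have h1 := hk.free _ ho (by rw [map_sub, map_add, hk.s0, hk.s1, add_zero, sub_zero]; exact hn)
  rw [show t - (S + S1) + S + S1 = t - 0 by abel, show t - (S + S1) + S = t - S1 by abel,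
    show t - (S + S1) + S1 = t - S by abel, hrev, hrev, hrev, hrev] at h1
  have r0 := H24.rsh_unit u0
  have r1 := H24.rsh_unit u1
  apply hv
  apply rsh_inj0
  have h2 : (ep : RO ℤ) * ((u0 : RO ℤ) * (u1 : RO ℤ) *
      rsh (D.coeff 0 + (u0 : RO ℤ) * D.coeff S + (u1 : RO ℤ) * D.coeff S1 +
      (u0 : RO ℤ) * (u1 : RO ℤ) * D.coeff (S + S1))) = 0 := by
    simp only [map_add, map_mul]
    linear_combination h1 + ((ep : RO ℤ) * (u1 : RO ℤ) * rsh (D.coeff S)) * r0 +
      ((ep : RO ℤ) * (u0 : RO ℤ) * rsh (D.coeff S1)) * r1 +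
      ((ep : RO ℤ) * rsh (D.coeff (S + S1))) * r0 +
      ((ep : RO ℤ) * rsh (u0 : RO ℤ) * (u0 : RO ℤ) * rsh (D.coeff (S + S1))) * r1
  have h3 := (mul_eq_zero.mp h2).resolve_left ep.ne_zero
  exact (mul_eq_zero.mp h3).resolve_left (mul_ne_zero u0.ne_zero u1.ne_zero)

/-- A functional `≥ 0` on the rays is positive at the largest exponent if it is at one ray. -/
theorem top_pos (hRy : RaySpanS) (hE2 : E2S) (hD : DD phi D) (h2 : 2 ≤ Module.finrank ℤ L) {t : L}
    {ep : (RO ℤ)ˣ} (hrev : ∀ a : L, D.coeff (t - a) = (ep : RO ℤ) * rsh (D.coeff a))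
    {nu : L →+ ℤ} (h0 : ∀ R, Ray D R → 0 ≤ nu R) {R0 : L} (rR : Ray D R0) (hp : 0 < nu R0) :
    0 < nu t := by
  obtain ⟨-, lam, hl, -⟩ := hD.st
  have hthin : Thin (supp D) := (hE2 ℤ P L phi D hD h2).2.1
  have hm : t - R0 ∈ supp D := by
    change D.coeff (t - R0) ≠ 0
    rw [hrev]
    exact mul_ne_zero ep.ne_zero fun hc => rR.1 (rsh_inj0 hc)
  have h1 : 0 ≤ nu (t - R0) := by
    by_cases hz : t - R0 = 0
    · rw [hz, map_zero]
    · obtain ⟨n, hn, hmem⟩ := (hRy ℤ L D ⟨lam, hl⟩ hthin).1 _ hm hz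
      have key : ∀ x ∈ AddSubmonoid.closure {b | Ray D b}, 0 ≤ nu x := by
        intro x hx
        induction hx using AddSubmonoid.closure_induction with
        | mem T hT => exact h0 T hT
        | zero => rw [map_zero]
        | add x y _ _ hx hy =>
          rw [map_add]
          exact add_nonneg hx hy
      have h3 := key _ hmem
      rw [map_nsmul, nsmul_eq_mul] at h3
      have hn' : (0 : ℤ) < n := by exact_mod_cast hn
      exact nonneg_of_mul_nonneg_right h3 hn'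
  rw [map_sub] at h1
  omega

/-- A functional which is zero on all rays but one and at the largest exponent is zero. -/
theorem one_ray (hRy : RaySpanS) (hE2 : E2S) (hRk : RkS) (hD : DD phi D)
    (h2 : 2 ≤ Module.finrank ℤ L) {t : L}
    {ep : (RO ℤ)ˣ} (hrev : ∀ a : L, D.coeff (t - a) = (ep : RO ℤ) * rsh (D.coeff a))
    {nu : L →+ ℤ} (ht : nu t = 0) {R0 : L} (rR : Ray D R0)
    (h : ∀ R, Ray D R → R ≠ R0 → nu R = 0) : nu = 0 := by
  have h0 : nu R0 = 0 := by
    rcases lt_trichotomy (nu R0) 0 with h1 | h1 | h1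
    · exfalso
      have h3 := top_pos hRy hE2 hD h2 hrev (nu := -nu) (fun R hR => by
        by_cases hc : R = R0
        · rw [hc, AddMonoidHom.neg_apply]
          omega
        · rw [AddMonoidHom.neg_apply, h R hR hc, neg_zero]) rR (by
          rw [AddMonoidHom.neg_apply]
          omega)
      rw [AddMonoidHom.neg_apply, ht] at h3
      omega
    · exact h1
    · exfalso
      have h3 := top_pos hRy hE2 hD h2 hrev (nu := nu) (fun R hR => by
        by_cases hc : R = R0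
        · rw [hc]
          omega
        · rw [h R hR hc]) rR h1
      omega
  exact KO.H40.nu_zero hE2 hRk hD h2 fun R hR => by
    by_cases hc : R = R0
    · rw [hc, h0]
    · exact h R hR hc

/-- The rays of a 3-cycle. -/
theorem three_idx (i n : ZMod (0 + 3)) : n = i ∨ n = i + 1 ∨ n = i - 1 := by
  revert i n
  decide

/-- (V_OUT) FOR A 3-CYCLE A FUNCTIONAL WHICH KILLS `V''` MOVES A RAY OUTSIDE. -/
theorem v_out (hTop : TopS) (hRy : RaySpanS) (hE2 : E2S) (hRk : RkS) (hD : DD phi D)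
    (h2 : 2 ≤ Module.finrank ℤ L) {Z : ZMod (0 + 3) → L} {mu : ZMod (0 + 3) → L →+ ℤ}
    (h : Cyc phi D eta 0 Z mu) {i : ZMod (0 + 3)} {u0 u1 : (RO ℤ)ˣ} {nu : L →+ ℤ}
    (hk : Kil phi D (Z i) (Z (i + 1)) u0 u1 nu) (hn : nu ≠ 0)
    (hv : D.coeff 0 + (u0 : RO ℤ) * D.coeff (Z i) + (u1 : RO ℤ) * D.coeff (Z (i + 1)) +
      (u0 : RO ℤ) * (u1 : RO ℤ) * D.coeff (Z i + Z (i + 1)) ≠ 0) :
    ∃ T, Ray D T ∧ (∀ n, T ≠ Z n) ∧ nu T ≠ 0 := by
  by_contra hcon
  push Not at hcon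
  obtain ⟨t, ep, hrev, htop, -⟩ := hTop ℤ P L phi D hD h2
  apply hn
  refine one_ray hRy hE2 hRk hD h2 hrev (kil_top hD hrev htop (h.mtl i).r0 (h.mtl i).r1
    (h.dis i (i + 1) (KO29.ne_succ i)) hk hv) (h.mtl (i - 1)).r0 fun R hR hne => ?_
  by_cases hc : ∀ n, R ≠ Z n
  · exact hcon R hR hc
  · push Not at hc
    obtain ⟨n, rfl⟩ := hc
    rcases three_idx i n with rfl | rfl | rfl
    · exact hk.s0
    · exact hk.s1
    · exact absurd rfl hne

/-- Subtracting a multiple of `mu i`. -/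
theorem kil_sub (hF1 : F1S) (hF3 : F3S) (hD : DD phi D) {k : ℕ} {Z : ZMod (k + 3) → L}
    {mu : ZMod (k + 3) → L →+ ℤ} (h : Cyc phi D eta k Z mu) {i : ZMod (k + 3)} {T : L}
    (hT : Ray D T) (hTZ : ∀ n, T ≠ Z n) {e : (RO ℤ)ˣ} (hi : Z i ∉ US e T D)
    (dis : ∀ p, phi T p = 0 ∨ phi (Z i) p = 0) {u : (RO ℤ)ˣ} {nu : L →+ ℤ}
    (hk : Kil phi D (Z i) T (eta (Z i)) u nu) (c : ℤ) :
    Kil phi D (Z i) T (eta (Z i)) u (nu - c • mu i) := by
  have mT : mu i T = 0 := h.oth i T hT (hTZ _) (hTZ _)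
  have mZ : mu i (Z i) = 0 := by
    obtain ⟨n1, n2, -⟩ := KO.H40.idx k i
    exact KO.H40.cyc_mu h n1 n2
  refine ⟨?_, ?_, ?_, ?_⟩
  · rw [AddMonoidHom.sub_apply, AddMonoidHom.smul_apply, hk.s0, mZ, smul_zero, sub_zero]
  · rw [AddMonoidHom.sub_apply, AddMonoidHom.smul_apply, hk.s1, mT, smul_zero, sub_zero]
  · intro x hx hnx
    by_cases hm : mu i x = 0
    · rw [AddMonoidHom.sub_apply, AddMonoidHom.smul_apply, hm, smul_zero, sub_zero] at hnx
      exact hk.free x hx hnx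
    · have f0 := KO.f1d hF1 hD (h.mtl i).r0 (x := x) (e := eta (Z i))
        (fun hc => hm ((h.ker i x).mp hc)) (fun p => (hx p).imp id And.left)
      have f1 := KO.f1d hF1 hD (h.mtl i).r0 (x := x + T) (e := eta (Z i))
        (fun hc => hm (by
          have := (h.ker i _).mp hc
          rwa [map_add, mT, add_zero] at this)) (fun p => by
            rcases hx p with h1 | h1
            · rcases dis p with h3 | h3
              · left
                rw [map_add, Pi.add_apply, h1, h3, add_zero]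
              · exact Or.inr h3
            · exact Or.inr h1.1)
      rw [add_right_comm x T (Z i)] at f1
      linear_combination f0 + (u : RO ℤ) * f1
  · intro b hb hp
    rw [AddMonoidHom.sub_apply, AddMonoidHom.smul_apply, hk.part b hb hp, zero_sub, neg_eq_zero]
    rcases hp with h1 | h1
    · rw [(h.ker i b).mp (KO.f1p hF1 hD (h.mtl i).r0 hb h1), smul_zero]
    · rw [(KO.H40.cyc_killer hF3 hD h hT hTZ hi b (KO.f1p hF1 hD hT hb h1)).1, smul_zero]

/-- (H_OUT) FOR A 3-CYCLE: a functional which kills `H^ = D(Z i = 1, T = u)` and is zero on the rays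
outside the cycle is a multiple of `mu i`. -/
theorem h_out (hTop : TopS) (hRy : RaySpanS) (hE2 : E2S) (hRk : RkS) (hF1 : F1S) (hF3 : F3S)
    (hD : DD phi D) (h2 : 2 ≤ Module.finrank ℤ L) {Z : ZMod (0 + 3) → L}
    {mu : ZMod (0 + 3) → L →+ ℤ} (h : Cyc phi D eta 0 Z mu) {i : ZMod (0 + 3)} {T : L}
    (hT : Ray D T) (hTZ : ∀ n, T ≠ Z n) {e : (RO ℤ)ˣ} (hi : Z i ∉ US e T D)
    (dis : ∀ p, phi T p = 0 ∨ phi (Z i) p = 0) {u : (RO ℤ)ˣ} {nu : L →+ ℤ}
    (hk : Kil phi D (Z i) T (eta (Z i)) u nu)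
    (hv : D.coeff 0 + (eta (Z i) : RO ℤ) * D.coeff (Z i) + (u : RO ℤ) * D.coeff T +
      (eta (Z i) : RO ℤ) * (u : RO ℤ) * D.coeff (Z i + T) ≠ 0)
    (ho : ∀ R, Ray D R → (∀ n, R ≠ Z n) → nu R = 0) : nu = nu (Z (i + 1)) • mu i := by
  obtain ⟨t, ep, hrev, htop, -⟩ := hTop ℤ P L phi D hD h2
  have hk' := kil_sub hF1 hF3 hD h hT hTZ hi dis hk (nu (Z (i + 1)))
  rw [← sub_eq_zero]
  refine one_ray hRy hE2 hRk hD h2 hrev (kil_top hD hrev htop (h.mtl i).r0 hT
    (fun p => (dis p).symm) hk' hv) (h.mtl (i - 1)).r0 fun R hR hne => ?_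
  by_cases hc : ∀ n, R ≠ Z n
  · rw [AddMonoidHom.sub_apply, AddMonoidHom.smul_apply, ho R hR hc,
      h.oth i R hR (hc _) (hc _), smul_zero, sub_zero]
  · push Not at hc
    obtain ⟨n, rfl⟩ := hc
    rcases three_idx i n with rfl | rfl | rfl
    · exact hk'.s0
    · rw [AddMonoidHom.sub_apply, AddMonoidHom.smul_apply, h.nxt, smul_eq_mul, mul_one, sub_self]
    · exact absurd rfl hne

end

end Pool.Agent.B5.KO.H96
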