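import Pool.Agent.Lib.MP_b5021c_nt.KO.H96.TkSup
import Pool.Agent.Lib.MP_b5021c_nt.KO.H13.Tk3

/-!
# MP_b5021c_nt, all `θ`, K ODD, (O4), l = 3, ALPHA, row TK_SUP, at the level of `W = D(T = u)`

`WKil`: `nu` vanishes on `S`, `T` and on the exponents of the closing `w^S = e` of `W`.
`WKil.patx`: a moved ray `R` with `S, T` in `U_R` gives a fully mutual ray whose class is killed.
`wkil_of`: `WKil` from `nu = 0` on `U_S(W)`.
-/

set_option linter.unusedSectionVars false

namespace Pool.Agent.B5.KO.H96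

open scoped LaurentPolynomial
open Polynomial
open Pool.Agent.B5 Pool.Agent.B5.KE
open Pool.Agent.B5.H07 Pool.Agent.B5.H63
open Pool.Agent.B5.Nr.Sch
open Pool.Agent.B5.O4X
open Pool.Agent.B5.KV67 (TT1)

section

variable {P L : Type} [Fintype P] [DecidableEq P] [AddCommGroup L] [Module.Free ℤ L]
  [Module.Finite ℤ L] {phi : L →+ (P → ℤ)} {D : AO ℤ L} {eta : L → (RO ℤ)ˣ}

/-- `nu` vanishes on `S`, `T` and on the exponents of the closing `w^S = e` of `D(T = u)`. -/
structure WKil (phi : L →+ (P → ℤ)) (D : AO ℤ L) (S T : L) (e u : (RO ℤ)ˣ) (nu : L →+ ℤ) :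
    Prop where
  s : nu S = 0
  t : nu T = 0
  pT : ∀ x ∈ supp D, Part phi T x → nu x = 0
  pS : ∀ x, (∀ p, phi x p = 0 ∨ phi T p = 0) → Part phi S x → nu x ≠ 0 →
    D.coeff x + (u : RO ℤ) * D.coeff (x + T) = 0
  fr : ∀ x, Out phi S T x → nu x ≠ 0 →
    D.coeff x + (e : RO ℤ) * D.coeff (x + S) + (u : RO ℤ) * D.coeff (x + T) +
      (e : RO ℤ) * (u : RO ℤ) * D.coeff (x + S + T) = 0

/-- The class of the ray `R` is killed. -/
def Kld (phi : L →+ (P → ℤ)) (D : AO ℤ L) (S T : L) (e u : (RO ℤ)ˣ) (R : L) : Prop :=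
  (Part phi S R → D.coeff R + (u : RO ℤ) * D.coeff (R + T) = 0) ∧
  ((∀ p, phi R p = 0 ∨ phi S p = 0) →
    D.coeff R + (e : RO ℤ) * D.coeff (R + S) + (u : RO ℤ) * D.coeff (R + T) +
      (e : RO ℤ) * (u : RO ℤ) * D.coeff (R + S + T) = 0)

variable {S T : L} {e u : (RO ℤ)ˣ} {nu : L →+ ℤ}

/-- A moved ray is disjoint from `T`. -/
theorem WKil.disT (hI : Inj1S) (fp : FP phi D) (hk : WKil phi D S T e u nu) (rT : Ray D T)
    {R : L} (rR : Ray D R) (hn : nu R ≠ 0) : ∀ p, phi R p = 0 ∨ phi T p = 0 :=
  KO.dsj hI fp rT rR (by rintro rfl; exact hn hk.t) (fun h => hn (hk.pT R rR.1 h))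

theorem WKil.kld (hk : WKil phi D S T e u nu) {R : L} (hRT : ∀ p, phi R p = 0 ∨ phi T p = 0)
    (hn : nu R ≠ 0) : Kld phi D S T e u R := by
  refine ⟨fun h => hk.pS R hRT h hn, fun h => hk.fr R (fun p => ?_) hn⟩
  rcases h p with h1 | h1
  · exact Or.inl h1
  · rcases hRT p with h2 | h2
    · exact Or.inl h2
    · exact Or.inr ⟨h1, h2⟩

/-- The class of a ray outside `U_R`, `R` moved, `S` and `T` in `U_R`. -/
theorem WKil.next (hF1 : F1S) (hF2 : F2S) (hI : Inj1S) (fp : FP phi D)
    (hk : WKil phi D S T e u nu) (rS : Ray D S) (rT : Ray D T)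
    {R R' : L} {eR : (RO ℤ)ˣ} (rR : Ray D R) (hn : nu R ≠ 0) (hS : S ∈ US eR R D)
    (hT : T ∈ US eR R D) (rR' : Ray D R') (hU : R' ∉ US eR R D) :
    (∀ p, phi R' p = 0 ∨ phi T p = 0) ∧ Kld phi D S T e u R' := by
  have hD := fp.dd
  have hRT := hk.disT hI fp rT rR hn
  have hdis := hF2 ℤ P L phi D R' R eR hD.inj hD.bin rR' rR hU
  have hsum := KO.f1d hF1 hD rR hU hdis
  have hys : R' + R ∈ supp D := by
    intro h
    change D.coeff (R' + R) = 0 at h
    rw [h, mul_zero, add_zero] at hsum
    exact rR'.1 hsum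
  have hRu : R ∈ US eR R D := mem_US eR R D
  have hR'T : ∀ p, phi R' p = 0 ∨ phi T p = 0 := by
    apply KO.dsj hI fp rT rR' (by rintro rfl; exact hU hT)
    intro hp
    have h3 := hk.pT R' rR'.1 hp
    obtain ⟨⟨x, hx1, hx2⟩, y, hy1, hy2⟩ := hp
    have h4 := hk.pT (R' + R) hys ⟨⟨x, by
      rw [map_add, Pi.add_apply, hx1, (hRT x).resolve_right (by rw [hx2]; exact one_ne_zero),
        add_zero], hx2⟩, y, by
      rw [map_add, Pi.add_apply, hy1, (hRT y).resolve_right (by rw [hy2]; exact one_ne_zero),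
        add_zero], hy2⟩
    rw [map_add, h3, zero_add] at h4
    exact hn h4
  refine ⟨hR'T, ?_⟩
  by_cases hn' : nu R' = 0
  swap
  · exact hk.kld hR'T hn'
  have hny : nu (R' + R) ≠ 0 := by
    rw [map_add, hn', zero_add]
    exact hn
  have hyT : ∀ p, phi (R' + R) p = 0 ∨ phi T p = 0 := by
    intro p
    rcases hR'T p with h1 | h1
    · rcases hRT p with h2 | h2
      · left
        rw [map_add, Pi.add_apply, h1, h2, add_zero]
      · exact Or.inr h2
    · exact Or.inr h1
  -- a port of `R` outside `S`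
  have hRS : R ≠ S := by
    rintro rfl
    exact hn hk.s
  obtain ⟨p3, h31, h32⟩ : ∃ p, phi R p = 1 ∧ phi S p = 0 := by
    by_contra hcon
    push Not at hcon
    apply hRS
    apply KO.nst hI fp rR rS
    intro p hp
    exact (hD.bin R rR.1 p).resolve_right (fun h => hcon p h hp)
  have c3 : phi R' p3 = 0 := (hdis p3).resolve_right (by rw [h31]; exact one_ne_zero)
  have t3 : phi T p3 = 0 := (hRT p3).resolve_left (by rw [h31]; exact one_ne_zero)
  -- `R' + x`, `x` in `U_R`
  have hout : ∀ {x : L}, x ∈ US eR R D → R' + x ∉ US eR R D := by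
    intro x hx h
    apply hU
    have h5 := Submodule.sub_mem _ h hx
    rwa [add_sub_cancel_right] at h5
  -- the flip of `W`-coefficients
  have hA : D.coeff R' + (u : RO ℤ) * D.coeff (R' + T) =
      -((eR : RO ℤ) * (D.coeff (R' + R) + (u : RO ℤ) * D.coeff (R' + R + T))) := by
    have h6 := KO.f1d hF1 hD rR (hout hT) (fun p => by
      rcases hdis p with h1 | h1
      · rcases hRT p with h2 | h2
        · exact Or.inr h2
        · left
          rw [map_add, Pi.add_apply, h1, h2, add_zero]
      · exact Or.inr h1)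
    rw [add_right_comm R' T R] at h6
    linear_combination hsum + (u : RO ℤ) * h6
  refine ⟨?_, ?_⟩
  · rintro ⟨⟨p1, h11, h12⟩, p2, h21, h22⟩
    rw [hA]
    have hy : D.coeff (R' + R) + (u : RO ℤ) * D.coeff (R' + R + T) = 0 := by
      by_cases hp : Part phi S (R' + R)
      · exact hk.pS _ hyT hp hny
      · have hy1 : phi (R' + R) p1 = 1 := by
          rw [map_add, Pi.add_apply, h11, (hdis p1).resolve_left (by rw [h11]; exact one_ne_zero),
            add_zero]
        have hall : ∀ p, phi S p = 1 → phi (R' + R) p = 1 := by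
          intro p hp1
          rcases hD.bin _ hys p with h1 | h1
          · exact absurd ⟨⟨p1, hy1, h12⟩, p, h1, hp1⟩ hp
          · exact h1
        -- `x = y - S`
        have ho : Out phi S T (R' + R - S) := by
          intro p
          rw [map_sub, Pi.sub_apply]
          rcases hD.bin S rS.1 p with h1 | h1
          · rw [h1, sub_zero]
            rcases hyT p with h2 | h2
            · exact Or.inl h2
            · exact Or.inr ⟨rfl, h2⟩
          · left
            rw [hall p h1, h1, sub_self]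
        have h5 := hk.fr _ ho (by rw [map_sub, hk.s, sub_zero]; exact hny)
        have hr2 : phi R p2 = 1 := by
          have h6 := hall p2 h22
          rw [map_add, Pi.add_apply, h21, zero_add] at h6
          exact h6
        have t2 : phi T p2 = 0 := (hRT p2).resolve_left (by rw [hr2]; exact one_ne_zero)
        have hx : R' + R - S ∉ US eR R D := by
          rw [show R' + R - S = R' + (R - S) by abel]
          exact hout (Submodule.sub_mem _ hRu hS)
        have hx' : R' + R - S + T ∉ US eR R D := by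
          rw [show R' + R - S + T = R' + (R - S + T) by abel]
          exact hout (Submodule.add_mem _ (Submodule.sub_mem _ hRu hS) hT)
        have F := hF1 ℤ P L phi D R eR hD.inj hD.bin (hD.bin R rR.1) rR.2.1
        have v2 : phi (R' + R - S) p2 = 0 := by
          rw [map_sub, map_add, Pi.sub_apply, Pi.add_apply, h21, hr2, h22]
          norm_num
        have v3 : phi (R' + R - S) p3 = 1 := by
          rw [map_sub, map_add, Pi.sub_apply, Pi.add_apply, c3, h31, h32]
          norm_num
        have e1 := (F _ hx).1 ⟨p3, v3, h31⟩ ⟨p2, v2, hr2⟩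
        have e2 := (F _ hx').1 ⟨p3, by rw [map_add, Pi.add_apply, v3, t3, add_zero], h31⟩
          ⟨p2, by rw [map_add, Pi.add_apply, v2, t2, add_zero], hr2⟩
        rw [e1, e2, sub_add_cancel] at h5
        have h6 : (e : RO ℤ) * (D.coeff (R' + R) + (u : RO ℤ) * D.coeff (R' + R + T)) = 0 := by
          linear_combination h5
        exact (mul_eq_zero.mp h6).resolve_left e.ne_zero
    rw [hy, mul_zero, neg_zero]
  · intro hR'S
    by_cases hp : Part phi S R
    · -- `R` meets `S`
      obtain ⟨⟨p1, h11, h12⟩, p2, h21, h22⟩ := hp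
      have c1 : phi R' p1 = 0 := (hdis p1).resolve_right (by rw [h11]; exact one_ne_zero)
      have c2 : phi R' p2 = 0 := (hR'S p2).resolve_right (by rw [h22]; exact one_ne_zero)
      have t1 : phi T p1 = 0 := (hRT p1).resolve_left (by rw [h11]; exact one_ne_zero)
      have hy := hk.pS (R' + R) hyT ⟨⟨p1, by rw [map_add, Pi.add_apply, c1, h11, zero_add], h12⟩,
        p2, by rw [map_add, Pi.add_apply, c2, h21, zero_add], h22⟩ hny
      rw [hy, mul_zero, neg_zero] at hA
      have F := hF1 ℤ P L phi D R eR hD.inj hD.bin (hD.bin R rR.1) rR.2.1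
      have v1 : phi (R' + S) p1 = 1 := by rw [map_add, Pi.add_apply, c1, h12, zero_add]
      have v3 : phi (R' + S) p3 = 0 := by rw [map_add, Pi.add_apply, c3, h32, zero_add]
      have e1 := (F _ (hout hS)).1 ⟨p1, v1, h11⟩ ⟨p3, v3, h31⟩
      have e2 := (F (R' + S + T) (by rw [add_assoc]; exact hout (Submodule.add_mem _ hS hT))).1
        ⟨p1, by rw [map_add, Pi.add_apply, v1, t1, add_zero], h11⟩
        ⟨p3, by rw [map_add, Pi.add_apply, v3, t3, add_zero], h31⟩
      rw [e1, e2]
      linear_combination hA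
    · have hRSd : ∀ p, phi R p = 0 ∨ phi S p = 0 := KO.dsj hI fp rS rR hRS.symm hp
      have ho : Out phi S T (R' + R) := by
        intro p
        rcases hyT p with h1 | h1
        · exact Or.inl h1
        · rcases hR'S p with h2 | h2
          · rcases hRSd p with h3 | h3
            · left
              rw [map_add, Pi.add_apply, h2, h3, add_zero]
            · exact Or.inr ⟨h3, h1⟩
          · exact Or.inr ⟨h2, h1⟩
      have h5 := hk.fr _ ho hny
      have fl : ∀ {x : L}, x ∈ US eR R D → (∀ p, phi x p = 0 ∨ phi R p = 0) →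
          D.coeff (R' + x) + (eR : RO ℤ) * D.coeff (R' + R + x) = 0 := by
        intro x hx hxR
        have h6 := KO.f1d hF1 hD rR (hout hx) (fun p => by
          rcases hdis p with h1 | h1
          · rcases hxR p with h2 | h2
            · left
              rw [map_add, Pi.add_apply, h1, h2, add_zero]
            · exact Or.inr h2
          · exact Or.inr h1)
        rwa [add_right_comm R' x R] at h6
      have g0 := fl hS (fun p => (hRSd p).symm)
      have g1 := fl hT (fun p => (hRT p).symm)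
      have g2 := fl (Submodule.add_mem _ hS hT) (fun p => by
        rcases hRSd p with h1 | h1
        · exact Or.inr h1
        · rcases hRT p with h2 | h2
          · exact Or.inr h2
          · left
            rw [map_add, Pi.add_apply, h1, h2, add_zero])
      rw [← add_assoc, ← add_assoc] at g2
      linear_combination hsum + (e : RO ℤ) * g0 + (u : RO ℤ) * g1 +
        ((e : RO ℤ) * (u : RO ℤ)) * g2 - (eR : RO ℤ) * h5

/-- (PATX) AT THE LEVEL OF `W`. -/
theorem WKil.patx (hF1 : F1S) (hF2 : F2S) (hF3 : F3S) (hI : Inj1S) (fp : FP phi D)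
    (hk : WKil phi D S T e u nu) (rS : Ray D S) (rT : Ray D T) (hall : KO.Abd D eta) {R : L}
    (rR : Ray D R) (hn : nu R ≠ 0) (hS : S ∈ US (eta R) R D) (hT : T ∈ US (eta R) R D) :
    ∃ R', KO.Fm D eta R' ∧ (R' = R ∨ R' ∉ US (eta R) R D) ∧
      (∀ p, phi R' p = 0 ∨ phi T p = 0) ∧ Kld phi D S T e u R' := by
  classical
  have hD := fp.dd
  have hne : {R' : L | Ray D R' ∧ R' ∉ US (eta R) R D}.Nonempty := by
    obtain ⟨R', hR', hU⟩ := hall R rR
    exact ⟨R', hR', hU⟩
  obtain ⟨R', ⟨rR', hU⟩, hmin⟩ := WellFounded.has_min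
    (measure (fun x : L => Module.finrank ℤ L - Module.finrank ℤ (US (eta x) x D))).wf _ hne
  have hmax : ∀ x, Ray D x → x ∉ US (eta R) R D →
      Module.finrank ℤ (US (eta x) x D) ≤ Module.finrank ℤ (US (eta R') R' D) := by
    intro x hx hxU
    have h1 : ¬ (Module.finrank ℤ L - Module.finrank ℤ (US (eta x) x D) <
        Module.finrank ℤ L - Module.finrank ℤ (US (eta R') R' D)) := hmin x ⟨hx, hxU⟩
    have h2 := Submodule.finrank_le (US (eta x) x D)
    have h3 := Submodule.finrank_le (US (eta R') R' D)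
    omega
  by_cases hlt : Module.finrank ℤ (US (eta R) R D) < Module.finrank ℤ (US (eta R') R' D)
  · have hRR' : R ∈ US (eta R') R' D := by
      by_contra h
      have := (KO.mut_US hF3 hD (⟨rR, rR', hU, h⟩ : Mut D R R' (eta R) (eta R'))).1
      omega
    have i1 := (KO.incl_US hF3 hD rR rR' hU hRR').1
    obtain ⟨k1, k2⟩ := hk.next hF1 hF2 hI fp rS rT rR hn hS hT rR' hU
    refine ⟨R', ⟨rR', fun x hx hxU hin => ?_⟩, Or.inr hU, k1, k2⟩
    have h1 := (KO.incl_US hF3 hD rR' hx hxU hin).2
    have h2 := hmax x hx (fun h => hxU (i1 h))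
    omega
  · have hRT := hk.disT hI fp rT rR hn
    refine ⟨R, ⟨rR, fun x hx hxU hin => ?_⟩, Or.inl rfl, hRT, hk.kld hRT hn⟩
    have h1 := (KO.incl_US hF3 hD rR hx hxU hin).2
    have h2 := hmax x hx hxU
    omega

end

end Pool.Agent.B5.KO.H96
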