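import Pool.Agent.Lib.MP_b5021c_nt.KO.H40.Px
import Pool.Agent.Lib.MP_b5021c_nt.KO.H40.PxF

/-!
# PURE BETA, `j = 2` (row BE_N2): two closings of an element with five rays with disjoint ports

`V 0`, `V 1` are closed at the loads `u0`, `u1`; `V 2`, `V 3`, `V 4` remain.  The double closing has
the coefficients `csm`; `V 2`, `V 3`, `V 2 + V 4` are exponents.
-/

set_option linter.unusedSectionVars false

namespace Pool.Agent.B5.KO.H96

open scoped LaurentPolynomial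
open Polynomial
open Pool.Agent.B5.KE
open Pool.Agent.B5.KV67 (csm_coeff dr_of)

section

variable {P L : Type} [Fintype P] [DecidableEq P] [AddCommGroup L] [Module.Free ℤ L]
  [Module.Finite ℤ L] {phi : L →+ (P → ℤ)} {D : AO ℤ L}

/-- Five rays with disjoint ports which are a basis. -/
structure B5s (phi : L →+ (P → ℤ)) (D : AO ℤ L) (V : Fin 5 → L) : Prop where
  dd : DD phi D
  r5 : Module.finrank ℤ L = 5
  ray : ∀ i, Ray D (V i)
  dis : ∀ i k, i ≠ k → ∀ p, phi (V i) p = 0 ∨ phi (V k) p = 0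
  exp : ∀ x : L, ∃ c : Fin 5 → ℤ, x = ∑ i, c i • V i

/-- The loads `u0`, `u1` for `V 0`, `V 1`. -/
structure Tw (phi : L →+ (P → ℤ)) (D : AO ℤ L) (V : Fin 5 → L) (u0 u1 eT : (RO ℤ)ˣ) : Prop
    extends B5s phi D V where
  c2 : csm D (V 0) (V 1) u0 u1 (V 2) ≠ 0
  c3 : csm D (V 0) (V 1) u0 u1 (V 3) ≠ 0
  c24 : csm D (V 0) (V 1) u0 u1 (V 2) + (eT : RO ℤ) * csm D (V 0) (V 1) u0 u1 (V 2 + V 4) = 0
  noT : csm D (V 0) (V 1) u0 u1 0 + (eT : RO ℤ) * csm D (V 0) (V 1) u0 u1 (V 4) = 0 →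
    csm D (V 0) (V 1) u0 u1 (V 2 + V 3) +
      (eT : RO ℤ) * csm D (V 0) (V 1) u0 u1 (V 2 + V 3 + V 4) = 0 → False

variable {V : Fin 5 → L} {u0 u1 eT : (RO ℤ)ˣ}

theorem B5s.phk (W : B5s phi D V) {k : Fin 5} {p : P} (hp : phi (V k) p = 1)
    (i : Fin 5) : phi (V i) p = if i = k then 1 else 0 := by
  by_cases h : i = k
  · subst h
    rw [if_pos rfl, hp]
  · rw [if_neg h]
    rcases W.dis i k h p with h1 | h1
    · exact h1
    · rw [hp] at h1
      exact absurd h1 one_ne_zero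

theorem B5s.phs (W : B5s phi D V) {k : Fin 5} {p : P} (hp : phi (V k) p = 1)
    (c : Fin 5 → ℤ) : phi (∑ i, c i • V i) p = c k := by
  rw [map_sum, Finset.sum_apply, Finset.sum_eq_single k]
  · rw [map_zsmul, Pi.smul_apply, hp, smul_eq_mul, mul_one]
  · intro i _ hi
    rw [map_zsmul, Pi.smul_apply, W.phk hp, if_neg hi, smul_zero]
  · intro h
    exact absurd (Finset.mem_univ k) h

theorem B5s.pt (W : B5s phi D V) : ∃ pt : Fin 5 → P, ∀ k, phi (V k) (pt k) = 1 := by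
  choose pt hpt using fun k => exists_port W.dd (W.ray k)
  exact ⟨pt, hpt⟩

/-- Coordinates of a sum of exponent type. -/
theorem B5s.bin (W : B5s phi D V) {y : L} {i0 : P} (h0 : phi (V 0) i0 = 1)
    (hy : phi y i0 = 0) {x : L} {m : ℤ} (hx : x ∈ supp D) (hxy : x = y + m • V 0) :
    ∃ c : Fin 5 → ℤ, (∀ i, c i = 0 ∨ c i = 1) ∧ c 0 = 0 ∧ y = ∑ i, c i • V i := by
  obtain ⟨pt, hpt⟩ := W.pt
  obtain ⟨c, hc⟩ := W.exp y
  have hc0 : c 0 = 0 := by
    rw [← W.phs h0 c, ← hc, hy]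
  refine ⟨c, fun i => ?_, hc0, hc⟩
  by_cases hi : i = 0
  · rw [hi]
    exact Or.inl hc0
  · have h2 := W.dd.bin x hx (pt i)
    have h3 : phi x (pt i) = c i := by
      rw [hxy, map_add, Pi.add_apply, map_zsmul, Pi.smul_apply, W.phk (hpt i), if_neg (Ne.symm hi),
        smul_zero, add_zero, hc, W.phs (hpt i)]
    rwa [h3] at h2

/-- Coordinates of the exponents of the double closing. -/
theorem B5s.bin2 (W : B5s phi D V) {y : L} {i0 i1 : P} (h0 : phi (V 0) i0 = 1)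
    (h1 : phi (V 1) i1 = 1) (hy0 : phi y i0 = 0) (hy1 : phi y i1 = 0)
    (hy : csm D (V 0) (V 1) u0 u1 y ≠ 0) :
    ∃ c : Fin 5 → ℤ, (∀ i, c i = 0 ∨ c i = 1) ∧ c 0 = 0 ∧ c 1 = 0 ∧ y = ∑ i, c i • V i := by
  obtain ⟨pt, hpt⟩ := W.pt
  obtain ⟨c, hc⟩ := W.exp y
  have hc0 : c 0 = 0 := by
    rw [← W.phs h0 c, ← hc, hy0]
  have hc1 : c 1 = 0 := by
    rw [← W.phs h1 c, ← hc, hy1]
  obtain ⟨al, be, hx⟩ : ∃ al be : ℤ, D.coeff (y + al • V 0 + be • V 1) ≠ 0 := by
    by_contra hcon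
    push Not at hcon
    apply hy
    unfold csm
    have q1 := hcon 0 0
    have q2 := hcon 1 0
    have q3 := hcon 0 1
    have q4 := hcon 1 1
    simp only [zero_smul, one_smul, add_zero] at q1 q2 q3 q4
    rw [q1, q2, q3, q4]
    ring
  refine ⟨c, fun i => ?_, hc0, hc1, hc⟩
  by_cases hi : i = 0
  · rw [hi]
    exact Or.inl hc0
  by_cases hi1 : i = 1
  · rw [hi1]
    exact Or.inl hc1
  · have h2 := W.dd.bin _ hx (pt i)
    have h3 : phi (y + al • V 0 + be • V 1) (pt i) = c i := by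
      rw [map_add, map_add, Pi.add_apply, Pi.add_apply, map_zsmul, map_zsmul, Pi.smul_apply,
        Pi.smul_apply, W.phk (hpt i), W.phk (hpt i), if_neg (Ne.symm hi), if_neg (Ne.symm hi1),
        smul_zero, smul_zero, add_zero, add_zero, hc, W.phs (hpt i)]
    rwa [h3] at h2

/-- The functional which counts the rays different from `V k`. -/
def lamk (phi : L →+ (P → ℤ)) (pt : Fin 5 → P) (k : Fin 5) : L →+ ℤ :=
  ∑ i ∈ Finset.univ.erase k, co phi (pt i)

theorem B5s.lam_sum (W : B5s phi D V) {pt : Fin 5 → P} (hpt : ∀ k, phi (V k) (pt k) = 1)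
    (k : Fin 5) (c : Fin 5 → ℤ) :
    lamk phi pt k (∑ i, c i • V i) = ∑ i ∈ Finset.univ.erase k, c i := by
  unfold lamk
  rw [AddMonoidHom.finsetSum_apply]
  apply Finset.sum_congr rfl
  intro i _
  exact W.phs (hpt i) c

theorem B5s.lam_self (W : B5s phi D V) {pt : Fin 5 → P} (hpt : ∀ k, phi (V k) (pt k) = 1)
    (k : Fin 5) : lamk phi pt k (V k) = 0 := by
  unfold lamk
  rw [AddMonoidHom.finsetSum_apply]
  apply Finset.sum_eq_zero
  intro i hi
  have h1 : k ≠ i := fun h => (Finset.mem_erase.mp hi).1 h.symm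
  have h2 := W.phk (hpt i) k
  rw [if_neg h1] at h2
  exact h2

theorem B5s.lam_pos (W : B5s phi D V) {pt : Fin 5 → P} (hpt : ∀ k, phi (V k) (pt k) = 1)
    (k : Fin 5) {c : Fin 5 → ℤ} (hc : ∀ i, c i = 0 ∨ c i = 1) (h0 : ∑ i, c i • V i ≠ 0)
    (hk : ∑ i, c i • V i ≠ V k) : 0 < lamk phi pt k (∑ i, c i • V i) := by
  rw [W.lam_sum hpt]
  have hnn : ∀ i ∈ Finset.univ.erase k, 0 ≤ c i := fun i _ => by
    rcases hc i with h | h <;> omega
  rcases (Finset.sum_nonneg hnn).lt_or_eq with h | h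
  · exact h
  · exfalso
    have h1 := (Finset.sum_eq_zero_iff_of_nonneg hnn).mp h.symm
    have h2 : ∑ i, c i • V i = c k • V k := by
      rw [Finset.sum_eq_single k]
      · intro i _ hi
        rw [h1 i (Finset.mem_erase.mpr ⟨hi, Finset.mem_univ i⟩), zero_smul]
      · intro h
        exact absurd (Finset.mem_univ k) h
    rcases hc k with h3 | h3
    · apply h0
      rw [h2, h3, zero_smul]
    · apply hk
      rw [h2, h3, one_smul]

/-- `V 0` is saturated. -/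
theorem B5s.ims (W : B5s phi D V) (k : Fin 5) : ImS phi (V k) := by
  intro b hb
  obtain ⟨pt, hpt⟩ := W.pt
  obtain ⟨c, hc⟩ := W.exp b
  refine ⟨c k, ?_⟩
  rw [hc, Finset.sum_eq_single k]
  · intro i _ hi
    have h1 := hb (pt i) (by rw [W.phk (hpt i), if_neg (Ne.symm hi)])
    rw [hc, W.phs (hpt i)] at h1
    rw [h1, zero_smul]
  · intro h
    exact absurd (Finset.mem_univ k) h

theorem B5s.port1 (W : B5s phi D V) {i0 : P} (h0 : phi (V 0) i0 = 1) {k : Fin 5}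
    (hk : k ≠ 0) : phi (V k) i0 = 0 := by
  rw [W.phk h0, if_neg hk]

/-- The first closing: a ray. -/
theorem B5s.ray1 (W : B5s phi D V) {i0 : P} (h0 : co phi i0 (V 0) = 1) {k : Fin 5}
    (hk : k ≠ 0) (hne : D.coeff (V k) + (u0 : RO ℤ) * D.coeff (V k + V 0) ≠ 0) :
    ∃ x : Ker (co phi i0), (x : L) = V k ∧ Ray (cl (co phi i0) (V 0) h0 u0 D) x := by
  obtain ⟨pt, hpt⟩ := W.pt
  have h0' : phi (V 0) i0 = 1 := h0
  obtain ⟨x, hx⟩ : ∃ x : Ker (co phi i0), (x : L) = V k := ⟨⟨V k, W.port1 h0' hk⟩, rfl⟩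
  have hcf : ∀ b : Ker (co phi i0), (cl (co phi i0) (V 0) h0 u0 D).coeff b =
      D.coeff (b : L) + (u0 : RO ℤ) * D.coeff ((b : L) + V 0) :=
    H47.cl_coeff_bin (co phi i0) (V 0) h0 u0 D (fun b hb' => W.dd.bin b hb' i0)
  refine ⟨x, hx, ?_, ?_, (lamk phi pt k).comp (incl _), ?_, ?_⟩
  · change (cl (co phi i0) (V 0) h0 u0 D).coeff x ≠ 0
    rw [hcf, hx]
    exact hne
  · intro h
    apply (W.ray k).2.1
    rw [← hx, h]
    rfl
  · change lamk phi pt k (x : L) = 0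
    rw [hx]
    exact W.lam_self hpt k
  · intro b hb hb0 hbx
    change 0 < lamk phi pt k (b : L)
    have h3 : (cl (co phi i0) (V 0) h0 u0 D).coeff b ≠ 0 := hb
    rw [hcf] at h3
    obtain ⟨m, hm⟩ : ∃ m : ℤ, (b : L) + m • V 0 ∈ supp D := by
      by_contra hcon
      push Not at hcon
      have q0 : D.coeff ((b : L) + (0 : ℤ) • V 0) = 0 := by
        by_contra h
        exact hcon 0 h
      have q1 : D.coeff ((b : L) + (1 : ℤ) • V 0) = 0 := by
        by_contra h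
        exact hcon 1 h
      apply h3
      rw [zero_smul, add_zero] at q0
      rw [one_smul] at q1
      rw [q0, q1]
      ring
    obtain ⟨c, hc, -, hy⟩ := W.bin h0' (show phi (b : L) i0 = 0 from b.2) hm rfl
    rw [hy]
    refine W.lam_pos hpt k hc ?_ ?_
    · rw [← hy]
      intro h
      exact hb0 (Subtype.ext h)
    · rw [← hy]
      intro h
      exact hbx (Subtype.ext (h.trans hx.symm))

/-- The double closing: a ray. -/
theorem B5s.ray2 (W : B5s phi D V) {i0 i1 : P} (h0 : co phi i0 (V 0) = 1)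
    {R' : Ker (co phi i0)} (hR' : (R' : L) = V 1) (h1 : co (phO phi (V 0) i0) i1 R' = 1)
    {k : Fin 5} (hk : k ≠ 0) (hk1 : k ≠ 1) (hne : csm D (V 0) (V 1) u0 u1 (V k) ≠ 0) :
    ∃ x : Ker (co (phO phi (V 0) i0) i1), ((x : Ker (co phi i0)) : L) = V k ∧
      Ray (cl (co (phO phi (V 0) i0) i1) R' h1 u1 (cl (co phi i0) (V 0) h0 u0 D)) x := by
  obtain ⟨pt, hpt⟩ := W.pt
  have h0' : phi (V 0) i0 = 1 := h0
  have hS1 : phi (V 0) i1 = 0 := by
    by_contra hne
    have h2 : (if phi (V 0) i1 = 0 then phi (R' : L) i1 else 0) = 1 := h1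
    rw [if_neg hne] at h2
    exact zero_ne_one h2
  have hR1 : phi (V 1) i1 = 1 := by
    have h2 : (if phi (V 0) i1 = 0 then phi (R' : L) i1 else 0) = 1 := h1
    rw [if_pos hS1, hR'] at h2
    exact h2
  have hkk : ∀ b : Ker (co phi i0), co (phO phi (V 0) i0) i1 b = phi (b : L) i1 := by
    intro b
    change (if phi (V 0) i1 = 0 then phi (b : L) i1 else 0) = _
    rw [if_pos hS1]
  obtain ⟨x, hx⟩ : ∃ x : Ker (co (phO phi (V 0) i0) i1), ((x : Ker (co phi i0)) : L) = V k :=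
    ⟨⟨⟨V k, W.port1 h0' hk⟩, by rw [mem_Ker, hkk, W.phk hR1, if_neg hk1]⟩, rfl⟩
  refine ⟨x, hx, ?_, ?_, ((lamk phi pt k).comp (incl _)).comp (incl _), ?_, ?_⟩
  · change (cl (co (phO phi (V 0) i0) i1) R' h1 u1 (cl (co phi i0) (V 0) h0 u0 D)).coeff x ≠ 0
    rw [csm_coeff W.dd.bin h0 hR' h1, hx]
    exact hne
  · intro h
    apply (W.ray k).2.1
    rw [← hx, h]
    rfl
  · change lamk phi pt k ((x : Ker (co phi i0)) : L) = 0
    rw [hx]
    exact W.lam_self hpt k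
  · intro b hb hb0 hbx
    change 0 < lamk phi pt k ((b : Ker (co phi i0)) : L)
    have h3 : (cl (co (phO phi (V 0) i0) i1) R' h1 u1
      (cl (co phi i0) (V 0) h0 u0 D)).coeff b ≠ 0 := hb
    rw [csm_coeff W.dd.bin h0 hR' h1] at h3
    have hb1 : phi ((b : Ker (co phi i0)) : L) i1 = 0 := by
      have h4 := b.2
      rw [mem_Ker, hkk] at h4
      exact h4
    obtain ⟨c, hc, -, -, hy⟩ := W.bin2 h0' hR1
      (show phi ((b : Ker (co phi i0)) : L) i0 = 0 from (b : Ker (co phi i0)).2) hb1 h3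
    rw [hy]
    refine W.lam_pos hpt k hc ?_ ?_
    · rw [← hy]
      intro h
      exact hb0 (Subtype.ext (Subtype.ext h))
    · rw [← hy]
      intro h
      exact hbx (Subtype.ext (Subtype.ext (h.trans hx.symm)))

/-- `V 1` is saturated in the first closing. -/
theorem B5s.ims1 (W : B5s phi D V) {i0 : P} (h0 : co phi i0 (V 0) = 1)
    {R' : Ker (co phi i0)} (hR' : (R' : L) = V 1) : ImS (phO phi (V 0) i0) R' := by
  intro b hb
  obtain ⟨pt, hpt⟩ := W.pt
  have h0' : phi (V 0) i0 = 1 := h0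
  obtain ⟨c, hc⟩ := W.exp (b : L)
  have hc0 : c 0 = 0 := by
    rw [← W.phs h0' c, ← hc]
    exact b.2
  refine ⟨c 1, ?_⟩
  apply Subtype.ext
  change (b : L) = c 1 • (R' : L)
  rw [hR', hc, Finset.sum_eq_single 1]
  · intro i _ hi
    by_cases hi0 : i = 0
    · rw [hi0, hc0, zero_smul]
    · have hz : phi (V 0) (pt i) = 0 := by rw [W.phk (hpt i), if_neg (Ne.symm hi0)]
      have h1 := hb (pt i) (by
        change (if phi (V 0) (pt i) = 0 then phi (R' : L) (pt i) else 0) = 0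
        rw [if_pos hz, hR', W.phk (hpt i), if_neg (Ne.symm hi)])
      change (if phi (V 0) (pt i) = 0 then phi (b : L) (pt i) else 0) = 0 at h1
      rw [if_pos hz, hc, W.phs (hpt i)] at h1
      rw [h1, zero_smul]
  · intro h
    exact absurd (Finset.mem_univ _) h

theorem Tw.ne24 (W : Tw phi D V u0 u1 eT) : csm D (V 0) (V 1) u0 u1 (V 2 + V 4) ≠ 0 := by
  intro h
  have h1 := W.c24
  rw [h, mul_zero, add_zero] at h1
  exact W.c2 h1

/-- The double closing is drop free. -/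
theorem Tw.dr (hRk : RkS) (hKm : KmuS) (W : Tw phi D V u0 u1 eT) {i0 i1 : P}
    (h0 : co phi i0 (V 0) = 1) {R' : Ker (co phi i0)} (hR' : (R' : L) = V 1)
    (h1 : co (phO phi (V 0) i0) i1 R' = 1) :
    Module.finrank ℤ (Ker (co phi i0)) =
      rk (supp (cl (co (phO phi (V 0) i0) i1) R' h1 u1 (cl (co phi i0) (V 0) h0 u0 D))) + 1 := by
  have h0' : phi (V 0) i0 = 1 := h0
  have hS1 : phi (V 0) i1 = 0 := by
    by_contra hne
    have h2 : (if phi (V 0) i1 = 0 then phi (R' : L) i1 else 0) = 1 := h1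
    rw [if_neg hne] at h2
    exact zero_ne_one h2
  have hR1 : phi (V 1) i1 = 1 := by
    have h2 : (if phi (V 0) i1 = 0 then phi (R' : L) i1 else 0) = 1 := h1
    rw [if_pos hS1, hR'] at h2
    exact h2
  have hz : ∀ k : Fin 5, k ≠ 0 → phi (V k) i0 = 0 := fun k hk => W.port1 h0' hk
  have hz1 : ∀ k : Fin 5, k ≠ 1 → phi (V k) i1 = 0 := fun k hk => by
    rw [W.phk hR1, if_neg hk]
  refine dr_of hRk hKm W.dd.bin h0 hR' h1 u0 u1 fun nu n0 n1 hk => ?_
  have n2 : nu (V 2) = 0 := hk _ (hz 2 (by decide)) (hz1 2 (by decide)) W.c2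
  have n3 : nu (V 3) = 0 := hk _ (hz 3 (by decide)) (hz1 3 (by decide)) W.c3
  have n24 : nu (V 2 + V 4) = 0 := hk _
    (by rw [map_add, Pi.add_apply, hz 2 (by decide), hz 4 (by decide), add_zero])
    (by rw [map_add, Pi.add_apply, hz1 2 (by decide), hz1 4 (by decide), add_zero]) W.ne24
  have n4 : nu (V 4) = 0 := by
    rw [map_add, n2, zero_add] at n24
    exact n24
  apply AddMonoidHom.ext
  intro x
  obtain ⟨c, hc⟩ := W.exp x
  rw [hc, map_sum, AddMonoidHom.zero_apply, Fin.sum_univ_five]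
  simp only [map_zsmul, n0, n1, n2, n3, n4, smul_zero, add_zero]

end

end Pool.Agent.B5.KO.H96
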