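import Pool.Agent.Lib.MP_b5021c_nt.KO.H96.Tw
import Pool.Agent.Lib.MP_b5021c_nt.B.H57.Dus

/-!
# PURE BETA, `j = 2` (row BE_N2): the small factors of the double closing
-/

set_option linter.unusedSectionVars false

namespace Pool.Agent.B5.KO.H96

open scoped LaurentPolynomial
open Polynomial
open Pool.Agent.B5.KE
open Pool.Agent.B5.KV67 (csm_coeff)
open Pool.Agent.B5.H57.Dus (supp_prod_ker)

section

variable {P L : Type} [Fintype P] [DecidableEq P] [AddCommGroup L] [Module.Free ℤ L]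
  [Module.Finite ℤ L] {phi : L →+ (P → ℤ)} {D : AO ℤ L} {V : Fin 5 → L} {u0 u1 eT : (RO ℤ)ˣ}

/-- The relations of a small factor of the double closing. -/
theorem Tw.rel (W : Tw phi D V u0 u1 eT) {i0 i1 : P} (h0 : co phi i0 (V 0) = 1)
    {R' : Ker (co phi i0)} (hR' : (R' : L) = V 1) (h1 : co (phO phi (V 0) i0) i1 R' = 1)
    {c1 c : RO ℤ} {G : AO ℤ (Ker (co phi i0))} (hcl : cl (co phi i0) (V 0) h0 u0 D = cst c1 * G)
    {n : ℕ} {H : Fin n → AO ℤ (Ker (co (phO phi (V 0) i0) i1))}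
    (fd : FD (phO phi (V 0) i0) G R' i1 u1 h1 c n H) {l : Fin n}
    {b : Ker (co (phO phi (V 0) i0) i1)} {j : P} {e : (RO ℤ)ˣ}
    (sp : Spt (phO phi (V 0) i0) R' i1 H l b j e) :
    phi (V 0) j = 0 ∧ phi (V 1) j = 0 ∧ phi ((b : Ker (co phi i0)) : L) j = 1 ∧
    phi ((b : Ker (co phi i0)) : L) i0 = 0 ∧ phi ((b : Ker (co phi i0)) : L) i1 = 0 ∧
    ∀ y : L, phi y i0 = 0 → phi y i1 = 0 → phi y j = 0 →
      csm D (V 0) (V 1) u0 u1 (y + ((b : Ker (co phi i0)) : L)) =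
        -((e⁻¹ : (RO ℤ)ˣ) : RO ℤ) * csm D (V 0) (V 1) u0 u1 y := by
  classical
  have h0' : phi (V 0) i0 = 1 := h0
  have hS1 : phi (V 0) i1 = 0 := by
    by_contra hne
    have h2 : (if phi (V 0) i1 = 0 then phi (R' : L) i1 else 0) = 1 := h1
    rw [if_neg hne] at h2
    exact zero_ne_one h2
  have hkk : ∀ b : Ker (co phi i0), co (phO phi (V 0) i0) i1 b = phi (b : L) i1 := by
    intro b
    change (if phi (V 0) i1 = 0 then phi (b : L) i1 else 0) = _
    rw [if_pos hS1]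
  have hbj : (if phi (V 0) j = 0 then phi ((b : Ker (co phi i0)) : L) j else 0) = 1 := sp.bj
  have hj0 : phi (V 0) j = 0 := by
    by_contra hne
    rw [if_neg hne] at hbj
    exact zero_ne_one hbj
  rw [if_pos hj0] at hbj
  have hphj : ∀ x : Ker (co phi i0), phO phi (V 0) i0 x j = phi (x : L) j := by
    intro x
    change (if phi (V 0) j = 0 then phi (x : L) j else 0) = _
    rw [if_pos hj0]
  have hj1 : phi (V 1) j = 0 := by
    have h2 := sp.jO
    unfold OO at h2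
    have h3 := (Finset.mem_filter.mp h2).2
    rw [hphj, hR'] at h3
    exact h3
  have hbi0 : phi ((b : Ker (co phi i0)) : L) i0 = 0 := (b : Ker (co phi i0)).2
  have hbi1 : phi ((b : Ker (co phi i0)) : L) i1 = 0 := by
    have h4 := b.2
    rw [mem_Ker, hkk] at h4
    exact h4
  refine ⟨hj0, hj1, hbj, hbi0, hbi1, ?_⟩
  -- the double closing
  obtain ⟨DC, hDC⟩ : ∃ DC, DC = cl (co (phO phi (V 0) i0) i1) R' h1 u1
    (cl (co phi i0) (V 0) h0 u0 D) := ⟨_, rfl⟩
  obtain ⟨O, hO⟩ : ∃ O, O = ∏ i ∈ Finset.univ.erase l, H i := ⟨_, rfl⟩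
  have hDO : DC = cst c1 * (cst c * (cst ((H l).coeff 0) *
      ((1 - AddMonoidAlgebra.single b ((e⁻¹ : (RO ℤ)ˣ) : RO ℤ)) * O))) := by
    rw [hDC, hcl, map_mul, H75.T2C.cl_cst, fd.eq,
      ← Finset.mul_prod_erase Finset.univ H (Finset.mem_univ l), ← hO]
    conv_lhs => rw [sp.eq]
    rw [mul_assoc (cst _) _ O]
  have hcoef : ∀ x, DC.coeff x = c1 * (c * ((H l).coeff 0 *
      (O.coeff x - ((e⁻¹ : (RO ℤ)ˣ) : RO ℤ) * O.coeff (-b + x)))) := by
    intro x
    rw [hDO, H75.T2C.cst_mul_coeff, H75.T2C.cst_mul_coeff, H75.T2C.cst_mul_coeff, sub_mul, one_mul,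
      AddMonoidAlgebra.coeff_sub, Finsupp.sub_apply, AddMonoidAlgebra.coeff_single_mul_apply]
  have hOj : ∀ x ∈ supp O, phi ((x : Ker (co phi i0)) : L) j = 0 := by
    intro x hx
    rw [← hphj]
    rw [hO] at hx
    exact supp_prod_ker (Finset.univ.erase l) H
      (co (phK (phO phi (V 0) i0) (co (phO phi (V 0) i0) i1)) j)
      (fun i' hi' y hy => sp.other i' (Finset.ne_of_mem_erase hi') y hy) x hx
  have hOz : ∀ x : Ker (co (phO phi (V 0) i0) i1),
      phi ((x : Ker (co phi i0)) : L) j ≠ 0 → O.coeff x = 0 := by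
    intro x hx
    by_contra h2
    exact hx (hOj x h2)
  intro y hy0 hy1 hyj
  obtain ⟨x, hx⟩ : ∃ x : Ker (co (phO phi (V 0) i0) i1), ((x : Ker (co phi i0)) : L) = y :=
    ⟨⟨⟨y, hy0⟩, by rw [mem_Ker, hkk]; exact hy1⟩, rfl⟩
  have e1 : (((x + b : Ker (co (phO phi (V 0) i0) i1)) : Ker (co phi i0)) : L) =
      y + ((b : Ker (co phi i0)) : L) := by
    rw [← hx]
    rfl
  have e2 := hcoef (x + b)
  have e3 := hcoef x
  have e4 : -b + (x + b) = x := by abel
  rw [e4, hOz (x + b) (by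
    rw [e1, map_add, Pi.add_apply, hyj, hbj]
    norm_num), hDC, csm_coeff W.dd.bin h0 hR' h1, e1] at e2
  rw [hOz (-b + x) (by
    have e5 : (((-b + x : Ker (co (phO phi (V 0) i0) i1)) : Ker (co phi i0)) : L) =
        -((b : Ker (co phi i0)) : L) + y := by
      rw [← hx]
      rfl
    rw [e5, map_add, map_neg, Pi.add_apply, Pi.neg_apply, hyj, hbj]
    norm_num), hDC, csm_coeff W.dd.bin h0 hR' h1, hx] at e3
  rw [e2, e3]
  ring

/-- A small factor of the double closing: it is `1 - w^(V 2)` or `1 - w^(V 3)`, up to the load. -/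
theorem Tw.small (W : Tw phi D V u0 u1 eT) {i0 i1 : P} (h0 : co phi i0 (V 0) = 1)
    {R' : Ker (co phi i0)} (hR' : (R' : L) = V 1) (h1 : co (phO phi (V 0) i0) i1 R' = 1)
    {c1 c : RO ℤ} {G : AO ℤ (Ker (co phi i0))} (hcl : cl (co phi i0) (V 0) h0 u0 D = cst c1 * G)
    (hc1 : c1 ≠ 0)
    {n : ℕ} {H : Fin n → AO ℤ (Ker (co (phO phi (V 0) i0) i1))}
    (fd : FD (phO phi (V 0) i0) G R' i1 u1 h1 c n H) {l : Fin n}
    {b : Ker (co (phO phi (V 0) i0) i1)} {j : P} {e : (RO ℤ)ˣ}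
    (sp : Spt (phO phi (V 0) i0) R' i1 H l b j e) :
    ∃ k : Fin 5, (k = 2 ∨ k = 3) ∧ ((b : Ker (co phi i0)) : L) = V k ∧
      csm D (V 0) (V 1) u0 u1 (V k) =
        -((e⁻¹ : (RO ℤ)ˣ) : RO ℤ) * csm D (V 0) (V 1) u0 u1 0 := by
  obtain ⟨hj0, hj1, hbj, hbi0, hbi1, hrel⟩ := W.rel h0 hR' h1 hcl fd sp
  have h0' : phi (V 0) i0 = 1 := h0
  have hS1 : phi (V 0) i1 = 0 := by
    by_contra hne
    have h2 : (if phi (V 0) i1 = 0 then phi (R' : L) i1 else 0) = 1 := h1
    rw [if_neg hne] at h2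
    exact zero_ne_one h2
  have hR1 : phi (V 1) i1 = 1 := by
    have h2 : (if phi (V 0) i1 = 0 then phi (R' : L) i1 else 0) = 1 := h1
    rw [if_pos hS1, hR'] at h2
    exact h2
  have hz : ∀ k : Fin 5, k ≠ 0 → phi (V k) i0 = 0 := fun k hk => W.port1 h0' hk
  have hz1 : ∀ k : Fin 5, k ≠ 1 → phi (V k) i1 = 0 := fun k hk => by
    rw [W.phk hR1, if_neg hk]
  obtain ⟨bL, hbL⟩ : ∃ bL : L, bL = ((b : Ker (co phi i0)) : L) := ⟨_, rfl⟩
  rw [← hbL] at hbj hbi0 hbi1 hrel ⊢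
  have he0 : -((e⁻¹ : (RO ℤ)ˣ) : RO ℤ) ≠ 0 := neg_ne_zero.mpr (Units.ne_zero _)
  have hz0 : csm D (V 0) (V 1) u0 u1 0 ≠ 0 := by
    have h2 := fd.cc.v0
    intro h3
    apply h2
    have h4 : ∀ x : Ker (co phi i0), c1 * G.coeff x =
        D.coeff (x : L) + (u0 : RO ℤ) * D.coeff ((x : L) + V 0) := by
      intro x
      rw [← H47.cl_coeff_bin (co phi i0) (V 0) h0 u0 D (fun b hb' => W.dd.bin b hb' i0), hcl,
        H75.T2C.cst_mul_coeff]
    have h5 := h4 0
    have h6 := h4 R'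
    rw [hR'] at h6
    apply (mul_eq_zero.mp (?_ : c1 * (G.coeff 0 + (u1 : RO ℤ) * G.coeff R') = 0)).resolve_left hc1
    rw [← h3]
    unfold csm
    rw [Submodule.coe_zero] at h5
    rw [show (0 : L) + V 0 + V 1 = V 1 + V 0 by abel, zero_add (V 1)]
    linear_combination h5 + (u1 : RO ℤ) * h6
  have hb0 := hrel 0 (by rw [map_zero]; rfl) (by rw [map_zero]; rfl) (by rw [map_zero]; rfl)
  rw [zero_add] at hb0
  have hbne : csm D (V 0) (V 1) u0 u1 bL ≠ 0 := by
    rw [hb0]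
    exact mul_ne_zero he0 hz0
  obtain ⟨pt, hpt⟩ := W.pt
  obtain ⟨cc, hcc, c0, c1', hy⟩ := W.bin2 h0' hR1 hbi0 hbi1 hbne
  have hcp : ∀ k, phi bL (pt k) = cc k := fun k => by rw [hy, W.phs (hpt k)]
  obtain ⟨m, hm⟩ : ∃ m, phi (V m) j = 1 := by
    by_contra hcon
    push Not at hcon
    have h2 : phi bL j = 0 := by
      rw [hy, map_sum, Finset.sum_apply]
      apply Finset.sum_eq_zero
      intro i _
      rw [map_zsmul, Pi.smul_apply, (W.dd.bin (V i) (W.ray i).1 j).resolve_right (hcon i),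
        smul_zero]
    rw [h2] at hbj
    exact zero_ne_one hbj
  have hcm : cc m = 1 := by
    rw [← W.phs hm cc, ← hy, hbj]
  have hm0 : m ≠ 0 := by
    rintro rfl
    rw [hj0] at hm
    exact zero_ne_one hm
  have hm1 : m ≠ 1 := by
    rintro rfl
    rw [hj1] at hm
    exact zero_ne_one hm
  have hzj : ∀ k, k ≠ m → phi (V k) j = 0 := fun k hk => by
    rw [W.phk hm, if_neg hk]
  -- `V k` is an exponent which does not meet `b` at `j`
  have key : ∀ k : Fin 5, k ≠ 0 → k ≠ 1 → k ≠ m → csm D (V 0) (V 1) u0 u1 (V k) ≠ 0 →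
      cc k = 0 := by
    intro k hk0 hk1 hkm hne
    have h2 := hrel (V k) (hz k hk0) (hz1 k hk1) (hzj k hkm)
    have h3 : csm D (V 0) (V 1) u0 u1 (V k + bL) ≠ 0 := by
      rw [h2]
      exact mul_ne_zero he0 hne
    obtain ⟨c', hc', -, -, hy'⟩ := W.bin2 h0' hR1
      (by rw [map_add, Pi.add_apply, hz k hk0, hbi0, add_zero])
      (by rw [map_add, Pi.add_apply, hz1 k hk1, hbi1, add_zero]) h3
    have h4 : phi (V k + bL) (pt k) = c' k := by rw [hy', W.phs (hpt k)]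
    rw [map_add, Pi.add_apply, hpt k, hcp] at h4
    rcases hc' k with h5 | h5 <;> rcases hcc k with h6 | h6 <;> omega
  -- `V m` is an exponent
  have key2 : csm D (V 0) (V 1) u0 u1 (V m) ≠ 0 → ∀ k, k ≠ m → cc k = 0 := by
    intro hne k hkm
    have h2 := hrel (V m - bL) (by rw [map_sub, Pi.sub_apply, hz m hm0, hbi0, sub_zero])
      (by rw [map_sub, Pi.sub_apply, hz1 m hm1, hbi1, sub_zero])
      (by rw [map_sub, Pi.sub_apply, hm, hbj, sub_self])
    rw [sub_add_cancel] at h2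
    have h3 : csm D (V 0) (V 1) u0 u1 (V m - bL) ≠ 0 := by
      intro h4
      rw [h4, mul_zero] at h2
      exact hne h2
    obtain ⟨c', hc', -, -, hy'⟩ := W.bin2 h0' hR1
      (by rw [map_sub, Pi.sub_apply, hz m hm0, hbi0, sub_zero])
      (by rw [map_sub, Pi.sub_apply, hz1 m hm1, hbi1, sub_zero]) h3
    have h4 : phi (V m - bL) (pt k) = c' k := by rw [hy', W.phs (hpt k)]
    have h5 : phi (V m) (pt k) = 0 := by rw [W.phk (hpt k), if_neg (Ne.symm hkm)]
    rw [map_sub, Pi.sub_apply, h5, hcp] at h4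
    rcases hc' k with h6 | h6 <;> rcases hcc k with h7 | h7 <;> omega
  have hbm : (∀ k, k ≠ m → cc k = 0) → bL = V m := by
    intro h
    rw [hy, Finset.sum_eq_single m]
    · rw [hcm, one_smul]
    · intro i _ hi
      rw [h i hi, zero_smul]
    · intro h
      exact absurd (Finset.mem_univ _) h
  have hcases : m = 2 ∨ m = 3 ∨ m = 4 := by
    fin_cases m
    · exact absurd rfl hm0
    · exact absurd rfl hm1
    · exact Or.inl rfl
    · exact Or.inr (Or.inl rfl)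
    · exact Or.inr (Or.inr rfl)
  rcases hcases with rfl | rfl | rfl
  · have h2 := hbm (key2 W.c2)
    exact ⟨2, Or.inl rfl, h2, by rw [← h2]; exact hb0⟩
  · have h2 := hbm (key2 W.c3)
    exact ⟨3, Or.inr rfl, h2, by rw [← h2]; exact hb0⟩
  · exfalso
    have k2 := key 2 (by decide) (by decide) (by decide) W.c2
    have k3 := key 3 (by decide) (by decide) (by decide) W.c3
    have h2 : bL = V 4 := hbm (fun k hk => by
      fin_cases k
      · exact c0
      · exact c1'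
      · exact k2
      · exact k3
      · exact absurd rfl hk)
    rw [h2] at hrel hb0
    have r2 := hrel (V 2) (hz 2 (by decide)) (hz1 2 (by decide)) (hzj 2 (by decide))
    have r23 := hrel (V 2 + V 3)
      (by rw [map_add, Pi.add_apply, hz 2 (by decide), hz 3 (by decide), add_zero])
      (by rw [map_add, Pi.add_apply, hz1 2 (by decide), hz1 3 (by decide), add_zero])
      (by rw [map_add, Pi.add_apply, hzj 2 (by decide), hzj 3 (by decide), add_zero])
    have h3 := W.c24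
    rw [r2] at h3
    have h4 : csm D (V 0) (V 1) u0 u1 (V 2) * (1 - (eT : RO ℤ) * ((e⁻¹ : (RO ℤ)ˣ) : RO ℤ)) = 0 := by
      linear_combination h3
    have h5 := (mul_eq_zero.mp h4).resolve_left W.c2
    refine W.noT ?_ ?_
    · rw [hb0]
      linear_combination csm D (V 0) (V 1) u0 u1 0 * h5
    · rw [r23]
      linear_combination csm D (V 0) (V 1) u0 u1 (V 2 + V 3) * h5

end

end Pool.Agent.B5.KO.H96
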